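import Pool.Agent.Work.MP_1a422c_an.Cover

/-!
# The covering lemma with all moments (MP_1a422c_an, all-p version)
-/

set_option linter.unusedSectionVars false

open Finset

namespace MP_1a422c_an

variable {ι : Type*} [Fintype ι] [DecidableEq ι]

/-- The strong form of the combinatorial condition: it concerns unions of later sets. -/
def LevSeqU (v : ℕ → Finset ι) (K : ℕ) : Prop :=
  ∀ i, ∀ T : Finset ℕ, (∀ t ∈ T, i < t ∧ t < K) → ∃ B : Finset ι,
    Disjoint B (T.biUnion v) ∧ v i \ T.biUnion v ⊆ B ∧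
    ∀ l ≤ i, Disjoint (v l) B ∨ v l ⊆ B ∪ (v i ∩ T.biUnion v)

/-- General conditional independence. -/
lemma E_mul_indep' {v s t : Finset ι} (hst : s ∩ t ⊆ v) {Y Z : (ι → Bool) → ℝ}
    (hY : Dep s Y) (hZ : Dep t Z) (x : ι → Bool) :
    E v (fun y => Y y * Z y) x = E v Y x * E v Z x := by
  unfold E
  rw [← mean_mean_piecewise s (fun y => Y (v.piecewise x y) * Z (v.piecewise x y)),
    ← mean_mul_right]
  refine mean_congr fun y => ?_
  rw [← mean_mul_left]
  refine mean_congr fun z => ?_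
  congr 1
  · refine hY _ _ fun i hi => ?_
    by_cases hv : i ∈ v
    · simp [hv]
    · simp [hv, hi]
  · refine hZ _ _ fun i hi => ?_
    by_cases hv : i ∈ v
    · simp [hv]
    · have hs : i ∉ s := fun hs => hv (hst (Finset.mem_inter.mpr ⟨hs, hi⟩))
      simp [hv, hs]

section

variable {v : ℕ → Finset ι} {W : (ι → Bool) → ℝ} {τ η : ℝ}

/-- `R_n` indicator. -/
noncomputable def rind (v : ℕ → Finset ι) (W : (ι → Bool) → ℝ) (τ η : ℝ) (n : ℕ) :
    (ι → Bool) → ℝ := ind (Useq v W τ η n)ᶜ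

lemma rind_nonneg (n : ℕ) (x : ι → Bool) : 0 ≤ rind v W τ η n x := ind_nonneg _ _

lemma rind_zero (x : ι → Bool) : rind v W τ η 0 x = 1 := by
  simp [rind, Useq, ind]

lemma rind_anti {m n : ℕ} (h : m ≤ n) (x : ι → Bool) : rind v W τ η n x ≤ rind v W τ η m x :=
  ind_mono (Set.compl_subset_compl.mpr (Useq_mono h)) x

lemma rind_succ (n : ℕ) (x : ι → Bool) :
    rind v W τ η (n + 1) x = rind v W τ η n x - ind (Enew v W τ η n) x := by
  unfold rind
  rw [ind_compl, ind_compl, ← sum_ind_Enew (n + 1), Finset.sum_range_succ, sum_ind_Enew]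
  ring

lemma rind_eq_prod (n : ℕ) (x : ι → Bool) :
    rind v W τ η n x = ∏ l ∈ range n, (1 - ind (Ssel v W τ η l) x) := ind_compl_Useq n x

/-- The splitting of `R_n` into a part depending on `D = B ∪ C` and a part depending on `Bᶜ`. -/
lemma rind_split (n : ℕ) {B D : Finset ι}
    (hB : ∀ l < n, Disjoint (v l) B ∨ v l ⊆ D) :
    ∃ Y Z : (ι → Bool) → ℝ, Dep D Y ∧ Dep Bᶜ Z ∧ (∀ x, rind v W τ η n x = Y x * Z x) ∧
      (∀ x, 0 ≤ Y x) ∧ (∀ x, Y x ≤ 1) ∧ (∀ x, 0 ≤ Z x) ∧ (∀ x, Z x ≤ 1) := by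
  have h01 : ∀ l x, 0 ≤ 1 - ind (Ssel v W τ η l) x := fun l x => by
    have := ind_le_one (Ssel v W τ η l) x; linarith
  have h11 : ∀ l x, 1 - ind (Ssel v W τ η l) x ≤ 1 := fun l x => by
    have := ind_nonneg (Ssel v W τ η l) x; linarith
  refine ⟨fun x => ∏ l ∈ (range n).filter (fun l => v l ⊆ D), (1 - ind (Ssel v W τ η l) x),
    fun x => ∏ l ∈ (range n).filter (fun l => ¬ (v l ⊆ D)), (1 - ind (Ssel v W τ η l) x),
    ?_, ?_, ?_, ?_, ?_, ?_, ?_⟩
  · apply Dep.prod (f := fun l x => 1 - ind (Ssel v W τ η l) x)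
    intro l hl x y hxy
    have := ((dep_ind_Ssel (v := v) (W := W) (τ := τ) (η := η) l).mono
      (Finset.mem_filter.mp hl).2) x y hxy
    simp only [this]
  · apply Dep.prod (f := fun l x => 1 - ind (Ssel v W τ η l) x)
    intro l hl x y hxy
    have hl' := Finset.mem_filter.mp hl
    have hd : Disjoint (v l) B := by
      rcases hB l (Finset.mem_range.mp hl'.1) with h | h
      · exact h
      · exact absurd h hl'.2
    have hsub : v l ⊆ Bᶜ := by
      intro a ha
      rw [Finset.mem_compl]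
      exact fun hb => (Finset.disjoint_left.mp hd ha) hb
    have := ((dep_ind_Ssel (v := v) (W := W) (τ := τ) (η := η) l).mono hsub) x y hxy
    simp only [this]
  · intro x
    rw [rind_eq_prod]
    simp only
    rw [Finset.prod_filter_mul_prod_filter_not]
  · exact fun x => Finset.prod_nonneg (fun l _ => h01 l x)
  · exact fun x => Finset.prod_le_one (fun l _ => h01 l x) (fun l _ => h11 l x)
  · exact fun x => Finset.prod_nonneg (fun l _ => h01 l x)
  · exact fun x => Finset.prod_le_one (fun l _ => h01 l x) (fun l _ => h11 l x)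

/-- Lemma P. -/
lemma E_acoef_mul_le {K : ℕ} (hv : LevSeqU v K) (i : ℕ) (T : Finset ℕ)
    (hT : ∀ t ∈ T, i < t ∧ t < K) (x : ι → Bool) :
    E (T.biUnion v) (acoef v W τ η i) x * E (T.biUnion v) (rind v W τ η i) x
      ≤ E (T.biUnion v) (rind v W τ η i) x - E (T.biUnion v) (rind v W τ η (i + 1)) x := by
  obtain ⟨B, hB1, hB2, hB3⟩ := hv i T hT
  set V := T.biUnion v with hV
  set C := v i ∩ V with hC
  have hviD : v i ⊆ B ∪ C := by
    intro a ha
    by_cases haV : a ∈ V
    · exact Finset.mem_union_right _ (Finset.mem_inter.mpr ⟨ha, haV⟩)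
    · exact Finset.mem_union_left _ (hB2 (Finset.mem_sdiff.mpr ⟨ha, haV⟩))
  obtain ⟨Y, Z, hY, hZ, hYZ, hY0, hY1, hZ0, hZ1⟩ :=
    rind_split (v := v) (W := W) (τ := τ) (η := η) i (B := B) (D := B ∪ C)
      (fun l hl => hB3 l hl.le)
  set Y' : (ι → Bool) → ℝ := fun y => ind (Ssel v W τ η i) y * Y y with hY'
  have hY'dep : Dep (B ∪ C) Y' := ((dep_ind_Ssel i).mono hviD).mul hY
  have hY'0 : ∀ y, 0 ≤ Y' y := fun y => mul_nonneg (ind_nonneg _ _) (hY0 y)
  have hE : ∀ y, ind (Enew v W τ η i) y = Y' y * Z y := by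
    intro y
    rw [ind_Enew]
    have := hYZ y
    unfold rind at this
    rw [this, hY']
    ring
  have hCV : V ∩ (B ∪ C) = C := by
    ext a
    simp only [Finset.mem_inter, Finset.mem_union, hC]
    constructor
    · rintro ⟨h1, h2 | h2⟩
      · exact absurd h1 (Finset.disjoint_left.mp hB1 h2)
      · exact h2
    · rintro ⟨h1, h2⟩
      exact ⟨h2, Or.inr ⟨h1, h2⟩⟩
  have hst : (B ∪ C) ∩ Bᶜ ⊆ V := by
    intro a ha
    rw [Finset.mem_inter, Finset.mem_union, Finset.mem_compl] at ha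
    rcases ha with ⟨h | h, h2⟩
    · exact absurd h h2
    · exact (Finset.mem_inter.mp h).2
  have e1 : E V (rind v W τ η i) x - E V (rind v W τ η (i + 1)) x
      = E V Y' x * E V Z x := by
    rw [← E_sub, ← E_mul_indep' hst hY'dep hZ]
    apply E_congr
    intro y
    rw [rind_succ, hE]
    ring
  have e2 : E V (acoef v W τ η i) x ≤ E V Y' x := by
    unfold acoef
    rw [E_E, Finset.inter_comm V (v i), E_eq_inter hY'dep, hCV, ← hC]
    apply E_mono
    intro y
    rw [hE]
    have := hY'0 y; have := hZ1 y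
    nlinarith
  have e3 : E V (rind v W τ η i) x ≤ E V Z x := by
    apply E_mono
    intro y
    rw [hYZ]
    have := hZ0 y; have := hY1 y
    nlinarith
  have h1 : 0 ≤ E V (acoef v W τ η i) x := E_nonneg _ (fun y => acoef_nonneg i y) x
  have h2 : 0 ≤ E V (rind v W τ η i) x := E_nonneg _ (fun y => rind_nonneg i y) x
  rw [e1]
  exact mul_le_mul e2 e3 h2 (E_nonneg _ hY'0 x)

/-- Lemma Q. -/
lemma pow_le_E_rind {K : ℕ} (hv : LevSeqU v K) (hη : 0 < η) (T : Finset ℕ) :
    T.Nonempty → (∀ t ∈ T, t < K) → ∀ n, (∀ t ∈ T, n ≤ t) → ∀ x, (∀ t ∈ T, x ∈ Ssel v W τ η t) →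
      η ^ T.card ≤ E (T.biUnion v) (rind v W τ η n) x := by
  induction T using Finset.induction_on_min with
  | empty => intro h; exact absurd h (by simp)
  | insert t T htT ih =>
    intro _ hK n hn x hx
    have htn : t ∉ T := fun h => lt_irrefl _ (htT t h)
    have hmono : ∀ V : Finset ι, E V (rind v W τ η t) x ≤ E V (rind v W τ η n) x :=
      fun V => E_mono V (fun y => rind_anti (hn t (Finset.mem_insert_self _ _)) y) x
    refine le_trans ?_ (hmono _)
    have hxt : η ≤ E (v t) (rind v W τ η t) x := (hx t (Finset.mem_insert_self _ _)).2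
    rcases T.eq_empty_or_nonempty with hT0 | hTne
    · subst hT0
      simpa using hxt
    · have ih' := ih hTne (fun s hs => hK s (Finset.mem_insert_of_mem hs)) t
        (fun s hs => (htT s hs).le) x (fun s hs => hx s (Finset.mem_insert_of_mem hs))
      obtain ⟨B, hB1, hB2, hB3⟩ := hv t T
        (fun s hs => ⟨htT s hs, hK s (Finset.mem_insert_of_mem hs)⟩)
      rw [Finset.biUnion_insert, Finset.card_insert_of_notMem htn, pow_succ']
      set V := T.biUnion v with hV
      set C := v t ∩ V with hC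
      obtain ⟨Y, Z, hY, hZ, hYZ, hY0, hY1, hZ0, hZ1⟩ :=
        rind_split (v := v) (W := W) (τ := τ) (η := η) t (B := B) (D := B ∪ C)
          (fun l hl => hB3 l hl.le)
      have hst : (B ∪ C) ∩ Bᶜ ⊆ v t ∪ V := by
        intro a ha
        rw [Finset.mem_inter, Finset.mem_union, Finset.mem_compl] at ha
        rcases ha with ⟨h | h, h2⟩
        · exact absurd h h2
        · exact Finset.mem_union_left _ (Finset.mem_inter.mp h).1
      have h1 : (v t ∪ V) ∩ (B ∪ C) = v t := by
        ext a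
        simp only [Finset.mem_inter, Finset.mem_union, hC]
        constructor
        · rintro ⟨h1 | h1, h2 | h2⟩
          · exact h1
          · exact h1
          · exact absurd h1 (Finset.disjoint_left.mp hB1 h2)
          · exact h2.1
        · intro h1
          refine ⟨Or.inl h1, ?_⟩
          by_cases haV : a ∈ V
          · exact Or.inr ⟨h1, haV⟩
          · exact Or.inl (hB2 (Finset.mem_sdiff.mpr ⟨h1, haV⟩))
      have h2 : (v t ∪ V) ∩ Bᶜ = V := by
        ext a
        simp only [Finset.mem_inter, Finset.mem_union, Finset.mem_compl]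
        constructor
        · rintro ⟨h1 | h1, h2⟩
          · by_contra haV
            exact h2 (hB2 (Finset.mem_sdiff.mpr ⟨h1, haV⟩))
          · exact h1
        · intro h1
          exact ⟨Or.inr h1, fun h2 => (Finset.disjoint_left.mp hB1 h2) h1⟩
      have e1 : E (v t ∪ V) (rind v W τ η t) x = E (v t) Y x * E V Z x := by
        rw [E_congr (v t ∪ V) hYZ x, E_mul_indep' hst hY hZ, E_eq_inter hY, h1,
          E_eq_inter (v := v t ∪ V) hZ, h2]
      have e2 : E (v t) (rind v W τ η t) x ≤ E (v t) Y x := by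
        apply E_mono
        intro y
        rw [hYZ]
        have := hY0 y; have := hZ1 y
        nlinarith
      have e3 : E V (rind v W τ η t) x ≤ E V Z x := by
        apply E_mono
        intro y
        rw [hYZ]
        have := hZ0 y; have := hY1 y
        nlinarith
      rw [e1]
      exact mul_le_mul (hxt.trans e2) (ih'.trans e3) (by positivity)
        (le_trans hη.le (hxt.trans e2))

/-- Telescoping: the conditional expectation of the earlier coefficients. -/
lemma sum_E_acoef_le {K : ℕ} (hv : LevSeqU v K) (hη : 0 < η) (T : Finset ℕ)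
    (hTne : T.Nonempty) (n : ℕ) (hT : ∀ t ∈ T, n ≤ t ∧ t < K) (x : ι → Bool)
    (hx : ∀ t ∈ T, x ∈ Ssel v W τ η t) :
    ∑ i ∈ range n, E (T.biUnion v) (acoef v W τ η i) x ≤ T.card * Real.log (η⁻¹) := by
  set V := T.biUnion v with hV
  set φ : ℕ → ℝ := fun i => E V (rind v W τ η i) x with hφ
  have hφn : ∀ i ≤ n, η ^ T.card ≤ φ i := by
    intro i hi
    exact pow_le_E_rind hv hη T hTne (fun t ht => (hT t ht).2) i
      (fun t ht => hi.trans (hT t ht).1) x hx
  have hpos : ∀ i ≤ n, 0 < φ i := fun i hi => lt_of_lt_of_le (by positivity) (hφn i hi)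
  have hmain : ∀ m ≤ n, ∑ i ∈ range m, E V (acoef v W τ η i) x ≤ - Real.log (φ m) := by
    intro m hm
    induction m with
    | zero =>
      have : φ 0 = 1 := by
        simp only [hφ]
        rw [E_congr V (fun y => rind_zero y) x, E_const]
      rw [this]
      simp
    | succ m ih =>
      have ih' := ih (by omega)
      rw [Finset.sum_range_succ]
      have h1 := E_acoef_mul_le (W := W) (τ := τ) (η := η) hv m T
        (fun t ht => ⟨by have := (hT t ht).1; omega, (hT t ht).2⟩) x
      have hp1 := hpos m (by omega)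
      have hp2 := hpos (m + 1) hm
      have h2 : E V (acoef v W τ η m) x ≤ 1 - φ (m + 1) / φ m := by
        rw [le_sub_iff_add_le, ← le_sub_iff_add_le']
        rw [div_le_iff₀ hp1]
        have : E V (acoef v W τ η m) x * φ m ≤ φ m - φ (m + 1) := h1
        linarith
      have h3 : Real.log (φ (m + 1) / φ m) ≤ φ (m + 1) / φ m - 1 :=
        Real.log_le_sub_one_of_pos (by positivity)
      rw [Real.log_div hp2.ne' hp1.ne'] at h3
      linarith
  refine (hmain n le_rfl).trans ?_
  have h4 := Real.log_le_log (by positivity) (hφn n le_rfl)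
  rw [Real.log_pow] at h4
  rw [Real.log_inv]
  linarith

/-- Partial sums of the coefficients. -/
noncomputable def Nsum (v : ℕ → Finset ι) (W : (ι → Bool) → ℝ) (τ η : ℝ) (n : ℕ)
    (x : ι → Bool) : ℝ := ∑ i ∈ range n, acoef v W τ η i x

lemma Nsum_nonneg (n : ℕ) (x : ι → Bool) : 0 ≤ Nsum v W τ η n x :=
  Finset.sum_nonneg (fun i _ => acoef_nonneg i x)

lemma pow_sub_pow_le' {a b : ℝ} (ha : 0 ≤ a) (hab : a ≤ b) (k : ℕ) :
    b ^ (k + 1) - a ^ (k + 1) ≤ (k + 1) * (b - a) * b ^ k := by
  induction k with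
  | zero => simp
  | succ k ih =>
    have hb : 0 ≤ b := ha.trans hab
    have h1 : a ^ (k + 1) ≤ b ^ (k + 1) := pow_le_pow_left₀ ha hab _
    have h2 := mul_le_mul_of_nonneg_left ih hb
    have h3 := mul_le_mul_of_nonneg_right h1 (sub_nonneg.mpr hab)
    calc b ^ (k + 1 + 1) - a ^ (k + 1 + 1)
        = b * (b ^ (k + 1) - a ^ (k + 1)) + a ^ (k + 1) * (b - a) := by ring
      _ ≤ b * ((k + 1) * (b - a) * b ^ k) + b ^ (k + 1) * (b - a) := add_le_add h2 h3
      _ = ((k + 1 : ℕ) + 1) * (b - a) * b ^ (k + 1) := by push_cast; ring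

lemma pow_add_one_le {a : ℝ} (ha : 0 ≤ a) (k : ℕ) : a ^ (k + 1) + 1 ≤ (a + 1) ^ (k + 1) := by
  induction k with
  | zero => simp
  | succ k ih =>
    have h1 := mul_le_mul_of_nonneg_left ih (by linarith : 0 ≤ a + 1)
    have h2 : 0 ≤ a ^ (k + 1) := by positivity
    calc a ^ (k + 1 + 1) + 1 ≤ (a + 1) * (a ^ (k + 1) + 1) := by
          have : (a + 1) * (a ^ (k + 1) + 1) = a ^ (k + 1 + 1) + a ^ (k + 1) + a + 1 := by ring
          linarith
      _ ≤ (a + 1) * (a + 1) ^ (k + 1) := h1
      _ = _ := by ring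

lemma Nsum_pow_le (k n : ℕ) (x : ι → Bool) :
    (Nsum v W τ η n x + 1) ^ (k + 1) ≤ 1 + (k + 1) * 2 ^ k *
      ∑ i ∈ range n, acoef v W τ η i x * (Nsum v W τ η i x + 1) ^ k := by
  induction n with
  | zero => simp [Nsum]
  | succ n ih =>
    have ha0 := acoef_nonneg (v := v) (W := W) (τ := τ) (η := η) n x
    have ha1 := acoef_le_one (v := v) (W := W) (τ := τ) (η := η) n x
    have hN0 := Nsum_nonneg (v := v) (W := W) (τ := τ) (η := η) n x
    have hN : Nsum v W τ η (n + 1) x = Nsum v W τ η n x + acoef v W τ η n x := by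
      unfold Nsum; rw [Finset.sum_range_succ]
    rw [Finset.sum_range_succ]
    have h1 := pow_sub_pow_le' (a := Nsum v W τ η n x + 1) (b := Nsum v W τ η (n + 1) x + 1)
      (by linarith) (by rw [hN]; linarith) k
    have h2 : (Nsum v W τ η (n + 1) x + 1) ^ k ≤ 2 ^ k * (Nsum v W τ η n x + 1) ^ k := by
      rw [← mul_pow]
      apply pow_le_pow_left₀ (by rw [hN]; linarith)
      rw [hN]; linarith
    have h3 : (Nsum v W τ η (n + 1) x + 1) - (Nsum v W τ η n x + 1) = acoef v W τ η n x := by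
      rw [hN]; ring
    rw [h3] at h1
    have h4 : ((k : ℝ) + 1) * acoef v W τ η n x * (Nsum v W τ η (n + 1) x + 1) ^ k
        ≤ ((k : ℝ) + 1) * acoef v W τ η n x * (2 ^ k * (Nsum v W τ η n x + 1) ^ k) :=
      mul_le_mul_of_nonneg_left h2 (by positivity)
    calc (Nsum v W τ η (n + 1) x + 1) ^ (k + 1)
        ≤ (Nsum v W τ η n x + 1) ^ (k + 1) +
          (k + 1) * acoef v W τ η n x * (2 ^ k * (Nsum v W τ η n x + 1) ^ k) := by linarith
      _ ≤ 1 + (k + 1) * 2 ^ k * ∑ i ∈ range n, acoef v W τ η i x * (Nsum v W τ η i x + 1) ^ k +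
          (k + 1) * acoef v W τ η n x * (2 ^ k * (Nsum v W τ η n x + 1) ^ k) := by linarith
      _ = _ := by ring

/-- The products of coefficients. -/
noncomputable def gprod (v : ℕ → Finset ι) (W : (ι → Bool) → ℝ) (τ η : ℝ) (T : Finset ℕ)
    (x : ι → Bool) : ℝ := ∏ t ∈ T, acoef v W τ η t x

lemma gprod_nonneg (T : Finset ℕ) (x : ι → Bool) : 0 ≤ gprod v W τ η T x :=
  Finset.prod_nonneg (fun i _ => acoef_nonneg i x)

lemma dep_gprod (T : Finset ℕ) : Dep (T.biUnion v) (gprod v W τ η T) := by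
  apply Dep.prod (f := fun t => acoef v W τ η t)
  intro t ht
  exact (dep_acoef t).mono (Finset.subset_biUnion_of_mem v ht)

/-- The linear estimate. -/
lemma mean_gprod_Nsum_le {K : ℕ} (hv : LevSeqU v K) (hη : 0 < η) (T : Finset ℕ)
    (hTne : T.Nonempty) (n : ℕ) (hT : ∀ t ∈ T, n ≤ t ∧ t < K) :
    ∑ i ∈ range n, mean (fun x => gprod v W τ η T x * acoef v W τ η i x)
      ≤ T.card * Real.log (η⁻¹) * mean (gprod v W τ η T) := by
  have e1 : ∑ i ∈ range n, mean (fun x => gprod v W τ η T x * acoef v W τ η i x)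
      = mean (fun x => gprod v W τ η T x *
        ∑ i ∈ range n, E (T.biUnion v) (acoef v W τ η i) x) := by
    rw [Finset.sum_congr rfl (fun i _ => (mean_mul_E (dep_gprod T) (acoef v W τ η i)).symm),
      ← mean_sum]
    apply mean_congr
    intro x
    rw [Finset.mul_sum]
  rw [e1, ← mean_mul_left]
  apply mean_mono
  intro x
  by_cases hx : ∀ t ∈ T, x ∈ Ssel v W τ η t
  · have h1 := sum_E_acoef_le hv hη T hTne n hT x hx
    have h2 := gprod_nonneg (v := v) (W := W) (τ := τ) (η := η) T x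
    calc _ ≤ gprod v W τ η T x * (T.card * Real.log (η⁻¹)) :=
          mul_le_mul_of_nonneg_left h1 h2
      _ = _ := by ring
  · push Not at hx
    obtain ⟨t, ht, hxt⟩ := hx
    have : gprod v W τ η T x = 0 := by
      unfold gprod
      apply Finset.prod_eq_zero ht
      rw [acoef_eq, ind_of_notMem hxt, zero_mul]
    rw [this]; simp

/-- The constants. -/
noncomputable def Aconst (L : ℝ) : ℕ → ℕ → ℝ
  | 0, _ => 1
  | k + 1, r => 1 + (k + 1) * 2 ^ k * (r * L * Aconst L k (r + 1))

lemma Aconst_nonneg {L : ℝ} (hL : 0 ≤ L) (k r : ℕ) : 0 ≤ Aconst L k r := by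
  induction k generalizing r with
  | zero => simp [Aconst]
  | succ k ih =>
    have := ih (r + 1)
    simp only [Aconst]
    positivity

/-- The moment estimate with a product weight. -/
lemma mean_gprod_pow_le {K : ℕ} (hv : LevSeqU v K) (hη : 0 < η) (hη1 : η ≤ 1) (k : ℕ) :
    ∀ (T : Finset ℕ), T.Nonempty → ∀ n, (∀ t ∈ T, n ≤ t ∧ t < K) →
      mean (fun x => gprod v W τ η T x * (Nsum v W τ η n x + 1) ^ k)
        ≤ Aconst (Real.log (η⁻¹)) k T.card * mean (gprod v W τ η T) := by
  have hL : 0 ≤ Real.log (η⁻¹) := Real.log_nonneg ((one_le_inv₀ hη).mpr hη1)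
  induction k with
  | zero =>
    intro T _ n _
    simp [Aconst]
  | succ k ih =>
    intro T hTne n hT
    have hg0 := fun x => gprod_nonneg (v := v) (W := W) (τ := τ) (η := η) T x
    have h1 : mean (fun x => gprod v W τ η T x * (Nsum v W τ η n x + 1) ^ (k + 1))
        ≤ mean (gprod v W τ η T) + (k + 1) * 2 ^ k *
          ∑ i ∈ range n, mean (fun x => gprod v W τ η T x *
            (acoef v W τ η i x * (Nsum v W τ η i x + 1) ^ k)) := by
      rw [← mean_sum, ← mean_mul_left, ← mean_add]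
      apply mean_mono
      intro x
      have := mul_le_mul_of_nonneg_left (Nsum_pow_le (v := v) (W := W) (τ := τ) (η := η) k n x)
        (hg0 x)
      refine this.trans (le_of_eq ?_)
      rw [← Finset.mul_sum]
      ring
    have h2 : ∀ i ∈ range n, mean (fun x => gprod v W τ η T x *
            (acoef v W τ η i x * (Nsum v W τ η i x + 1) ^ k))
        ≤ Aconst (Real.log (η⁻¹)) k (T.card + 1) *
          mean (fun x => gprod v W τ η T x * acoef v W τ η i x) := by
      intro i hi
      have hi' := Finset.mem_range.mp hi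
      have hiT : i ∉ T := fun h => by have := (hT i h).1; omega
      have h3 := ih (insert i T) (Finset.insert_nonempty _ _) i (by
        intro t ht
        rcases Finset.mem_insert.mp ht with rfl | ht
        · obtain ⟨t', ht'⟩ := hTne
          exact ⟨le_rfl, by have := hT t' ht'; omega⟩
        · exact ⟨by have := (hT t ht).1; omega, (hT t ht).2⟩)
      rw [Finset.card_insert_of_notMem hiT] at h3
      have e : ∀ x, gprod v W τ η (insert i T) x = gprod v W τ η T x * acoef v W τ η i x := by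
        intro x
        unfold gprod
        rw [Finset.prod_insert hiT]; ring
      calc _ = mean (fun x => gprod v W τ η (insert i T) x * (Nsum v W τ η i x + 1) ^ k) := by
            apply mean_congr; intro x; rw [e]; ring
        _ ≤ _ := h3
        _ = _ := by
            congr 1
            apply mean_congr; intro x; rw [e]
    have h4 : ∑ i ∈ range n, mean (fun x => gprod v W τ η T x *
            (acoef v W τ η i x * (Nsum v W τ η i x + 1) ^ k))
        ≤ Aconst (Real.log (η⁻¹)) k (T.card + 1) *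
          (T.card * Real.log (η⁻¹) * mean (gprod v W τ η T)) := by
      refine (Finset.sum_le_sum h2).trans ?_
      rw [← Finset.mul_sum]
      exact mul_le_mul_of_nonneg_left (mean_gprod_Nsum_le hv hη T hTne n hT)
        (Aconst_nonneg hL _ _)
    have hk0 : (0 : ℝ) ≤ (k + 1) * 2 ^ k := by positivity
    calc _ ≤ _ := h1
      _ ≤ mean (gprod v W τ η T) + (k + 1) * 2 ^ k *
          (Aconst (Real.log (η⁻¹)) k (T.card + 1) *
          (T.card * Real.log (η⁻¹) * mean (gprod v W τ η T))) :=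
          add_le_add le_rfl (mul_le_mul_of_nonneg_left h4 hk0)
      _ = _ := by simp only [Aconst]; ring

/-- `E N^(k+1) ≤ C P(U)`. -/
lemma mean_Nsum_pow_le {K : ℕ} (hv : LevSeqU v K) (hη : 0 < η) (hη1 : η ≤ 1) (k : ℕ) :
    mean (fun x => Nsum v W τ η K x ^ (k + 1))
      ≤ (k + 1) * 2 ^ k * Aconst (Real.log (η⁻¹)) k 1 * mean (ind (Useq v W τ η K)) := by
  have hsum : ∑ i ∈ range K, mean (acoef v W τ η i) = mean (ind (Useq v W τ η K)) := by
    rw [show (∑ i ∈ range K, mean (acoef v W τ η i)) = ∑ i ∈ range K, mean (ind (Enew v W τ η i))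
      from Finset.sum_congr rfl (fun i _ => mean_acoef i), ← mean_sum]
    exact mean_congr (fun x => sum_ind_Enew K x)
  have h1 : mean (fun x => Nsum v W τ η K x ^ (k + 1)) ≤ (k + 1) * 2 ^ k *
      ∑ i ∈ range K, mean (fun x => acoef v W τ η i x * (Nsum v W τ η i x + 1) ^ k) := by
    rw [← mean_sum, ← mean_mul_left]
    apply mean_mono
    intro x
    have h2 := Nsum_pow_le (v := v) (W := W) (τ := τ) (η := η) k K x
    have h3 : Nsum v W τ η K x ^ (k + 1) + 1 ≤ (Nsum v W τ η K x + 1) ^ (k + 1) := by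
      exact pow_add_one_le (Nsum_nonneg K x) k
    linarith
  have h2 : ∀ i ∈ range K, mean (fun x => acoef v W τ η i x * (Nsum v W τ η i x + 1) ^ k)
      ≤ Aconst (Real.log (η⁻¹)) k 1 * mean (acoef v W τ η i) := by
    intro i hi
    have h3 := mean_gprod_pow_le (W := W) (τ := τ) hv hη hη1 k {i} (Finset.singleton_nonempty i) i
      (by intro t ht; rw [Finset.mem_singleton] at ht; subst ht
          exact ⟨le_rfl, Finset.mem_range.mp hi⟩)
    have e : ∀ x, gprod v W τ η {i} x = acoef v W τ η i x := by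
      intro x; simp [gprod]
    rw [Finset.card_singleton] at h3
    simp only [e] at h3
    have e' : gprod v W τ η {i} = acoef v W τ η i := by funext x; exact e x
    rw [e'] at h3
    exact h3
  calc _ ≤ _ := h1
    _ ≤ (k + 1) * 2 ^ k * ∑ i ∈ range K, Aconst (Real.log (η⁻¹)) k 1 * mean (acoef v W τ η i) :=
        mul_le_mul_of_nonneg_left (Finset.sum_le_sum h2) (by positivity)
    _ = _ := by rw [← Finset.mul_sum, hsum]; ring

end

lemma Aconst_le {L : ℝ} (hL : 0 ≤ L) (k r : ℕ) : Aconst L k r ≤ Aconst 1 k r * (1 + L) ^ k := by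
  induction k generalizing r with
  | zero => simp [Aconst]
  | succ k ih =>
    have ih' := ih (r + 1)
    have hA := Aconst_nonneg hL k (r + 1)
    have hA1 := Aconst_nonneg (zero_le_one (α := ℝ)) k (r + 1)
    have h1 : (1 : ℝ) ≤ (1 + L) ^ (k + 1) := one_le_pow₀ (by linarith)
    have h2 : L * Aconst L k (r + 1) ≤ (1 + L) * (Aconst 1 k (r + 1) * (1 + L) ^ k) :=
      mul_le_mul (by linarith) ih' hA (by linarith)
    have h3 : ((k : ℝ) + 1) * 2 ^ k * (r * (L * Aconst L k (r + 1)))
        ≤ ((k : ℝ) + 1) * 2 ^ k * (r * ((1 + L) * (Aconst 1 k (r + 1) * (1 + L) ^ k))) := by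
      apply mul_le_mul_of_nonneg_left _ (by positivity)
      exact mul_le_mul_of_nonneg_left h2 (by positivity)
    calc Aconst L (k + 1) r = 1 + ((k : ℝ) + 1) * 2 ^ k * (r * (L * Aconst L k (r + 1))) := by
          simp only [Aconst]; ring
      _ ≤ (1 + L) ^ (k + 1) +
          ((k : ℝ) + 1) * 2 ^ k * (r * ((1 + L) * (Aconst 1 k (r + 1) * (1 + L) ^ k))) :=
          add_le_add h1 h3
      _ = Aconst 1 (k + 1) r * (1 + L) ^ (k + 1) := by simp only [Aconst]; ring

/-- Hölder for `mean`. -/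
lemma mean_holder {p q : ℝ} (hpq : p.HolderConjugate q) {f g : (ι → Bool) → ℝ}
    (hf : ∀ x, 0 ≤ f x) (hg : ∀ x, 0 ≤ g x) :
    mean (fun x => f x * g x) ≤ (mean fun x => f x ^ p) ^ (1 / p) * (mean fun x => g x ^ q) ^ (1 / q) := by
  have h := Real.inner_le_Lp_mul_Lq_of_nonneg (Finset.univ : Finset (ι → Bool)) hpq
    (fun x _ => hf x) (fun x _ => hg x)
  have hc := two_pow_pos (ι := ι)
  set c : ℝ := (2 : ℝ) ^ Fintype.card ι with hcdef
  have hF : 0 ≤ ∑ x : ι → Bool, f x ^ p := Finset.sum_nonneg (fun x _ => Real.rpow_nonneg (hf x) _)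
  have hG : 0 ≤ ∑ x : ι → Bool, g x ^ q := Finset.sum_nonneg (fun x _ => Real.rpow_nonneg (hg x) _)
  unfold mean
  rw [← hcdef, Real.div_rpow hF hc.le, Real.div_rpow hG hc.le, div_mul_div_comm,
    ← Real.rpow_add hc, one_div, one_div, hpq.inv_add_inv_eq_one, Real.rpow_one]
  rw [one_div, one_div] at h
  exact div_le_div_of_nonneg_right h hc.le

/-- **Covering lemma, exponent `1 + 1/k`.** -/
theorem exists_cover_pow (k : ℕ) (hk : 1 ≤ k) (v : ℕ → Finset ι) (K : ℕ) (hv : LevSeqU v K)
    (W : (ι → Bool) → ℝ) (hW : ∀ x, 0 ≤ W x) {τ η : ℝ} (hτ : 0 < τ) (hη : 0 < η)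
    (hη1 : η ≤ 1) :
    ∃ U : Set (ι → Bool), (∀ i < K, ∀ x, τ ≤ E (v i) W x → 1 - η ≤ E (v i) (ind U) x) ∧
      τ ^ (1 + 1 / (k : ℝ)) * mean (ind U) ≤ max 1 ((k + 1) * 2 ^ k * Aconst 1 k 1) *
        (1 + Real.log (η⁻¹)) * mean (fun x => W x ^ (1 + 1 / (k : ℝ))) := by
  refine ⟨Useq v W τ η K, fun i hi x hx => cover_a hi hη x hx, ?_⟩
  set P : ℝ := mean (ind (Useq v W τ η K)) with hP
  set σ : ℝ := 1 + 1 / (k : ℝ) with hσ
  set M : ℝ := mean (fun x => W x ^ σ) with hM
  set L : ℝ := Real.log (η⁻¹) with hLdef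
  set D : ℝ := max 1 ((k + 1) * 2 ^ k * Aconst 1 k 1) with hD
  have hk0 : (0 : ℝ) < k := by exact_mod_cast hk
  have hL : 0 ≤ L := Real.log_nonneg ((one_le_inv₀ hη).mpr hη1)
  have hP0 : 0 ≤ P := mean_nonneg (fun _ => ind_nonneg _ _)
  have hM0 : 0 ≤ M := mean_nonneg (fun x => Real.rpow_nonneg (hW x) _)
  have hD1 : 1 ≤ D := le_max_left _ _
  have hsum : ∑ i ∈ range K, mean (acoef v W τ η i) = P := by
    rw [show (∑ i ∈ range K, mean (acoef v W τ η i)) = ∑ i ∈ range K, mean (ind (Enew v W τ η i))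
      from Finset.sum_congr rfl (fun i _ => mean_acoef i), ← mean_sum]
    exact mean_congr (fun x => sum_ind_Enew K x)
  have h1 : τ * P ≤ mean (fun x => W x * Nsum v W τ η K x) := by
    rw [← hsum, Finset.mul_sum]
    calc ∑ i ∈ range K, τ * mean (acoef v W τ η i)
        ≤ ∑ i ∈ range K, mean (fun x => acoef v W τ η i x * W x) :=
          Finset.sum_le_sum (fun i _ => mean_acoef_mul_W i)
      _ = _ := by
          rw [← mean_sum]
          apply mean_congr
          intro x
          unfold Nsum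
          rw [Finset.mul_sum]
          exact Finset.sum_congr rfl (fun i _ => mul_comm _ _)
  -- Hölder
  have hconj : σ.HolderConjugate ((k : ℝ) + 1) := by
    rw [Real.holderConjugate_iff]
    refine ⟨by rw [hσ]; have : 0 < 1 / (k : ℝ) := by positivity
               linarith, ?_⟩
    rw [hσ]
    field_simp
  have h2 := mean_holder hconj hW (Nsum_nonneg (v := v) (W := W) (τ := τ) (η := η) K)
  have h3 := mean_Nsum_pow_le (W := W) (τ := τ) hv hη hη1 k
  set Q : ℝ := mean (fun x => Nsum v W τ η K x ^ (k + 1)) with hQ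
  have hQ0 : 0 ≤ Q := mean_nonneg (fun x => by have := Nsum_nonneg (v := v) (W := W) (τ := τ) (η := η) K x; positivity)
  have hQ' : (mean fun x => Nsum v W τ η K x ^ ((k : ℝ) + 1)) = Q := by
    apply mean_congr
    intro x
    rw [← Real.rpow_natCast]
    push_cast
    rfl
  rw [hQ'] at h2
  have h4 : (τ * P) ^ (k + 1) ≤ M ^ k * Q := by
    have h5 : (τ * P) ^ (k + 1) ≤ (M ^ (1 / σ) * Q ^ (1 / ((k : ℝ) + 1))) ^ (k + 1) :=
      pow_le_pow_left₀ (mul_nonneg hτ.le hP0) (h1.trans h2) _
    have e1 : (M ^ (1 / σ)) ^ (k + 1) = M ^ k := by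
      rw [← Real.rpow_natCast, ← Real.rpow_mul hM0, ← Real.rpow_natCast]
      congr 1
      rw [hσ]
      push_cast
      field_simp
    have e2 : (Q ^ (1 / ((k : ℝ) + 1))) ^ (k + 1) = Q := by
      rw [← Real.rpow_natCast, ← Real.rpow_mul hQ0]
      have : 1 / ((k : ℝ) + 1) * ((k + 1 : ℕ) : ℝ) = 1 := by push_cast; field_simp
      rw [this, Real.rpow_one]
    rw [mul_pow (M ^ (1 / σ)), e1, e2] at h5
    exact h5
  have h6 : Q ≤ D * (1 + L) ^ k * P := by
    refine h3.trans ?_
    apply mul_le_mul_of_nonneg_right _ hP0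
    have h7 := Aconst_le hL k 1
    calc ((k : ℝ) + 1) * 2 ^ k * Aconst L k 1
        ≤ (k + 1) * 2 ^ k * (Aconst 1 k 1 * (1 + L) ^ k) :=
          mul_le_mul_of_nonneg_left h7 (by positivity)
      _ = ((k + 1) * 2 ^ k * Aconst 1 k 1) * (1 + L) ^ k := by ring
      _ ≤ D * (1 + L) ^ k := mul_le_mul_of_nonneg_right (le_max_right _ _) (by positivity)
  rcases hP0.lt_or_eq with hpos | hzero
  · have h8 : (τ ^ σ * P) ^ k ≤ (D * (1 + L) * M) ^ k := by
      have e1 : (τ ^ σ) ^ k = τ ^ (k + 1) := by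
        rw [← Real.rpow_natCast, ← Real.rpow_mul hτ.le, ← Real.rpow_natCast]
        congr 1
        rw [hσ]
        push_cast
        field_simp
      rw [mul_pow, e1]
      have h9 : (τ ^ (k + 1) * P ^ k) * P ≤ (D * (1 + L) * M) ^ k * P := by
        calc (τ ^ (k + 1) * P ^ k) * P = (τ * P) ^ (k + 1) := by ring
          _ ≤ M ^ k * Q := h4
          _ ≤ M ^ k * (D * (1 + L) ^ k * P) := mul_le_mul_of_nonneg_left h6 (by positivity)
          _ = (D * ((1 + L) * M) ^ k) * P := by rw [mul_pow (1 + L) M k]; ring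
          _ ≤ (D ^ k * ((1 + L) * M) ^ k) * P := by
              apply mul_le_mul_of_nonneg_right _ hP0
              apply mul_le_mul_of_nonneg_right _ (by positivity)
              calc D = D ^ 1 := (pow_one D).symm
                _ ≤ D ^ k := pow_le_pow_right₀ hD1 hk
          _ = (D * (1 + L) * M) ^ k * P := by rw [mul_assoc D, mul_pow D]
      exact le_of_mul_le_mul_right h9 hpos
    exact le_of_pow_le_pow_left₀ (by omega) (by positivity) h8
  · rw [← hzero, mul_zero]
    positivity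

end MP_1a422c_an
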