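import Pool.Agent.Work.MP_1a422c_an.Lev
import Pool.Agent.Work.MP_1a422c_an.CoverK

/-!
# The level sequence, strong form (MP_1a422c_an, all-p version)
-/

set_option linter.unusedSectionVars false

open Finset

namespace MP_1a422c_an

variable {ι : Type*} [Fintype ι] [LinearOrder ι] {Λ : Type*} [LinearOrder Λ]

/-- The combinatorial heart, for an arbitrary `n`-downset `v`. -/
lemma exists_B' {ρ : ι → ι → Λ} (h : Subadd ρ) {n : WithTop Λ} (β : ι) (v : Finset ι)
    (hvd : ∀ y z, z ∈ v → y < z → (ρ y z : WithTop Λ) < n → y ∈ v) :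
    ∃ B : Finset ι, Disjoint B v ∧ lset ρ n β \ v ⊆ B ∧
      ∀ (n' : WithTop Λ) (δ : ι), n' ≤ n → Disjoint (lset ρ n' δ) B ∨
        lset ρ n' δ ⊆ B ∪ (lset ρ n β ∩ v) := by
  classical
  set u := lset ρ n β with hu
  set B : Finset ι := Finset.univ.filter fun z => z ∈ u \ v ∨
    ∃ y ∈ u \ v, y < z ∧ (ρ y z : WithTop Λ) < n with hB
  have memB : ∀ z, z ∈ B ↔ (z ∈ u \ v ∨ ∃ y ∈ u \ v, y < z ∧ (ρ y z : WithTop Λ) < n) := by
    intro z; simp only [hB, Finset.mem_filter, Finset.mem_univ, true_and]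
  -- members of u below members of u
  have hdown : ∀ z z', z ∈ u → z' < z → (ρ z' z : WithTop Λ) < n → z' ∈ u := by
    intro z z' hz hlt hρ
    rw [hu, mem_lset] at hz ⊢
    exact ⟨hlt.trans hz.1, s1' h hlt hz.1 hρ hz.2⟩
  have hmem : ∀ z', z' ∈ u → z' ∈ B ∪ (u ∩ v) := by
    intro z' hz'
    by_cases hv' : z' ∈ v
    · exact Finset.mem_union_right _ (Finset.mem_inter.mpr ⟨hz', hv'⟩)
    · exact Finset.mem_union_left _ ((memB z').mpr (Or.inl (Finset.mem_sdiff.mpr ⟨hz', hv'⟩)))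
  refine ⟨B, ?_, ?_, ?_⟩
  · rw [Finset.disjoint_left]
    intro z hz hzv
    rcases (memB z).mp hz with h1 | ⟨y, hy, hyz, hρ⟩
    · exact (Finset.mem_sdiff.mp h1).2 hzv
    · apply (Finset.mem_sdiff.mp hy).2
      exact hvd y z hzv hyz hρ
  · intro z hz
    exact (memB z).mpr (Or.inl hz)
  · intro n' δ hn'
    by_cases hd : Disjoint (lset ρ n' δ) B
    · exact Or.inl hd
    · right
      rw [Finset.not_disjoint_iff] at hd
      obtain ⟨z, hzw, hzB⟩ := hd
      intro z' hz'w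
      rw [mem_lset] at hzw hz'w
      have hzδ : (ρ z δ : WithTop Λ) < n := lt_of_lt_of_le hzw.2 hn'
      have hz'δ : (ρ z' δ : WithTop Λ) < n := lt_of_lt_of_le hz'w.2 hn'
      rcases lt_trichotomy z z' with hlt | heq | hgt
      · -- z < z'
        have hzz' : (ρ z z' : WithTop Λ) < n := s2' h hlt hz'w.1 hzδ hz'δ
        apply Finset.mem_union_left
        rw [memB]
        right
        rcases (memB z).mp hzB with h1 | ⟨y, hy, hyz, hρ⟩
        · exact ⟨z, h1, hlt, hzz'⟩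
        · exact ⟨y, hy, hyz.trans hlt, s1' h hyz hlt hρ hzz'⟩
      · rw [← heq]; exact Finset.mem_union_left _ hzB
      · -- z' < z
        have hz'z : (ρ z' z : WithTop Λ) < n := s2' h hgt hzw.1 hz'δ hzδ
        rcases (memB z).mp hzB with h1 | ⟨y, hy, hyz, hρ⟩
        · exact hmem z' (hdown z z' (Finset.mem_sdiff.mp h1).1 hgt hz'z)
        · rcases lt_trichotomy z' y with h2 | h2 | h2
          · have h3 : (ρ z' y : WithTop Λ) < n := s2' h h2 hyz hz'z hρ
            exact hmem z' (hdown y z' (Finset.mem_sdiff.mp hy).1 h2 h3)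
          · rw [h2]
            exact Finset.mem_union_left _ ((memB y).mpr (Or.inl hy))
          · have h3 : (ρ y z' : WithTop Λ) < n := s2' h h2 hgt hρ hz'z
            exact Finset.mem_union_left _ ((memB z').mpr (Or.inr ⟨y, hy, h2, h3⟩))

/-- **The level sequence, strong form.** -/
theorem exists_levSeqU (ρ : ι → ι → Λ) (h : Subadd ρ) :
    ∃ (v : ℕ → Finset ι) (K : ℕ), LevSeqU v K ∧ (∀ a b : ι, ∃ i < K, v i = pre ρ a b) ∧
      (∀ a : ι, ∃ i < K, v i = Finset.univ.filter (· < a)) ∧ (∃ i < K, v i = Finset.univ) ∧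
      (∃ i < K, v i = ∅) := by
  classical
  set L : Finset (WithTop Λ) :=
    insert ⊤ ((Finset.univ : Finset (ι × ι)).image fun p => (ρ p.1 p.2 : WithTop Λ)) with hL
  set P : Finset (WithTop Λ ×ₗ ι) := (L ×ˢ (Finset.univ : Finset ι)).map toLex.toEmbedding with hP
  have memP : ∀ (ℓ : WithTop Λ) (α : ι), ℓ ∈ L → toLex (ℓ, α) ∈ P := by
    intro ℓ α hℓ
    rw [hP, Finset.mem_map]
    exact ⟨(ℓ, α), by simp [hℓ], rfl⟩
  set e := P.orderIsoOfFin rfl with he
  set v : ℕ → Finset ι := fun i => if hi : i < P.card then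
    lset ρ (ofLex (e ⟨i, hi⟩ : WithTop Λ ×ₗ ι)).1 (ofLex (e ⟨i, hi⟩ : WithTop Λ ×ₗ ι)).2
    else Finset.univ with hv
  have hvi : ∀ i (hi : i < P.card), v i = lset ρ (ofLex (e ⟨i, hi⟩ : WithTop Λ ×ₗ ι)).1
      (ofLex (e ⟨i, hi⟩ : WithTop Λ ×ₗ ι)).2 := by
    intro i hi
    simp only [hv, dif_pos hi]
  have hvlast : v P.card = Finset.univ := by
    simp only [hv, lt_irrefl, dif_neg, not_false_eq_true]
  have hfind : ∀ (ℓ : WithTop Λ) (α : ι), ℓ ∈ L → ∃ i < P.card + 1, v i = lset ρ ℓ α := by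
    intro ℓ α hℓ
    set i := e.symm ⟨toLex (ℓ, α), memP ℓ α hℓ⟩ with hi
    refine ⟨i, by have := i.2; omega, ?_⟩
    rw [hvi i i.2]
    have : e ⟨(i : ℕ), i.2⟩ = ⟨toLex (ℓ, α), memP ℓ α hℓ⟩ := by
      rw [Fin.eta, hi, OrderIso.apply_symm_apply]
    rw [this]
    rfl
  have hlev : ∀ i j (hi : i < P.card) (hj : j < P.card), i ≤ j →
      (ofLex (e ⟨i, hi⟩ : WithTop Λ ×ₗ ι)).1 ≤ (ofLex (e ⟨j, hj⟩ : WithTop Λ ×ₗ ι)).1 := by
    intro i j hi hj hij
    have h1 : e ⟨i, hi⟩ ≤ e ⟨j, hj⟩ := e.monotone (by exact hij)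
    have h2 : (e ⟨i, hi⟩ : WithTop Λ ×ₗ ι) ≤ (e ⟨j, hj⟩ : WithTop Λ ×ₗ ι) := h1
    rw [Prod.Lex.le_iff] at h2
    rcases h2 with h3 | h3
    · exact h3.le
    · exact h3.1.le
  refine ⟨v, P.card + 1, ?_, ?_, ?_, ⟨P.card, by omega, hvlast⟩, ?_⟩
  · intro i T hT
    rcases T.eq_empty_or_nonempty with hT0 | ⟨t0, ht0⟩
    · subst hT0
      refine ⟨Finset.univ, by simp, Finset.subset_univ _, fun l _ => Or.inr ?_⟩
      exact (Finset.subset_univ _).trans Finset.subset_union_left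
    · have hi' : i < P.card := by
        have := hT t0 ht0
        omega
      obtain ⟨B, hB1, hB2, hB3⟩ := exists_B' h (n := (ofLex (e ⟨i, hi'⟩ : WithTop Λ ×ₗ ι)).1)
        (ofLex (e ⟨i, hi'⟩ : WithTop Λ ×ₗ ι)).2 (T.biUnion v) (by
          intro y z hz hyz hρ
          rw [Finset.mem_biUnion] at hz ⊢
          obtain ⟨t, ht, hzt⟩ := hz
          refine ⟨t, ht, ?_⟩
          have htK := hT t ht
          rcases Nat.lt_succ_iff_lt_or_eq.mp htK.2 with htc | htc
          · rw [hvi t htc] at hzt ⊢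
            rw [mem_lset] at hzt ⊢
            exact ⟨hyz.trans hzt.1, s1' h hyz hzt.1
              (lt_of_lt_of_le hρ (hlev i t hi' htc htK.1.le)) hzt.2⟩
          · rw [htc, hvlast]; exact Finset.mem_univ _)
      rw [← hvi i hi'] at hB2 hB3
      refine ⟨B, hB1, hB2, ?_⟩
      intro l hl
      have hl' : l < P.card := lt_of_le_of_lt hl hi'
      have := hB3 _ (ofLex (e ⟨l, hl'⟩ : WithTop Λ ×ₗ ι)).2 (hlev l i hl' hi' hl)
      rwa [← hvi l hl'] at this
  · intro a b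
    obtain ⟨i, hi, hi2⟩ := hfind (ρ b a) a (by
      rw [hL]
      exact Finset.mem_insert_of_mem (Finset.mem_image.mpr ⟨(b, a), Finset.mem_univ _, rfl⟩))
    refine ⟨i, hi, ?_⟩
    rw [hi2]
    ext z
    simp [lset, pre]
  · intro a
    obtain ⟨i, hi, hi2⟩ := hfind ⊤ a (by rw [hL]; exact Finset.mem_insert_self _ _)
    refine ⟨i, hi, ?_⟩
    rw [hi2]
    ext z
    simp [lset, WithTop.coe_lt_top]
  · rcases isEmpty_or_nonempty ι with hem | hne
    · refine ⟨P.card, by omega, ?_⟩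
      rw [hvlast]
      exact Finset.univ_eq_empty
    · obtain ⟨i, hi, hi2⟩ := hfind ⊤ ((Finset.univ : Finset ι).min' Finset.univ_nonempty)
        (by rw [hL]; exact Finset.mem_insert_self _ _)
      refine ⟨i, hi, ?_⟩
      rw [hi2]
      rw [Finset.eq_empty_iff_forall_notMem]
      intro z hz
      rw [mem_lset] at hz
      exact absurd (Finset.min'_le _ z (Finset.mem_univ z)) (not_le.mpr hz.1)

end MP_1a422c_an
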