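import Pool.Agent.Work.MP_1a422c_an.Cover

/-!
# The A₂ majorant (MP_1a422c_an, module C)
-/

set_option linter.unusedSectionVars false

open Finset

namespace MP_1a422c_an

variable {ι : Type*} [Fintype ι] [DecidableEq ι]

/-- Sum of the geometric sequence cut at `2^a < t`. -/
lemma sum_two_pow_lt (N : ℕ) (t : ℝ) (ht : 0 ≤ t) :
    ∑ a ∈ range N, (if (2 : ℝ) ^ a < t then (2 : ℝ) ^ a else 0) ≤ 2 * t := by
  induction N with
  | zero => simpa using by positivity
  | succ N ih =>
    rw [Finset.sum_range_succ]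
    by_cases h : (2 : ℝ) ^ N < t
    · rw [if_pos h]
      have h1 : ∑ a ∈ range N, (if (2 : ℝ) ^ a < t then (2 : ℝ) ^ a else 0)
          ≤ ∑ a ∈ range N, (2 : ℝ) ^ a := by
        apply Finset.sum_le_sum
        intro a _
        split_ifs
        · exact le_rfl
        · positivity
      have h2 : ∑ a ∈ range N, (2 : ℝ) ^ a = 2 ^ N - 1 := by
        rw [geom_sum_eq (by norm_num)]; norm_num
      linarith
    · rw [if_neg h]
      linarith

lemma sum_half_pow (R : ℕ) : ∑ r ∈ range R, (1 / 2 : ℝ) ^ r ≤ 2 := by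
  rw [geom_sum_eq (by norm_num)]
  have : (0 : ℝ) ≤ (1 / 2) ^ R := by positivity
  rw [div_le_iff_of_neg (by norm_num)]
  linarith

/-- One step majorant. -/
lemma exists_step (v : ℕ → Finset ι) (K : ℕ) (hv : LevSeq v K)
    (W : (ι → Bool) → ℝ) (hW : ∀ x, 0 < W x) :
    ∃ V : (ι → Bool) → ℝ, (∀ x, 0 < V x) ∧
      mean (fun x => V x ^ 3) ≤ 97 * mean (fun x => W x ^ 3) ∧
      ∀ i < K, ∀ x, E (v i) W x * E (v i) (fun y => (V y)⁻¹) x ≤ 11 := by
  -- lower bound `c` for `W`
  obtain ⟨x0, hx0⟩ := Finite.exists_min W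
  set c : ℝ := W x0 with hc
  have hc0 : 0 < c := hW x0
  have hcW : ∀ x, c ≤ W x := hx0
  obtain ⟨x1, hx1⟩ := Finite.exists_max W
  set M : ℝ := W x1 with hM
  have hM0 : 0 < M := hW x1
  have hWM : ∀ x, W x ≤ M := hx1
  -- number of levels
  obtain ⟨N, hN⟩ : ∃ N : ℕ, M / c < 2 ^ N := pow_unbounded_of_one_lt _ (by norm_num)
  obtain ⟨R, hR⟩ : ∃ R : ℕ, M / c < 4 ^ R := pow_unbounded_of_one_lt _ (by norm_num)
  -- truncated weights
  set Wt : ℕ → (ι → Bool) → ℝ := fun a x => if c * 2 ^ a < 2 * W x then W x else 0 with hWt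
  have hWt0 : ∀ a x, 0 ≤ Wt a x := by
    intro a x
    simp only [hWt]
    split_ifs
    · exact (hW x).le
    · exact le_rfl
  have hcov : ∀ a r : ℕ, ∃ U : Set (ι → Bool),
      (∀ i < K, ∀ x, c * 2 ^ a / 2 ≤ E (v i) (Wt a) x →
        1 - (1 / 4 : ℝ) ^ r ≤ E (v i) (ind U) x) ∧
      (1 / 4 : ℝ) ^ r * (c * 2 ^ a / 2) ^ 2 * mean (ind U) ≤ 3 * mean (fun x => Wt a x ^ 2) := by
    intro a r
    apply exists_cover v K hv (Wt a) (hWt0 a)
    · positivity
    · positivity
    · exact pow_le_one₀ (by norm_num) (by norm_num)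
  choose U hU1 hU2 using hcov
  -- the sum of cubes
  set S : (ι → Bool) → ℝ := fun x =>
    c ^ 3 + ∑ a ∈ range N, ∑ r ∈ range (R + 1), (c * 2 ^ a * (1 / 2) ^ r) ^ 3 * ind (U a r) x with hS
  have hSterm : ∀ a r x, 0 ≤ (c * 2 ^ a * (1 / 2) ^ r) ^ 3 * ind (U a r) x := fun a r x =>
    mul_nonneg (by positivity) (ind_nonneg _ _)
  have hSc : ∀ x, c ^ 3 ≤ S x := by
    intro x
    simp only [hS]
    have : 0 ≤ ∑ a ∈ range N, ∑ r ∈ range (R + 1),
        (c * 2 ^ a * (1 / 2) ^ r) ^ 3 * ind (U a r) x :=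
      Finset.sum_nonneg (fun a _ => Finset.sum_nonneg (fun r _ => hSterm a r x))
    linarith
  have hroot : ∀ x, ∃ y : ℝ, 0 < y ∧ y ^ 3 = S x := by
    intro x
    have hpos : 0 < S x := lt_of_lt_of_le (by positivity) (hSc x)
    refine ⟨(S x) ^ ((3 : ℕ) : ℝ)⁻¹, Real.rpow_pos_of_pos hpos _, ?_⟩
    exact Real.rpow_inv_natCast_pow hpos.le (by norm_num)
  choose V hV0 hV3 using hroot
  have hVge : ∀ x (b : ℝ), 0 ≤ b → b ^ 3 ≤ S x → b ≤ V x := by
    intro x b hb hbS
    rw [← hV3 x] at hbS
    exact le_of_pow_le_pow_left₀ (by norm_num) (hV0 x).le hbS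
  have hVc : ∀ x, c ≤ V x := fun x => hVge x c hc0.le (hSc x)
  have hVU : ∀ a < N, ∀ r ≤ R, ∀ x ∈ U a r, c * 2 ^ a * (1 / 2) ^ r ≤ V x := by
    intro a ha r hr x hx
    apply hVge x _ (by positivity)
    simp only [hS]
    have h1 : (c * 2 ^ a * (1 / 2) ^ r) ^ 3 * ind (U a r) x
        ≤ ∑ r ∈ range (R + 1), (c * 2 ^ a * (1 / 2) ^ r) ^ 3 * ind (U a r) x :=
      Finset.single_le_sum (f := fun r => (c * 2 ^ a * (1 / 2) ^ r) ^ 3 * ind (U a r) x)
        (fun r _ => hSterm a r x) (Finset.mem_range.mpr (by omega))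
    have h2 : ∑ r ∈ range (R + 1), (c * 2 ^ a * (1 / 2) ^ r) ^ 3 * ind (U a r) x
        ≤ ∑ a ∈ range N, ∑ r ∈ range (R + 1), (c * 2 ^ a * (1 / 2) ^ r) ^ 3 * ind (U a r) x :=
      Finset.single_le_sum
        (f := fun a => ∑ r ∈ range (R + 1), (c * 2 ^ a * (1 / 2) ^ r) ^ 3 * ind (U a r) x)
        (fun a _ => Finset.sum_nonneg (fun r _ => hSterm a r x)) (Finset.mem_range.mpr ha)
    rw [ind_of_mem hx, mul_one] at h1
    have : 0 < c ^ 3 := by positivity
    linarith
  refine ⟨V, hV0, ?_, ?_⟩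
  · -- the third moment
    have e1 : mean (fun x => V x ^ 3) = c ^ 3 + ∑ a ∈ range N, ∑ r ∈ range (R + 1),
        (c * 2 ^ a * (1 / 2) ^ r) ^ 3 * mean (ind (U a r)) := by
      rw [mean_congr hV3]
      simp only [hS]
      rw [mean_add, mean_const, mean_sum]
      congr 1
      apply Finset.sum_congr rfl; intro a _
      rw [mean_sum]
      apply Finset.sum_congr rfl; intro r _
      rw [mean_mul_left]
    have e2 : ∀ a r, (c * 2 ^ a * (1 / 2) ^ r) ^ 3 * mean (ind (U a r))
        ≤ 12 * (c * 2 ^ a) * (1 / 2) ^ r * mean (fun x => Wt a x ^ 2) := by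
      intro a r
      have h := hU2 a r
      have hq : (1 / 4 : ℝ) ^ r = (1 / 2) ^ r * (1 / 2) ^ r := by
        rw [← mul_pow]; norm_num
      rw [hq] at h
      have hcoef : 0 ≤ 4 * (c * 2 ^ a) * (1 / 2 : ℝ) ^ r := by positivity
      have h' := mul_le_mul_of_nonneg_left h hcoef
      calc (c * 2 ^ a * (1 / 2) ^ r) ^ 3 * mean (ind (U a r))
          = 4 * (c * 2 ^ a) * (1 / 2) ^ r *
            ((1 / 2) ^ r * (1 / 2) ^ r * (c * 2 ^ a / 2) ^ 2 * mean (ind (U a r))) := by ring
        _ ≤ _ := h'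
        _ = _ := by ring
    have e3 : ∀ a, ∑ r ∈ range (R + 1), (c * 2 ^ a * (1 / 2) ^ r) ^ 3 * mean (ind (U a r))
        ≤ 24 * (c * 2 ^ a) * mean (fun x => Wt a x ^ 2) := by
      intro a
      have hm0 : 0 ≤ mean (fun x => Wt a x ^ 2) := mean_nonneg (fun _ => sq_nonneg _)
      calc ∑ r ∈ range (R + 1), (c * 2 ^ a * (1 / 2) ^ r) ^ 3 * mean (ind (U a r))
          ≤ ∑ r ∈ range (R + 1), 12 * (c * 2 ^ a) * (1 / 2) ^ r * mean (fun x => Wt a x ^ 2) :=
            Finset.sum_le_sum (fun r _ => e2 a r)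
        _ = 12 * (c * 2 ^ a) * mean (fun x => Wt a x ^ 2) * ∑ r ∈ range (R + 1), (1 / 2 : ℝ) ^ r := by
            rw [Finset.mul_sum]
            apply Finset.sum_congr rfl; intro r _
            ring
        _ ≤ 12 * (c * 2 ^ a) * mean (fun x => Wt a x ^ 2) * 2 :=
            mul_le_mul_of_nonneg_left (sum_half_pow _) (by positivity)
        _ = _ := by ring
    have e4 : ∑ a ∈ range N, 24 * (c * 2 ^ a) * mean (fun x => Wt a x ^ 2)
        ≤ 96 * mean (fun x => W x ^ 3) := by
      have : ∑ a ∈ range N, 24 * (c * 2 ^ a) * mean (fun x => Wt a x ^ 2)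
          = mean (fun x => ∑ a ∈ range N, 24 * (c * 2 ^ a) * Wt a x ^ 2) := by
        rw [mean_sum]
        apply Finset.sum_congr rfl; intro a _
        rw [mean_mul_left]
      rw [this, ← mean_mul_left]
      apply mean_mono
      intro x
      have h1 : ∀ a ∈ range N, 24 * (c * 2 ^ a) * Wt a x ^ 2
          = 24 * c * W x ^ 2 * (if (2 : ℝ) ^ a < 2 * W x / c then (2 : ℝ) ^ a else 0) := by
        intro a _
        simp only [hWt]
        by_cases h : c * 2 ^ a < 2 * W x
        · have h' : (2 : ℝ) ^ a < 2 * W x / c := by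
            rw [lt_div_iff₀ hc0]; linarith
          rw [if_pos h, if_pos h']; ring
        · have h' : ¬ (2 : ℝ) ^ a < 2 * W x / c := by
            rw [lt_div_iff₀ hc0]; intro h2; apply h; linarith
          rw [if_neg h, if_neg h']; ring
      rw [Finset.sum_congr rfl h1, ← Finset.mul_sum]
      have h2 := sum_two_pow_lt N (2 * W x / c) (by have := hW x; positivity)
      have h3 : 0 ≤ 24 * c * W x ^ 2 := by positivity
      calc 24 * c * W x ^ 2 * ∑ a ∈ range N, (if (2 : ℝ) ^ a < 2 * W x / c then (2 : ℝ) ^ a else 0)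
          ≤ 24 * c * W x ^ 2 * (2 * (2 * W x / c)) := mul_le_mul_of_nonneg_left h2 h3
        _ = 96 * W x ^ 3 := by field_simp; ring
    have e5 : c ^ 3 ≤ mean (fun x => W x ^ 3) := by
      rw [← mean_const (ι := ι) (c ^ 3)]
      apply mean_mono
      intro x
      exact pow_le_pow_left₀ hc0.le (hcW x) 3
    rw [e1]
    have e6 : ∑ a ∈ range N, ∑ r ∈ range (R + 1),
        (c * 2 ^ a * (1 / 2) ^ r) ^ 3 * mean (ind (U a r)) ≤ 96 * mean (fun x => W x ^ 3) :=
      (Finset.sum_le_sum (fun a _ => e3 a)).trans e4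
    linarith
  · -- the product bound
    intro i hi x
    -- the level of the average
    have hEc : c ≤ E (v i) W x := by
      have := E_mono (v i) hcW x
      rwa [E_const] at this
    have hEM : E (v i) W x ≤ M := by
      have := E_mono (v i) hWM x
      rwa [E_const] at this
    -- find `a`
    obtain ⟨a, haN, ha1, ha2⟩ : ∃ a : ℕ, a < N ∧ c * 2 ^ a ≤ E (v i) W x ∧
        E (v i) W x < c * 2 ^ (a + 1) := by
      have hex : ∃ n : ℕ, E (v i) W x < c * 2 ^ n := by
        refine ⟨N, lt_of_le_of_lt hEM ?_⟩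
        rw [div_lt_iff₀ hc0] at hN
        linarith
      classical
      have hspec := Nat.find_spec hex
      have hne : Nat.find hex ≠ 0 := by
        intro h0
        rw [h0] at hspec
        simp only [pow_zero, mul_one] at hspec
        linarith
      obtain ⟨a, ha⟩ := Nat.exists_eq_succ_of_ne_zero hne
      refine ⟨a, ?_, ?_, ?_⟩
      · have hle : Nat.find hex ≤ N := Nat.find_min' hex (by
          rw [div_lt_iff₀ hc0] at hN
          exact lt_of_le_of_lt hEM (by linarith))
        omega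
      · have := Nat.find_min hex (m := a) (by omega)
        push Not at this
        exact this
      · rw [ha] at hspec
        exact hspec
    have hWtE : c * 2 ^ a / 2 ≤ E (v i) (Wt a) x := by
      have h1 : E (v i) W x ≤ E (v i) (fun y => Wt a y + c * 2 ^ a / 2) x := by
        apply E_mono
        intro y
        simp only [hWt]
        split_ifs with h
        · have : 0 < c * 2 ^ a / 2 := by positivity
          linarith
        · push Not at h
          linarith
      rw [E_add, E_const] at h1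
      linarith
    have hprob : ∀ r, E (v i) (fun y => 1 - ind (U a r) y) x ≤ (1 / 4 : ℝ) ^ r := by
      intro r
      rw [E_sub, E_const]
      have := hU1 a r i hi x hWtE
      linarith
    -- pointwise bound of 1/V
    have hpt : ∀ y, (V y)⁻¹ ≤ (c * 2 ^ a)⁻¹ * (1 + ∑ r ∈ range R,
        (2 : ℝ) ^ (r + 1) * (1 - ind (U a r) y)) + c⁻¹ * (1 - ind (U a R) y) := by
      intro y
      have hterm : ∀ r, 0 ≤ (2 : ℝ) ^ (r + 1) * (1 - ind (U a r) y) := fun r =>
        mul_nonneg (by positivity) (by have := ind_le_one (U a r) y; linarith)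
      have hlast : 0 ≤ c⁻¹ * (1 - ind (U a R) y) :=
        mul_nonneg (by positivity) (by have := ind_le_one (U a R) y; linarith)
      have hca : 0 < (c * 2 ^ a)⁻¹ := by positivity
      have hs0 : 0 ≤ ∑ r ∈ range R, (2 : ℝ) ^ (r + 1) * (1 - ind (U a r) y) :=
        Finset.sum_nonneg (fun r _ => hterm r)
      by_cases hyR : y ∈ U a R
      · -- first index
        classical
        have hex : ∃ r, r ≤ R ∧ y ∈ U a r := ⟨R, le_rfl, hyR⟩
        obtain ⟨hr1, hr2⟩ := Nat.find_spec hex
        set r := Nat.find hex with hr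
        have hV1 := hVU a haN r hr1 y hr2
        have hVinv : (V y)⁻¹ ≤ (c * 2 ^ a)⁻¹ * 2 ^ r := by
          calc (V y)⁻¹ ≤ (c * 2 ^ a * (1 / 2) ^ r)⁻¹ := by
                apply inv_anti₀ (by positivity) hV1
            _ = (c * 2 ^ a)⁻¹ * 2 ^ r := by
                rw [mul_inv]; congr 1
                rw [one_div, inv_pow, inv_inv]
        rcases Nat.eq_zero_or_pos r with h0 | hpos
        · rw [h0, pow_zero, mul_one] at hVinv
          have : (c * 2 ^ a)⁻¹ ≤ (c * 2 ^ a)⁻¹ * (1 + ∑ r ∈ range R,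
              (2 : ℝ) ^ (r + 1) * (1 - ind (U a r) y)) := by
            nlinarith
          linarith
        · obtain ⟨s, hs⟩ := Nat.exists_eq_succ_of_ne_zero hpos.ne'
          have hsR : s < R := by omega
          have hsU : y ∉ U a s := by
            intro hys
            have := Nat.find_min hex (m := s) (by omega)
            exact this ⟨by omega, hys⟩
          have h1 : (2 : ℝ) ^ r ≤ ∑ r ∈ range R, (2 : ℝ) ^ (r + 1) * (1 - ind (U a r) y) := by
            have := Finset.single_le_sum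
              (f := fun r => (2 : ℝ) ^ (r + 1) * (1 - ind (U a r) y))
              (fun r _ => hterm r) (Finset.mem_range.mpr hsR)
            simp only [ind_of_notMem hsU, sub_zero, mul_one] at this
            rw [hs]
            exact this
          have : (c * 2 ^ a)⁻¹ * 2 ^ r ≤ (c * 2 ^ a)⁻¹ * (1 + ∑ r ∈ range R,
              (2 : ℝ) ^ (r + 1) * (1 - ind (U a r) y)) := by
            apply mul_le_mul_of_nonneg_left _ hca.le
            linarith
          linarith
      · have h1 : (V y)⁻¹ ≤ c⁻¹ := inv_anti₀ hc0 (hVc y)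
        rw [ind_of_notMem hyR, sub_zero, mul_one]
        have : 0 ≤ (c * 2 ^ a)⁻¹ * (1 + ∑ r ∈ range R,
              (2 : ℝ) ^ (r + 1) * (1 - ind (U a r) y)) := by positivity
        linarith
    have hE : E (v i) (fun y => (V y)⁻¹) x ≤ (c * 2 ^ a)⁻¹ * 5 + c⁻¹ * (1 / 4) ^ R := by
      refine (E_mono (v i) hpt x).trans ?_
      rw [E_add, E_mul_left, E_add, E_const, E_sum, E_mul_left]
      have h1 : ∑ r ∈ range R, E (v i) (fun y => (2 : ℝ) ^ (r + 1) * (1 - ind (U a r) y)) x ≤ 4 := by
        calc ∑ r ∈ range R, E (v i) (fun y => (2 : ℝ) ^ (r + 1) * (1 - ind (U a r) y)) x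
            ≤ ∑ r ∈ range R, 2 * (1 / 2 : ℝ) ^ r := by
              apply Finset.sum_le_sum
              intro r _
              rw [E_mul_left]
              have h2 := hprob r
              calc (2 : ℝ) ^ (r + 1) * E (v i) (fun y => 1 - ind (U a r) y) x
                  ≤ (2 : ℝ) ^ (r + 1) * (1 / 4) ^ r := mul_le_mul_of_nonneg_left h2 (by positivity)
                _ = 2 * (2 * (1 / 4)) ^ r := by rw [mul_pow]; ring
                _ = 2 * (1 / 2 : ℝ) ^ r := by norm_num
          _ = 2 * ∑ r ∈ range R, (1 / 2 : ℝ) ^ r := by rw [Finset.mul_sum]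
          _ ≤ 2 * 2 := mul_le_mul_of_nonneg_left (sum_half_pow R) (by norm_num)
          _ = 4 := by norm_num
      have h3 := hprob R
      have hca : 0 < (c * 2 ^ a)⁻¹ := by positivity
      have hci : 0 < c⁻¹ := by positivity
      apply add_le_add
      · apply mul_le_mul_of_nonneg_left _ hca.le
        linarith
      · exact mul_le_mul_of_nonneg_left h3 hci.le
    have hE0 : 0 ≤ E (v i) (fun y => (V y)⁻¹) x :=
      E_nonneg (v i) (fun y => (inv_pos.mpr (hV0 y)).le) x
    have hEW0 : 0 ≤ E (v i) W x := le_trans hc0.le hEc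
    calc E (v i) W x * E (v i) (fun y => (V y)⁻¹) x
        ≤ E (v i) W x * ((c * 2 ^ a)⁻¹ * 5 + c⁻¹ * (1 / 4) ^ R) :=
          mul_le_mul_of_nonneg_left hE hEW0
      _ = E (v i) W x * ((c * 2 ^ a)⁻¹ * 5) + E (v i) W x * (c⁻¹ * (1 / 4) ^ R) := by ring
      _ ≤ 10 + 1 := by
          apply add_le_add
          · calc E (v i) W x * ((c * 2 ^ a)⁻¹ * 5)
                ≤ (c * 2 ^ (a + 1)) * ((c * 2 ^ a)⁻¹ * 5) :=
                  mul_le_mul_of_nonneg_right ha2.le (by positivity)
              _ = 10 := by field_simp; ring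
          · calc E (v i) W x * (c⁻¹ * (1 / 4) ^ R)
                ≤ M * (c⁻¹ * (1 / 4) ^ R) := mul_le_mul_of_nonneg_right hEM (by positivity)
              _ = (M / c) * (1 / 4) ^ R := by ring
              _ ≤ 4 ^ R * (1 / 4) ^ R := mul_le_mul_of_nonneg_right hR.le (by positivity)
              _ = 1 := by rw [← mul_pow]; norm_num
      _ = 11 := by norm_num

/-- The finite sum `∑_{k ≤ n} 10^{-k} V^k W`. -/
noncomputable def msum (V : ((ι → Bool) → ℝ) → ((ι → Bool) → ℝ)) (n : ℕ)
    (W : (ι → Bool) → ℝ) : (ι → Bool) → ℝ :=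
  fun x => ∑ k ∈ range (n + 1), (1 / 10 : ℝ) ^ k * (V^[k] W) x

lemma msum_succ (V : ((ι → Bool) → ℝ) → ((ι → Bool) → ℝ)) (n : ℕ)
    (W : (ι → Bool) → ℝ) (x : ι → Bool) :
    msum V (n + 1) W x = W x + (1 / 10) * msum V n (V W) x := by
  unfold msum
  rw [Finset.sum_range_succ', add_comm]
  congr 1
  · simp
  · rw [Finset.mul_sum]
    apply Finset.sum_congr rfl
    intro k _
    rw [Function.iterate_succ_apply]
    ring

lemma add_cube_le {a b : ℝ} (ha : 0 ≤ a) (hb : 0 ≤ b) : (a + b) ^ 3 ≤ 4 * (a ^ 3 + b ^ 3) := by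
  nlinarith [mul_nonneg (add_nonneg ha hb) (sq_nonneg (a - b))]

/-- **The A₂ majorant.** -/
theorem exists_majorant (v : ℕ → Finset ι) (K : ℕ) (hv : LevSeq v K)
    (W : (ι → Bool) → ℝ) (hW : ∀ x, 0 < W x) :
    ∃ W' : (ι → Bool) → ℝ, (∀ x, W x ≤ W' x) ∧
      mean (fun x => W' x ^ 3) ≤ 8 * mean (fun x => W x ^ 3) ∧
      ∀ i < K, ∀ x, E (v i) W' x * E (v i) (fun y => (W' y)⁻¹) x ≤ 200 := by
  choose! V hV0 hV3 hVA using exists_step v K hv
  -- the iterates
  have hpos : ∀ k x, 0 < (V^[k] W) x := by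
    intro k
    induction k with
    | zero => simpa using hW
    | succ k ih =>
      intro x
      rw [Function.iterate_succ_apply']
      exact hV0 _ ih x
  have hm : ∀ k, mean (fun x => (V^[k] W) x ^ 3) ≤ 97 ^ k * mean (fun x => W x ^ 3) := by
    intro k
    induction k with
    | zero => simp
    | succ k ih =>
      have h1 := hV3 (V^[k] W) (hpos k)
      rw [Function.iterate_succ_apply', pow_succ]
      calc _ ≤ _ := h1
        _ ≤ 97 * (97 ^ k * mean (fun x => W x ^ 3)) :=
            mul_le_mul_of_nonneg_left ih (by norm_num)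
        _ = _ := by ring
  have hM0 : 0 ≤ mean (fun x => W x ^ 3) := mean_nonneg (fun x => by have := hW x; positivity)
  -- growth bound
  set D : ℝ := max 1 (mean (fun x => W x ^ 3) * 2 ^ Fintype.card ι) with hD
  have hD1 : 1 ≤ D := le_max_left _ _
  have hD2 : mean (fun x => W x ^ 3) * 2 ^ Fintype.card ι ≤ D ^ 3 := by
    have h1 : mean (fun x => W x ^ 3) * 2 ^ Fintype.card ι ≤ D := le_max_right _ _
    have h2 : D ≤ D ^ 3 := by nlinarith [mul_nonneg (by linarith : 0 ≤ D) (by nlinarith : 0 ≤ D ^ 2 - 1)]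
    linarith
  have hgrow : ∀ k x, (V^[k] W) x ≤ 5 ^ k * D := by
    intro k x
    have h1 : (V^[k] W) x ^ 3 ≤ mean (fun x => (V^[k] W) x ^ 3) * 2 ^ Fintype.card ι :=
      le_mean_mul (f := fun x => (V^[k] W) x ^ 3)
        (fun y => by have := hpos k y; positivity) x
    have h2 : (V^[k] W) x ^ 3 ≤ (5 ^ k * D) ^ 3 := by
      calc _ ≤ _ := h1
        _ ≤ (97 ^ k * mean (fun x => W x ^ 3)) * 2 ^ Fintype.card ι :=
            mul_le_mul_of_nonneg_right (hm k) (by positivity)
        _ = 97 ^ k * (mean (fun x => W x ^ 3) * 2 ^ Fintype.card ι) := by ring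
        _ ≤ 97 ^ k * D ^ 3 := mul_le_mul_of_nonneg_left hD2 (by positivity)
        _ ≤ 125 ^ k * D ^ 3 := by
            apply mul_le_mul_of_nonneg_right _ (by positivity)
            exact pow_le_pow_left₀ (by norm_num) (by norm_num) k
        _ = (5 ^ k * D) ^ 3 := by
            rw [mul_pow, ← pow_mul, mul_comm k 3, pow_mul]; norm_num
    exact le_of_pow_le_pow_left₀ (by norm_num) (by positivity) h2
  -- choose n
  obtain ⟨x0, hx0⟩ := Finite.exists_min W
  have hc0 : 0 < W x0 := hW x0
  obtain ⟨n, hn⟩ : ∃ n : ℕ, D / W x0 < 2 ^ n := pow_unbounded_of_one_lt _ (by norm_num)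
  have hlast : ∀ x, (1 / 10 : ℝ) ^ (n + 1) * (V^[n + 1] W) x ≤ W x := by
    intro x
    calc (1 / 10 : ℝ) ^ (n + 1) * (V^[n + 1] W) x ≤ (1 / 10 : ℝ) ^ (n + 1) * (5 ^ (n + 1) * D) :=
          mul_le_mul_of_nonneg_left (hgrow _ x) (by positivity)
      _ = (1 / 2 : ℝ) ^ (n + 1) * D := by
          rw [← mul_assoc, ← mul_pow]; norm_num
      _ ≤ (1 / 2 : ℝ) ^ n * D := by
          apply mul_le_mul_of_nonneg_right _ (by linarith)
          apply pow_le_pow_of_le_one (by norm_num) (by norm_num) (by omega)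
      _ ≤ (1 / 2 : ℝ) ^ n * (2 ^ n * W x0) := by
          apply mul_le_mul_of_nonneg_left _ (by positivity)
          rw [div_lt_iff₀ hc0] at hn
          exact hn.le
      _ = W x0 := by rw [← mul_assoc, ← mul_pow]; norm_num
      _ ≤ W x := hx0 x
  set W' := msum V n W with hW'
  have hWW' : ∀ x, W x ≤ W' x := by
    intro x
    simp only [hW', msum]
    have := Finset.single_le_sum (f := fun k => (1 / 10 : ℝ) ^ k * (V^[k] W) x)
      (fun k _ => mul_nonneg (by positivity) (hpos k x).le) (Finset.mem_range.mpr (Nat.succ_pos n))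
    simpa using this
  have hW'0 : ∀ x, 0 < W' x := fun x => lt_of_lt_of_le (hW x) (hWW' x)
  refine ⟨W', hWW', ?_, ?_⟩
  · -- third moment, by induction on n
    have hind : ∀ n : ℕ, ∀ W : (ι → Bool) → ℝ, (∀ x, 0 < W x) →
        (∀ x, 0 < msum V n W x) ∧
        mean (fun x => msum V n W x ^ 3) ≤ 8 * mean (fun x => W x ^ 3) := by
      intro n
      induction n with
      | zero =>
        intro W hW
        have h0 : ∀ x, msum V 0 W x = W x := by intro x; simp [msum]
        refine ⟨fun x => by rw [h0]; exact hW x, ?_⟩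
        simp only [h0]
        have : 0 ≤ mean (fun x => W x ^ 3) := mean_nonneg (fun x => by have := hW x; positivity)
        linarith
      | succ n ih =>
        intro W hW
        obtain ⟨ih0, ih3⟩ := ih (V W) (hV0 W hW)
        refine ⟨fun x => ?_, ?_⟩
        · rw [msum_succ]
          have := hW x; have := ih0 x
          positivity
        · have h1 := hV3 W hW
          have h2 : 0 ≤ mean (fun x => W x ^ 3) := mean_nonneg (fun x => by have := hW x; positivity)
          calc mean (fun x => msum V (n + 1) W x ^ 3)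
              ≤ mean (fun x => 4 * (W x ^ 3 + (1 / 1000) * msum V n (V W) x ^ 3)) := by
                apply mean_mono
                intro x
                rw [msum_succ]
                have h3 := add_cube_le (hW x).le
                  (b := (1 / 10) * msum V n (V W) x) (by have := ih0 x; positivity)
                calc _ ≤ _ := h3
                  _ = _ := by ring
            _ = 4 * (mean (fun x => W x ^ 3) + (1 / 1000) * mean (fun x => msum V n (V W) x ^ 3)) := by
                rw [mean_mul_left, mean_add, mean_mul_left]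
            _ ≤ _ := by linarith
    exact (hind n W hW).2
  · intro i hi x
    -- abbreviations
    set T : (ι → Bool) → ℝ := fun y => ∑ k ∈ range (n + 1), (1 / 10 : ℝ) ^ k * (V^[k + 1] W) y with hT
    have hTle : ∀ y, T y ≤ 10 * W' y := by
      intro y
      have h1 : (1 / 10 : ℝ) * T y + W y
          = W' y + (1 / 10) ^ (n + 1) * (V^[n + 1] W) y := by
        have h2 : ∑ k ∈ range (n + 1 + 1), (1 / 10 : ℝ) ^ k * (V^[k] W) y
            = (1 / 10 : ℝ) * T y + W y := by
          rw [Finset.sum_range_succ']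
          congr 1
          · simp only [hT]
            rw [Finset.mul_sum]
            apply Finset.sum_congr rfl
            intro k _
            rw [pow_succ]; ring
          · simp
        rw [← h2, Finset.sum_range_succ]
        rfl
      have h3 := hlast y
      linarith
    set P := E (v i) W' x with hP
    set Q := E (v i) (fun y => (W' y)⁻¹) x with hQ
    have hQ0 : 0 < Q := E_pos (v i) (fun y => inv_pos.mpr (hW'0 y)) x
    have hP0 : 0 < P := E_pos (v i) hW'0 x
    have hk : ∀ k, Q ^ 2 * E (v i) (V^[k] W) x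
        ≤ 11 * E (v i) (fun y => (V^[k + 1] W) y * ((W' y)⁻¹) ^ 2) x := by
      intro k
      have h1 := E_mul_sq_le (v i) (fun y => Real.sqrt ((V^[k + 1] W) y) * (W' y)⁻¹)
        (fun y => (Real.sqrt ((V^[k + 1] W) y))⁻¹) x
      have e1 : E (v i) (fun y => Real.sqrt ((V^[k + 1] W) y) * (W' y)⁻¹ *
          (Real.sqrt ((V^[k + 1] W) y))⁻¹) x = Q := by
        apply E_congr
        intro y
        have := Real.sqrt_pos.mpr (hpos (k + 1) y)
        field_simp
      have e2 : E (v i) (fun y => (Real.sqrt ((V^[k + 1] W) y) * (W' y)⁻¹) ^ 2) x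
          = E (v i) (fun y => (V^[k + 1] W) y * ((W' y)⁻¹) ^ 2) x := by
        apply E_congr
        intro y
        rw [mul_pow, Real.sq_sqrt (hpos (k + 1) y).le]
      have e3 : E (v i) (fun y => ((Real.sqrt ((V^[k + 1] W) y))⁻¹) ^ 2) x
          = E (v i) (fun y => ((V^[k + 1] W) y)⁻¹) x := by
        apply E_congr
        intro y
        rw [inv_pow, Real.sq_sqrt (hpos (k + 1) y).le]
      rw [e1, e2, e3] at h1
      have h2 := hVA (V^[k] W) (hpos k) i hi x
      rw [← Function.iterate_succ_apply' V k W] at h2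
      have hA0 : 0 ≤ E (v i) (fun y => (V^[k + 1] W) y * ((W' y)⁻¹) ^ 2) x :=
        E_nonneg (v i) (fun y => mul_nonneg (hpos _ y).le (sq_nonneg _)) x
      have hB0 : 0 ≤ E (v i) (V^[k] W) x := E_nonneg (v i) (fun y => (hpos k y).le) x
      calc Q ^ 2 * E (v i) (V^[k] W) x
          ≤ (E (v i) (fun y => (V^[k + 1] W) y * ((W' y)⁻¹) ^ 2) x *
            E (v i) (fun y => ((V^[k + 1] W) y)⁻¹) x) * E (v i) (V^[k] W) x :=
            mul_le_mul_of_nonneg_right h1 hB0
        _ = E (v i) (fun y => (V^[k + 1] W) y * ((W' y)⁻¹) ^ 2) x *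
            (E (v i) (V^[k] W) x * E (v i) (fun y => ((V^[k + 1] W) y)⁻¹) x) := by ring
        _ ≤ E (v i) (fun y => (V^[k + 1] W) y * ((W' y)⁻¹) ^ 2) x * 11 :=
            mul_le_mul_of_nonneg_left h2 hA0
        _ = _ := by ring
    have hsum : Q ^ 2 * P ≤ 11 * E (v i) (fun y => T y * ((W' y)⁻¹) ^ 2) x := by
      have e1 : Q ^ 2 * P = ∑ k ∈ range (n + 1), (1 / 10 : ℝ) ^ k * (Q ^ 2 * E (v i) (V^[k] W) x) := by
        have : P = ∑ k ∈ range (n + 1), (1 / 10 : ℝ) ^ k * E (v i) (V^[k] W) x := by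
          rw [hP, hW']
          unfold msum
          rw [E_sum]
          apply Finset.sum_congr rfl
          intro k _
          rw [E_mul_left]
        rw [this, Finset.mul_sum]
        apply Finset.sum_congr rfl
        intro k _
        ring
      have e2 : 11 * E (v i) (fun y => T y * ((W' y)⁻¹) ^ 2) x
          = ∑ k ∈ range (n + 1), (1 / 10 : ℝ) ^ k *
            (11 * E (v i) (fun y => (V^[k + 1] W) y * ((W' y)⁻¹) ^ 2) x) := by
        have : E (v i) (fun y => T y * ((W' y)⁻¹) ^ 2) x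
            = ∑ k ∈ range (n + 1), (1 / 10 : ℝ) ^ k *
              E (v i) (fun y => (V^[k + 1] W) y * ((W' y)⁻¹) ^ 2) x := by
          rw [← Finset.sum_congr rfl (fun k _ => E_mul_left (v i) ((1 / 10 : ℝ) ^ k)
            (fun y => (V^[k + 1] W) y * ((W' y)⁻¹) ^ 2) x), ← E_sum]
          apply E_congr
          intro y
          simp only [hT]
          rw [Finset.sum_mul]
          apply Finset.sum_congr rfl
          intro k _
          ring
        rw [this, Finset.mul_sum]
        apply Finset.sum_congr rfl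
        intro k _
        ring
      rw [e1, e2]
      apply Finset.sum_le_sum
      intro k _
      exact mul_le_mul_of_nonneg_left (hk k) (by positivity)
    have hTQ : E (v i) (fun y => T y * ((W' y)⁻¹) ^ 2) x ≤ 10 * Q := by
      rw [hQ, ← E_mul_left]
      apply E_mono
      intro y
      have h1 := hW'0 y
      calc T y * ((W' y)⁻¹) ^ 2 ≤ (10 * W' y) * ((W' y)⁻¹) ^ 2 :=
            mul_le_mul_of_nonneg_right (hTle y) (sq_nonneg _)
        _ = 10 * (W' y)⁻¹ := by field_simp
    have hfin : (P * Q) * Q ≤ 110 * Q := by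
      calc (P * Q) * Q = Q ^ 2 * P := by ring
        _ ≤ _ := hsum
        _ ≤ 11 * (10 * Q) := mul_le_mul_of_nonneg_left hTQ (by norm_num)
        _ = 110 * Q := by ring
    have := le_of_mul_le_mul_right hfin hQ0
    linarith

end MP_1a422c_an
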