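import Pool.Agent.Work.MP_1a422c_an.CoverK
import Pool.Agent.Work.MP_1a422c_an.Majorant

/-!
# The A₂ majorant for every exponent `s > 1` (MP_1a422c_an, all-p version)
-/

set_option linter.unusedSectionVars false

open Finset

namespace MP_1a422c_an

variable {ι : Type*} [Fintype ι] [DecidableEq ι]

/-- Sum of the geometric sequence cut at `2^a < t`. -/
lemma sum_rpow_lt {β : ℝ} (hβ : 0 < β) (N : ℕ) (t : ℝ) (ht : 0 ≤ t) :
    ∑ a ∈ range N, (if (2 : ℝ) ^ a < t then ((2 : ℝ) ^ β) ^ a else 0)
      ≤ t ^ β * (2 ^ β / (2 ^ β - 1)) := by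
  have hq : (1 : ℝ) < 2 ^ β := Real.one_lt_rpow (by norm_num) hβ
  set q : ℝ := 2 ^ β with hqdef
  have hq1 : 0 < q - 1 := by linarith
  induction N with
  | zero => simpa using by positivity
  | succ N ih =>
    rw [Finset.sum_range_succ]
    by_cases h : (2 : ℝ) ^ N < t
    · rw [if_pos h]
      have h1 : ∑ a ∈ range N, (if (2 : ℝ) ^ a < t then q ^ a else 0)
          ≤ ∑ a ∈ range N, q ^ a := by
        apply Finset.sum_le_sum
        intro a _
        split_ifs
        · exact le_rfl
        · positivity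
      have h2 : ∑ a ∈ range N, q ^ a = (q ^ N - 1) / (q - 1) := geom_sum_eq hq.ne' N
      have h3 : q ^ N ≤ t ^ β := by
        rw [hqdef, ← Real.rpow_natCast, ← Real.rpow_mul (by norm_num), mul_comm,
          Real.rpow_mul (by norm_num), Real.rpow_natCast]
        exact Real.rpow_le_rpow (by positivity) h.le hβ.le
      have h4 : (q ^ N - 1) / (q - 1) + q ^ N ≤ q ^ N * (q / (q - 1)) := by
        rw [div_add' _ _ _ hq1.ne', mul_div_assoc', div_le_div_iff_of_pos_right hq1]
        nlinarith
      have h5 : q ^ N * (q / (q - 1)) ≤ t ^ β * (q / (q - 1)) :=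
        mul_le_mul_of_nonneg_right h3 (by positivity)
      linarith
    · rw [if_neg h]
      linarith

lemma sum_half_pow_lin (R : ℕ) :
    ∑ r ∈ range R, (1 / 2 : ℝ) ^ r * (1 + 2 * r) ≤ 6 := by
  have : ∀ R : ℕ, ∑ r ∈ range R, (1 / 2 : ℝ) ^ r * (1 + 2 * r) = 6 - (4 * R + 6) * (1 / 2) ^ R := by
    intro R
    induction R with
    | zero => simp
    | succ R ih =>
      rw [Finset.sum_range_succ, ih, pow_succ]
      push_cast
      ring
  rw [this]
  have : (0 : ℝ) ≤ (4 * R + 6) * (1 / 2) ^ R := by positivity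
  linarith

/-- One step majorant, exponent `s`. -/
lemma exists_step_rpow {s : ℝ} (hs : 1 < s) : ∃ C : ℝ, 1 ≤ C ∧
    ∀ {ι : Type*} [Fintype ι] [DecidableEq ι] (v : ℕ → Finset ι) (K : ℕ) (_ : LevSeqU v K)
    (W : (ι → Bool) → ℝ) (_ : ∀ x, 0 < W x),
    ∃ V : (ι → Bool) → ℝ, (∀ x, 0 < V x) ∧
      mean (fun x => V x ^ s) ≤ C * mean (fun x => W x ^ s) ∧
      ∀ i < K, ∀ x, E (v i) W x * E (v i) (fun y => (V y)⁻¹) x ≤ 11 := by
  -- choice of k
  obtain ⟨k, hk⟩ : ∃ k : ℕ, 1 / (s - 1) < k := exists_nat_gt _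
  have hs1 : 0 < s - 1 := by linarith
  have hk0' : (0 : ℝ) < k := lt_trans (by positivity) hk
  have hk1 : 1 ≤ k := by
    by_contra h
    have : k = 0 := by omega
    rw [this] at hk0'
    simp at hk0'
  set σ : ℝ := 1 + 1 / (k : ℝ) with hσ
  have hσs : σ < s := by
    rw [div_lt_iff₀ hs1] at hk
    have : 1 / (k : ℝ) < s - 1 := by
      rw [div_lt_iff₀ hk0']; linarith
    linarith
  have hσ0 : 0 < σ := by rw [hσ]; positivity
  set β : ℝ := s - σ with hβ
  have hβ0 : 0 < β := by rw [hβ]; linarith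
  set D : ℝ := max 1 ((k + 1) * 2 ^ k * Aconst 1 k 1) with hD
  have hD1 : 1 ≤ D := le_max_left _ _
  have hq : (1 : ℝ) < 2 ^ β := Real.one_lt_rpow (by norm_num) hβ0
  set G : ℝ := 2 ^ β / (2 ^ β - 1) with hG
  have hG0 : 0 < G := by
    have : (0 : ℝ) < 2 ^ β - 1 := by linarith
    rw [hG]; positivity
  have hC0 : 0 ≤ 6 * D * 2 ^ s * G := by positivity
  refine ⟨1 + 6 * D * 2 ^ s * G, by linarith, ?_⟩
  intro ι _ _ v K hv W hW
  -- lower bound `c` for `W`
  obtain ⟨x0, hx0⟩ := Finite.exists_min W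
  set c : ℝ := W x0 with hc
  have hc0 : 0 < c := hW x0
  have hcW : ∀ x, c ≤ W x := hx0
  obtain ⟨x1, hx1⟩ := Finite.exists_max W
  set M : ℝ := W x1 with hM
  have hM0 : 0 < M := hW x1
  have hWM : ∀ x, W x ≤ M := hx1
  -- number of levels
  obtain ⟨N, hN⟩ : ∃ N : ℕ, M / c < 2 ^ N := pow_unbounded_of_one_lt _ (by norm_num)
  obtain ⟨R, hR⟩ : ∃ R : ℕ, M / c < 4 ^ R := pow_unbounded_of_one_lt _ (by norm_num)
  -- truncated weights
  set Wt : ℕ → (ι → Bool) → ℝ := fun a x => if c * 2 ^ a < 2 * W x then W x else 0 with hWt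
  have hWt0 : ∀ a x, 0 ≤ Wt a x := by
    intro a x
    simp only [hWt]
    split_ifs
    · exact (hW x).le
    · exact le_rfl
  have hcov : ∀ a r : ℕ, ∃ U : Set (ι → Bool),
      (∀ i < K, ∀ x, c * 2 ^ a / 2 ≤ E (v i) (Wt a) x →
        1 - (1 / 4 : ℝ) ^ r ≤ E (v i) (ind U) x) ∧
      (c * 2 ^ a / 2) ^ σ * mean (ind U) ≤ D * (1 + Real.log (((1 / 4 : ℝ) ^ r)⁻¹)) *
        mean (fun x => Wt a x ^ σ) := by
    intro a r
    apply exists_cover_pow k hk1 v K hv (Wt a) (hWt0 a)
    · positivity
    · positivity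
    · exact pow_le_one₀ (by norm_num) (by norm_num)
  choose U hU1 hU2 using hcov
  -- the sum of powers
  set cf : ℕ → ℕ → ℝ := fun a r => (c * 2 ^ a * (1 / 2) ^ r) ^ s with hcf
  have hcf0 : ∀ a r, 0 ≤ cf a r := fun a r => by simp only [hcf]; positivity
  set S : (ι → Bool) → ℝ := fun x =>
    c ^ s + ∑ a ∈ range N, ∑ r ∈ range (R + 1), cf a r * ind (U a r) x with hS
  have hSterm : ∀ a r x, 0 ≤ cf a r * ind (U a r) x := fun a r x =>
    mul_nonneg (hcf0 a r) (ind_nonneg _ _)
  have hSc : ∀ x, c ^ s ≤ S x := by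
    intro x
    simp only [hS]
    have : 0 ≤ ∑ a ∈ range N, ∑ r ∈ range (R + 1), cf a r * ind (U a r) x :=
      Finset.sum_nonneg (fun a _ => Finset.sum_nonneg (fun r _ => hSterm a r x))
    linarith
  have hs0 : 0 < s := by linarith
  have hroot : ∀ x, ∃ y : ℝ, 0 < y ∧ y ^ s = S x := by
    intro x
    have hpos : 0 < S x := lt_of_lt_of_le (by positivity) (hSc x)
    exact ⟨(S x) ^ s⁻¹, Real.rpow_pos_of_pos hpos _, Real.rpow_inv_rpow hpos.le hs0.ne'⟩
  choose V hV0 hV3 using hroot
  have hVge : ∀ x (b : ℝ), 0 ≤ b → b ^ s ≤ S x → b ≤ V x := by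
    intro x b hb hbS
    rw [← hV3 x] at hbS
    exact (Real.rpow_le_rpow_iff hb (hV0 x).le hs0).mp hbS
  have hVc : ∀ x, c ≤ V x := fun x => hVge x c hc0.le (hSc x)
  have hVU : ∀ a < N, ∀ r ≤ R, ∀ x ∈ U a r, c * 2 ^ a * (1 / 2) ^ r ≤ V x := by
    intro a ha r hr x hx
    apply hVge x _ (by positivity)
    simp only [hS]
    have h1 : cf a r * ind (U a r) x
        ≤ ∑ r ∈ range (R + 1), cf a r * ind (U a r) x :=
      Finset.single_le_sum (f := fun r => cf a r * ind (U a r) x)
        (fun r _ => hSterm a r x) (Finset.mem_range.mpr (by omega))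
    have h2 : ∑ r ∈ range (R + 1), cf a r * ind (U a r) x
        ≤ ∑ a ∈ range N, ∑ r ∈ range (R + 1), cf a r * ind (U a r) x :=
      Finset.single_le_sum
        (f := fun a => ∑ r ∈ range (R + 1), cf a r * ind (U a r) x)
        (fun a _ => Finset.sum_nonneg (fun r _ => hSterm a r x)) (Finset.mem_range.mpr ha)
    rw [ind_of_mem hx, mul_one] at h1
    have h3 : 0 < c ^ s := by positivity
    have h4 : (c * 2 ^ a * (1 / 2) ^ r) ^ s = cf a r := rfl
    linarith
  refine ⟨V, hV0, ?_, ?_⟩
  · -- the moment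
    have e1 : mean (fun x => V x ^ s) = c ^ s + ∑ a ∈ range N, ∑ r ∈ range (R + 1),
        cf a r * mean (ind (U a r)) := by
      rw [mean_congr hV3]
      simp only [hS]
      rw [mean_add, mean_const, mean_sum]
      congr 1
      apply Finset.sum_congr rfl; intro a _
      rw [mean_sum]
      apply Finset.sum_congr rfl; intro r _
      rw [mean_mul_left]
    have e2 : ∀ a r, cf a r * mean (ind (U a r))
        ≤ D * 2 ^ σ * (c * 2 ^ a) ^ β * ((1 / 2) ^ r * (1 + 2 * r)) *
          mean (fun x => Wt a x ^ σ) := by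
      intro a r
      have h := hU2 a r
      have hca : 0 < c * 2 ^ a := by positivity
      have hlog : Real.log (((1 / 4 : ℝ) ^ r)⁻¹) ≤ 2 * r := by
        rw [Real.log_inv, Real.log_pow]
        have h4 : Real.log (1 / 4 : ℝ) = - (2 * Real.log 2) := by
          rw [one_div, Real.log_inv]
          have : (4 : ℝ) = 2 ^ 2 := by norm_num
          rw [this, Real.log_pow]; push_cast; ring
        rw [h4]
        have h5 : Real.log 2 ≤ 1 := by
          have := Real.log_two_lt_d9; linarith
        have : (0 : ℝ) ≤ r := by positivity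
        nlinarith
      have hmW : 0 ≤ mean (fun x => Wt a x ^ σ) :=
        mean_nonneg (fun x => Real.rpow_nonneg (hWt0 a x) _)
      have h6 : cf a r = ((1 / 2 : ℝ) ^ r) ^ s * (c * 2 ^ a) ^ β * 2 ^ σ * (c * 2 ^ a / 2) ^ σ := by
        simp only [hcf]
        rw [Real.mul_rpow hca.le (by positivity), Real.div_rpow hca.le (by norm_num)]
        have : s = β + σ := by rw [hβ]; ring
        nth_rewrite 1 [this]
        rw [Real.rpow_add hca]
        have h2σ : (0 : ℝ) < 2 ^ σ := by positivity
        field_simp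
      have h7 : ((1 / 2 : ℝ) ^ r) ^ s ≤ (1 / 2) ^ r := by
        have h8 : (1 / 2 : ℝ) ^ r ≤ 1 := pow_le_one₀ (by norm_num) (by norm_num)
        calc ((1 / 2 : ℝ) ^ r) ^ s ≤ ((1 / 2 : ℝ) ^ r) ^ (1 : ℝ) :=
              Real.rpow_le_rpow_of_exponent_ge (by positivity) h8 hs.le
          _ = _ := Real.rpow_one _
      have h9 : 0 ≤ D * (1 + Real.log (((1 / 4 : ℝ) ^ r)⁻¹)) * mean (fun x => Wt a x ^ σ) := by
        refine le_trans ?_ h
        exact mul_nonneg (by positivity) (mean_nonneg (fun _ => ind_nonneg _ _))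
      calc cf a r * mean (ind (U a r))
          = (((1 / 2 : ℝ) ^ r) ^ s * ((c * 2 ^ a) ^ β * 2 ^ σ)) *
            ((c * 2 ^ a / 2) ^ σ * mean (ind (U a r))) := by rw [h6]; ring
        _ ≤ (((1 / 2 : ℝ) ^ r) ^ s * ((c * 2 ^ a) ^ β * 2 ^ σ)) *
            (D * (1 + Real.log (((1 / 4 : ℝ) ^ r)⁻¹)) * mean (fun x => Wt a x ^ σ)) :=
            mul_le_mul_of_nonneg_left h (by positivity)
        _ ≤ ((1 / 2 : ℝ) ^ r * ((c * 2 ^ a) ^ β * 2 ^ σ)) *
            (D * (1 + Real.log (((1 / 4 : ℝ) ^ r)⁻¹)) * mean (fun x => Wt a x ^ σ)) :=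
            mul_le_mul_of_nonneg_right
              (mul_le_mul_of_nonneg_right h7 (by positivity)) h9
        _ ≤ ((1 / 2 : ℝ) ^ r * ((c * 2 ^ a) ^ β * 2 ^ σ)) *
            (D * (1 + 2 * r) * mean (fun x => Wt a x ^ σ)) := by
            apply mul_le_mul_of_nonneg_left _ (by positivity)
            apply mul_le_mul_of_nonneg_right _ hmW
            apply mul_le_mul_of_nonneg_left _ (by linarith)
            linarith
        _ = _ := by ring
    have e3 : ∀ a, ∑ r ∈ range (R + 1), cf a r * mean (ind (U a r))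
        ≤ 6 * D * 2 ^ σ * (c * 2 ^ a) ^ β * mean (fun x => Wt a x ^ σ) := by
      intro a
      have hm0 : 0 ≤ mean (fun x => Wt a x ^ σ) :=
        mean_nonneg (fun x => Real.rpow_nonneg (hWt0 a x) _)
      calc ∑ r ∈ range (R + 1), cf a r * mean (ind (U a r))
          ≤ ∑ r ∈ range (R + 1), D * 2 ^ σ * (c * 2 ^ a) ^ β * ((1 / 2) ^ r * (1 + 2 * r)) *
          mean (fun x => Wt a x ^ σ) :=
            Finset.sum_le_sum (fun r _ => e2 a r)
        _ = D * 2 ^ σ * (c * 2 ^ a) ^ β * mean (fun x => Wt a x ^ σ) *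
            ∑ r ∈ range (R + 1), (1 / 2 : ℝ) ^ r * (1 + 2 * r) := by
            rw [Finset.mul_sum]
            apply Finset.sum_congr rfl; intro r _
            ring
        _ ≤ D * 2 ^ σ * (c * 2 ^ a) ^ β * mean (fun x => Wt a x ^ σ) * 6 :=
            mul_le_mul_of_nonneg_left (sum_half_pow_lin _) (by positivity)
        _ = _ := by ring
    have e4 : ∑ a ∈ range N, 6 * D * 2 ^ σ * (c * 2 ^ a) ^ β * mean (fun x => Wt a x ^ σ)
        ≤ 6 * D * 2 ^ s * G * mean (fun x => W x ^ s) := by
      have : ∑ a ∈ range N, 6 * D * 2 ^ σ * (c * 2 ^ a) ^ β * mean (fun x => Wt a x ^ σ)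
          = mean (fun x => ∑ a ∈ range N, 6 * D * 2 ^ σ * (c * 2 ^ a) ^ β * Wt a x ^ σ) := by
        rw [mean_sum]
        apply Finset.sum_congr rfl; intro a _
        rw [mean_mul_left]
      rw [this, ← mean_mul_left]
      apply mean_mono
      intro x
      have hWx := hW x
      have h1 : ∀ a ∈ range N, 6 * D * 2 ^ σ * (c * 2 ^ a) ^ β * Wt a x ^ σ
          = 6 * D * 2 ^ σ * c ^ β * W x ^ σ *
            (if (2 : ℝ) ^ a < 2 * W x / c then ((2 : ℝ) ^ β) ^ a else 0) := by
        intro a _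
        have hpw : (c * 2 ^ a) ^ β = c ^ β * (2 ^ β) ^ a := by
          rw [Real.mul_rpow hc0.le (by positivity)]
          congr 1
          rw [← Real.rpow_natCast, ← Real.rpow_natCast, ← Real.rpow_mul (by norm_num),
            ← Real.rpow_mul (by norm_num), mul_comm]
        simp only [hWt]
        by_cases h : c * 2 ^ a < 2 * W x
        · have h' : (2 : ℝ) ^ a < 2 * W x / c := by
            rw [lt_div_iff₀ hc0]; linarith
          rw [if_pos h, if_pos h', hpw]; ring
        · have h' : ¬ (2 : ℝ) ^ a < 2 * W x / c := by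
            rw [lt_div_iff₀ hc0]; intro h2; apply h; linarith
          rw [if_neg h, if_neg h', Real.zero_rpow hσ0.ne']; ring
      rw [Finset.sum_congr rfl h1, ← Finset.mul_sum]
      have h2 := sum_rpow_lt hβ0 N (2 * W x / c) (by positivity)
      have h3 : 0 ≤ 6 * D * 2 ^ σ * c ^ β * W x ^ σ := by positivity
      calc 6 * D * 2 ^ σ * c ^ β * W x ^ σ *
            ∑ a ∈ range N, (if (2 : ℝ) ^ a < 2 * W x / c then ((2 : ℝ) ^ β) ^ a else 0)
          ≤ 6 * D * 2 ^ σ * c ^ β * W x ^ σ * ((2 * W x / c) ^ β * G) :=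
            mul_le_mul_of_nonneg_left h2 h3
        _ = 6 * D * (2 ^ β * 2 ^ σ) * G * (W x ^ β * W x ^ σ) := by
            rw [Real.div_rpow (by positivity) hc0.le, Real.mul_rpow (by norm_num) hWx.le]
            have : (0 : ℝ) < c ^ β := by positivity
            field_simp
        _ = 6 * D * 2 ^ s * G * W x ^ s := by
            rw [← Real.rpow_add (by norm_num), ← Real.rpow_add hWx]
            have : β + σ = s := by rw [hβ]; ring
            rw [this]
    have e5 : c ^ s ≤ mean (fun x => W x ^ s) := by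
      rw [← mean_const (ι := ι) (c ^ s)]
      apply mean_mono
      intro x
      exact Real.rpow_le_rpow hc0.le (hcW x) hs0.le
    rw [e1]
    have e6 : ∑ a ∈ range N, ∑ r ∈ range (R + 1),
        cf a r * mean (ind (U a r)) ≤ 6 * D * 2 ^ s * G * mean (fun x => W x ^ s) :=
      (Finset.sum_le_sum (fun a _ => e3 a)).trans e4
    linarith
  · -- the product bound
    intro i hi x
    -- the level of the average
    have hEc : c ≤ E (v i) W x := by
      have := E_mono (v i) hcW x
      rwa [E_const] at this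
    have hEM : E (v i) W x ≤ M := by
      have := E_mono (v i) hWM x
      rwa [E_const] at this
    -- find `a`
    obtain ⟨a, haN, ha1, ha2⟩ : ∃ a : ℕ, a < N ∧ c * 2 ^ a ≤ E (v i) W x ∧
        E (v i) W x < c * 2 ^ (a + 1) := by
      have hex : ∃ n : ℕ, E (v i) W x < c * 2 ^ n := by
        refine ⟨N, lt_of_le_of_lt hEM ?_⟩
        rw [div_lt_iff₀ hc0] at hN
        linarith
      classical
      have hspec := Nat.find_spec hex
      have hne : Nat.find hex ≠ 0 := by
        intro h0
        rw [h0] at hspec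
        simp only [pow_zero, mul_one] at hspec
        linarith
      obtain ⟨a, ha⟩ := Nat.exists_eq_succ_of_ne_zero hne
      refine ⟨a, ?_, ?_, ?_⟩
      · have hle : Nat.find hex ≤ N := Nat.find_min' hex (by
          rw [div_lt_iff₀ hc0] at hN
          exact lt_of_le_of_lt hEM (by linarith))
        omega
      · have := Nat.find_min hex (m := a) (by omega)
        push Not at this
        exact this
      · rw [ha] at hspec
        exact hspec
    have hWtE : c * 2 ^ a / 2 ≤ E (v i) (Wt a) x := by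
      have h1 : E (v i) W x ≤ E (v i) (fun y => Wt a y + c * 2 ^ a / 2) x := by
        apply E_mono
        intro y
        simp only [hWt]
        split_ifs with h
        · have : 0 < c * 2 ^ a / 2 := by positivity
          linarith
        · push Not at h
          linarith
      rw [E_add, E_const] at h1
      linarith
    have hprob : ∀ r, E (v i) (fun y => 1 - ind (U a r) y) x ≤ (1 / 4 : ℝ) ^ r := by
      intro r
      rw [E_sub, E_const]
      have := hU1 a r i hi x hWtE
      linarith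
    -- pointwise bound of 1/V
    have hpt : ∀ y, (V y)⁻¹ ≤ (c * 2 ^ a)⁻¹ * (1 + ∑ r ∈ range R,
        (2 : ℝ) ^ (r + 1) * (1 - ind (U a r) y)) + c⁻¹ * (1 - ind (U a R) y) := by
      intro y
      have hterm : ∀ r, 0 ≤ (2 : ℝ) ^ (r + 1) * (1 - ind (U a r) y) := fun r =>
        mul_nonneg (by positivity) (by have := ind_le_one (U a r) y; linarith)
      have hlast : 0 ≤ c⁻¹ * (1 - ind (U a R) y) :=
        mul_nonneg (by positivity) (by have := ind_le_one (U a R) y; linarith)
      have hca : 0 < (c * 2 ^ a)⁻¹ := by positivity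
      have hs0 : 0 ≤ ∑ r ∈ range R, (2 : ℝ) ^ (r + 1) * (1 - ind (U a r) y) :=
        Finset.sum_nonneg (fun r _ => hterm r)
      by_cases hyR : y ∈ U a R
      · -- first index
        classical
        have hex : ∃ r, r ≤ R ∧ y ∈ U a r := ⟨R, le_rfl, hyR⟩
        obtain ⟨hr1, hr2⟩ := Nat.find_spec hex
        set r := Nat.find hex with hr
        have hV1 := hVU a haN r hr1 y hr2
        have hVinv : (V y)⁻¹ ≤ (c * 2 ^ a)⁻¹ * 2 ^ r := by
          calc (V y)⁻¹ ≤ (c * 2 ^ a * (1 / 2) ^ r)⁻¹ := by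
                apply inv_anti₀ (by positivity) hV1
            _ = (c * 2 ^ a)⁻¹ * 2 ^ r := by
                rw [mul_inv]; congr 1
                rw [one_div, inv_pow, inv_inv]
        rcases Nat.eq_zero_or_pos r with h0 | hpos
        · rw [h0, pow_zero, mul_one] at hVinv
          have : (c * 2 ^ a)⁻¹ ≤ (c * 2 ^ a)⁻¹ * (1 + ∑ r ∈ range R,
              (2 : ℝ) ^ (r + 1) * (1 - ind (U a r) y)) := by
            nlinarith
          linarith
        · obtain ⟨s, hs⟩ := Nat.exists_eq_succ_of_ne_zero hpos.ne'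
          have hsR : s < R := by omega
          have hsU : y ∉ U a s := by
            intro hys
            have := Nat.find_min hex (m := s) (by omega)
            exact this ⟨by omega, hys⟩
          have h1 : (2 : ℝ) ^ r ≤ ∑ r ∈ range R, (2 : ℝ) ^ (r + 1) * (1 - ind (U a r) y) := by
            have := Finset.single_le_sum
              (f := fun r => (2 : ℝ) ^ (r + 1) * (1 - ind (U a r) y))
              (fun r _ => hterm r) (Finset.mem_range.mpr hsR)
            simp only [ind_of_notMem hsU, sub_zero, mul_one] at this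
            rw [hs]
            exact this
          have : (c * 2 ^ a)⁻¹ * 2 ^ r ≤ (c * 2 ^ a)⁻¹ * (1 + ∑ r ∈ range R,
              (2 : ℝ) ^ (r + 1) * (1 - ind (U a r) y)) := by
            apply mul_le_mul_of_nonneg_left _ hca.le
            linarith
          linarith
      · have h1 : (V y)⁻¹ ≤ c⁻¹ := inv_anti₀ hc0 (hVc y)
        rw [ind_of_notMem hyR, sub_zero, mul_one]
        have : 0 ≤ (c * 2 ^ a)⁻¹ * (1 + ∑ r ∈ range R,
              (2 : ℝ) ^ (r + 1) * (1 - ind (U a r) y)) := by positivity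
        linarith
    have hE : E (v i) (fun y => (V y)⁻¹) x ≤ (c * 2 ^ a)⁻¹ * 5 + c⁻¹ * (1 / 4) ^ R := by
      refine (E_mono (v i) hpt x).trans ?_
      rw [E_add, E_mul_left, E_add, E_const, E_sum, E_mul_left]
      have h1 : ∑ r ∈ range R, E (v i) (fun y => (2 : ℝ) ^ (r + 1) * (1 - ind (U a r) y)) x ≤ 4 := by
        calc ∑ r ∈ range R, E (v i) (fun y => (2 : ℝ) ^ (r + 1) * (1 - ind (U a r) y)) x
            ≤ ∑ r ∈ range R, 2 * (1 / 2 : ℝ) ^ r := by
              apply Finset.sum_le_sum
              intro r _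
              rw [E_mul_left]
              have h2 := hprob r
              calc (2 : ℝ) ^ (r + 1) * E (v i) (fun y => 1 - ind (U a r) y) x
                  ≤ (2 : ℝ) ^ (r + 1) * (1 / 4) ^ r := mul_le_mul_of_nonneg_left h2 (by positivity)
                _ = 2 * (2 * (1 / 4)) ^ r := by rw [mul_pow]; ring
                _ = 2 * (1 / 2 : ℝ) ^ r := by norm_num
          _ = 2 * ∑ r ∈ range R, (1 / 2 : ℝ) ^ r := by rw [Finset.mul_sum]
          _ ≤ 2 * 2 := mul_le_mul_of_nonneg_left (sum_half_pow R) (by norm_num)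
          _ = 4 := by norm_num
      have h3 := hprob R
      have hca : 0 < (c * 2 ^ a)⁻¹ := by positivity
      have hci : 0 < c⁻¹ := by positivity
      apply add_le_add
      · apply mul_le_mul_of_nonneg_left _ hca.le
        linarith
      · exact mul_le_mul_of_nonneg_left h3 hci.le
    have hE0 : 0 ≤ E (v i) (fun y => (V y)⁻¹) x :=
      E_nonneg (v i) (fun y => (inv_pos.mpr (hV0 y)).le) x
    have hEW0 : 0 ≤ E (v i) W x := le_trans hc0.le hEc
    calc E (v i) W x * E (v i) (fun y => (V y)⁻¹) x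
        ≤ E (v i) W x * ((c * 2 ^ a)⁻¹ * 5 + c⁻¹ * (1 / 4) ^ R) :=
          mul_le_mul_of_nonneg_left hE hEW0
      _ = E (v i) W x * ((c * 2 ^ a)⁻¹ * 5) + E (v i) W x * (c⁻¹ * (1 / 4) ^ R) := by ring
      _ ≤ 10 + 1 := by
          apply add_le_add
          · calc E (v i) W x * ((c * 2 ^ a)⁻¹ * 5)
                ≤ (c * 2 ^ (a + 1)) * ((c * 2 ^ a)⁻¹ * 5) :=
                  mul_le_mul_of_nonneg_right ha2.le (by positivity)
              _ = 10 := by field_simp; ring
          · calc E (v i) W x * (c⁻¹ * (1 / 4) ^ R)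
                ≤ M * (c⁻¹ * (1 / 4) ^ R) := mul_le_mul_of_nonneg_right hEM (by positivity)
              _ = (M / c) * (1 / 4) ^ R := by ring
              _ ≤ 4 ^ R * (1 / 4) ^ R := mul_le_mul_of_nonneg_right hR.le (by positivity)
              _ = 1 := by rw [← mul_pow]; norm_num
      _ = 11 := by norm_num

/-- The finite sum `∑_{k ≤ n} ε^k V^k W`. -/
noncomputable def msumE (ε : ℝ) (V : ((ι → Bool) → ℝ) → ((ι → Bool) → ℝ)) (n : ℕ)
    (W : (ι → Bool) → ℝ) : (ι → Bool) → ℝ :=
  fun x => ∑ k ∈ range (n + 1), ε ^ k * (V^[k] W) x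

lemma msumE_succ (ε : ℝ) (V : ((ι → Bool) → ℝ) → ((ι → Bool) → ℝ)) (n : ℕ)
    (W : (ι → Bool) → ℝ) (x : ι → Bool) :
    msumE ε V (n + 1) W x = W x + ε * msumE ε V n (V W) x := by
  unfold msumE
  rw [Finset.sum_range_succ', add_comm]
  congr 1
  · simp
  · rw [Finset.mul_sum]
    apply Finset.sum_congr rfl
    intro k _
    rw [Function.iterate_succ_apply]
    ring

lemma add_rpow_le' {s a b : ℝ} (hs : 1 ≤ s) (ha : 0 ≤ a) (hb : 0 ≤ b) :
    (a + b) ^ s ≤ 2 ^ (s - 1) * (a ^ s + b ^ s) := by
  have := NNReal.rpow_add_le_mul_rpow_add_rpow ⟨a, ha⟩ ⟨b, hb⟩ hs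
  exact_mod_cast this

/-- **The A₂ majorant, exponent `s > 1`.** -/
theorem exists_majorant_rpow {s : ℝ} (hs : 1 < s) : ∃ A : ℝ, 1 ≤ A ∧
    ∀ {ι : Type*} [Fintype ι] [DecidableEq ι] (v : ℕ → Finset ι) (K : ℕ) (_ : LevSeqU v K)
    (W : (ι → Bool) → ℝ) (_ : ∀ x, 0 < W x),
    ∃ W' : (ι → Bool) → ℝ, (∀ x, W x ≤ W' x) ∧
      mean (fun x => W' x ^ s) ≤ 2 ^ s * mean (fun x => W x ^ s) ∧
      ∀ i < K, ∀ x, E (v i) W' x * E (v i) (fun y => (W' y)⁻¹) x ≤ A := by
  obtain ⟨C, hC1, hstep⟩ := exists_step_rpow hs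
  have hs0 : 0 < s := by linarith
  have hC0 : 0 < C := by linarith
  set θ : ℝ := C ^ s⁻¹ with hθ
  have hθ1 : 1 ≤ θ := Real.one_le_rpow hC1 (by positivity)
  have hθ0 : 0 < θ := by linarith
  have hθs : θ ^ s = C := Real.rpow_inv_rpow hC0.le hs0.ne'
  set ε : ℝ := (2 * θ)⁻¹ with hε
  have hε0 : 0 < ε := by positivity
  have hεθ : ε * θ = 1 / 2 := by rw [hε]; field_simp
  refine ⟨22 * θ, by linarith, ?_⟩
  intro ι _ _ v K hv W hW
  choose! V hV0 hV3 hVA using hstep v K hv
  -- the iterates
  have hpos : ∀ k x, 0 < (V^[k] W) x := by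
    intro k
    induction k with
    | zero => simpa using hW
    | succ k ih =>
      intro x
      rw [Function.iterate_succ_apply']
      exact hV0 _ ih x
  have hm : ∀ k, mean (fun x => (V^[k] W) x ^ s) ≤ C ^ k * mean (fun x => W x ^ s) := by
    intro k
    induction k with
    | zero => simp
    | succ k ih =>
      have h1 := hV3 (V^[k] W) (hpos k)
      rw [Function.iterate_succ_apply', pow_succ]
      calc _ ≤ _ := h1
        _ ≤ C * (C ^ k * mean (fun x => W x ^ s)) :=
            mul_le_mul_of_nonneg_left ih hC0.le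
        _ = _ := by ring
  have hM0 : 0 ≤ mean (fun x => W x ^ s) := mean_nonneg (fun x => by have := hW x; positivity)
  -- growth bound
  set D : ℝ := (mean (fun x => W x ^ s) * 2 ^ Fintype.card ι) ^ s⁻¹ with hD
  have hD0 : 0 ≤ D := by positivity
  have hDs : D ^ s = mean (fun x => W x ^ s) * 2 ^ Fintype.card ι :=
    Real.rpow_inv_rpow (by positivity) hs0.ne'
  have hgrow : ∀ k x, (V^[k] W) x ≤ θ ^ k * D := by
    intro k x
    have h1 : (V^[k] W) x ^ s ≤ mean (fun x => (V^[k] W) x ^ s) * 2 ^ Fintype.card ι :=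
      le_mean_mul (f := fun x => (V^[k] W) x ^ s)
        (fun y => by have := hpos k y; positivity) x
    have h2 : (V^[k] W) x ^ s ≤ (θ ^ k * D) ^ s := by
      calc _ ≤ _ := h1
        _ ≤ (C ^ k * mean (fun x => W x ^ s)) * 2 ^ Fintype.card ι :=
            mul_le_mul_of_nonneg_right (hm k) (by positivity)
        _ = C ^ k * D ^ s := by rw [hDs]; ring
        _ = (θ ^ k * D) ^ s := by
            rw [Real.mul_rpow (by positivity) hD0, ← hθs]
            congr 1
            rw [← Real.rpow_natCast, ← Real.rpow_natCast, ← Real.rpow_mul hθ0.le,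
              ← Real.rpow_mul hθ0.le, mul_comm]
    exact (Real.rpow_le_rpow_iff (hpos k x).le (by positivity) hs0).mp h2
  -- choose n
  obtain ⟨x0, hx0⟩ := Finite.exists_min W
  have hc0 : 0 < W x0 := hW x0
  obtain ⟨n, hn⟩ : ∃ n : ℕ, D / W x0 < 2 ^ n := pow_unbounded_of_one_lt _ (by norm_num)
  have hlast : ∀ x, ε ^ (n + 1) * (V^[n + 1] W) x ≤ W x := by
    intro x
    calc ε ^ (n + 1) * (V^[n + 1] W) x ≤ ε ^ (n + 1) * (θ ^ (n + 1) * D) :=
          mul_le_mul_of_nonneg_left (hgrow _ x) (by positivity)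
      _ = (1 / 2 : ℝ) ^ (n + 1) * D := by
          rw [← mul_assoc, ← mul_pow, hεθ]
      _ ≤ (1 / 2 : ℝ) ^ n * D := by
          apply mul_le_mul_of_nonneg_right _ hD0
          apply pow_le_pow_of_le_one (by norm_num) (by norm_num) (by omega)
      _ ≤ (1 / 2 : ℝ) ^ n * (2 ^ n * W x0) := by
          apply mul_le_mul_of_nonneg_left _ (by positivity)
          rw [div_lt_iff₀ hc0] at hn
          exact hn.le
      _ = W x0 := by rw [← mul_assoc, ← mul_pow]; norm_num
      _ ≤ W x := hx0 x
  set W' := msumE ε V n W with hW'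
  have hWW' : ∀ x, W x ≤ W' x := by
    intro x
    simp only [hW', msumE]
    have := Finset.single_le_sum (f := fun k => ε ^ k * (V^[k] W) x)
      (fun k _ => mul_nonneg (by positivity) (hpos k x).le) (Finset.mem_range.mpr (Nat.succ_pos n))
    simpa using this
  have hW'0 : ∀ x, 0 < W' x := fun x => lt_of_lt_of_le (hW x) (hWW' x)
  refine ⟨W', hWW', ?_, ?_⟩
  · -- moment, by induction on n
    have hcoef : 2 ^ (s - 1) * (ε ^ s * C) = 1 / 2 := by
      rw [← hθs, ← Real.mul_rpow hε0.le hθ0.le, hεθ, one_div, Real.inv_rpow (by norm_num),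
        Real.rpow_sub (by norm_num), Real.rpow_one]
      have : (0 : ℝ) < 2 ^ s := by positivity
      field_simp
    have hhalf : (2 : ℝ) ^ (s - 1) = 2 ^ s / 2 := by
      rw [Real.rpow_sub (by norm_num), Real.rpow_one]
    have hind : ∀ n : ℕ, ∀ W : (ι → Bool) → ℝ, (∀ x, 0 < W x) →
        (∀ x, 0 < msumE ε V n W x) ∧
        mean (fun x => msumE ε V n W x ^ s) ≤ 2 ^ s * mean (fun x => W x ^ s) := by
      intro n
      induction n with
      | zero =>
        intro W hW
        have h0 : ∀ x, msumE ε V 0 W x = W x := by intro x; simp [msumE]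
        refine ⟨fun x => by rw [h0]; exact hW x, ?_⟩
        simp only [h0]
        have h1 : 0 ≤ mean (fun x => W x ^ s) := mean_nonneg (fun x => by have := hW x; positivity)
        have h2 : (1 : ℝ) ≤ 2 ^ s := Real.one_le_rpow (by norm_num) hs0.le
        nlinarith
      | succ n ih =>
        intro W hW
        obtain ⟨ih0, ih3⟩ := ih (V W) (hV0 W hW)
        refine ⟨fun x => ?_, ?_⟩
        · rw [msumE_succ]
          have := hW x; have := ih0 x
          positivity
        · have h1 := hV3 W hW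
          have h2 : 0 ≤ mean (fun x => W x ^ s) := mean_nonneg (fun x => by have := hW x; positivity)
          calc mean (fun x => msumE ε V (n + 1) W x ^ s)
              ≤ mean (fun x => 2 ^ (s - 1) * (W x ^ s + ε ^ s * msumE ε V n (V W) x ^ s)) := by
                apply mean_mono
                intro x
                rw [msumE_succ]
                have h3 := add_rpow_le' hs.le (hW x).le
                  (b := ε * msumE ε V n (V W) x) (by have := ih0 x; positivity)
                rw [Real.mul_rpow hε0.le (ih0 x).le] at h3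
                exact h3
            _ = 2 ^ (s - 1) * (mean (fun x => W x ^ s) +
                  ε ^ s * mean (fun x => msumE ε V n (V W) x ^ s)) := by
                rw [mean_mul_left, mean_add, mean_mul_left]
            _ ≤ 2 ^ (s - 1) * (mean (fun x => W x ^ s) +
                  ε ^ s * (2 ^ s * (C * mean (fun x => W x ^ s)))) := by
                apply mul_le_mul_of_nonneg_left _ (by positivity)
                apply add_le_add le_rfl
                apply mul_le_mul_of_nonneg_left _ (by positivity)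
                exact ih3.trans (mul_le_mul_of_nonneg_left h1 (by positivity))
            _ = 2 ^ (s - 1) * mean (fun x => W x ^ s) +
                  (2 ^ (s - 1) * (ε ^ s * C)) * (2 ^ s * mean (fun x => W x ^ s)) := by ring
            _ = 2 ^ s * mean (fun x => W x ^ s) := by rw [hcoef, hhalf]; ring
    exact (hind n W hW).2
  · intro i hi x
    -- abbreviations
    set T : (ι → Bool) → ℝ := fun y => ∑ k ∈ range (n + 1), ε ^ k * (V^[k + 1] W) y with hT
    have hTle : ∀ y, ε * T y ≤ W' y := by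
      intro y
      have h1 : ε * T y + W y
          = W' y + ε ^ (n + 1) * (V^[n + 1] W) y := by
        have h2 : ∑ k ∈ range (n + 1 + 1), ε ^ k * (V^[k] W) y
            = ε * T y + W y := by
          rw [Finset.sum_range_succ']
          congr 1
          · simp only [hT]
            rw [Finset.mul_sum]
            apply Finset.sum_congr rfl
            intro k _
            rw [pow_succ]; ring
          · simp
        rw [← h2, Finset.sum_range_succ]
        rfl
      have h3 := hlast y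
      linarith
    set P := E (v i) W' x with hP
    set Q := E (v i) (fun y => (W' y)⁻¹) x with hQ
    have hQ0 : 0 < Q := E_pos (v i) (fun y => inv_pos.mpr (hW'0 y)) x
    have hP0 : 0 < P := E_pos (v i) hW'0 x
    have hk : ∀ k, Q ^ 2 * E (v i) (V^[k] W) x
        ≤ 11 * E (v i) (fun y => (V^[k + 1] W) y * ((W' y)⁻¹) ^ 2) x := by
      intro k
      have h1 := E_mul_sq_le (v i) (fun y => Real.sqrt ((V^[k + 1] W) y) * (W' y)⁻¹)
        (fun y => (Real.sqrt ((V^[k + 1] W) y))⁻¹) x
      have e1 : E (v i) (fun y => Real.sqrt ((V^[k + 1] W) y) * (W' y)⁻¹ *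
          (Real.sqrt ((V^[k + 1] W) y))⁻¹) x = Q := by
        apply E_congr
        intro y
        have := Real.sqrt_pos.mpr (hpos (k + 1) y)
        field_simp
      have e2 : E (v i) (fun y => (Real.sqrt ((V^[k + 1] W) y) * (W' y)⁻¹) ^ 2) x
          = E (v i) (fun y => (V^[k + 1] W) y * ((W' y)⁻¹) ^ 2) x := by
        apply E_congr
        intro y
        rw [mul_pow, Real.sq_sqrt (hpos (k + 1) y).le]
      have e3 : E (v i) (fun y => ((Real.sqrt ((V^[k + 1] W) y))⁻¹) ^ 2) x
          = E (v i) (fun y => ((V^[k + 1] W) y)⁻¹) x := by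
        apply E_congr
        intro y
        rw [inv_pow, Real.sq_sqrt (hpos (k + 1) y).le]
      rw [e1, e2, e3] at h1
      have h2 := hVA (V^[k] W) (hpos k) i hi x
      rw [← Function.iterate_succ_apply' V k W] at h2
      have hA0 : 0 ≤ E (v i) (fun y => (V^[k + 1] W) y * ((W' y)⁻¹) ^ 2) x :=
        E_nonneg (v i) (fun y => mul_nonneg (hpos _ y).le (sq_nonneg _)) x
      have hB0 : 0 ≤ E (v i) (V^[k] W) x := E_nonneg (v i) (fun y => (hpos k y).le) x
      calc Q ^ 2 * E (v i) (V^[k] W) x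
          ≤ (E (v i) (fun y => (V^[k + 1] W) y * ((W' y)⁻¹) ^ 2) x *
            E (v i) (fun y => ((V^[k + 1] W) y)⁻¹) x) * E (v i) (V^[k] W) x :=
            mul_le_mul_of_nonneg_right h1 hB0
        _ = E (v i) (fun y => (V^[k + 1] W) y * ((W' y)⁻¹) ^ 2) x *
            (E (v i) (V^[k] W) x * E (v i) (fun y => ((V^[k + 1] W) y)⁻¹) x) := by ring
        _ ≤ E (v i) (fun y => (V^[k + 1] W) y * ((W' y)⁻¹) ^ 2) x * 11 :=
            mul_le_mul_of_nonneg_left h2 hA0
        _ = _ := by ring
    have hsum : Q ^ 2 * P ≤ 11 * E (v i) (fun y => T y * ((W' y)⁻¹) ^ 2) x := by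
      have e1 : Q ^ 2 * P = ∑ k ∈ range (n + 1), ε ^ k * (Q ^ 2 * E (v i) (V^[k] W) x) := by
        have : P = ∑ k ∈ range (n + 1), ε ^ k * E (v i) (V^[k] W) x := by
          rw [hP, hW']
          unfold msumE
          rw [E_sum]
          apply Finset.sum_congr rfl
          intro k _
          rw [E_mul_left]
        rw [this, Finset.mul_sum]
        apply Finset.sum_congr rfl
        intro k _
        ring
      have e2 : 11 * E (v i) (fun y => T y * ((W' y)⁻¹) ^ 2) x
          = ∑ k ∈ range (n + 1), ε ^ k *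
            (11 * E (v i) (fun y => (V^[k + 1] W) y * ((W' y)⁻¹) ^ 2) x) := by
        have : E (v i) (fun y => T y * ((W' y)⁻¹) ^ 2) x
            = ∑ k ∈ range (n + 1), ε ^ k *
              E (v i) (fun y => (V^[k + 1] W) y * ((W' y)⁻¹) ^ 2) x := by
          rw [← Finset.sum_congr rfl (fun k _ => E_mul_left (v i) (ε ^ k)
            (fun y => (V^[k + 1] W) y * ((W' y)⁻¹) ^ 2) x), ← E_sum]
          apply E_congr
          intro y
          simp only [hT]
          rw [Finset.sum_mul]
          apply Finset.sum_congr rfl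
          intro k _
          ring
        rw [this, Finset.mul_sum]
        apply Finset.sum_congr rfl
        intro k _
        ring
      rw [e1, e2]
      apply Finset.sum_le_sum
      intro k _
      exact mul_le_mul_of_nonneg_left (hk k) (by positivity)
    have hTQ : E (v i) (fun y => T y * ((W' y)⁻¹) ^ 2) x ≤ 2 * θ * Q := by
      rw [hQ, ← E_mul_left]
      apply E_mono
      intro y
      have h1 := hW'0 y
      have h2 : T y ≤ 2 * θ * W' y := by
        have h3 := hTle y
        rw [hε, inv_mul_le_iff₀ (by positivity)] at h3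
        exact h3
      calc T y * ((W' y)⁻¹) ^ 2 ≤ (2 * θ * W' y) * ((W' y)⁻¹) ^ 2 :=
            mul_le_mul_of_nonneg_right h2 (sq_nonneg _)
        _ = 2 * θ * (W' y)⁻¹ := by field_simp
    have hfin : (P * Q) * Q ≤ (22 * θ) * Q := by
      calc (P * Q) * Q = Q ^ 2 * P := by ring
        _ ≤ _ := hsum
        _ ≤ 11 * (2 * θ * Q) := mul_le_mul_of_nonneg_left hTQ (by norm_num)
        _ = (22 * θ) * Q := by ring
    exact le_of_mul_le_mul_right hfin hQ0

end MP_1a422c_an
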