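import Pool.Agent.Work.MP_1a422c_an.FiniteL3
import Pool.Agent.Work.MP_1a422c_an.LevU
import Pool.Agent.Work.MP_1a422c_an.MajorantS

/-!
# The finite `L^p` inequality for all `1 < p < ∞`
-/

set_option linter.unusedSectionVars false

open Finset

namespace MP_1a422c_an

section big

variable {ι : Type*} [Fintype ι] [LinearOrder ι] {Λ : Type*} [LinearOrder Λ]

/-- The case `p = 2`. -/
lemma finite_L2 (ρ : ι → ι → Λ) (hρ : Subadd ρ)
    (c0 c0' : ℝ) (c c' : ι → ℝ) (φ φ' : ι → ι → (ι → Bool) → ℝ)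
    (hφ : ∀ a b, b < a → Dep (pre ρ a b) (φ a b))
    (hφ' : ∀ a b, b < a → Dep (pre ρ a b) (φ' a b))
    (h0 : |c0'| ≤ |c0|) (hc : ∀ a, |c' a| ≤ |c a|)
    (hh : ∀ a b x, b < a → |φ' a b x| ≤ |φ a b x|) :
    mean (fun x => expn c0' c' φ' x ^ 2) ≤ 23 ^ 4 * mean (fun x => expn c0 c φ x ^ 2) := by
  have h1 : ∀ (v : Finset ι) (x : ι → Bool),
      E v (fun _ => (1 : ℝ)) x * E v (fun _ => (1 : ℝ)⁻¹) x ≤ 1 := by
    intro v x
    rw [E_const, E_const]; norm_num
  have := weighted_mult ρ hρ (fun _ => 1) (fun _ => one_pos) 1 (fun a b x => h1 _ x)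
    (fun a x => h1 _ x) (fun x => h1 _ x) c0 c0' c c' φ φ' hφ hφ' h0 hc hh
  simpa using this

/-- The case `p > 2`, with an explicit constant from the majorant. -/
lemma finite_Lp_gt {p A : ℝ} (hp : 2 < p) (hA1 : 1 ≤ A) (ρ : ι → ι → Λ) (hρ : Subadd ρ)
    (hmaj : ∀ (v : ℕ → Finset ι) (K : ℕ) (_ : LevSeqU v K)
      (W : (ι → Bool) → ℝ) (_ : ∀ x, 0 < W x),
      ∃ W' : (ι → Bool) → ℝ, (∀ x, W x ≤ W' x) ∧
        mean (fun x => W' x ^ (p / (p - 2))) ≤
          2 ^ (p / (p - 2)) * mean (fun x => W x ^ (p / (p - 2))) ∧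
        ∀ i < K, ∀ x, E (v i) W' x * E (v i) (fun y => (W' y)⁻¹) x ≤ A)
    (c0 c0' : ℝ) (c c' : ι → ℝ) (φ φ' : ι → ι → (ι → Bool) → ℝ)
    (hφ : ∀ a b, b < a → Dep (pre ρ a b) (φ a b))
    (hφ' : ∀ a b, b < a → Dep (pre ρ a b) (φ' a b))
    (h0 : |c0'| ≤ |c0|) (hc : ∀ a, |c' a| ≤ |c a|)
    (hh : ∀ a b x, b < a → |φ' a b x| ≤ |φ a b x|) :
    mean (fun x => |expn c0' c' φ' x| ^ p) ≤
      (4 * (23 * A ^ 3) ^ 4) ^ (p / 2) * mean (fun x => |expn c0 c φ x| ^ p) := by
  obtain ⟨v, K, hv, hpre, hlt, huniv, hempty⟩ := exists_levSeqU ρ hρ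
  set f := expn c0 c φ with hf
  set f' := expn c0' c' φ' with hf'
  set s : ℝ := p / (p - 2) with hs
  have hp0 : 0 < p := by linarith
  have hp2 : 0 < p - 2 := by linarith
  have hs0 : 0 < s := by positivity
  have hs1 : 1 < s := by rw [hs, lt_div_iff₀ hp2]; linarith
  set M := mean (fun x => |f' x| ^ p) with hM
  set X := mean (fun x => |f x| ^ p) with hX
  have hM0 : 0 ≤ M := mean_nonneg fun x => by positivity
  have hX0 : 0 ≤ X := mean_nonneg fun x => by positivity
  set K0 : ℝ := (23 * A ^ 3) ^ 4 with hK0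
  have hK0pos : 0 < K0 := by positivity
  rcases hM0.eq_or_lt with hM1 | hMpos
  · rw [← hM1]; positivity
  set κ : ℝ := M ^ s⁻¹ with hκ
  have hκ0 : 0 < κ := Real.rpow_pos_of_pos hMpos _
  have hκs : κ ^ s = M := Real.rpow_inv_rpow hMpos.le hs0.ne'
  set W : (ι → Bool) → ℝ := fun x => |f' x| ^ (p - 2) + κ with hW
  have hWpos : ∀ x, 0 < W x := fun x => by positivity
  obtain ⟨W', hWW', hW's, hA⟩ := hmaj v K hv W hWpos
  have hW'pos : ∀ x, 0 < W' x := fun x => (hWpos x).trans_le (hWW' x)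
  have hWs : mean (fun x => W x ^ s) ≤ 2 ^ s * M := by
    have h1 : ∀ x, W x ^ s ≤ 2 ^ (s - 1) * (|f' x| ^ p + κ ^ s) := by
      intro x
      have h2 := add_rpow_le' hs1.le (a := |f' x| ^ (p - 2)) (b := κ) (by positivity) hκ0.le
      have h3 : (|f' x| ^ (p - 2)) ^ s = |f' x| ^ p := by
        rw [← Real.rpow_mul (abs_nonneg _)]
        congr 1
        rw [hs]; field_simp
      rw [h3] at h2
      exact h2
    calc mean (fun x => W x ^ s) ≤ mean (fun x => 2 ^ (s - 1) * (|f' x| ^ p + κ ^ s)) :=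
          mean_mono h1
      _ = 2 ^ (s - 1) * (M + κ ^ s) := by rw [mean_mul_left, mean_add, mean_const]
      _ = 2 ^ s * M := by
          rw [hκs, Real.rpow_sub (by norm_num), Real.rpow_one]; ring
  have hW's' : mean (fun x => W' x ^ s) ≤ 4 ^ s * M := by
    calc mean (fun x => W' x ^ s) ≤ 2 ^ s * mean (fun x => W x ^ s) := hW's
      _ ≤ 2 ^ s * (2 ^ s * M) := mul_le_mul_of_nonneg_left hWs (by positivity)
      _ = 4 ^ s * M := by
          rw [← mul_assoc, ← Real.mul_rpow (by norm_num) (by norm_num)]; norm_num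
  have key : mean (fun x => f' x ^ 2 * W' x) ≤ K0 * mean (fun x => f x ^ 2 * W' x) := by
    refine weighted_mult ρ hρ W' hW'pos A ?_ ?_ ?_ c0 c0' c c' φ φ' hφ hφ' h0 hc hh
    · intro a b x
      obtain ⟨i, hi, h⟩ := hpre a b
      rw [← h]; exact hA i hi x
    · intro a x
      obtain ⟨i, hi, h⟩ := hlt a
      rw [← h]; exact hA i hi x
    · intro x
      obtain ⟨i, hi, h⟩ := huniv
      rw [← h]; exact hA i hi x
  have h1 : M ≤ mean (fun x => f' x ^ 2 * W' x) := by
    refine mean_mono fun x => ?_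
    have h2 : |f' x| ^ (p - 2) ≤ W' x := by
      have := hWW' x
      simp only [hW] at this
      linarith
    calc |f' x| ^ p = |f' x| ^ (2 : ℝ) * |f' x| ^ (p - 2) := by
          rcases eq_or_lt_of_le (abs_nonneg (f' x)) with h3 | h3
          · rw [← h3, Real.zero_rpow hp0.ne', Real.zero_rpow (by norm_num), zero_mul]
          · rw [← Real.rpow_add h3]; congr 1; ring
      _ = f' x ^ 2 * |f' x| ^ (p - 2) := by
          rw [Real.rpow_two, sq_abs]
      _ ≤ f' x ^ 2 * W' x := mul_le_mul_of_nonneg_left h2 (sq_nonneg _)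
  -- Hölder
  have hconj : (p / 2).HolderConjugate s := by
    rw [Real.holderConjugate_iff]
    refine ⟨by rw [lt_div_iff₀ (by norm_num)]; linarith, ?_⟩
    rw [hs]; field_simp; ring
  have h2 : mean (fun x => f x ^ 2 * W' x) ≤ X ^ (2 / p) * (4 ^ s * M) ^ (1 / s) := by
    have h3 := mean_holder hconj (f := fun x => f x ^ 2) (g := W') (fun x => sq_nonneg _)
      (fun x => (hW'pos x).le)
    have h4 : (mean fun x => (f x ^ 2) ^ (p / 2)) = X := by
      refine mean_congr fun x => ?_
      rw [← sq_abs, ← Real.rpow_natCast, ← Real.rpow_mul (abs_nonneg _)]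
      congr 1
      push_cast; ring
    rw [h4] at h3
    have h5 : (1 / (p / 2)) = 2 / p := by field_simp
    rw [h5] at h3
    refine h3.trans (mul_le_mul_of_nonneg_left ?_ (by positivity))
    exact Real.rpow_le_rpow (mean_nonneg fun x => by have := hW'pos x; positivity) hW's'
      (by positivity)
  have h3 : (4 ^ s * M) ^ (1 / s) = 4 * M ^ (1 - 2 / p) := by
    rw [Real.mul_rpow (by positivity) hM0, ← Real.rpow_mul (by norm_num)]
    congr 1
    · rw [mul_one_div_cancel hs0.ne', Real.rpow_one]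
    · congr 1
      rw [hs]; field_simp
  have h4 : M ≤ K0 * (X ^ (2 / p) * (4 * M ^ (1 - 2 / p))) := by
    rw [← h3]
    exact h1.trans (key.trans (mul_le_mul_of_nonneg_left h2 hK0pos.le))
  have h5 : M ^ (2 / p) ≤ 4 * K0 * X ^ (2 / p) := by
    have h6 : M ^ (2 / p) * M ^ (1 - 2 / p) = M := by
      rw [← Real.rpow_add hMpos]
      have : 2 / p + (1 - 2 / p) = 1 := by ring
      rw [this, Real.rpow_one]
    have h7 : 0 < M ^ (1 - 2 / p) := Real.rpow_pos_of_pos hMpos _
    refine le_of_mul_le_mul_right ?_ h7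
    rw [h6]
    calc M ≤ _ := h4
      _ = _ := by ring
  have h6 : M = (M ^ (2 / p)) ^ (p / 2) := by
    rw [← Real.rpow_mul hM0]
    have : 2 / p * (p / 2) = 1 := by field_simp
    rw [this, Real.rpow_one]
  have h7 : X = (X ^ (2 / p)) ^ (p / 2) := by
    rw [← Real.rpow_mul hX0]
    have : 2 / p * (p / 2) = 1 := by field_simp
    rw [this, Real.rpow_one]
  calc M = (M ^ (2 / p)) ^ (p / 2) := h6
    _ ≤ (4 * K0 * X ^ (2 / p)) ^ (p / 2) := Real.rpow_le_rpow (by positivity) h5 (by positivity)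
    _ = (4 * K0) ^ (p / 2) * (X ^ (2 / p)) ^ (p / 2) :=
        Real.mul_rpow (by positivity) (by positivity)
    _ = (4 * K0) ^ (p / 2) * X := by rw [← h7]

end big

/-! ### Every function on the cube is an expansion; orthogonality -/

section expansion

variable {ι : Type*} [Fintype ι] [DecidableEq ι] {Λ : Type*} [LinearOrder Λ]

lemma mean_rad_mul_eq_zero {i : ι} {ψ : (ι → Bool) → ℝ} (hψ : Dep {i}ᶜ ψ) :
    mean (fun y => rad i y * ψ y) = 0 := by
  have h := E_rad_mul_eq_zero (v := ∅) (i := i) (by simp) hψ (fun _ => true)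
  rwa [E_empty] at h

/-- Every function depending on `s` has an expansion along the key. -/
lemma exists_expansion (k : ι → Λ) (s : Finset ι)
    (hk : ∀ a ∈ s, ∀ b ∈ s, k a = k b → a = b) :
    ∀ f : (ι → Bool) → ℝ, Dep s f → ∃ (c : ℝ) (ψ : ι → (ι → Bool) → ℝ),
      (∀ a ∈ s, Dep (s.filter fun z => k z < k a) (ψ a)) ∧
      ∀ x, f x = c + ∑ a ∈ s, rad a x * ψ a x := by
  classical
  induction s using Finset.strongInduction with
  | H s ih =>
    intro f hf
    rcases s.eq_empty_or_nonempty with hs | hs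
    · subst hs
      refine ⟨f (fun _ => true), fun _ _ => 0, by simp, fun x => ?_⟩
      simp only [Finset.sum_empty, add_zero]
      exact hf _ _ (by simp)
    · -- the maximal element
      obtain ⟨m, hm, hmax⟩ := s.exists_max_image k hs
      set s' := s.erase m with hs'
      have hs'ss : s' ⊂ s := Finset.erase_ssubset hm
      have hlt : ∀ a ∈ s', k a < k m := by
        intro a ha
        have ha' := Finset.mem_erase.mp ha
        exact lt_of_le_of_ne (hmax a ha'.2) (fun h => ha'.1 (hk a ha'.2 m hm h))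
      set f0 : (ι → Bool) → ℝ := fun x =>
        (f (Function.update x m true) + f (Function.update x m false)) / 2 with hf0
      set f1 : (ι → Bool) → ℝ := fun x =>
        (f (Function.update x m true) - f (Function.update x m false)) / 2 with hf1
      have hupd : ∀ (x y : ι → Bool) (b : Bool), (∀ i ∈ s', x i = y i) →
          f (Function.update x m b) = f (Function.update y m b) := by
        intro x y b hxy
        refine hf _ _ fun i hi => ?_
        by_cases him : i = m
        · subst him; simp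
        · simp only [Function.update_of_ne him]
          exact hxy i (Finset.mem_erase.mpr ⟨him, hi⟩)
      have hdep0 : Dep s' f0 := by
        intro x y hxy
        simp only [hf0]
        rw [hupd x y true hxy, hupd x y false hxy]
      have hdep1 : Dep s' f1 := by
        intro x y hxy
        simp only [hf1]
        rw [hupd x y true hxy, hupd x y false hxy]
      have hfx : ∀ x, f x = f0 x + rad m x * f1 x := by
        intro x
        simp only [hf0, hf1, rad]
        cases hx : x m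
        · have : Function.update x m false = x := by rw [← hx]; exact Function.update_eq_self m x
          rw [this]
          simp only [Bool.false_eq_true, if_false]
          ring
        · have : Function.update x m true = x := by rw [← hx]; exact Function.update_eq_self m x
          rw [this]
          simp only [if_true]
          ring
      obtain ⟨c, ψ, hψ, hexp⟩ := ih s' hs'ss
        (fun a ha b hb => hk a (Finset.mem_of_mem_erase ha) b (Finset.mem_of_mem_erase hb)) f0 hdep0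
      refine ⟨c, fun a => if a = m then f1 else ψ a, ?_, ?_⟩
      · intro a ha
        by_cases ham : a = m
        · subst ham
          simp only [if_true]
          refine hdep1.mono ?_
          intro z hz
          exact Finset.mem_filter.mpr ⟨Finset.mem_of_mem_erase hz, hlt z hz⟩
        · simp only [if_neg ham]
          refine (hψ a (Finset.mem_erase.mpr ⟨ham, ha⟩)).mono ?_
          intro z hz
          have hz' := Finset.mem_filter.mp hz
          exact Finset.mem_filter.mpr ⟨Finset.mem_of_mem_erase hz'.1, hz'.2⟩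
      · intro x
        rw [hfx x, hexp x, ← Finset.add_sum_erase s _ hm]
        simp only [if_true]
        have : ∑ a ∈ s', rad a x * ψ a x
            = ∑ a ∈ s.erase m, rad a x * (if a = m then f1 else ψ a) x := by
          refine Finset.sum_congr rfl fun a ha => ?_
          rw [if_neg (Finset.ne_of_mem_erase ha)]
        rw [this]
        ring

/-- Orthogonality of expansions along a key. -/
lemma mean_expansion_mul (k : ι → Λ) (s : Finset ι)
    (hk : ∀ a ∈ s, ∀ b ∈ s, k a = k b → a = b) (c c' : ℝ) (ψ ψ' : ι → (ι → Bool) → ℝ)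
    (hψ : ∀ a ∈ s, Dep (s.filter fun z => k z < k a) (ψ a))
    (hψ' : ∀ a ∈ s, Dep (s.filter fun z => k z < k a) (ψ' a)) :
    mean (fun x => (c + ∑ a ∈ s, rad a x * ψ a x) * (c' + ∑ a ∈ s, rad a x * ψ' a x))
      = c * c' + ∑ a ∈ s, mean (fun x => ψ a x * ψ' a x) := by
  classical
  have hcomp : ∀ (θ : ι → (ι → Bool) → ℝ),
      (∀ a ∈ s, Dep (s.filter fun z => k z < k a) (θ a)) → ∀ a ∈ s, Dep {a}ᶜ (θ a) := by
    intro θ hθ a ha
    refine (hθ a ha).mono ?_
    intro z hz
    have := (Finset.mem_filter.mp hz).2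
    simp only [Finset.mem_compl, Finset.mem_singleton]
    rintro rfl
    exact lt_irrefl _ this
  have hzero : ∀ (θ : ι → (ι → Bool) → ℝ),
      (∀ a ∈ s, Dep (s.filter fun z => k z < k a) (θ a)) →
      mean (fun x => ∑ a ∈ s, rad a x * θ a x) = 0 := by
    intro θ hθ
    rw [mean_sum]
    exact Finset.sum_eq_zero fun a ha => mean_rad_mul_eq_zero (hcomp θ hθ a ha)
  -- mixed terms
  have hlt0 : ∀ (θ θ' : ι → (ι → Bool) → ℝ),
      (∀ a ∈ s, Dep (s.filter fun z => k z < k a) (θ a)) →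
      (∀ a ∈ s, Dep (s.filter fun z => k z < k a) (θ' a)) →
      ∀ a ∈ s, ∀ b ∈ s, k a < k b →
        mean (fun x => (rad a x * θ a x) * (rad b x * θ' b x)) = 0 := by
    intro θ θ' hθ hθ' a ha b hb hab
    have : (fun x => (rad a x * θ a x) * (rad b x * θ' b x))
        = fun x => rad b x * (rad a x * θ a x * θ' b x) := by
      funext x; ring
    rw [this]
    refine mean_rad_mul_eq_zero ?_
    intro x y hxy
    have hba : a ≠ b := fun h => by subst h; exact lt_irrefl _ hab
    have e1 : rad a x = rad a y := dep_rad a x y fun i hi => by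
      rw [Finset.mem_singleton.mp hi]; exact hxy a (by simpa using hba)
    have e2 : θ a x = θ a y := hθ a ha x y fun i hi => by
      have hia := (Finset.mem_filter.mp hi).2
      refine hxy i ?_
      simp only [Finset.mem_compl, Finset.mem_singleton]
      intro hib
      rw [hib] at hia
      exact lt_irrefl _ (hia.trans hab)
    have e3 : θ' b x = θ' b y := hcomp θ' hθ' b hb x y hxy
    beta_reduce
    rw [e1, e2, e3]
  have hprod : mean (fun x => (∑ a ∈ s, rad a x * ψ a x) * (∑ a ∈ s, rad a x * ψ' a x))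
      = ∑ a ∈ s, mean (fun x => ψ a x * ψ' a x) := by
    have : (fun x => (∑ a ∈ s, rad a x * ψ a x) * (∑ a ∈ s, rad a x * ψ' a x))
        = fun x => ∑ a ∈ s, ∑ b ∈ s, (rad a x * ψ a x) * (rad b x * ψ' b x) := by
      funext x; rw [Finset.sum_mul_sum]
    rw [this, mean_sum]
    refine Finset.sum_congr rfl fun a ha => ?_
    rw [mean_sum, Finset.sum_eq_single a]
    · refine mean_congr fun x => ?_
      have := rad_sq a x
      calc _ = (rad a x ^ 2) * (ψ a x * ψ' a x) := by ring
        _ = _ := by rw [this, one_mul]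
    · intro b hb hba
      rcases lt_trichotomy (k a) (k b) with h | h | h
      · exact hlt0 ψ ψ' hψ hψ' a ha b hb h
      · exact absurd (hk a ha b hb h).symm hba
      · have := hlt0 ψ' ψ hψ' hψ b hb a ha h
        rw [← this]
        refine mean_congr fun x => ?_
        ring
    · intro h; exact absurd ha h
  have hexp : (fun x => (c + ∑ a ∈ s, rad a x * ψ a x) * (c' + ∑ a ∈ s, rad a x * ψ' a x))
      = fun x => (c * c' + (c * (∑ a ∈ s, rad a x * ψ' a x) + c' * (∑ a ∈ s, rad a x * ψ a x)))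
        + (∑ a ∈ s, rad a x * ψ a x) * (∑ a ∈ s, rad a x * ψ' a x) := by
    funext x; ring
  rw [hexp, mean_add, mean_add, mean_add, mean_const, mean_mul_left c, mean_mul_left c',
    hzero ψ hψ, hzero ψ' hψ', hprod]
  ring

end expansion

lemma mult_exists {a b : ℝ} (h : |a| ≤ |b|) : ∃ t : ℝ, |t| ≤ 1 ∧ a = t * b := by
  by_cases hb : b = 0
  · rw [hb, abs_zero] at h
    refine ⟨0, by simp, ?_⟩
    rw [abs_eq_zero.mp (le_antisymm h (abs_nonneg _))]; simp
  · refine ⟨a / b, ?_, by field_simp⟩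
    rw [abs_div]
    exact div_le_one_of_le₀ h (abs_nonneg _)

section dual

variable {ι : Type*} [Fintype ι] [LinearOrder ι] {Λ : Type*} [LinearOrder Λ]

/-- Every function on the cube is an expansion. -/
lemma exists_expn (ρ : ι → ι → Λ) (hρ : Subadd ρ) (g : (ι → Bool) → ℝ) :
    ∃ (d0 : ℝ) (d : ι → ℝ) (ψ : ι → ι → (ι → Bool) → ℝ),
      (∀ a b, b < a → Dep (pre ρ a b) (ψ a b)) ∧ ∀ x, g x = expn d0 d ψ x := by
  classical
  obtain ⟨d0, h, hh, hexp⟩ := exists_expansion (id : ι → ι) Finset.univ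
    (fun a _ b _ h => h) g (fun x y hxy => by
      have : x = y := funext fun i => hxy i (Finset.mem_univ i)
      rw [this])
  have hblk : ∀ a, ∃ (c : ℝ) (ψ : ι → (ι → Bool) → ℝ),
      (∀ b ∈ Finset.univ.filter (· < a), Dep ((Finset.univ.filter (· < a)).filter
        fun z => ρ z a < ρ b a) (ψ b)) ∧
      ∀ x, h a x = c + ∑ b ∈ Finset.univ.filter (· < a), rad b x * ψ b x := by
    intro a
    refine exists_expansion (fun z => ρ z a) (Finset.univ.filter (· < a)) ?_ (h a) ?_
    · intro b hb b' hb' heq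
      exact hρ.inj b b' a (by simpa using hb) (by simpa using hb') heq
    · exact hh a (Finset.mem_univ a)
  choose d ψ hψ hd using hblk
  refine ⟨d0, d, ψ, ?_, ?_⟩
  · intro a b hba
    have hpre : (Finset.univ.filter (· < a)).filter (fun z => ρ z a < ρ b a) = pre ρ a b := by
      unfold pre; rw [Finset.filter_filter]
    rw [← hpre]
    exact hψ a b (by simpa using hba)
  · intro x
    rw [hexp x]
    unfold expn blk
    congr 1
    refine Finset.sum_congr rfl fun a _ => ?_
    rw [hd a x]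

/-- The bilinear formula. -/
lemma mean_expn_mul (ρ : ι → ι → Λ) (hρ : Subadd ρ) (c0 d0 : ℝ) (c d : ι → ℝ)
    (φ ψ : ι → ι → (ι → Bool) → ℝ)
    (hφ : ∀ a b, b < a → Dep (pre ρ a b) (φ a b))
    (hψ : ∀ a b, b < a → Dep (pre ρ a b) (ψ a b)) :
    mean (fun x => expn c0 c φ x * expn d0 d ψ x) = c0 * d0 + ∑ a, (c a * d a +
      ∑ b ∈ Finset.univ.filter (· < a), mean (fun x => φ a b x * ψ a b x)) := by
  unfold expn
  rw [mean_expansion_mul (id : ι → ι) Finset.univ (fun a _ b _ h => h) c0 d0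
    (blk c φ) (blk d ψ) (fun a _ => dep_blk ρ hφ a) (fun a _ => dep_blk ρ hψ a)]
  congr 1
  refine Finset.sum_congr rfl fun a _ => ?_
  unfold blk
  have hpre : ∀ b, (Finset.univ.filter (· < a)).filter (fun z => ρ z a < ρ b a)
      = pre ρ a b := by
    intro b; unfold pre; rw [Finset.filter_filter]
  refine mean_expansion_mul (fun z => ρ z a) (Finset.univ.filter (· < a)) ?_ (c a) (d a)
    (fun b => φ a b) (fun b => ψ a b) ?_ ?_
  · intro b hb b' hb' h
    exact hρ.inj b b' a (by simpa using hb) (by simpa using hb') h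
  · intro b hb
    rw [hpre b]
    exact hφ a b (by simpa using hb)
  · intro b hb
    rw [hpre b]
    exact hψ a b (by simpa using hb)

/-- The case `p < 2` by duality from the conjugate exponent. -/
lemma finite_Lp_lt {p q C : ℝ} (hpq : p.HolderConjugate q) (hC : 1 ≤ C)
    (ρ : ι → ι → Λ) (hρ : Subadd ρ)
    (hq : ∀ (c0 c0' : ℝ) (c c' : ι → ℝ) (φ φ' : ι → ι → (ι → Bool) → ℝ)
      (_ : ∀ a b, b < a → Dep (pre ρ a b) (φ a b))
      (_ : ∀ a b, b < a → Dep (pre ρ a b) (φ' a b))
      (_ : |c0'| ≤ |c0|) (_ : ∀ a, |c' a| ≤ |c a|)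
      (_ : ∀ a b x, b < a → |φ' a b x| ≤ |φ a b x|),
      mean (fun x => |expn c0' c' φ' x| ^ q) ≤ C * mean (fun x => |expn c0 c φ x| ^ q))
    (c0 c0' : ℝ) (c c' : ι → ℝ) (φ φ' : ι → ι → (ι → Bool) → ℝ)
    (hφ : ∀ a b, b < a → Dep (pre ρ a b) (φ a b))
    (hφ' : ∀ a b, b < a → Dep (pre ρ a b) (φ' a b))
    (h0 : |c0'| ≤ |c0|) (hc : ∀ a, |c' a| ≤ |c a|)
    (hh : ∀ a b x, b < a → |φ' a b x| ≤ |φ a b x|) :
    mean (fun x => |expn c0' c' φ' x| ^ p) ≤
      C ^ (p / q) * mean (fun x => |expn c0 c φ x| ^ p) := by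
  set f := expn c0 c φ with hf
  set f' := expn c0' c' φ' with hf'
  have hp0 : 0 < p := hpq.pos
  have hq0 : 0 < q := hpq.symm.pos
  have hp1 : 1 < p := hpq.lt
  set M := mean (fun x => |f' x| ^ p) with hM
  set X := mean (fun x => |f x| ^ p) with hX
  have hM0 : 0 ≤ M := mean_nonneg fun x => by positivity
  have hX0 : 0 ≤ X := mean_nonneg fun x => by positivity
  have hC0 : 0 < C := by linarith
  rcases hM0.eq_or_lt with hM1 | hMpos
  · rw [← hM1]; positivity
  -- multipliers
  obtain ⟨t0, ht0, ht0'⟩ : ∃ t : ℝ, |t| ≤ 1 ∧ c0' = t * c0 := mult_exists h0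
  have hc' : ∀ a, ∃ t : ℝ, |t| ≤ 1 ∧ c' a = t * c a := fun a => mult_exists (hc a)
  choose t ht ht' using hc'
  set θ : ι → ι → (ι → Bool) → ℝ := fun a b x => if b < a then φ' a b x / φ a b x else 0 with hθ
  have hθ1 : ∀ a b x, |θ a b x| ≤ 1 := by
    intro a b x
    simp only [hθ]
    split_ifs with hba
    · rw [abs_div]
      exact div_le_one_of_le₀ (hh a b x hba) (abs_nonneg _)
    · simp
  have hθφ : ∀ a b x, b < a → φ' a b x = θ a b x * φ a b x := by
    intro a b x hba
    simp only [hθ, if_pos hba]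
    by_cases h : φ a b x = 0
    · have h2 := hh a b x hba
      rw [h, abs_zero] at h2
      rw [h, mul_zero]
      exact abs_eq_zero.mp (le_antisymm h2 (abs_nonneg _))
    · field_simp
  have hθdep : ∀ a b, b < a → Dep (pre ρ a b) (θ a b) := by
    intro a b hba x y hxy
    simp only [hθ, if_pos hba]
    rw [hφ a b hba x y hxy, hφ' a b hba x y hxy]
  -- the dual function
  set g : (ι → Bool) → ℝ := fun x => SignType.sign (f' x) * |f' x| ^ (p - 1) with hg
  obtain ⟨d0, d, ψ, hψ, hgexp⟩ := exists_expn ρ hρ g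
  have hfg : M = mean (fun x => f' x * g x) := by
    refine mean_congr fun x => ?_
    simp only [hg]
    rcases eq_or_ne (f' x) 0 with h | h
    · rw [h, abs_zero, Real.zero_rpow hp0.ne', zero_mul]
    · have hpos : 0 < |f' x| := abs_pos.mpr h
      calc |f' x| ^ p = |f' x| ^ (1 + (p - 1)) := by congr 1; ring
        _ = |f' x| * |f' x| ^ (p - 1) := by rw [Real.rpow_add hpos, Real.rpow_one]
        _ = (f' x * SignType.sign (f' x)) * |f' x| ^ (p - 1) := by rw [self_mul_sign]
        _ = _ := by ring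
  set g' := expn (t0 * d0) (fun a => t a * d a) (fun a b x => θ a b x * ψ a b x) with hg'
  have hψ' : ∀ a b, b < a → Dep (pre ρ a b) (fun x => θ a b x * ψ a b x) :=
    fun a b hba => (hθdep a b hba).mul (hψ a b hba)
  have hswap : mean (fun x => f' x * g x) = mean (fun x => f x * g' x) := by
    have e1 : mean (fun x => f' x * g x) = mean (fun x => f' x * expn d0 d ψ x) :=
      mean_congr fun x => by rw [hgexp x]
    rw [e1, hf', hf, hg', mean_expn_mul ρ hρ c0' d0 c' d φ' ψ hφ' hψ,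
      mean_expn_mul ρ hρ c0 (t0 * d0) c (fun a => t a * d a) φ _ hφ hψ']
    congr 1
    · rw [ht0']; ring
    · refine Finset.sum_congr rfl fun a _ => ?_
      congr 1
      · rw [ht' a]; ring
      · refine Finset.sum_congr rfl fun b hb => ?_
        refine mean_congr fun x => ?_
        rw [hθφ a b x (by simpa using hb)]; ring
  have hgq : mean (fun x => |g x| ^ q) = M := by
    refine mean_congr fun x => ?_
    simp only [hg]
    rcases eq_or_ne (f' x) 0 with h | h
    · rw [h, sign_zero]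
      simp [Real.zero_rpow hq0.ne', Real.zero_rpow hp0.ne']
    · have hpos : 0 < |f' x| := abs_pos.mpr h
      have hs : |((SignType.sign (f' x) : SignType) : ℝ)| = 1 := by
        rcases lt_or_gt_of_ne h with h1 | h1
        · rw [sign_neg h1]; simp
        · rw [sign_pos h1]; simp
      rw [abs_mul, hs, one_mul, abs_of_nonneg (Real.rpow_nonneg hpos.le _),
        ← Real.rpow_mul hpos.le]
      congr 1
      exact hpq.sub_one_mul_conj
  have hg'q : mean (fun x => |g' x| ^ q) ≤ C * M := by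
    have h1 := hq d0 (t0 * d0) d (fun a => t a * d a) ψ (fun a b x => θ a b x * ψ a b x) hψ hψ'
      (by rw [abs_mul]; exact mul_le_of_le_one_left (abs_nonneg _) ht0)
      (fun a => by rw [abs_mul]; exact mul_le_of_le_one_left (abs_nonneg _) (ht a))
      (fun a b x _ => by rw [abs_mul]; exact mul_le_of_le_one_left (abs_nonneg _) (hθ1 a b x))
    have h2 : mean (fun x => |expn d0 d ψ x| ^ q) = M := by
      rw [← hgq]
      exact mean_congr fun x => by rw [hgexp x]
    rw [h2] at h1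
    exact h1
  -- Hölder
  have h1 : M ≤ X ^ (1 / p) * (C * M) ^ (1 / q) := by
    calc M = mean (fun x => f x * g' x) := by rw [hfg, hswap]
      _ ≤ mean (fun x => |f x| * |g' x|) := mean_mono fun x => by
          rw [← abs_mul]; exact le_abs_self _
      _ ≤ X ^ (1 / p) * (mean fun x => |g' x| ^ q) ^ (1 / q) :=
          mean_holder hpq (fun x => abs_nonneg _) (fun x => abs_nonneg _)
      _ ≤ X ^ (1 / p) * (C * M) ^ (1 / q) := by
          refine mul_le_mul_of_nonneg_left ?_ (by positivity)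
          exact Real.rpow_le_rpow (mean_nonneg fun x => by positivity) hg'q (by positivity)
  have h2 : M ^ (1 / p) ≤ C ^ (1 / q) * X ^ (1 / p) := by
    have h3 : M ^ (1 / p) * M ^ (1 / q) = M := by
      rw [← Real.rpow_add hMpos, one_div, one_div, hpq.inv_add_inv_eq_one, Real.rpow_one]
    have h4 : 0 < M ^ (1 / q) := Real.rpow_pos_of_pos hMpos _
    refine le_of_mul_le_mul_right ?_ h4
    rw [h3]
    calc M ≤ _ := h1
      _ = _ := by rw [Real.mul_rpow hC0.le hM0]; ring
  have h3 : ∀ Y : ℝ, 0 ≤ Y → (Y ^ (1 / p)) ^ p = Y := by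
    intro Y hY
    rw [← Real.rpow_mul hY, one_div_mul_cancel hp0.ne', Real.rpow_one]
  calc M = (M ^ (1 / p)) ^ p := (h3 M hM0).symm
    _ ≤ (C ^ (1 / q) * X ^ (1 / p)) ^ p := Real.rpow_le_rpow (by positivity) h2 hp0.le
    _ = (C ^ (1 / q)) ^ p * (X ^ (1 / p)) ^ p := Real.mul_rpow (by positivity) (by positivity)
    _ = C ^ (p / q) * X := by
        rw [h3 X hX0, ← Real.rpow_mul hC0.le]
        congr 2
        field_simp

end dual

universe u v in
/-- **The finite `L^p` inequality, `1 < p < ∞`.** -/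
theorem finite_Lp {p : ℝ} (hp : 1 < p) : ∃ C : ℝ, 1 ≤ C ∧
    ∀ {ι : Type u} [Fintype ι] [LinearOrder ι] {Λ : Type v} [LinearOrder Λ]
    (ρ : ι → ι → Λ) (_ : Subadd ρ)
    (c0 c0' : ℝ) (c c' : ι → ℝ) (φ φ' : ι → ι → (ι → Bool) → ℝ)
    (_ : ∀ a b, b < a → Dep (pre ρ a b) (φ a b))
    (_ : ∀ a b, b < a → Dep (pre ρ a b) (φ' a b))
    (_ : |c0'| ≤ |c0|) (_ : ∀ a, |c' a| ≤ |c a|)
    (_ : ∀ a b x, b < a → |φ' a b x| ≤ |φ a b x|),
    mean (fun x => |expn c0' c' φ' x| ^ p) ≤ C * mean (fun x => |expn c0 c φ x| ^ p) := by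
  -- the case `q > 2`
  have hgt : ∀ {q : ℝ} (_ : 2 < q), ∃ C : ℝ, 1 ≤ C ∧
      ∀ {ι : Type u} [Fintype ι] [LinearOrder ι] {Λ : Type v} [LinearOrder Λ]
      (ρ : ι → ι → Λ) (_ : Subadd ρ)
      (c0 c0' : ℝ) (c c' : ι → ℝ) (φ φ' : ι → ι → (ι → Bool) → ℝ)
      (_ : ∀ a b, b < a → Dep (pre ρ a b) (φ a b))
      (_ : ∀ a b, b < a → Dep (pre ρ a b) (φ' a b))
      (_ : |c0'| ≤ |c0|) (_ : ∀ a, |c' a| ≤ |c a|)
      (_ : ∀ a b x, b < a → |φ' a b x| ≤ |φ a b x|),
      mean (fun x => |expn c0' c' φ' x| ^ q) ≤ C * mean (fun x => |expn c0 c φ x| ^ q) := by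
    intro q hq
    have hq2 : 0 < q - 2 := by linarith
    obtain ⟨A, hA, hmaj⟩ := exists_majorant_rpow (s := q / (q - 2))
      (by rw [lt_div_iff₀ hq2]; linarith)
    refine ⟨(4 * (23 * A ^ 3) ^ 4) ^ (q / 2), ?_, ?_⟩
    · refine Real.one_le_rpow ?_ (by linarith)
      have h1 : (1 : ℝ) ≤ A ^ 3 := one_le_pow₀ hA
      have h2 : (1 : ℝ) ≤ (23 * A ^ 3) ^ 4 := one_le_pow₀ (by linarith)
      linarith
    · intro ι _ _ Λ _ ρ hρ c0 c0' c c' φ φ' hφ hφ' h0 hc hh
      exact finite_Lp_gt hq hA ρ hρ (fun v K hv W hW => hmaj v K hv W hW) c0 c0' c c' φ φ'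
        hφ hφ' h0 hc hh
  rcases lt_trichotomy p 2 with h | h | h
  · have hpq : p.HolderConjugate (Real.conjExponent p) := Real.HolderConjugate.conjExponent hp
    have hq : 2 < Real.conjExponent p := by
      unfold Real.conjExponent
      rw [lt_div_iff₀ (by linarith)]
      linarith
    obtain ⟨C, hC, hCq⟩ := hgt hq
    refine ⟨C ^ (p / Real.conjExponent p), Real.one_le_rpow hC ?_, ?_⟩
    · have := hpq.symm.pos; have := hpq.pos
      positivity
    · intro ι _ _ Λ _ ρ hρ c0 c0' c c' φ φ' hφ hφ' h0 hc hh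
      exact finite_Lp_lt hpq hC ρ hρ (fun c0 c0' c c' φ φ' hφ hφ' h0 hc hh =>
        hCq ρ hρ c0 c0' c c' φ φ' hφ hφ' h0 hc hh) c0 c0' c c' φ φ' hφ hφ' h0 hc hh
  · refine ⟨23 ^ 4, by norm_num, ?_⟩
    intro ι _ _ Λ _ ρ hρ c0 c0' c c' φ φ' hφ hφ' h0 hc hh
    have := finite_L2 ρ hρ c0 c0' c c' φ φ' hφ hφ' h0 hc hh
    subst h
    have e : ∀ y : ℝ, |y| ^ (2 : ℝ) = y ^ 2 := fun y => by rw [Real.rpow_two, sq_abs]
    simp only [e]
    exact this
  · exact hgt h

end MP_1a422c_an
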