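import Pool.Agent.Work.MP_1a422c_an.UncondP

/-!
# Completeness of the basis and nonvanishing of its vectors
-/

set_option linter.unusedSectionVars false

open Finset MeasureTheory
open scoped ENNReal

namespace MP_1a422c_an

section system

variable {I : Type*} [LinearOrder I] {Λ : Type*} [LinearOrder Λ] {ρ : I → I → Λ}
  (𝕜 : Type*) [RCLike 𝕜] {p : ℝ≥0∞} [Fact (1 ≤ p)] (hfin : FinPre ρ)

/-- `f` represents an element of the span of the basis. -/
def InSpan (p : ℝ≥0∞) [Fact (1 ≤ p)] (f : (I → Bool) → ℝ) : Prop :=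
  ∃ g ∈ Submodule.span 𝕜 (Set.range (bv 𝕜 hfin p)),
    (⇑g : (I → Bool) → 𝕜) =ᵐ[mu I] fun x => ((f x : ℝ) : 𝕜)

variable {𝕜 hfin}

lemma InSpan.add {f g : (I → Bool) → ℝ} (hf : InSpan 𝕜 hfin p f) (hg : InSpan 𝕜 hfin p g) :
    InSpan 𝕜 hfin p (fun x => f x + g x) := by
  obtain ⟨u, hu, hu'⟩ := hf
  obtain ⟨v, hv, hv'⟩ := hg
  refine ⟨u + v, Submodule.add_mem _ hu hv, ?_⟩
  filter_upwards [Lp.coeFn_add u v, hu', hv'] with x h1 h2 h3
  rw [h1, Pi.add_apply, h2, h3]; push_cast; rfl

lemma InSpan.const_mul {f : (I → Bool) → ℝ} (hf : InSpan 𝕜 hfin p f) (c : ℝ) :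
    InSpan 𝕜 hfin p (fun x => c * f x) := by
  obtain ⟨u, hu, hu'⟩ := hf
  refine ⟨(c : 𝕜) • u, Submodule.smul_mem _ _ hu, ?_⟩
  filter_upwards [Lp.coeFn_smul (c : 𝕜) u, hu'] with x h1 h2
  rw [h1, Pi.smul_apply, h2, smul_eq_mul]; push_cast; rfl

lemma inSpan_zero : InSpan 𝕜 hfin p (fun _ => 0) := by
  refine ⟨0, Submodule.zero_mem _, ?_⟩
  filter_upwards [Lp.coeFn_zero 𝕜 p (mu I)] with x h1
  rw [h1]; simp

lemma inSpan_sum {κ : Type*} (s : Finset κ) (f : κ → (I → Bool) → ℝ)
    (h : ∀ k ∈ s, InSpan 𝕜 hfin p (f k)) : InSpan 𝕜 hfin p (fun x => ∑ k ∈ s, f k x) := by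
  classical
  induction s using Finset.induction_on with
  | empty => simpa using inSpan_zero
  | insert k s hk ih =>
      have h1 := (h k (Finset.mem_insert_self k s)).add
        (ih fun j hj => h j (Finset.mem_insert_of_mem hj))
      simpa only [Finset.sum_insert hk] using h1

lemma inSpan_bf (k : Idx ρ) : InSpan 𝕜 hfin p (bf k) :=
  ⟨bv 𝕜 hfin p k, Submodule.subset_span ⟨k, rfl⟩, (memLp_bf 𝕜 hfin k p).coeFn_toLp⟩

/-- The Walsh functions. -/
noncomputable def walsh (S : Finset I) (x : I → Bool) : ℝ := ∏ i ∈ S, rad i x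

lemma inSpan_walsh (hρ : Subadd ρ) (S : Finset I) : InSpan 𝕜 hfin p (walsh S) := by
  classical
  rcases S.eq_empty_or_nonempty with rfl | hS
  · have : (walsh (∅ : Finset I)) = bf (none : Idx ρ) := by
      ext x; simp [walsh, bf]
    rw [this]; exact inSpan_bf _
  set a := S.max' hS with ha
  have haS : a ∈ S := S.max'_mem hS
  rcases (S.erase a).eq_empty_or_nonempty with hS' | hS'
  · have hSa : S = {a} := by
      rw [← Finset.insert_erase haS, hS']; rfl
    have : walsh S = bf (some ⟨a, none⟩ : Idx ρ) := by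
      ext x; rw [hSa]; simp [walsh, bf]
    rw [this]; exact inSpan_bf _
  obtain ⟨b, hb, hbmax⟩ := Finset.exists_max_image (S.erase a) (fun z => ρ z a) hS'
  have hba : b < a := by
    have h1 : b ∈ S := Finset.mem_of_mem_erase hb
    exact lt_of_le_of_ne (S.le_max' b h1) (Finset.ne_of_mem_erase hb)
  have hG : ∀ z ∈ (S.erase a).erase b, z < a ∧ ρ z a < ρ b a := by
    intro z hz
    have hz1 : z ∈ S.erase a := Finset.mem_of_mem_erase hz
    have hza : z < a := lt_of_le_of_ne (S.le_max' z (Finset.mem_of_mem_erase hz1))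
      (Finset.ne_of_mem_erase hz1)
    refine ⟨hza, lt_of_le_of_ne (hbmax z hz1) fun he => ?_⟩
    exact Finset.ne_of_mem_erase hz (hρ.inj z b a hza hba he)
  have hf : Finite {z : I // z < a ∧ ρ z a < ρ b a} := (hfin b a hba).to_subtype
  have := Fintype.ofFinite {z : I // z < a ∧ ρ z a < ρ b a}
  set sg : Bool → ℝ := fun t => if t then 1 else -1 with hsg
  -- coefficient of the atom `t`
  set co : ({z : I // z < a ∧ ρ z a < ρ b a} → Bool) → ℝ := fun t =>
    ∏ z ∈ (S.erase a).erase b, if h : z < a ∧ ρ z a < ρ b a then sg (t ⟨z, h⟩) else 1 with hco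
  have hw : walsh S = fun x => ∑ t : ({z : I // z < a ∧ ρ z a < ρ b a} → Bool),
      co t * bf (some ⟨a, some ⟨⟨b, hba⟩, t⟩⟩ : Idx ρ) x := by
    ext x
    rw [Finset.sum_eq_single (fun z => x z.1)]
    · simp only [bf, implies_true, if_true, mul_one]
      have h1 : co (fun z => x z.1) = ∏ z ∈ (S.erase a).erase b, rad z x := by
        simp only [hco]
        refine Finset.prod_congr rfl fun z hz => ?_
        rw [dif_pos (hG z hz)]
        simp [hsg, rad]
      rw [h1]
      unfold walsh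
      rw [← Finset.mul_prod_erase S _ haS, ← Finset.mul_prod_erase (S.erase a) _ hb]
      ring
    · intro t _ ht
      have : ¬ ∀ z : {z : I // z < a ∧ ρ z a < ρ b a}, x z.1 = t z := by
        intro h; exact ht (funext fun z => (h z).symm)
      simp only [bf, this, if_false, mul_zero]
    · intro h; exact absurd (Finset.mem_univ _) h
  rw [hw]
  exact inSpan_sum _ _ fun t _ => (inSpan_bf _).const_mul _

lemma inSpan_cyl (hρ : Subadd ρ) (J : Finset I) (t : I → Bool) :
    InSpan 𝕜 hfin p (fun x => if (∀ i ∈ J, x i = t i) then 1 else 0) := by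
  classical
  have h1 : (fun x : I → Bool => if (∀ i ∈ J, x i = t i) then (1:ℝ) else 0) =
      fun x => ∑ S ∈ J.powerset, ((∏ i ∈ S, rad i t) / 2 ^ J.card) * walsh S x := by
    ext x
    have h2 : (if (∀ i ∈ J, x i = t i) then (1:ℝ) else 0)
        = ∏ i ∈ J, ((1 + rad i t * rad i x) / 2) := by
      split_ifs with h
      · rw [Finset.prod_eq_one]
        intro i hi
        unfold rad
        rw [h i hi]
        split_ifs <;> norm_num
      · push Not at h
        obtain ⟨i, hi, hne⟩ := h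
        rw [Finset.prod_eq_zero hi]
        unfold rad
        cases hx : x i <;> cases ht : t i <;> simp_all
    rw [h2, Finset.prod_div_distrib, Finset.prod_const, Finset.prod_one_add, Finset.sum_div]
    refine Finset.sum_congr rfl fun S _ => ?_
    unfold walsh
    rw [Finset.prod_mul_distrib]
    ring
  rw [h1]
  exact inSpan_sum _ _ fun S _ => (inSpan_walsh hρ S).const_mul _

/-- Completeness. -/
theorem span_bv_dense (hρ : Subadd ρ) (hp : p ≠ ⊤) :
    (Submodule.span 𝕜 (Set.range (bv 𝕜 hfin p))).topologicalClosure = ⊤ := by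
  refine eq_top_of_cyl p hp _ (Submodule.isClosed_topologicalClosure _) ?_
  intro J t hf
  refine Submodule.le_topologicalClosure _ ?_
  obtain ⟨g, hg, hg'⟩ := (inSpan_cyl hρ J t : InSpan 𝕜 hfin p _)
  have : hf.toLp = g := by
    refine Lp.ext ?_
    filter_upwards [hf.coeFn_toLp, hg'] with x h1 h2
    rw [h1, h2]
    split_ifs <;> simp
  rw [this]
  exact hg

/-- The basis vectors do not vanish. -/
theorem bv_ne_zero (hp : p ≠ ⊤) (k : Idx ρ) : bv 𝕜 hfin p k ≠ 0 := by
  classical
  have hp1 : (1 : ℝ≥0∞) ≤ p := Fact.out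
  have hp0 : p ≠ 0 := by
    intro h; rw [h] at hp1; simp at hp1
  have hq0 : 0 < p.toReal := ENNReal.toReal_pos hp0 hp
  intro h0
  obtain ⟨J, hJ⟩ := exists_inside hfin {k}
  have hk := hJ k (Finset.mem_singleton_self k)
  have h1 := norm_rpow_sum 𝕜 hp0 hp hfin {k} (fun _ => 1)
  rw [Finset.sum_singleton, one_smul, h0, norm_zero] at h1
  obtain ⟨e, he, hek⟩ : ∃ e : Idx ρ → ℝ, (∀ j, j ∉ ({k} : Finset (Idx ρ)) → e j = 0) ∧ e k = 1 :=
    ⟨fun j => if j = k then 1 else 0, fun j hj => by simp at hj; simp [hj], by simp⟩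
  have h2 : ∫ x, |∑ j ∈ {k}, e j * bf j x| ^ p.toReal ∂(mu I) = 0 := by
    rw [Real.zero_rpow hq0.ne'] at h1
    rw [h1]
    refine integral_congr_ae (Filter.Eventually.of_forall fun x => ?_)
    simp [hek]
  rw [integral_rpow_eq p.toReal J {k} hJ e he] at h2
  have h3 : ∀ y : J → Bool, expn (e none) (fun a : J => e (some ⟨a.1, none⟩)) (phi J e) y = 0 := by
    intro y
    have h4 := le_mean_mul (f := fun y : J → Bool =>
      |expn (e none) (fun a : J => e (some ⟨a.1, none⟩)) (phi J e) y| ^ p.toReal)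
      (fun y => Real.rpow_nonneg (abs_nonneg _) _) y
    have h5 : |expn (e none) (fun a : J => e (some ⟨a.1, none⟩)) (phi J e) y| ^ p.toReal = 0 := by
      refine le_antisymm (h4.trans ?_) (Real.rpow_nonneg (abs_nonneg _) _)
      rw [show mean (fun y : J → Bool =>
        |expn (e none) (fun a : J => e (some ⟨a.1, none⟩)) (phi J e) y| ^ p.toReal) = 0 from h2,
        zero_mul]
    exact abs_eq_zero.mp ((Real.rpow_eq_zero (abs_nonneg _) hq0.ne').mp h5)
  -- a point where `bf k` does not vanish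
  obtain ⟨x, hx⟩ : ∃ x : I → Bool, bf k x ≠ 0 := by
    match k with
    | none => exact ⟨fun _ => true, by simp [bf]⟩
    | some ⟨a, none⟩ => exact ⟨fun _ => true, by simp [bf, rad]⟩
    | some ⟨a, some ⟨b, t⟩⟩ =>
        refine ⟨fun i => if h : i < a ∧ ρ i a < ρ b.1 a then t ⟨i, h⟩ else true, ?_⟩
        have : ∀ z : {z : I // z < a ∧ ρ z a < ρ b.1 a},
            (fun i => if h : i < a ∧ ρ i a < ρ b.1 a then t ⟨i, h⟩ else true) z.1 = t z := by
          intro z; simp only [z.2, and_self, dif_pos]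
        simp only [bf]
        rw [if_pos this]
        have h6 : ∀ i (x : I → Bool), rad i x ≠ 0 := fun i x => by
          unfold rad; split_ifs <;> norm_num
        exact mul_ne_zero (h6 _ _) (mul_ne_zero (h6 _ _) one_ne_zero)
  have h7 := sum_eq_expn J {k} hJ e he x
  rw [Finset.sum_singleton, hek, one_mul] at h7
  exact hx (h7.trans (h3 _))

end system

end MP_1a422c_an
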