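import Pool.Agent.Work.MP_1a422c_an.Cube

/-!
# The covering lemma (MP_1a422c_an, module B)
-/

set_option linter.unusedSectionVars false

open Finset

namespace MP_1a422c_an

variable {ι : Type*} [Fintype ι] [DecidableEq ι]

lemma Dep.mul {v : Finset ι} {f g : (ι → Bool) → ℝ} (hf : Dep v f) (hg : Dep v g) :
    Dep v (fun x => f x * g x) := fun x y hxy => by
  show f x * g x = f y * g y
  rw [hf x y hxy, hg x y hxy]

lemma Dep.prod {κ : Type*} {v : Finset ι} {s : Finset κ} {f : κ → (ι → Bool) → ℝ}
    (hf : ∀ k ∈ s, Dep v (f k)) : Dep v (fun x => ∏ k ∈ s, f k x) := fun x y hxy =>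
  Finset.prod_congr rfl (fun k hk => hf k hk x y hxy)

/-- The greedy sequence of sets: `Useq n` is the union of the first `n` selected sets. -/
noncomputable def Useq (v : ℕ → Finset ι) (W : (ι → Bool) → ℝ) (τ η : ℝ) :
    ℕ → Set (ι → Bool)
  | 0 => ∅
  | n + 1 => Useq v W τ η n ∪
      {x | τ ≤ E (v n) W x ∧ η ≤ E (v n) (ind (Useq v W τ η n)ᶜ) x}

/-- The selected set. -/
def Ssel (v : ℕ → Finset ι) (W : (ι → Bool) → ℝ) (τ η : ℝ) (n : ℕ) : Set (ι → Bool) :=
  {x | τ ≤ E (v n) W x ∧ η ≤ E (v n) (ind (Useq v W τ η n)ᶜ) x}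

/-- The new part. -/
def Enew (v : ℕ → Finset ι) (W : (ι → Bool) → ℝ) (τ η : ℝ) (n : ℕ) : Set (ι → Bool) :=
  Ssel v W τ η n ∩ (Useq v W τ η n)ᶜ

section

variable {v : ℕ → Finset ι} {W : (ι → Bool) → ℝ} {τ η : ℝ}

lemma Useq_succ (n : ℕ) : Useq v W τ η (n + 1) = Useq v W τ η n ∪ Ssel v W τ η n := rfl

lemma Useq_mono {m n : ℕ} (h : m ≤ n) : Useq v W τ η m ⊆ Useq v W τ η n := by
  induction n, h using Nat.le_induction with
  | base => exact subset_rfl
  | succ n hmn ih => rw [Useq_succ]; exact ih.trans Set.subset_union_left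

lemma Ssel_subset {m n : ℕ} (h : m < n) : Ssel v W τ η m ⊆ Useq v W τ η n := by
  refine (?_ : _ ⊆ Useq v W τ η (m + 1)).trans (Useq_mono h)
  rw [Useq_succ]
  exact Set.subset_union_right

lemma mem_Useq {n : ℕ} {x : ι → Bool} : x ∈ Useq v W τ η n ↔ ∃ l < n, x ∈ Ssel v W τ η l := by
  induction n with
  | zero => simp [Useq]
  | succ n ih =>
    rw [Useq_succ, Set.mem_union, ih]
    constructor
    · rintro (⟨l, hl, hx⟩ | hx)
      · exact ⟨l, by omega, hx⟩
      · exact ⟨n, by omega, hx⟩
    · rintro ⟨l, hl, hx⟩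
      rcases Nat.lt_succ_iff_lt_or_eq.mp hl with h | h
      · exact Or.inl ⟨l, h, hx⟩
      · subst h; exact Or.inr hx

lemma dep_ind_Ssel (n : ℕ) : Dep (v n) (ind (Ssel v W τ η n)) := by
  intro x y hxy
  have h : x ∈ Ssel v W τ η n ↔ y ∈ Ssel v W τ η n := by
    unfold Ssel
    simp only [Set.mem_ofPred_eq]
    rw [dep_E (v n) W x y hxy, dep_E (v n) _ x y hxy]
  by_cases hx : x ∈ Ssel v W τ η n
  · rw [ind_of_mem hx, ind_of_mem (h.mp hx)]
  · rw [ind_of_notMem hx, ind_of_notMem (fun hy => hx (h.mpr hy))]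

lemma ind_Enew (n : ℕ) (x : ι → Bool) :
    ind (Enew v W τ η n) x = ind (Ssel v W τ η n) x * ind (Useq v W τ η n)ᶜ x := by
  unfold Enew ind
  by_cases h1 : x ∈ Ssel v W τ η n <;> by_cases h2 : x ∈ (Useq v W τ η n)ᶜ <;>
    simp only [Set.mem_inter_iff, h1, h2] <;> simp

lemma sum_ind_Enew (n : ℕ) (x : ι → Bool) :
    ∑ i ∈ range n, ind (Enew v W τ η i) x = ind (Useq v W τ η n) x := by
  induction n with
  | zero => simp [Useq, ind]
  | succ n ih =>
    rw [Finset.sum_range_succ, ih, Useq_succ, ind_Enew]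
    by_cases h1 : x ∈ Ssel v W τ η n <;> by_cases h2 : x ∈ Useq v W τ η n <;>
      simp [ind, h1, h2]

lemma ind_compl_Useq (n : ℕ) (x : ι → Bool) :
    ind (Useq v W τ η n)ᶜ x = ∏ l ∈ range n, (1 - ind (Ssel v W τ η l) x) := by
  induction n with
  | zero => simp [Useq, ind]
  | succ n ih =>
    rw [Finset.prod_range_succ, ← ih, Useq_succ]
    by_cases h1 : x ∈ Ssel v W τ η n <;> by_cases h2 : x ∈ Useq v W τ η n <;>
      simp [ind, h1, h2]

/-- `a_i`. -/
noncomputable def acoef (v : ℕ → Finset ι) (W : (ι → Bool) → ℝ) (τ η : ℝ) (n : ℕ) :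
    (ι → Bool) → ℝ := E (v n) (ind (Enew v W τ η n))

lemma acoef_eq (n : ℕ) (x : ι → Bool) :
    acoef v W τ η n x
      = ind (Ssel v W τ η n) x * E (v n) (ind (Useq v W τ η n)ᶜ) x := by
  unfold acoef
  rw [← E_mul_dep (dep_ind_Ssel n)]
  congr 1
  funext y
  exact ind_Enew n y

lemma acoef_nonneg (n : ℕ) (x : ι → Bool) : 0 ≤ acoef v W τ η n x :=
  E_nonneg _ (fun _ => ind_nonneg _ _) x

lemma acoef_le_one (n : ℕ) (x : ι → Bool) : acoef v W τ η n x ≤ 1 := by
  have := E_mono (v n) (f := ind (Enew v W τ η n)) (g := fun _ => 1)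
    (fun _ => ind_le_one _ _) x
  rwa [E_const] at this

lemma dep_acoef (n : ℕ) : Dep (v n) (acoef v W τ η n) := dep_E _ _

lemma mean_acoef (n : ℕ) : mean (acoef v W τ η n) = mean (ind (Enew v W τ η n)) :=
  mean_E _ _

/-- lower bound for the pairing with `W` -/
lemma mean_acoef_mul_W (n : ℕ) :
    τ * mean (acoef v W τ η n) ≤ mean (fun x => acoef v W τ η n x * W x) := by
  rw [← mean_mul_E (dep_acoef n), ← mean_mul_left]
  apply mean_mono
  intro x
  rw [acoef_eq]
  by_cases hx : x ∈ Ssel v W τ η n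
  · rw [ind_of_mem hx]
    have h1 : τ ≤ E (v n) W x := hx.1
    have h2 : 0 ≤ E (v n) (ind (Useq v W τ η n)ᶜ) x := E_nonneg _ (fun _ => ind_nonneg _ _) x
    nlinarith
  · rw [ind_of_notMem hx]
    simp

/-- part (a) -/
lemma cover_a {K : ℕ} {i : ℕ} (hi : i < K) (hη : 0 < η) (x : ι → Bool)
    (hx : τ ≤ E (v i) W x) : 1 - η ≤ E (v i) (ind (Useq v W τ η K)) x := by
  by_cases hS : x ∈ Ssel v W τ η i
  · have h1 : E (v i) (ind (Useq v W τ η K)) x ≥ E (v i) (ind (Ssel v W τ η i)) x :=
      E_mono _ (fun y => ind_mono (Ssel_subset hi) y) x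
    rw [E_of_dep (dep_ind_Ssel i), ind_of_mem hS] at h1
    linarith
  · have h2 : E (v i) (ind (Useq v W τ η i)ᶜ) x < η := by
      by_contra hcon
      push Not at hcon
      exact hS ⟨hx, hcon⟩
    have h3 : E (v i) (ind (Useq v W τ η i)ᶜ) x = 1 - E (v i) (ind (Useq v W τ η i)) x := by
      have : (ind (Useq v W τ η i)ᶜ) = fun y => 1 - ind (Useq v W τ η i) y := by
        funext y; exact ind_compl _ _
      rw [this, E_sub, E_const]
    have h4 : E (v i) (ind (Useq v W τ η K)) x ≥ E (v i) (ind (Useq v W τ η i)) x :=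
      E_mono _ (fun y => ind_mono (Useq_mono hi.le) y) x
    linarith

/-- the key estimate for pairs -/
lemma pair_bound {K : ℕ} (hv : LevSeq v K) (hη : 0 < η) {i j : ℕ} (hij : i < j) (hj : j < K) :
    mean (fun x => acoef v W τ η i x * acoef v W τ η j x)
      ≤ η⁻¹ * mean (fun x => acoef v W τ η j x * ind (Enew v W τ η i) x) := by
  by_cases hsub : v i ⊆ v j
  · -- the product vanishes
    have h0 : ∀ x, acoef v W τ η i x * acoef v W τ η j x = 0 := by
      intro x
      by_cases hx : x ∈ Ssel v W τ η i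
      · have h1 : acoef v W τ η j x ≤ 0 := by
          unfold acoef
          have h2 : E (v j) (ind (Enew v W τ η j)) x
              ≤ E (v j) (fun y => 1 - ind (Ssel v W τ η i) y) x := by
            apply E_mono _
            intro y
            by_cases hy : y ∈ Enew v W τ η j
            · have : y ∉ Ssel v W τ η i := fun hy' => hy.2 (Ssel_subset hij hy')
              rw [ind_of_notMem this]
              have := ind_le_one (Enew v W τ η j) y
              linarith
            · rw [ind_of_notMem hy]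
              have := ind_le_one (Ssel v W τ η i) y
              linarith
          rw [E_sub, E_const, E_of_dep ((dep_ind_Ssel i).mono hsub),
            ind_of_mem hx] at h2
          linarith
        have h3 := acoef_nonneg (v := v) (W := W) (τ := τ) (η := η) j x
        rw [le_antisymm h1 h3, mul_zero]
      · rw [acoef_eq i, ind_of_notMem hx]; ring
    simp only [h0]
    rw [mean_const]
    apply mul_nonneg (inv_nonneg.mpr hη.le)
    exact mean_nonneg (fun x => mul_nonneg (acoef_nonneg _ _) (ind_nonneg _ _))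
  · obtain ⟨B, hB1, hB2', hB3'⟩ := hv i j hij hj hsub
    have hB2 : v i ⊆ B ∪ (v i ∩ v j) := by
      intro a ha
      by_cases haj : a ∈ v j
      · exact Finset.mem_union_right _ (Finset.mem_inter.mpr ⟨ha, haj⟩)
      · exact Finset.mem_union_left _ (hB2' (Finset.mem_sdiff.mpr ⟨ha, haj⟩))
    have hB3 : ∀ l < i, Disjoint (v l) B ∨ v l ⊆ B ∪ (v i ∩ v j) :=
      fun l hl => hB3' l hl.le
    set C : Finset ι := v i ∩ v j with hC
    set Y : (ι → Bool) → ℝ := fun x => ind (Ssel v W τ η i) x *
      ∏ l ∈ (range i).filter (fun l => v l ⊆ B ∪ C), (1 - ind (Ssel v W τ η l) x) with hY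
    set Z : (ι → Bool) → ℝ := fun x =>
      ∏ l ∈ (range i).filter (fun l => ¬ (v l ⊆ B ∪ C)), (1 - ind (Ssel v W τ η l) x) with hZ
    have hfac : ∀ x, ind (Enew v W τ η i) x = Y x * Z x := by
      intro x
      rw [ind_Enew, ind_compl_Useq, hY, hZ]
      simp only
      rw [mul_assoc, Finset.prod_filter_mul_prod_filter_not]
    have h01 : ∀ l x, 0 ≤ 1 - ind (Ssel v W τ η l) x := fun l x => by
      have := ind_le_one (Ssel v W τ η l) x; linarith
    have h11 : ∀ l x, 1 - ind (Ssel v W τ η l) x ≤ 1 := fun l x => by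
      have := ind_nonneg (Ssel v W τ η l) x; linarith
    have hY0 : ∀ x, 0 ≤ Y x := fun x =>
      mul_nonneg (ind_nonneg _ _) (Finset.prod_nonneg (fun l _ => h01 l x))
    have hZ0 : ∀ x, 0 ≤ Z x := fun x => Finset.prod_nonneg (fun l _ => h01 l x)
    have hZ1 : ∀ x, Z x ≤ 1 := fun x => Finset.prod_le_one (fun l _ => h01 l x) (fun l _ => h11 l x)
    have hYdep : Dep (B ∪ C) Y := by
      have h1 : Dep (B ∪ C) (ind (Ssel v W τ η i)) := (dep_ind_Ssel i).mono hB2
      have h2 : Dep (B ∪ C) (fun x =>
          ∏ l ∈ (range i).filter (fun l => v l ⊆ B ∪ C), (1 - ind (Ssel v W τ η l) x)) := by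
        apply Dep.prod (f := fun l x => 1 - ind (Ssel v W τ η l) x)
        intro l hl x y hxy
        have := ((dep_ind_Ssel (v := v) (W := W) (τ := τ) (η := η) l).mono
          (Finset.mem_filter.mp hl).2) x y hxy
        simp only [this]
      exact h1.mul h2
    have hZdep : Dep Bᶜ Z := by
      apply Dep.prod (f := fun l x => 1 - ind (Ssel v W τ η l) x)
      intro l hl x y hxy
      have hl' := Finset.mem_filter.mp hl
      have hd : Disjoint (v l) B := by
        rcases hB3 l (Finset.mem_range.mp hl'.1) with h | h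
        · exact h
        · exact absurd h hl'.2
      have hsub : v l ⊆ Bᶜ := by
        intro a ha
        rw [Finset.mem_compl]
        exact fun hb => (Finset.disjoint_left.mp hd ha) hb
      have := ((dep_ind_Ssel (v := v) (W := W) (τ := τ) (η := η) l).mono hsub) x y hxy
      simp only [this]
    have hCj : C ⊆ v j := Finset.inter_subset_right
    have hst : (B ∪ C) ∩ Bᶜ ⊆ v j := by
      intro a ha
      rw [Finset.mem_inter, Finset.mem_union, Finset.mem_compl] at ha
      rcases ha with ⟨h | h, h2⟩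
      · exact absurd h h2
      · exact (Finset.mem_inter.mp h).2
    have hind : ∀ x, E (v j) (ind (Enew v W τ η i)) x = E (v j) Y x * E (v j) Z x := by
      intro x
      rw [← E_mul_indep hYdep hZdep hCj hB1]
      congr 1
      funext y
      exact hfac y
    have hCv : v j ∩ (B ∪ C) = C := by
      ext a
      simp only [Finset.mem_inter, Finset.mem_union, hC]
      constructor
      · rintro ⟨h1, h2 | h2⟩
        · exact absurd h1 (Finset.disjoint_left.mp hB1 h2)
        · exact h2
      · rintro ⟨h1, h2⟩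
        exact ⟨h2, Or.inr ⟨h1, h2⟩⟩
    have hYC : ∀ x, E (v j) Y x = E C Y x := by
      intro x
      rw [E_eq_inter hYdep, hCv]
    -- Z dominates the complement of U_j
    have hZU : ∀ x, ind (Useq v W τ η j)ᶜ x ≤ Z x := by
      intro x
      by_cases hx : x ∈ Useq v W τ η j
      · rw [ind_compl, ind_of_mem hx]; simpa using hZ0 x
      · have : Z x = 1 := by
          rw [hZ]
          apply Finset.prod_eq_one
          intro l hl
          have hl' := Finset.mem_range.mp (Finset.mem_filter.mp hl).1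
          have : x ∉ Ssel v W τ η l := fun h => hx (Ssel_subset (hl'.trans hij) h)
          rw [ind_of_notMem this]; ring
        rw [this]; exact ind_le_one _ _
    -- main pointwise estimate
    have key : ∀ x, E C (ind (Enew v W τ η i)) x * acoef v W τ η j x
        ≤ η⁻¹ * (acoef v W τ η j x * E (v j) (ind (Enew v W τ η i)) x) := by
      intro x
      by_cases hx : x ∈ Ssel v W τ η j
      · have h1 : E C (ind (Enew v W τ η i)) x ≤ E C Y x := by
          apply E_mono _
          intro y
          rw [hfac y]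
          have := hZ1 y; have := hY0 y
          nlinarith
        have h2 : η ≤ E (v j) Z x := le_trans hx.2 (E_mono _ hZU x)
        have h3 : E C Y x ≤ η⁻¹ * E (v j) (ind (Enew v W τ η i)) x := by
          rw [hind x, ← hYC x]
          have hYn : 0 ≤ E (v j) Y x := E_nonneg _ hY0 x
          rw [le_inv_mul_iff₀ hη]
          nlinarith
        have h4 := acoef_nonneg (v := v) (W := W) (τ := τ) (η := η) j x
        calc E C (ind (Enew v W τ η i)) x * acoef v W τ η j x
            ≤ (η⁻¹ * E (v j) (ind (Enew v W τ η i)) x) * acoef v W τ η j x :=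
              mul_le_mul_of_nonneg_right (h1.trans h3) h4
          _ = _ := by ring
      · rw [acoef_eq j, ind_of_notMem hx]
        simp
    calc mean (fun x => acoef v W τ η i x * acoef v W τ η j x)
        = mean (fun x => acoef v W τ η j x * E (v j) (acoef v W τ η i) x) := by
          rw [mean_mul_E (dep_acoef j)]
          apply mean_congr
          intro x; ring
      _ = mean (fun x => E C (ind (Enew v W τ η i)) x * acoef v W τ η j x) := by
          apply mean_congr
          intro x
          unfold acoef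
          rw [E_E, hC, Finset.inter_comm (v j) (v i)]
          ring
      _ ≤ mean (fun x => η⁻¹ * (acoef v W τ η j x * E (v j) (ind (Enew v W τ η i)) x)) :=
          mean_mono key
      _ = η⁻¹ * mean (fun x => acoef v W τ η j x * E (v j) (ind (Enew v W τ η i)) x) :=
          mean_mul_left _ _
      _ = _ := by rw [mean_mul_E (dep_acoef j)]

/-- `E N^2 ≤ (1 + 2/η) P(U)`. -/
lemma mean_N_sq {K : ℕ} (hv : LevSeq v K) (hη : 0 < η) :
    mean (fun x => (∑ i ∈ range K, acoef v W τ η i x) ^ 2)
      ≤ (1 + 2 * η⁻¹) * mean (ind (Useq v W τ η K)) := by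
  have hmain : ∀ n ≤ K, mean (fun x => (∑ i ∈ range n, acoef v W τ η i x) ^ 2)
      ≤ (1 + 2 * η⁻¹) * ∑ i ∈ range n, mean (acoef v W τ η i) := by
    intro n hn
    induction n with
    | zero => simp [mean_const]
    | succ n ih =>
      have ih' := ih (by omega)
      have e1 : mean (fun x => (∑ i ∈ range (n + 1), acoef v W τ η i x) ^ 2)
          = mean (fun x => (∑ i ∈ range n, acoef v W τ η i x) ^ 2)
            + (2 * ∑ i ∈ range n, mean (fun x => acoef v W τ η i x * acoef v W τ η n x)
              + mean (fun x => acoef v W τ η n x ^ 2)) := by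
        rw [← mean_sum, ← mean_mul_left, ← mean_add, ← mean_add]
        apply mean_congr
        intro x
        rw [Finset.sum_range_succ, ← Finset.sum_mul]
        ring
      have e2 : ∑ i ∈ range n, mean (fun x => acoef v W τ η i x * acoef v W τ η n x)
          ≤ η⁻¹ * mean (acoef v W τ η n) := by
        calc ∑ i ∈ range n, mean (fun x => acoef v W τ η i x * acoef v W τ η n x)
            ≤ ∑ i ∈ range n, η⁻¹ * mean (fun x => acoef v W τ η n x * ind (Enew v W τ η i) x) :=
              Finset.sum_le_sum (fun i hi =>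
                pair_bound hv hη (Finset.mem_range.mp hi) (by omega))
          _ = η⁻¹ * mean (fun x => acoef v W τ η n x * ind (Useq v W τ η n) x) := by
              rw [← Finset.mul_sum, ← mean_sum]
              congr 1
              apply mean_congr
              intro x
              rw [← sum_ind_Enew n x, Finset.mul_sum]
          _ ≤ η⁻¹ * mean (acoef v W τ η n) := by
              apply mul_le_mul_of_nonneg_left _ (inv_nonneg.mpr hη.le)
              apply mean_mono
              intro x
              have h1 := acoef_nonneg (v := v) (W := W) (τ := τ) (η := η) n x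
              have h2 := ind_le_one (Useq v W τ η n) x
              nlinarith
      have e3 : mean (fun x => acoef v W τ η n x ^ 2) ≤ mean (acoef v W τ η n) := by
        apply mean_mono
        intro x
        have h1 := acoef_nonneg (v := v) (W := W) (τ := τ) (η := η) n x
        have h2 := acoef_le_one (v := v) (W := W) (τ := τ) (η := η) n x
        nlinarith
      rw [e1, Finset.sum_range_succ]
      nlinarith
  refine (hmain K le_rfl).trans (le_of_eq ?_)
  congr 1
  rw [show (∑ i ∈ range K, mean (acoef v W τ η i)) = ∑ i ∈ range K, mean (ind (Enew v W τ η i))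
    from Finset.sum_congr rfl (fun i _ => mean_acoef i), ← mean_sum]
  exact mean_congr (fun x => sum_ind_Enew K x)

end

/-- **Covering lemma.** -/
theorem exists_cover (v : ℕ → Finset ι) (K : ℕ) (hv : LevSeq v K)
    (W : (ι → Bool) → ℝ) (_hW : ∀ x, 0 ≤ W x) {τ η : ℝ} (hτ : 0 < τ) (hη : 0 < η)
    (hη1 : η ≤ 1) :
    ∃ U : Set (ι → Bool), (∀ i < K, ∀ x, τ ≤ E (v i) W x → 1 - η ≤ E (v i) (ind U) x) ∧
      η * τ ^ 2 * mean (ind U) ≤ 3 * mean (fun x => W x ^ 2) := by
  refine ⟨Useq v W τ η K, fun i hi x hx => cover_a hi hη x hx, ?_⟩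
  set P : ℝ := mean (ind (Useq v W τ η K)) with hP
  have hP0 : 0 ≤ P := mean_nonneg (fun _ => ind_nonneg _ _)
  have hM0 : 0 ≤ mean (fun x => W x ^ 2) := mean_nonneg (fun _ => sq_nonneg _)
  have hsum : ∑ i ∈ range K, mean (acoef v W τ η i) = P := by
    rw [show (∑ i ∈ range K, mean (acoef v W τ η i)) = ∑ i ∈ range K, mean (ind (Enew v W τ η i))
      from Finset.sum_congr rfl (fun i _ => mean_acoef i), ← mean_sum]
    exact mean_congr (fun x => sum_ind_Enew K x)
  have h1 : τ * P ≤ mean (fun x => W x * ∑ i ∈ range K, acoef v W τ η i x) := by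
    rw [← hsum, Finset.mul_sum]
    calc ∑ i ∈ range K, τ * mean (acoef v W τ η i)
        ≤ ∑ i ∈ range K, mean (fun x => acoef v W τ η i x * W x) :=
          Finset.sum_le_sum (fun i _ => mean_acoef_mul_W i)
      _ = _ := by
          rw [← mean_sum]
          apply mean_congr
          intro x
          rw [Finset.mul_sum]
          exact Finset.sum_congr rfl (fun i _ => mul_comm _ _)
  have h2 := mean_mul_sq_le W (fun x => ∑ i ∈ range K, acoef v W τ η i x)
  have h3 := mean_N_sq (W := W) (τ := τ) hv hη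
  have h4 : 1 + 2 * η⁻¹ ≤ 3 * η⁻¹ := by
    have : 1 ≤ η⁻¹ := (one_le_inv₀ hη).mpr hη1
    linarith
  have h5 : (τ * P) ^ 2 ≤ mean (fun x => W x ^ 2) * (3 * η⁻¹ * P) := by
    calc (τ * P) ^ 2 ≤ mean (fun x => W x * ∑ i ∈ range K, acoef v W τ η i x) ^ 2 := by
          apply pow_le_pow_left₀ (mul_nonneg hτ.le hP0) h1
      _ ≤ _ := h2
      _ ≤ mean (fun x => W x ^ 2) * ((1 + 2 * η⁻¹) * P) :=
          mul_le_mul_of_nonneg_left h3 hM0
      _ ≤ _ := by
          apply mul_le_mul_of_nonneg_left _ hM0
          exact mul_le_mul_of_nonneg_right h4 hP0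
  rcases hP0.lt_or_eq with hpos | hzero
  · have h6 : τ ^ 2 * P ≤ mean (fun x => W x ^ 2) * (3 * η⁻¹) := by
      have : (τ ^ 2 * P) * P ≤ (mean (fun x => W x ^ 2) * (3 * η⁻¹)) * P := by
        calc (τ ^ 2 * P) * P = (τ * P) ^ 2 := by ring
          _ ≤ _ := h5
          _ = _ := by ring
      exact le_of_mul_le_mul_right this hpos
    calc η * τ ^ 2 * P = η * (τ ^ 2 * P) := by ring
      _ ≤ η * (mean (fun x => W x ^ 2) * (3 * η⁻¹)) := mul_le_mul_of_nonneg_left h6 hη.le
      _ = 3 * mean (fun x => W x ^ 2) := by field_simp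
  · rw [← hzero]
    simpa using hM0

end MP_1a422c_an
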