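import Mathlib

/-!
# Averages on a finite cube (MP_1a422c_an)

`mean f` is the average of `f` over the cube `ι → Bool`, `E v f` is the average over the coordinates
outside `v` (conditional expectation on the coordinates in `v`).
-/

set_option linter.unusedSectionVars false

open Finset

namespace MP_1a422c_an

variable {ι : Type*} [Fintype ι] [DecidableEq ι]

/-- The average of `f` over the cube. -/
noncomputable def mean (f : (ι → Bool) → ℝ) : ℝ :=
  (∑ x : ι → Bool, f x) / (2 : ℝ) ^ Fintype.card ι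

/-- Conditional expectation on the coordinates in `v`. -/
noncomputable def E (v : Finset ι) (f : (ι → Bool) → ℝ) (x : ι → Bool) : ℝ :=
  mean fun y => f (v.piecewise x y)

/-- `f` depends only on the coordinates in `v`. -/
def Dep (v : Finset ι) (f : (ι → Bool) → ℝ) : Prop :=
  ∀ x y : ι → Bool, (∀ i ∈ v, x i = y i) → f x = f y

lemma card_cube : (Fintype.card (ι → Bool) : ℝ) = (2 : ℝ) ^ Fintype.card ι := by
  simp

lemma two_pow_pos : (0 : ℝ) < (2 : ℝ) ^ Fintype.card ι := by positivity

lemma mean_const (c : ℝ) : mean (fun _ : ι → Bool => c) = c := by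
  unfold mean
  rw [Finset.sum_const, Finset.card_univ, nsmul_eq_mul, card_cube]
  field_simp

lemma mean_add (f g : (ι → Bool) → ℝ) : mean (fun x => f x + g x) = mean f + mean g := by
  unfold mean; rw [Finset.sum_add_distrib, add_div]

lemma mean_sub (f g : (ι → Bool) → ℝ) : mean (fun x => f x - g x) = mean f - mean g := by
  unfold mean; rw [Finset.sum_sub_distrib, sub_div]

lemma mean_neg (f : (ι → Bool) → ℝ) : mean (fun x => - f x) = - mean f := by
  unfold mean; rw [Finset.sum_neg_distrib, neg_div]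

lemma mean_mul_left (c : ℝ) (f : (ι → Bool) → ℝ) : mean (fun x => c * f x) = c * mean f := by
  unfold mean; rw [← Finset.mul_sum, mul_div_assoc]

lemma mean_mul_right (f : (ι → Bool) → ℝ) (c : ℝ) : mean (fun x => f x * c) = mean f * c := by
  simp only [mul_comm _ c, mean_mul_left]

lemma mean_div (f : (ι → Bool) → ℝ) (c : ℝ) : mean (fun x => f x / c) = mean f / c := by
  simp only [div_eq_mul_inv, mean_mul_right]

lemma mean_sum {κ : Type*} (s : Finset κ) (f : κ → (ι → Bool) → ℝ) :
    mean (fun x => ∑ k ∈ s, f k x) = ∑ k ∈ s, mean (f k) := by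
  unfold mean; rw [Finset.sum_comm, Finset.sum_div]

lemma mean_mono {f g : (ι → Bool) → ℝ} (h : ∀ x, f x ≤ g x) : mean f ≤ mean g := by
  unfold mean
  exact div_le_div_of_nonneg_right (Finset.sum_le_sum fun x _ => h x) two_pow_pos.le

lemma mean_nonneg {f : (ι → Bool) → ℝ} (h : ∀ x, 0 ≤ f x) : 0 ≤ mean f := by
  have := mean_mono (f := fun _ => 0) (g := f) h
  simpa [mean_const] using this

lemma mean_pos {f : (ι → Bool) → ℝ} (h : ∀ x, 0 < f x) : 0 < mean f := by
  unfold mean
  exact div_pos (Finset.sum_pos (fun x _ => h x) Finset.univ_nonempty) two_pow_pos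

lemma mean_congr {f g : (ι → Bool) → ℝ} (h : ∀ x, f x = g x) : mean f = mean g := by
  congr 1; ext x; exact h x

/-- Pointwise bound by the mean of a nonnegative function. -/
lemma le_mean_mul {f : (ι → Bool) → ℝ} (h : ∀ x, 0 ≤ f x) (x : ι → Bool) :
    f x ≤ mean f * (2 : ℝ) ^ Fintype.card ι := by
  unfold mean
  rw [div_mul_cancel₀ _ two_pow_pos.ne']
  exact Finset.single_le_sum (f := f) (fun y _ => h y) (Finset.mem_univ x)

/-- Cauchy-Schwarz for `mean`. -/
lemma mean_mul_sq_le (f g : (ι → Bool) → ℝ) :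
    (mean fun x => f x * g x) ^ 2 ≤ (mean fun x => f x ^ 2) * mean fun x => g x ^ 2 := by
  unfold mean
  rw [div_pow, div_mul_div_comm, ← sq]
  exact div_le_div_of_nonneg_right (Finset.sum_mul_sq_le_sq_mul_sq _ _ _) (by positivity)

/-! ### The splitting lemma -/

/-- Swap the coordinates outside `v` of a pair. -/
def swapOut (v : Finset ι) (p : (ι → Bool) × (ι → Bool)) : (ι → Bool) × (ι → Bool) :=
  (v.piecewise p.1 p.2, v.piecewise p.2 p.1)

lemma swapOut_invol (v : Finset ι) : Function.Involutive (swapOut (ι := ι) v) := by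
  rintro ⟨x, y⟩
  unfold swapOut
  ext i
  · by_cases hi : i ∈ v <;> simp [hi]
  · by_cases hi : i ∈ v <;> simp [hi]

/-- Averaging over `v.piecewise y z` is averaging. -/
lemma mean_mean_piecewise (v : Finset ι) (g : (ι → Bool) → ℝ) :
    (mean fun y => mean fun z => g (v.piecewise y z)) = mean g := by
  have key : ∑ y : ι → Bool, ∑ z : ι → Bool, g (v.piecewise y z)
      = ∑ y : ι → Bool, ∑ _z : ι → Bool, g y := by
    rw [← Fintype.sum_prod_type' (f := fun y z => g (v.piecewise y z)),
      ← Fintype.sum_prod_type' (f := fun y (_ : ι → Bool) => g y)]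
    exact Fintype.sum_bijective (swapOut v) (swapOut_invol v).bijective _ _ (fun p => rfl)
  unfold mean
  rw [← Finset.sum_div, key]
  simp only [Finset.sum_const, Finset.card_univ, nsmul_eq_mul, card_cube]
  rw [← Finset.mul_sum]
  field_simp

/-! ### Basic properties of `E` -/

lemma E_empty (f : (ι → Bool) → ℝ) (x : ι → Bool) : E ∅ f x = mean f := by
  unfold E; simp

lemma E_univ (f : (ι → Bool) → ℝ) (x : ι → Bool) : E Finset.univ f x = f x := by
  unfold E; simp [mean_const]

lemma E_const (v : Finset ι) (c : ℝ) (x : ι → Bool) : E v (fun _ => c) x = c := by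
  unfold E; exact mean_const c

lemma E_add (v : Finset ι) (f g : (ι → Bool) → ℝ) (x : ι → Bool) :
    E v (fun y => f y + g y) x = E v f x + E v g x := by
  unfold E; exact mean_add _ _

lemma E_sub (v : Finset ι) (f g : (ι → Bool) → ℝ) (x : ι → Bool) :
    E v (fun y => f y - g y) x = E v f x - E v g x := by
  unfold E; exact mean_sub _ _

lemma E_mul_left (v : Finset ι) (c : ℝ) (f : (ι → Bool) → ℝ) (x : ι → Bool) :
    E v (fun y => c * f y) x = c * E v f x := by
  unfold E; exact mean_mul_left _ _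

lemma E_mul_right (v : Finset ι) (f : (ι → Bool) → ℝ) (c : ℝ) (x : ι → Bool) :
    E v (fun y => f y * c) x = E v f x * c := by
  unfold E; exact mean_mul_right _ _

lemma E_sum (v : Finset ι) {κ : Type*} (s : Finset κ) (f : κ → (ι → Bool) → ℝ) (x : ι → Bool) :
    E v (fun y => ∑ k ∈ s, f k y) x = ∑ k ∈ s, E v (f k) x := by
  unfold E; exact mean_sum _ _

lemma E_mono (v : Finset ι) {f g : (ι → Bool) → ℝ} (h : ∀ x, f x ≤ g x) (x : ι → Bool) :
    E v f x ≤ E v g x := by
  unfold E; exact mean_mono fun y => h _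

lemma E_nonneg (v : Finset ι) {f : (ι → Bool) → ℝ} (h : ∀ x, 0 ≤ f x) (x : ι → Bool) :
    0 ≤ E v f x := by
  unfold E; exact mean_nonneg fun y => h _

lemma E_pos (v : Finset ι) {f : (ι → Bool) → ℝ} (h : ∀ x, 0 < f x) (x : ι → Bool) :
    0 < E v f x := by
  unfold E; exact mean_pos fun y => h _

lemma E_congr (v : Finset ι) {f g : (ι → Bool) → ℝ} (h : ∀ x, f x = g x) (x : ι → Bool) :
    E v f x = E v g x := by
  unfold E; exact mean_congr fun y => h _

lemma dep_E (v : Finset ι) (f : (ι → Bool) → ℝ) : Dep v (E v f) := by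
  intro x y h
  unfold E
  congr 1; ext z; congr 1
  ext i
  by_cases hi : i ∈ v
  · simp [hi, h i hi]
  · simp [hi]

lemma Dep.mono {u v : Finset ι} {f : (ι → Bool) → ℝ} (h : Dep u f) (huv : u ⊆ v) : Dep v f :=
  fun x y hxy => h x y fun i hi => hxy i (huv hi)

/-- `E v f = f` when `f` depends only on `v`. -/
lemma E_of_dep {v : Finset ι} {f : (ι → Bool) → ℝ} (h : Dep v f) (x : ι → Bool) :
    E v f x = f x := by
  unfold E
  rw [show (fun y => f (v.piecewise x y)) = fun _ => f x from by
    ext y; exact h _ _ fun i hi => by simp [hi]]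
  exact mean_const _

/-- Pull out a `v`-dependent factor. -/
lemma E_mul_dep {v : Finset ι} {g : (ι → Bool) → ℝ} (h : Dep v g) (f : (ι → Bool) → ℝ)
    (x : ι → Bool) : E v (fun y => g y * f y) x = g x * E v f x := by
  unfold E
  rw [← mean_mul_left]
  refine mean_congr fun y => ?_
  beta_reduce
  rw [h (v.piecewise x y) x fun i hi => by simp [hi]]

/-- Tower property: averages commute and compose by intersection. -/
lemma E_E (u v : Finset ι) (f : (ι → Bool) → ℝ) (x : ι → Bool) :
    E u (E v f) x = E (u ∩ v) f x := by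
  unfold E
  rw [← mean_mean_piecewise v (fun w => f ((u ∩ v).piecewise x w))]
  refine mean_congr fun y => mean_congr fun z => ?_
  congr 1
  ext i
  by_cases hu : i ∈ u <;> by_cases hv : i ∈ v <;> simp [hu, hv]

lemma mean_E (v : Finset ι) (f : (ι → Bool) → ℝ) : mean (E v f) = mean f := by
  have h := E_E ∅ v f (fun _ => true)
  rw [E_empty, Finset.empty_inter, E_empty] at h
  exact h

/-- Self-adjointness against a `v`-dependent function. -/
lemma mean_mul_E {v : Finset ι} {g : (ι → Bool) → ℝ} (h : Dep v g) (f : (ι → Bool) → ℝ) :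
    (mean fun x => g x * E v f x) = mean fun x => g x * f x := by
  rw [← mean_E v (fun x => g x * f x)]
  exact mean_congr fun x => (E_mul_dep h f x).symm

/-- Conditional independence: if `Y` depends on `B ∪ C`, `Z` depends on the complement of `B`,
`C ⊆ v` and `B` is disjoint from `v`, then `E v (Y * Z) = E v Y * E v Z`. -/
lemma E_mul_indep {v B C : Finset ι} {Y Z : (ι → Bool) → ℝ} (hY : Dep (B ∪ C) Y)
    (hZ : Dep Bᶜ Z) (hC : C ⊆ v) (hB : Disjoint B v) (x : ι → Bool) :
    E v (fun y => Y y * Z y) x = E v Y x * E v Z x := by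
  unfold E
  rw [← mean_mean_piecewise B (fun y => Y (v.piecewise x y) * Z (v.piecewise x y)),
    ← mean_mul_right]
  refine mean_congr fun y => ?_
  rw [← mean_mul_left]
  refine mean_congr fun z => ?_
  have hnot : ∀ i, i ∈ B → i ∉ v := fun i hi hv => (Finset.disjoint_left.mp hB) hi hv
  congr 1
  · refine hY _ _ fun i hi => ?_
    rcases Finset.mem_union.mp hi with hi | hi
    · simp [hnot i hi, hi]
    · simp [hC hi]
  · refine hZ _ _ fun i hi => ?_
    have hiB : i ∉ B := Finset.mem_compl.mp hi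
    by_cases hv : i ∈ v
    · simp [hv]
    · simp [hv, hiB]

/-- `E v Y = E (v ∩ w) Y` if `Y` depends only on `w`. -/
lemma E_eq_inter {v w : Finset ι} {Y : (ι → Bool) → ℝ} (hY : Dep w Y) (x : ι → Bool) :
    E v Y x = E (v ∩ w) Y x := by
  rw [← E_E v w Y x]
  exact E_congr v (fun y => (E_of_dep hY y).symm) x

/-- Cauchy-Schwarz for `E v`. -/
lemma E_mul_sq_le (v : Finset ι) (f g : (ι → Bool) → ℝ) (x : ι → Bool) :
    (E v (fun y => f y * g y) x) ^ 2 ≤ E v (fun y => f y ^ 2) x * E v (fun y => g y ^ 2) x := by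
  unfold E; exact mean_mul_sq_le _ _

/-- `1 ≤ E v W * E v (1/W)` for positive `W`. -/
lemma one_le_E_mul_E_inv (v : Finset ι) {W : (ι → Bool) → ℝ} (hW : ∀ x, 0 < W x)
    (x : ι → Bool) : 1 ≤ E v W x * E v (fun y => (W y)⁻¹) x := by
  have h := E_mul_sq_le v (fun y => Real.sqrt (W y)) (fun y => (Real.sqrt (W y))⁻¹) x
  have h1 : E v (fun y => Real.sqrt (W y) * (Real.sqrt (W y))⁻¹) x = 1 := by
    rw [E_congr v (g := fun _ => 1) (fun y => mul_inv_cancel₀ (Real.sqrt_pos.mpr (hW y)).ne') x]
    exact E_const v 1 x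
  have h2 : E v (fun y => Real.sqrt (W y) ^ 2) x = E v W x :=
    E_congr v (fun y => Real.sq_sqrt (hW y).le) x
  have h3 : E v (fun y => ((Real.sqrt (W y))⁻¹) ^ 2) x = E v (fun y => (W y)⁻¹) x :=
    E_congr v (fun y => by rw [inv_pow, Real.sq_sqrt (hW y).le]) x
  rw [h1, h2, h3] at h
  simpa using h

/-- The indicator function of a set of the cube. -/
noncomputable def ind (U : Set (ι → Bool)) (x : ι → Bool) : ℝ := by
  classical exact if x ∈ U then 1 else 0

lemma ind_of_mem {U : Set (ι → Bool)} {x : ι → Bool} (h : x ∈ U) : ind U x = 1 := by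
  simp [ind, h]

lemma ind_of_notMem {U : Set (ι → Bool)} {x : ι → Bool} (h : x ∉ U) : ind U x = 0 := by
  simp [ind, h]

lemma ind_nonneg (U : Set (ι → Bool)) (x : ι → Bool) : 0 ≤ ind U x := by
  by_cases h : x ∈ U <;> simp [ind, h]

lemma ind_le_one (U : Set (ι → Bool)) (x : ι → Bool) : ind U x ≤ 1 := by
  by_cases h : x ∈ U <;> simp [ind, h]

lemma ind_compl (U : Set (ι → Bool)) (x : ι → Bool) : ind Uᶜ x = 1 - ind U x := by
  by_cases h : x ∈ U <;> simp [ind, h]

lemma ind_inter (U V : Set (ι → Bool)) (x : ι → Bool) : ind (U ∩ V) x = ind U x * ind V x := by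
  by_cases h : x ∈ U <;> by_cases h' : x ∈ V <;> simp [ind, h, h']

lemma ind_mono {U V : Set (ι → Bool)} (h : U ⊆ V) (x : ι → Bool) : ind U x ≤ ind V x := by
  by_cases h1 : x ∈ U
  · rw [ind_of_mem h1, ind_of_mem (h h1)]
  · rw [ind_of_notMem h1]; exact ind_nonneg _ _

/-- The combinatorial condition on a finite sequence of coordinate sets: whenever `i < j` and
`v i` is not contained in `v j`, there is a set `B` disjoint from `v j`, containing `v i \ v j`,
such that each earlier set `v l` (`l ≤ i`) is disjoint from `B` or contained in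
`B ∪ (v i ∩ v j)`. -/
def LevSeq (v : ℕ → Finset ι) (K : ℕ) : Prop :=
  ∀ i j, i < j → j < K → ¬ v i ⊆ v j → ∃ B : Finset ι, Disjoint B (v j) ∧ v i \ v j ⊆ B ∧
    ∀ l ≤ i, Disjoint (v l) B ∨ v l ⊆ B ∪ (v i ∩ v j)

end MP_1a422c_an
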