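import Pool.Agent.Work.MP_1a422c_an.Cube

/-!
# The product measure on `I → Bool` and integrals of cylinder functions
-/

open Finset MeasureTheory

namespace MP_1a422c_an

/-- The fair coin. -/
noncomputable def coin : Measure Bool := (2 : ENNReal)⁻¹ • Measure.count

instance : IsProbabilityMeasure coin := by
  constructor
  unfold coin
  rw [Measure.smul_apply, Measure.count_univ]
  simp only [ENat.card_eq_coe_fintype_card, Fintype.card_bool, smul_eq_mul]
  norm_num
  exact ENNReal.inv_mul_cancel (by norm_num) (by norm_num)

lemma coin_singleton (b : Bool) : coin {b} = 2⁻¹ := by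
  unfold coin
  rw [Measure.smul_apply, Measure.count_singleton]
  simp

/-- The product of fair coins indexed by `I`. -/
noncomputable def mu (I : Type*) : Measure (I → Bool) := Measure.infinitePi fun _ : I => coin

instance (I : Type*) : IsProbabilityMeasure (mu I) := by unfold mu; infer_instance

/-- Integral of a function of finitely many coordinates. -/
theorem integral_cyl {I : Type*} [DecidableEq I] (J : Finset I) (g : (J → Bool) → ℝ) :
    ∫ x : I → Bool, g (fun i : J => x i) ∂(mu I) = mean g := by
  unfold mu
  have h := integral_restrict_infinitePi (μ := fun _ : I => coin) (s := J) (f := g)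
    (by exact (measurable_of_finite g).aestronglyMeasurable)
  have h1 : ∀ x : I → Bool, g (fun i : J => x i) = g (J.restrict x) := fun x => rfl
  simp only [h1]
  rw [h, integral_fintype (Integrable.of_finite)]
  unfold mean
  rw [Finset.sum_div]
  refine Finset.sum_congr rfl fun x _ => ?_
  have h2 : (Measure.pi fun _ : J => coin).real {x} = ((2:ℝ) ^ Fintype.card J)⁻¹ := by
    rw [Measure.real, Measure.pi_singleton]
    simp [coin_singleton]
  rw [h2, smul_eq_mul]
  field_simp

end MP_1a422c_an
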