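import Pool.Agent.Work.MP_1a422c_an.Cube

/-!
# Statements of the modules (MP_1a422c_an). Definitions only; the theorems are proved in the
modules Cover, Majorant, LP, Rho, Lev, FiniteL3, CylInt, Dense, NonSep, Final.
-/

open Finset

namespace MP_1a422c_an

/-- Rademacher function of coordinate `i`. -/
noncomputable def rad {ι : Type*} (i : ι) (x : ι → Bool) : ℝ := if x i then 1 else -1

/-- Axioms of the two subadditivity inequalities for `ρ`. -/
structure Subadd {I : Type*} [LinearOrder I] {Λ : Type*} [LinearOrder Λ] (ρ : I → I → Λ) : Prop where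
  s1 : ∀ a b c : I, a < b → b < c → ρ a c ≤ max (ρ a b) (ρ b c)
  s2 : ∀ a b c : I, a < b → b < c → ρ a b ≤ max (ρ a c) (ρ b c)
  inj : ∀ a a' c : I, a < c → a' < c → ρ a c = ρ a' c → a = a'

/-- The set of predecessors of `a` that come before `b` in the `ρ(·,a)`-order. -/
def pre {ι : Type*} [Fintype ι] [LinearOrder ι] {Λ : Type*} [LinearOrder Λ] (ρ : ι → ι → Λ)
    (a b : ι) : Finset ι :=
  Finset.univ.filter fun z => z < a ∧ ρ z a < ρ b a

end MP_1a422c_an
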