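import Pool.Agent.Work.MP_1a422c_an.CylInt

/-!
# Density of the cylinder functions in `L^p` of the product measure
-/

open Finset MeasureTheory Filter Topology

namespace MP_1a422c_an

variable {I : Type*} {𝕜 : Type*} [RCLike 𝕜]

lemma toLp_cyl_eq (p : ENNReal) (J : Finset I) (S : Set (J → Bool)) (hS : MeasurableSet (cylinder (α := fun _ : I => Bool) J S)) [Fact (1 ≤ p)]
    (V : Submodule 𝕜 (Lp 𝕜 p (mu I)))
    (h : ∀ (J : Finset I) (t : I → Bool)
      (hf : MemLp (fun x : I → Bool => if (∀ i ∈ J, x i = t i) then (1:𝕜) else 0) p (mu I)),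
      hf.toLp ∈ V) :
    indicatorConstLp p hS (measure_ne_top (mu I) _) (1:𝕜) ∈ V := by
  classical
  have hmem : ∀ (t : I → Bool),
      MemLp (fun x : I → Bool => if (∀ i ∈ J, x i = t i) then (1:𝕜) else 0) p (mu I) := by
    intro t
    refine MemLp.of_bound ?_ 1 (ae_of_all _ fun x => ?_)
    · refine Measurable.aestronglyMeasurable ?_
      refine Measurable.ite ?_ measurable_const measurable_const
      have : {x : I → Bool | ∀ i ∈ J, x i = t i} = ⋂ i ∈ J, (fun x : I → Bool => x i) ⁻¹' {t i} := by
        ext x; simp
      rw [this]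
      exact Finset.measurableSet_biInter _ fun i _ => measurable_pi_apply i (by trivial)
    · split_ifs <;> simp
  -- extension of `s : J → Bool` to `I → Bool`
  let ext : (J → Bool) → (I → Bool) := fun s i => if hi : i ∈ J then s ⟨i, hi⟩ else false
  have hsum : indicatorConstLp p hS (measure_ne_top (mu I) _) (1:𝕜) =
      ∑ s : J → Bool, if s ∈ S then (hmem (ext s)).toLp _ else 0 := by
    refine Lp.ext ?_
    have h1 : ∀ᵐ x ∂(mu I), ∀ s : J → Bool, ((hmem (ext s)).toLp _ : (I → Bool) → 𝕜) x =
        if (∀ i ∈ J, x i = ext s i) then (1:𝕜) else 0 := by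
      rw [ae_all_iff]
      intro s
      exact (hmem (ext s)).coeFn_toLp
    have h2 := Lp.coeFn_finsetSum (μ := mu I) (p := p) (E := 𝕜) Finset.univ
      (fun s : J → Bool => if s ∈ S then (hmem (ext s)).toLp _ else 0)
    have h3 : ∀ᵐ x ∂(mu I), ∀ s : J → Bool,
        ((if s ∈ S then (hmem (ext s)).toLp _ else 0 : Lp 𝕜 p (mu I)) : (I → Bool) → 𝕜) x =
        if s ∈ S then ((hmem (ext s)).toLp _ : (I → Bool) → 𝕜) x else 0 := by
      rw [ae_all_iff]
      intro s
      by_cases hs : s ∈ S
      · simp only [hs, if_true]
        exact ae_of_all _ fun _ => trivial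
      · simp only [hs, if_false]
        exact Lp.coeFn_zero _ _ _
    filter_upwards [h1, h2, h3, indicatorConstLp_coeFn (p := p) (hs := hS)
      (hμs := measure_ne_top (mu I) _) (c := (1:𝕜))] with x hx1 hx2 hx3 hx4
    rw [hx4, hx2, Finset.sum_apply]
    simp only [hx3, hx1]
    have h5 : ∀ s : J → Bool, (∀ i ∈ J, x i = ext s i) ↔ s = J.restrict x := by
      intro s
      constructor
      · intro hh
        funext i
        have := hh i i.2
        simp only [ext, i.2, dif_pos] at this
        exact this.symm
      · rintro rfl i hi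
        simp [ext, hi]
    have h6 : ∀ s : J → Bool, (if s ∈ S then (if (∀ i ∈ J, x i = ext s i) then (1:𝕜) else 0) else 0)
        = if s = J.restrict x then (if J.restrict x ∈ S then (1:𝕜) else 0) else 0 := by
      intro s
      by_cases hs : s = J.restrict x
      · rw [if_pos hs, if_pos ((h5 s).mpr hs), hs]
      · have : ¬ (∀ i ∈ J, x i = ext s i) := fun hh => hs ((h5 s).mp hh)
        simp [hs, this]
    simp only [h6]
    rw [Finset.sum_ite_eq' Finset.univ (J.restrict x)]
    simp only [Finset.mem_univ, if_true]
    by_cases hx : J.restrict x ∈ S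
    · simp [hx]
    · simp [hx]
  rw [hsum]
  refine Submodule.sum_mem _ fun s _ => ?_
  split_ifs
  · exact h J (ext s) _
  · exact V.zero_mem

theorem eq_top_of_cyl (p : ENNReal) [Fact (1 ≤ p)] (hp : p ≠ ⊤)
    (V : Submodule 𝕜 (Lp 𝕜 p (mu I))) (hV : IsClosed (V : Set (Lp 𝕜 p (mu I))))
    (h : ∀ (J : Finset I) (t : I → Bool)
      (hf : MemLp (fun x : I → Bool => if (∀ i ∈ J, x i = t i) then (1:𝕜) else 0) p (mu I)),
      hf.toLp ∈ V) : V = ⊤ := by
  classical
  have hind : ∀ (A : Set (I → Bool)) (hA : MeasurableSet A),
      indicatorConstLp p hA (measure_ne_top (mu I) _) (1:𝕜) ∈ V := by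
    refine MeasurableSpace.induction_on_inter (s := measurableCylinders (fun _ : I => Bool))
      (C := fun A hA => indicatorConstLp p hA (measure_ne_top (mu I) _) (1:𝕜) ∈ V)
      generateFrom_measurableCylinders.symm isPiSystem_measurableCylinders ?_ ?_ ?_ ?_
    · simp only [indicatorConstLp_empty]
      exact V.zero_mem
    · intro A hA
      obtain ⟨J, S, hS, rfl⟩ := (mem_measurableCylinders A).mp hA
      exact toLp_cyl_eq p J S _ V h
    · intro A hA hAV
      have h1 : indicatorConstLp p MeasurableSet.univ (measure_ne_top (mu I) _) (1:𝕜) ∈ V := by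
        have := toLp_cyl_eq p (∅ : Finset I) Set.univ (by simp) V h
        convert this using 2
        simp
      have h2 : indicatorConstLp p hA.compl (measure_ne_top (mu I) _) (1:𝕜) =
          indicatorConstLp p MeasurableSet.univ (measure_ne_top (mu I) _) (1:𝕜) -
          indicatorConstLp p hA (measure_ne_top (mu I) _) (1:𝕜) := by
        rw [eq_sub_iff_add_eq, ← indicatorConstLp_disjoint_union hA.compl hA
          (measure_ne_top _ _) (measure_ne_top _ _) disjoint_compl_left]
        congr 1
        simp
      rw [h2]
      exact V.sub_mem h1 hAV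
    · intro f hdisj hf hfV
      have hfin : ∀ n : ℕ, indicatorConstLp p
          (MeasurableSet.iUnion fun i => MeasurableSet.iUnion fun (_ : i < n) => hf i :
            MeasurableSet (⋃ i, ⋃ (_ : i < n), f i))
          (measure_ne_top (mu I) _) (1:𝕜) ∈ V := by
        intro n
        induction n with
        | zero =>
          convert V.zero_mem using 1
          simp
        | succ n ih =>
          have hd : Disjoint (⋃ i, ⋃ (_ : i < n), f i) (f n) := by
            simp only [Set.disjoint_iUnion_left]
            intro i hi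
            exact hdisj (by omega)
          have := indicatorConstLp_disjoint_union (p := p) (μ := mu I)
            (MeasurableSet.iUnion fun i => MeasurableSet.iUnion fun (_ : i < n) => hf i :
            MeasurableSet (⋃ i, ⋃ (_ : i < n), f i)) (hf n)
            (measure_ne_top _ _) (measure_ne_top _ _) hd (1:𝕜)
          have h3 : (⋃ i, ⋃ (_ : i < n + 1), f i) = (⋃ i, ⋃ (_ : i < n), f i) ∪ f n := by
            ext x
            simp only [Set.mem_iUnion, Set.mem_union, exists_prop]
            constructor
            · rintro ⟨i, hi, hx⟩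
              rcases Nat.lt_succ_iff_lt_or_eq.mp hi with h' | rfl
              · exact Or.inl ⟨i, h', hx⟩
              · exact Or.inr hx
            · rintro (⟨i, hi, hx⟩ | hx)
              · exact ⟨i, by omega, hx⟩
              · exact ⟨n, by omega, hx⟩
          have h4 := V.add_mem ih (hfV n)
          rw [← this] at h4
          convert h4 using 2
      have hlim := tendsto_indicatorConstLp_set (p := p) (μ := mu I) (c := (1:𝕜))
        (hs := MeasurableSet.iUnion hf) (hμs := measure_ne_top (mu I) _)
        (t := fun n : ℕ => ⋃ i, ⋃ (_ : i < n), f i)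
        (ht := fun n => MeasurableSet.iUnion fun i => MeasurableSet.iUnion fun (_ : i < n) => hf i)
        (hμt := fun n => measure_ne_top (mu I) _) (l := atTop) hp (by
          have h5 := tendsto_measure_biUnion_Ici_zero_of_pairwise_disjoint (μ := mu I)
            (Es := f) (fun i => (hf i).nullMeasurableSet) hdisj
          refine tendsto_of_tendsto_of_tendsto_of_le_of_le tendsto_const_nhds h5
            (fun _ => bot_le) fun n => ?_
          refine measure_mono ?_
          intro x hx
          rcases hx with ⟨hx1, hx2⟩ | ⟨hx1, hx2⟩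
          · exfalso
            apply hx2
            simp only [Set.mem_iUnion, exists_prop] at hx1 ⊢
            obtain ⟨i, _, hi⟩ := hx1
            exact ⟨i, hi⟩
          · simp only [Set.mem_iUnion, exists_prop] at hx1 hx2 ⊢
            obtain ⟨i, hi⟩ := hx1
            refine ⟨i, ?_, hi⟩
            by_contra hcon
            exact hx2 ⟨i, by omega, hi⟩)
      exact hV.mem_of_tendsto hlim (Eventually.of_forall hfin)
  rw [eq_top_iff]
  rintro f -
  refine Lp.induction hp (fun f => f ∈ V) ?_ ?_ hV f
  · intro c A hA hμA
    rw [Lp.simpleFunc.coe_indicatorConst]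
    have h1 : indicatorConstLp p hA hμA.ne c =
        c • indicatorConstLp p hA (measure_ne_top (mu I) _) (1:𝕜) := by
      refine Lp.ext ?_
      filter_upwards [indicatorConstLp_coeFn (p := p) (hs := hA) (hμs := hμA.ne) (c := c),
        Lp.coeFn_smul c (indicatorConstLp p hA (measure_ne_top (mu I) _) (1:𝕜)),
        indicatorConstLp_coeFn (p := p) (hs := hA) (hμs := measure_ne_top (mu I) _)
          (c := (1:𝕜))] with x h1 h2 h3
      rw [h1, h2, Pi.smul_apply, h3]
      by_cases hx : x ∈ A <;> simp [hx]
    rw [h1]
    exact V.smul_mem _ (hind A hA)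
  · intro f g hf hg _ h1 h2
    exact V.add_mem h1 h2

end MP_1a422c_an
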