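import Mathlib

/-!
# From the finite sign inequality to unconditional expansions

If a family of nonzero vectors satisfies the finite sign inequality with constant `M`, then for
every set `S` of indices every vector of the closed linear span of `x '' S` has a unique expansion
`∑ c i • x i` (`i ∈ S`) that converges unconditionally.
-/

open Finset Filter Topology

namespace MP_1a422c_an

variable {𝕜 X ι : Type*} [RCLike 𝕜] [NormedAddCommGroup X] [NormedSpace 𝕜 X]

/-- The finite sign inequality with constant `M`. -/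
def SignIneq (𝕜 : Type*) {X ι : Type*} [RCLike 𝕜] [NormedAddCommGroup X] [NormedSpace 𝕜 X]
    (x : ι → X) (M : ℝ) : Prop :=
  ∀ (d : Finset ι) (a : ι → 𝕜) (ε : ι → 𝕜), (∀ i, ε i = 1 ∨ ε i = -1) →
    ‖∑ i ∈ d, ε i • a i • x i‖ ≤ M * ‖∑ i ∈ d, a i • x i‖

lemma SignIneq.proj [DecidableEq ι] {x : ι → X} {M : ℝ} (h : SignIneq 𝕜 x M) (d D : Finset ι)
    (hd : d ⊆ D) (a : ι → 𝕜) :
    ‖∑ i ∈ d, a i • x i‖ ≤ (1 + M) / 2 * ‖∑ i ∈ D, a i • x i‖ := by
  have h1 := h D a (fun i => if i ∈ d then 1 else -1) (fun i => by by_cases hi : i ∈ d <;> simp [hi])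
  have h2 : ∑ i ∈ d, a i • x i = (2 : 𝕜)⁻¹ • (∑ i ∈ D, a i • x i +
      ∑ i ∈ D, (if i ∈ d then (1 : 𝕜) else -1) • a i • x i) := by
    rw [← Finset.sum_add_distrib, Finset.smul_sum, ← Finset.sum_subset hd]
    · refine Finset.sum_congr rfl fun i hi => ?_
      rw [if_pos hi, one_smul, ← two_smul 𝕜, smul_smul]
      simp
    · intro i _ hi
      rw [if_neg hi]
      simp
  rw [h2, norm_smul]
  have h3 : ‖(2 : 𝕜)⁻¹‖ = 1 / 2 := by simp
  rw [h3]
  have h4 := norm_add_le (∑ i ∈ D, a i • x i)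
    (∑ i ∈ D, (if i ∈ d then (1 : 𝕜) else -1) • a i • x i)
  nlinarith

lemma SignIneq.coeff {x : ι → X} {M : ℝ} (h : SignIneq 𝕜 x M) (D : Finset ι) (i : ι) (hi : i ∈ D)
    (a : ι → 𝕜) : ‖a i‖ * ‖x i‖ ≤ (1 + M) / 2 * ‖∑ i ∈ D, a i • x i‖ := by
  classical
  have := h.proj {i} D (by simpa using hi) a
  simpa [norm_smul] using this

lemma SignIneq.restrict {x : ι → X} {M : ℝ} (h : SignIneq 𝕜 x M) (S : Set ι) :
    SignIneq 𝕜 (fun i : S => x i) M := by
  classical
  intro d a ε hε
  have key : ∀ b : S → 𝕜, ∑ i ∈ d, b i • x i =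
      ∑ i ∈ d.map (Function.Embedding.subtype _), (if hi : i ∈ S then b ⟨i, hi⟩ else 0) • x i := by
    intro b
    rw [Finset.sum_map]
    refine Finset.sum_congr rfl fun i _ => ?_
    simp
  have h1 := h (d.map (Function.Embedding.subtype _)) (fun i => if hi : i ∈ S then a ⟨i, hi⟩ else 0)
    (fun i => if hi : i ∈ S then ε ⟨i, hi⟩ else 1)
    (fun i => by
      by_cases hi : i ∈ S
      · simp only [hi, dif_pos]; exact hε _
      · simp [hi])
  rw [key a]
  have h2 := key (fun i => ε i * a i)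
  simp only [mul_smul] at h2
  rw [h2]
  refine le_trans (le_of_eq ?_) h1
  congr 1
  refine Finset.sum_congr rfl fun i _ => ?_
  by_cases hi : i ∈ S
  · simp [hi, mul_smul]
  · simp [hi]

/-- Unique unconditional expansions in the closed span of the whole family. -/
theorem SignIneq.existsUnique_hasSum [CompleteSpace X] {x : ι → X} (hx : ∀ i, x i ≠ 0) {M : ℝ}
    (h : SignIneq 𝕜 x M) (y : X)
    (hy : y ∈ closure (Submodule.span 𝕜 (Set.range x) : Set X)) :
    ∃! c : ι → 𝕜, HasSum (fun i => c i • x i) y := by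
  classical
  set C : ℝ := max ((1 + M) / 2) 1 with hC
  have hC1 : 1 ≤ C := le_max_right _ _
  have hproj : ∀ (d D : Finset ι), d ⊆ D → ∀ a : ι → 𝕜,
      ‖∑ i ∈ d, a i • x i‖ ≤ C * ‖∑ i ∈ D, a i • x i‖ := fun d D hd a =>
    (h.proj d D hd a).trans (mul_le_mul_of_nonneg_right (le_max_left _ _) (norm_nonneg _))
  have hcoeff : ∀ (D : Finset ι) (i : ι), i ∈ D → ∀ a : ι → 𝕜,
      ‖a i‖ * ‖x i‖ ≤ C * ‖∑ i ∈ D, a i • x i‖ := fun D i hi a =>
    (h.coeff D i hi a).trans (mul_le_mul_of_nonneg_right (le_max_left _ _) (norm_nonneg _))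
  have hxpos : ∀ i, 0 < ‖x i‖ := fun i => norm_pos_iff.mpr (hx i)
  -- uniqueness
  have huniq : ∀ c c' : ι → 𝕜, HasSum (fun i => c i • x i) y → HasSum (fun i => c' i • x i) y →
      c = c' := by
    intro c c' hc hc'
    have h0 : HasSum (fun i => (c i - c' i) • x i) 0 := by
      have := hc.sub hc'
      simpa [sub_smul] using this
    funext i
    have h1 : Tendsto (fun D : Finset ι => C * ‖∑ i ∈ D, (c i - c' i) • x i‖) atTop (𝓝 0) := by
      have h2 : Tendsto (fun D : Finset ι => ∑ i ∈ D, (c i - c' i) • x i) atTop (𝓝 0) := by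
        simpa [HasSum] using h0
      have := (h2.norm).const_mul C
      simpa using this
    have h2 : ‖c i - c' i‖ * ‖x i‖ ≤ 0 := by
      refine ge_of_tendsto h1 ?_
      filter_upwards [eventually_ge_atTop ({i} : Finset ι)] with D hD
      exact hcoeff D i (hD (by simp)) (fun i => c i - c' i)
    have h3 : ‖c i - c' i‖ = 0 := by
      have := norm_nonneg (c i - c' i)
      nlinarith [hxpos i]
    exact sub_eq_zero.mp (norm_eq_zero.mp h3)
  refine existsUnique_of_exists_of_unique ?_ (fun c c' hc hc' => huniq c c' hc hc')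
  -- existence
  obtain ⟨u, hu, hlim⟩ := mem_closure_iff_seq_limit.mp hy
  have hrep : ∀ n, ∃ a : ι →₀ 𝕜, Finsupp.linearCombination 𝕜 x a = u n := fun n => by
    have := hu n
    rw [SetLike.mem_coe, Finsupp.mem_span_range_iff_exists_finsupp] at this
    obtain ⟨a, ha⟩ := this
    exact ⟨a, by rw [Finsupp.linearCombination_apply]; exact ha⟩
  choose a ha using hrep
  have hsum : ∀ n (D : Finset ι), (a n).support ⊆ D → ∑ i ∈ D, a n i • x i = u n := by
    intro n D hD
    rw [← ha n, Finsupp.linearCombination_apply, Finsupp.sum_of_support_subset _ hD]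
    simp
  have hdiff : ∀ m n (D : Finset ι), (a m).support ⊆ D → (a n).support ⊆ D →
      ∑ i ∈ D, (a m i - a n i) • x i = u m - u n := by
    intro m n D hm hn
    simp only [sub_smul, Finset.sum_sub_distrib]
    rw [hsum m D hm, hsum n D hn]
  -- difference estimate on a finite set `d`
  have hest : ∀ m n (d : Finset ι), ‖∑ i ∈ d, (a m i - a n i) • x i‖ ≤ C * ‖u m - u n‖ := by
    intro m n d
    have := hproj d (d ∪ ((a m).support ∪ (a n).support)) Finset.subset_union_left
      (fun i => a m i - a n i)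
    have e := hdiff m n (d ∪ ((a m).support ∪ (a n).support))
      (fun i hi => by simp only [Finset.mem_union]; exact Or.inr (Or.inl hi))
      (fun i hi => by simp only [Finset.mem_union]; exact Or.inr (Or.inr hi))
    rw [e] at this
    exact this
  have hcauchy : CauchySeq u := hlim.cauchySeq
  have hcoef : ∀ i, ∃ c : 𝕜, Tendsto (fun n => a n i) atTop (𝓝 c) := by
    intro i
    refine cauchySeq_tendsto_of_complete ?_
    rw [Metric.cauchySeq_iff] at hcauchy ⊢
    intro δ hδ
    obtain ⟨N, hN⟩ := hcauchy (δ * ‖x i‖ / C) (by have := hxpos i; positivity)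
    refine ⟨N, fun m hm n hn => ?_⟩
    have h1 := hest m n {i}
    rw [Finset.sum_singleton, norm_smul] at h1
    have h2 := hN m hm n hn
    rw [dist_eq_norm] at h2 ⊢
    rw [lt_div_iff₀ (by positivity)] at h2
    have h3 := hxpos i
    by_contra hcon
    push Not at hcon
    nlinarith
  choose c hc using hcoef
  refine ⟨c, ?_⟩
  have hfin : ∀ n (d : Finset ι), ∀ B, (∀ m ≥ n, ‖u m - u n‖ ≤ B) →
      ‖∑ i ∈ d, (c i - a n i) • x i‖ ≤ C * B := by
    intro n d B hB
    have h1 : Tendsto (fun m => ∑ i ∈ d, (a m i - a n i) • x i) atTop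
        (𝓝 (∑ i ∈ d, (c i - a n i) • x i)) := by
      refine tendsto_finsetSum _ fun i _ => ?_
      exact ((hc i).sub_const _).smul_const _
    refine le_of_tendsto h1.norm ?_
    filter_upwards [eventually_ge_atTop n] with m hm
    exact (hest m n d).trans (mul_le_mul_of_nonneg_left (hB m hm) (by linarith))
  rw [HasSum]
  simp only [SummationFilter.unconditional_filter]
  rw [Metric.tendsto_atTop]
  intro δ hδ
  have hδ' : 0 < δ / (4 * C) := by positivity
  rw [Metric.cauchySeq_iff'] at hcauchy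
  obtain ⟨N, hN⟩ := hcauchy (δ / (4 * C)) hδ'
  have hN' : ∀ m ≥ N, ‖u m - u N‖ ≤ δ / (4 * C) := fun m hm => by
    have := hN m hm
    rw [dist_eq_norm] at this
    exact this.le
  have hNy : ‖u N - y‖ ≤ δ / (4 * C) := by
    have h1 : Tendsto (fun m => ‖u m - u N‖) atTop (𝓝 ‖y - u N‖) := (hlim.sub_const _).norm
    have h2 : ‖y - u N‖ ≤ δ / (4 * C) := by
      refine le_of_tendsto h1 ?_
      filter_upwards [eventually_ge_atTop N] with m hm using hN' m hm
    rwa [norm_sub_rev] at h2
  refine ⟨(a N).support, fun d hd => ?_⟩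
  rw [dist_eq_norm]
  have h1 := hfin N d _ hN'
  have h2 : ∑ i ∈ d, (c i - a N i) • x i = ∑ i ∈ d, c i • x i - u N := by
    simp only [sub_smul, Finset.sum_sub_distrib]
    rw [hsum N d hd]
  rw [h2] at h1
  have h3 : ∑ i ∈ d, c i • x i - y = (∑ i ∈ d, c i • x i - u N) + (u N - y) := by abel
  rw [h3]
  have h4 := norm_add_le (∑ i ∈ d, c i • x i - u N) (u N - y)
  have h5 : C * (δ / (4 * C)) = δ / 4 := by field_simp
  have h6 : δ / (4 * C) ≤ δ / 4 := by
    apply div_le_div_of_nonneg_left hδ.le (by norm_num)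
    nlinarith
  linarith

/-- Unique unconditional expansions in the closed span of every subfamily. -/
theorem SignIneq.existsUnique_hasSum_subfamily [CompleteSpace X] {x : ι → X} (hx : ∀ i, x i ≠ 0)
    {M : ℝ} (h : SignIneq 𝕜 x M) (S : Set ι) (y : X)
    (hy : y ∈ closure (Submodule.span 𝕜 (x '' S) : Set X)) :
    ∃! c : S → 𝕜, HasSum (fun i : S => c i • x i) y := by
  refine SignIneq.existsUnique_hasSum (x := fun i : S => x i) (fun i => hx i) (h.restrict S) y ?_
  rwa [Set.image_eq_range] at hy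

end MP_1a422c_an
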