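import Pool.Agent.Work.MP_1a422c_an.Defs

/-!
# A subadditive function on a well-ordered set all of whose initial segments are countable
-/

open Finset

namespace MP_1a422c_an

variable {I : Type*} [LinearOrder I]

/-- `r` is an admissible new row at `δ` for the rows `g` below `δ`. Here `g ξ α` is the value at
`ξ < α`, and `r ξ` is the new value at `ξ < δ`. -/
def GoodRow (g : I → I → ℕ) (δ : I) (r : I → ℕ) : Prop :=
  (∀ a b, a < b → b < δ → r a ≤ max (g a b) (r b) ∧ g a b ≤ max (r a) (r b)) ∧
    ∀ n, {ξ | ξ < δ ∧ r ξ ≤ n}.Finite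

/-- All rows below `δ` are good. -/
def GoodBelow (g : I → I → ℕ) (δ : I) : Prop :=
  ∀ c < δ, GoodRow g c (fun ξ => g ξ c)

theorem exists_goodRow (g : I → I → ℕ) (δ : I) (hc : (Set.Iio δ).Countable)
    (hg : GoodBelow g δ) : ∃ r, GoodRow g δ r := by
  classical
  rcases Set.eq_empty_or_nonempty (Set.Iio δ) with he | hne
  · refine ⟨fun _ => 0, fun a b _ hb => ?_, fun n => ?_⟩
    · exact absurd (show b ∈ Set.Iio δ from hb) (by rw [he]; exact Set.notMem_empty b)
    · have : {ξ | ξ < δ ∧ (0:ℕ) ≤ n} = ∅ := by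
        ext ξ
        simp only [Set.mem_ofPred_eq, Set.mem_empty_iff_false, iff_false]
        rintro ⟨h, _⟩
        exact absurd (show ξ ∈ Set.Iio δ from h) (by rw [he]; exact Set.notMem_empty ξ)
      rw [this]; exact Set.finite_empty
  obtain ⟨s, hs⟩ := hc.exists_eq_range hne
  -- running maxima
  let a : ℕ → I := fun n => Nat.rec (motive := fun _ => I) (s 0) (fun k x => max x (s (k+1))) n
  have ha0 : a 0 = s 0 := rfl
  have ha1 : ∀ k, a (k+1) = max (a k) (s (k+1)) := fun k => rfl
  have hmono : Monotone a := monotone_nat_of_le_succ fun k => by rw [ha1]; exact le_max_left _ _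
  have hsa : ∀ k, s k ≤ a k := by
    intro k
    cases k with
    | zero => exact le_rfl
    | succ k => rw [ha1]; exact le_max_right _ _
  have hslt : ∀ k, s k < δ := fun k => by
    have : s k ∈ Set.Iio δ := by rw [hs]; exact ⟨k, rfl⟩
    exact this
  have halt : ∀ k, a k < δ := by
    intro k
    induction k with
    | zero => exact hslt 0
    | succ k ih => rw [ha1]; exact max_lt ih (hslt _)
  have hcof : ∀ ξ, ξ < δ → ∃ k, ξ ≤ a k := by
    intro ξ hξ
    have : ξ ∈ Set.range s := by rw [← hs]; exact hξ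
    obtain ⟨k, rfl⟩ := this
    exact ⟨k, hsa k⟩
  -- extended function
  let h : I → I → ℕ := fun x y => if x = y then 0 else g x y
  have hself : ∀ x, h x x = 0 := fun x => by simp [h]
  have hlt : ∀ x y, x < y → h x y = g x y := fun x y hxy => by simp [h, hxy.ne]
  have h1 : ∀ x y z, x ≤ y → y ≤ z → z < δ → h x z ≤ max (h x y) (h y z) := by
    intro x y z hxy hyz hz
    rcases hxy.eq_or_lt with rfl | hxy
    · simp
    rcases hyz.eq_or_lt with rfl | hyz
    · simp
    rw [hlt x z (hxy.trans hyz), hlt x y hxy, hlt y z hyz]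
    exact ((hg z hz).1 x y hxy hyz).1
  have h2 : ∀ x y z, x ≤ y → y ≤ z → z < δ → h x y ≤ max (h x z) (h y z) := by
    intro x y z hxy hyz hz
    rcases hxy.eq_or_lt with rfl | hxy
    · simp [hself]
    rcases hyz.eq_or_lt with rfl | hyz
    · simp
    rw [hlt x z (hxy.trans hyz), hlt x y hxy, hlt y z hyz]
    exact ((hg z hz).1 x y hxy hyz).2
  -- the weights
  let m : ℕ → ℕ := fun n =>
    Nat.rec (motive := fun _ => ℕ) 0 (fun k x => x + 1 + h (a k) (a (k+1))) n
  have hm1 : ∀ k, m (k+1) = m k + 1 + h (a k) (a (k+1)) := fun k => rfl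
  have hmmono : Monotone m := monotone_nat_of_le_succ fun k => by rw [hm1]; omega
  have hmk : ∀ k, k ≤ m k := by
    intro k
    induction k with
    | zero => exact Nat.zero_le _
    | succ k ih => rw [hm1]; omega
  have hA : ∀ k l, k ≤ l → h (a k) (a l) ≤ m l := by
    intro k l hkl
    induction l, hkl using Nat.le_induction with
    | base => rw [hself]; exact Nat.zero_le _
    | succ l hkl ih =>
      refine (h1 (a k) (a l) (a (l+1)) (hmono hkl) (hmono (Nat.le_succ l)) (halt (l+1))).trans ?_
      refine max_le (ih.trans (hmmono (Nat.le_succ l))) ?_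
      rw [hm1]; omega
  -- first index
  have hKex : ∀ ξ : I, ∃ k : ℕ, (ξ < δ → ξ ≤ a k) ∧ ∀ j : ℕ, ξ ≤ a j → k ≤ j := by
    intro ξ
    rcases Classical.em (∃ k : ℕ, ξ ≤ a k) with hξ | hξ
    · obtain ⟨k, hk, hmin⟩ := WellFounded.has_min (wellFounded_lt : WellFounded
        ((· < ·) : ℕ → ℕ → Prop)) {k : ℕ | ξ ≤ a k} hξ
      exact ⟨k, fun _ => hk, fun j hj => not_lt.mp (hmin j hj)⟩
    · exact ⟨0, fun h => absurd (hcof ξ h) hξ, fun j _ => Nat.zero_le j⟩
  choose K hK hKmin using hKex
  let r : I → ℕ := fun ξ => max (m (K ξ)) (h ξ (a (K ξ)))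
  have hr : ∀ ξ, r ξ = max (m (K ξ)) (h ξ (a (K ξ))) := fun _ => rfl
  have hB1 : ∀ ξ l, ξ < δ → K ξ ≤ l → r ξ ≤ max (m l) (h ξ (a l)) := by
    intro ξ l hξ hl
    rw [hr]
    refine max_le ((hmmono hl).trans (le_max_left _ _)) ?_
    refine (h2 ξ (a (K ξ)) (a l) (hK ξ hξ) (hmono hl) (halt _)).trans ?_
    exact max_le (le_max_right _ _) ((hA _ _ hl).trans (le_max_left _ _))
  have hB2 : ∀ ξ l, ξ < δ → K ξ ≤ l → h ξ (a l) ≤ max (m l) (r ξ) := by
    intro ξ l hξ hl
    refine (h1 ξ (a (K ξ)) (a l) (hK ξ hξ) (hmono hl) (halt _)).trans ?_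
    refine max_le ?_ ((hA _ _ hl).trans (le_max_left _ _))
    exact le_trans (le_max_right _ _) (le_max_right _ _)
  refine ⟨r, ?_, ?_⟩
  · intro x y hxy hy
    have hx : x < δ := hxy.trans hy
    have hKxy : K x ≤ K y := hKmin x (K y) (hxy.le.trans (hK y hy))
    have hml : m (K y) ≤ r y := le_max_left _ _
    have hhl : h y (a (K y)) ≤ r y := le_max_right _ _
    constructor
    · refine (hB1 x (K y) hx hKxy).trans ?_
      refine max_le (hml.trans (le_max_right _ _)) ?_
      refine (h1 x y (a (K y)) hxy.le (hK y hy) (halt _)).trans ?_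
      rw [hlt x y hxy]
      exact max_le_max le_rfl hhl
    · rw [← hlt x y hxy]
      refine (h2 x y (a (K y)) hxy.le (hK y hy) (halt _)).trans ?_
      refine max_le ?_ (hhl.trans (le_max_right _ _))
      refine (hB2 x (K y) hx hKxy).trans ?_
      exact max_le (hml.trans (le_max_right _ _)) (le_max_left _ _)
  · intro n
    have hfin : (⋃ k ∈ Finset.range (n+1), ({a k} ∪ {ξ | ξ < a k ∧ g ξ (a k) ≤ n})).Finite := by
      refine Set.Finite.biUnion (Finset.finite_toSet _) fun k _ => ?_
      exact (Set.finite_singleton _).union ((hg (a k) (halt k)).2 n)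
    refine hfin.subset ?_
    rintro ξ ⟨hξ, hrn⟩
    rw [hr] at hrn
    have hk1 : K ξ ≤ n := (hmk _).trans ((le_max_left _ _).trans hrn)
    simp only [Set.mem_iUnion, Finset.mem_range]
    refine ⟨K ξ, by omega, ?_⟩
    rcases (hK ξ hξ).eq_or_lt with he | hlt'
    · left; exact he
    · right
      refine ⟨hlt', ?_⟩
      rw [← hlt _ _ hlt']
      exact (le_max_right _ _).trans hrn

/-- Stage 1: a subadditive function with finite sublevel sets. -/
theorem exists_g [WellFoundedLT I] (hc : ∀ a : I, (Set.Iio a).Countable) :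
    ∃ g : I → I → ℕ, ∀ c, GoodRow g c (fun ξ => g ξ c) := by
  classical
  -- rows by well-founded recursion
  let step : (δ : I) → ((α : I) → α < δ → (I → ℕ)) → (I → ℕ) := fun δ G =>
    if h : ∃ r, GoodRow (fun ξ α => if hα : α < δ then G α hα ξ else 0) δ r then
      Classical.choose h else fun _ => 0
  let G : I → (I → ℕ) := WellFounded.fix (wellFounded_lt : WellFounded ((· < ·) : I → I → Prop)) step
  have hG : ∀ δ, G δ = step δ (fun α _ => G α) := fun δ =>
    WellFounded.fix_eq (wellFounded_lt : WellFounded ((· < ·) : I → I → Prop)) step δ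
  refine ⟨fun ξ α => G α ξ, ?_⟩
  -- changing `g` above `δ` does not matter
  have hcongr : ∀ (g g' : I → I → ℕ) (δ : I) (r : I → ℕ), (∀ ξ α, α < δ → g ξ α = g' ξ α) →
      GoodRow g δ r → GoodRow g' δ r := by
    intro g g' δ r hgg hgood
    refine ⟨fun a b hab hb => ?_, hgood.2⟩
    rw [← hgg a b hb]
    exact hgood.1 a b hab hb
  intro c
  induction c using WellFoundedLT.induction with
  | ind δ ih =>
    have hgood : GoodBelow (fun ξ α => if hα : α < δ then G α ξ else 0) δ := by
      intro c hcδ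
      have h1 := ih c hcδ
      have h2 : (fun ξ => (fun ξ α => if hα : α < δ then G α ξ else 0) ξ c) = fun ξ => G c ξ := by
        funext ξ
        simp [hcδ]
      rw [h2]
      refine hcongr _ _ c _ ?_ h1
      intro ξ α hα
      simp [hα.trans hcδ]
    have hex := exists_goodRow _ δ (hc δ) hgood
    have h3 : G δ = Classical.choose hex := by
      rw [hG δ]
      simp only [step]
      rw [dif_pos hex]
    have h4 := Classical.choose_spec hex
    rw [← h3] at h4
    refine hcongr _ _ δ _ ?_ h4
    intro ξ α hα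
    simp [hα]

theorem exists_rho (I : Type*) [LinearOrder I] [WellFoundedLT I]
    (hc : ∀ a : I, (Set.Iio a).Countable) :
    ∃ ρ : I → I → ℕ ×ₗ ℕ, Subadd ρ ∧
      ∀ a c : I, a < c → {b | b < c ∧ ρ b c < ρ a c}.Finite := by
  classical
  obtain ⟨g, hg⟩ := exists_g hc
  have s1 : ∀ a b c, a < b → b < c → g a c ≤ max (g a b) (g b c) := fun a b c hab hbc =>
    ((hg c).1 a b hab hbc).1
  have s2 : ∀ a b c, a < b → b < c → g a b ≤ max (g a c) (g b c) := fun a b c hab hbc =>
    ((hg c).1 a b hab hbc).2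
  have hfin : ∀ c n, {ξ | ξ < c ∧ g ξ c ≤ n}.Finite := fun c n => (hg c).2 n
  let cnt : ℕ → I → ℕ := fun n ξ => (hfin ξ n).toFinset.card
  have hcnt : ∀ n a b, a < b → g a b ≤ n → cnt n a < cnt n b := by
    intro n a b hab hn
    refine Finset.card_lt_card ?_
    rw [Finset.ssubset_iff_of_subset]
    · refine ⟨a, ?_, ?_⟩
      · simp [hab, hn]
      · simp
    · intro z hz
      simp only [Set.Finite.mem_toFinset, Set.mem_ofPred_eq] at hz ⊢
      refine ⟨hz.1.trans hab, ?_⟩
      exact (s1 z a b hz.1 hab).trans (max_le hz.2 hn)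
  let ρ : I → I → ℕ ×ₗ ℕ := fun ξ α => toLex (g ξ α, cnt (g ξ α) ξ)
  have hle : ∀ (a b c d : I), ρ a b ≤ ρ c d ↔ g a b < g c d ∨ g a b = g c d ∧
      cnt (g a b) a ≤ cnt (g c d) c := by
    intro a b c d
    simp only [ρ, Prod.Lex.toLex_le_toLex]
  refine ⟨ρ, ⟨?_, ?_, ?_⟩, ?_⟩
  · intro a b c hab hbc
    rcases (s1 a b c hab hbc).lt_or_eq with h | h
    · rw [lt_max_iff] at h
      rw [le_max_iff, hle, hle]
      rcases h with h | h
      · exact Or.inl (Or.inl h)
      · exact Or.inr (Or.inl h)
    · rw [le_max_iff, hle, hle]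
      by_cases hb : g b c = g a c
      · right; right
        refine ⟨hb.symm, ?_⟩
        rw [hb]
        refine (hcnt _ a b hab ?_).le
        exact (s2 a b c hab hbc).trans (max_le le_rfl hb.le)
      · left; right
        have h5 : g a c = g a b := by
          rcases le_total (g a b) (g b c) with h6 | h6
          · rw [max_eq_right h6] at h
            exact absurd h.symm hb
          · rw [max_eq_left h6] at h
            exact h
        exact ⟨h5, by rw [h5]⟩
  · intro a b c hab hbc
    rcases (s2 a b c hab hbc).lt_or_eq with h | h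
    · rw [lt_max_iff] at h
      rw [le_max_iff, hle, hle]
      rcases h with h | h
      · exact Or.inl (Or.inl h)
      · exact Or.inr (Or.inl h)
    · rw [le_max_iff, hle, hle]
      by_cases hb : g a c = g a b
      · left; right
        exact ⟨hb.symm, by rw [hb]⟩
      · right; right
        have h5 : g a b = g b c := by
          rcases le_total (g a c) (g b c) with h6 | h6
          · rw [max_eq_right h6] at h
            exact h
          · rw [max_eq_left h6] at h
            exact absurd h.symm hb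
        refine ⟨h5, ?_⟩
        rw [← h5]
        exact (hcnt _ a b hab le_rfl).le
  · intro a a' c ha ha' heq
    have h1 : g a c = g a' c := congrArg (fun p : ℕ ×ₗ ℕ => (ofLex p).1) heq
    have h2 : cnt (g a c) a = cnt (g a' c) a' := congrArg (fun p : ℕ ×ₗ ℕ => (ofLex p).2) heq
    by_contra hne
    rcases lt_or_gt_of_ne hne with h | h
    · have := hcnt (g a c) a a' h ((s2 a a' c h ha').trans (max_le le_rfl h1.ge))
      rw [h2, h1] at this
      exact lt_irrefl _ this
    · have := hcnt (g a' c) a' a h ((s2 a' a c h ha).trans (max_le le_rfl h1.le))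
      rw [← h2, ← h1] at this
      exact lt_irrefl _ this
  · intro a c _
    refine (hfin c (g a c)).subset ?_
    rintro b ⟨hb, hlt⟩
    refine ⟨hb, ?_⟩
    rcases (hle b c a c).mp hlt.le with h | h
    · exact h.le
    · exact h.1.le

end MP_1a422c_an
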