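import Pool.Agent.Work.MP_1a422c_an.CompleteP
import Pool.Agent.Work.MP_1a422c_an.Rho
import Pool.Agent.Work.MP_1a422c_an.Equiv

/-!
# Assembly
-/

set_option linter.unusedSectionVars false

open Finset MeasureTheory
open scoped ENNReal

namespace MP_1a422c_an

universe u

/-- A set of cardinality `ℵ₁` carries a well-order with countable initial segments. -/
theorem exists_order (I : Type u) (hI : Cardinal.mk I = Cardinal.aleph 1) :
    ∃ _ : LinearOrder I, WellFoundedLT I ∧ ∀ a : I, (Set.Iio a).Countable := by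
  classical
  obtain ⟨r, wo, hr⟩ := Cardinal.exists_ord_eq I
  refine ⟨linearOrderOfSTO r, ⟨wo.wf⟩, fun a => ?_⟩
  have h1 := Cardinal.card_typein_lt (r := r) a hr
  rw [Ordinal.card_typein, hI] at h1
  have h2 : Cardinal.mk {y : I // r y a} ≤ Cardinal.aleph0 := by
    rw [← Cardinal.succ_aleph0] at h1
    exact Order.lt_succ_iff.mp h1
  exact Set.countable_coe_iff.mp (Cardinal.mk_le_aleph0_iff.mp h2)

/-- A family with dense span gives a dense set of at most its cardinality (or countable). -/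
theorem exists_dense_card {𝕜 : Type*} [RCLike 𝕜] {E : Type*} [NormedAddCommGroup E]
    [NormedSpace 𝕜 E] {ι : Type*} (x : ι → E)
    (hx : closure (Submodule.span 𝕜 (Set.range x) : Set E) = Set.univ) :
    ∃ f : (ι →₀ ℕ) → E, DenseRange f := by
  classical
  set q : ℕ → 𝕜 := TopologicalSpace.denseSeq 𝕜 with hq
  have hqd : DenseRange q := TopologicalSpace.denseRange_denseSeq 𝕜
  refine ⟨fun c => ∑ i ∈ c.support, q (c i) • x i, ?_⟩
  set R : Set E := Set.range fun c : ι →₀ ℕ => ∑ i ∈ c.support, q (c i) • x i with hR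
  have key : ∀ (s : Finset ι) (a : ι → 𝕜), ∑ i ∈ s, a i • x i ∈ closure R := by
    intro s a
    rw [Metric.mem_closure_iff]
    intro ε hε
    -- choose approximations, with nonzero labels
    have hne : ∀ (z : 𝕜) (δ : ℝ), 0 < δ → ∃ n : ℕ, n ≠ 0 ∧ dist z (q n) < δ := by
      intro z δ hδ
      have hd : Dense (Set.range q \ {q 0}) := by
        have : (Set.range q \ {q 0}) = Set.range q ∩ {q 0}ᶜ := rfl
        rw [this]
        exact hqd.inter_of_isOpen_right (dense_compl_singleton (q 0)) isOpen_compl_singleton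
      obtain ⟨w, hw, hw'⟩ := Metric.dense_iff.mp hd z δ hδ
      obtain ⟨⟨n, hn⟩, hn0⟩ := hw'
      refine ⟨n, ?_, ?_⟩
      · rintro rfl
        exact hn0 (by simp [← hn])
      · rw [hn, dist_comm]
        exact hw
    have hS : 0 < ∑ i ∈ s, ‖x i‖ + 1 := by positivity
    have hδ : 0 < ε / (∑ i ∈ s, ‖x i‖ + 1) := by positivity
    choose n hn0 hn using fun i => hne (a i) (ε / (∑ i ∈ s, ‖x i‖ + 1)) hδ
    let c : ι →₀ ℕ := Finsupp.onFinset s (fun i => if i ∈ s then n i else 0) (by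
      intro i hi
      by_contra h
      simp [h] at hi)
    have hcs : c.support = s := by
      ext i
      simp only [c, Finsupp.mem_support_iff, Finsupp.onFinset_apply]
      by_cases hi : i ∈ s <;> simp [hi, hn0]
    refine ⟨_, ⟨c, rfl⟩, ?_⟩
    simp only
    rw [hcs, dist_eq_norm, ← Finset.sum_sub_distrib]
    calc ‖∑ i ∈ s, (a i • x i - q (c i) • x i)‖
        ≤ ∑ i ∈ s, ‖a i • x i - q (c i) • x i‖ := norm_sum_le _ _
      _ ≤ ∑ i ∈ s, (ε / (∑ i ∈ s, ‖x i‖ + 1)) * ‖x i‖ := by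
          refine Finset.sum_le_sum fun i hi => ?_
          rw [← sub_smul, norm_smul]
          refine mul_le_mul_of_nonneg_right ?_ (norm_nonneg _)
          have h1 : c i = n i := by simp [c, hi]
          rw [h1, ← dist_eq_norm]
          exact (hn i).le
      _ = (ε / (∑ i ∈ s, ‖x i‖ + 1)) * ∑ i ∈ s, ‖x i‖ := by rw [Finset.mul_sum]
      _ < (ε / (∑ i ∈ s, ‖x i‖ + 1)) * (∑ i ∈ s, ‖x i‖ + 1) := by
          refine mul_lt_mul_of_pos_left (by linarith) hδ
      _ = ε := by field_simp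
  have hsub : (Submodule.span 𝕜 (Set.range x) : Set E) ⊆ closure R := by
    intro y hy
    obtain ⟨c, rfl⟩ := (Finsupp.mem_span_range_iff_exists_finsupp).mp hy
    exact key c.support c
  have h2 : closure (Submodule.span 𝕜 (Set.range x) : Set E) ⊆ closure R :=
    closure_minimal hsub isClosed_closure
  rw [hx] at h2
  exact fun y => h2 (Set.mem_univ y)

section count

variable {I : Type u} [LinearOrder I] {Λ : Type*} [LinearOrder Λ] {ρ : I → I → Λ}

lemma mk_idx_le (hI : Cardinal.mk I = Cardinal.aleph 1)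
    (hc : ∀ a : I, (Set.Iio a).Countable) (hfin : FinPre ρ) :
    Cardinal.mk (Idx ρ) ≤ Cardinal.aleph 1 := by
  have h0 : Cardinal.aleph0 ≤ Cardinal.aleph.{u} 1 := Cardinal.aleph0_le_aleph 1
  have hF : ∀ a : I, Cardinal.mk (Option (Σ b : {b : I // b < a},
      ({z : I // z < a ∧ ρ z a < ρ b.1 a} → Bool))) ≤ Cardinal.aleph0 := by
    intro a
    have h1 : Countable {b : I // b < a} := (hc a).to_subtype
    have h2 : ∀ b : {b : I // b < a}, Finite {z : I // z < a ∧ ρ z a < ρ b.1 a} :=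
      fun b => (hfin b.1 a b.2).to_subtype
    have h3 : ∀ b : {b : I // b < a}, Countable ({z : I // z < a ∧ ρ z a < ρ b.1 a} → Bool) :=
      fun b => inferInstance
    exact Cardinal.mk_le_aleph0
  have h4 : Cardinal.mk (Σ a : I, Option (Σ b : {b : I // b < a},
      ({z : I // z < a ∧ ρ z a < ρ b.1 a} → Bool))) ≤ Cardinal.aleph 1 := by
    rw [Cardinal.mk_sigma]
    refine (Cardinal.sum_le_sum _ (fun _ => Cardinal.aleph0) hF).trans ?_
    rw [Cardinal.sum_const', hI]
    exact (Cardinal.mul_le_max_of_aleph0_le_left h0).trans (max_le le_rfl h0)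
  unfold Idx
  rw [Cardinal.mk_option]
  exact (add_le_add h4 (Cardinal.one_le_aleph0.trans h0)).trans (Cardinal.add_eq_self h0).le

end count

/-- Everything except the finite inequality. -/
theorem main_of_finIneq (𝕜 : Type) [RCLike 𝕜] {p : ℝ≥0∞} [Fact (1 ≤ p)] (hp : p ≠ ⊤) {C : ℝ}
    (hC : 0 ≤ C) (hq : FinIneq.{u, 0} p.toReal C) (I : Type u)
    (hI : Cardinal.mk I = Cardinal.aleph 1) :
    ∃ (ι : Type u) (x : ι → Lp 𝕜 p (mu I)) (M : ℝ), (∀ i, x i ≠ 0) ∧
      closure (Submodule.span 𝕜 (Set.range x) : Set (Lp 𝕜 p (mu I))) = Set.univ ∧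
      SignIneq 𝕜 x M ∧ Cardinal.mk ι ≤ Cardinal.aleph 1 := by
  obtain ⟨_, hwf, hc⟩ := exists_order I hI
  obtain ⟨ρ, hρ, hfin⟩ := exists_rho I hc
  have hfin' : FinPre ρ := hfin
  refine ⟨Idx ρ, bv 𝕜 hfin' p, (2 ^ p.toReal * (2 * C)) ^ (p.toReal)⁻¹,
    fun k => bv_ne_zero hp k, ?_, ?_, mk_idx_le hI hc hfin'⟩
  · have h := span_bv_dense (𝕜 := 𝕜) (hfin := hfin') hρ hp
    have h2 := congrArg (fun V : Submodule 𝕜 (Lp 𝕜 p (mu I)) => (V : Set (Lp 𝕜 p (mu I)))) h
    simpa using h2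
  · intro d a ε hε
    exact uncond_Lp 𝕜 hp hC hq hfin' hρ d a ε hε

/-- The density character. -/
theorem density_eq (𝕜 : Type) [RCLike 𝕜] (p : ℝ≥0∞) [Fact (1 ≤ p)] (I : Type u)
    (hI : Cardinal.mk I = Cardinal.aleph 1) {ι : Type u} (x : ι → Lp 𝕜 p (mu I))
    (hx : closure (Submodule.span 𝕜 (Set.range x) : Set (Lp 𝕜 p (mu I))) = Set.univ)
    (hι : Cardinal.mk ι ≤ Cardinal.aleph 1) :
    IsLeast {m : Cardinal | ∃ D : Set (Lp 𝕜 p (mu I)), Dense D ∧ Cardinal.mk D = m}
      (Cardinal.aleph 1) := by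
  have hunc : Uncountable I := by
    rw [← Cardinal.aleph0_lt_mk_iff, hI]
    exact Cardinal.aleph0_lt_aleph_one
  have hlow : ∀ D : Set (Lp 𝕜 p (mu I)), Dense D → Cardinal.aleph 1 ≤ Cardinal.mk D := by
    intro D hD
    by_contra h
    rw [not_le, ← Cardinal.succ_aleph0, Order.lt_succ_iff, Cardinal.mk_le_aleph0_iff] at h
    exact not_separable_Lp 𝕜 p ⟨⟨D, Set.countable_coe_iff.mp h, hD⟩⟩
  have h0 : Cardinal.aleph0 ≤ Cardinal.aleph.{u} 1 := Cardinal.aleph0_le_aleph 1
  refine ⟨?_, ?_⟩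
  · obtain ⟨f, hf⟩ := exists_dense_card x hx
    refine ⟨Set.range f, hf, le_antisymm ?_ (hlow _ hf)⟩
    refine Cardinal.mk_range_le.trans ?_
    rcases finite_or_infinite ι with h | h
    · have : Countable (ι →₀ ℕ) := inferInstance
      exact (Cardinal.mk_le_aleph0).trans h0
    · rw [Cardinal.mk_finsupp_nat]
      exact max_le hι h0
  · rintro m ⟨D, hD, rfl⟩
    exact hlow D hD

end MP_1a422c_an
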