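import Pool.Agent.Work.MP_1a422c_an.Defs

/-!
# The level sequence (MP_1a422c_an, module F1)
-/

set_option linter.unusedSectionVars false

open Finset

namespace MP_1a422c_an

variable {ι : Type*} [Fintype ι] [LinearOrder ι] {Λ : Type*} [LinearOrder Λ]

/-- The set of `z < α` with `ρ z α < ℓ`. -/
def lset (ρ : ι → ι → Λ) (ℓ : WithTop Λ) (α : ι) : Finset ι :=
  Finset.univ.filter fun z => z < α ∧ (ρ z α : WithTop Λ) < ℓ

lemma mem_lset {ρ : ι → ι → Λ} {ℓ : WithTop Λ} {α z : ι} :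
    z ∈ lset ρ ℓ α ↔ z < α ∧ (ρ z α : WithTop Λ) < ℓ := by
  simp [lset]

lemma s1' {ρ : ι → ι → Λ} (h : Subadd ρ) {a b c : ι} (hab : a < b) (hbc : b < c)
    {n : WithTop Λ} (h1 : (ρ a b : WithTop Λ) < n) (h2 : (ρ b c : WithTop Λ) < n) :
    (ρ a c : WithTop Λ) < n := by
  have := h.s1 a b c hab hbc
  rcases le_max_iff.mp this with h3 | h3
  · exact lt_of_le_of_lt (WithTop.coe_le_coe.mpr h3) h1
  · exact lt_of_le_of_lt (WithTop.coe_le_coe.mpr h3) h2

lemma s2' {ρ : ι → ι → Λ} (h : Subadd ρ) {a b c : ι} (hab : a < b) (hbc : b < c)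
    {n : WithTop Λ} (h1 : (ρ a c : WithTop Λ) < n) (h2 : (ρ b c : WithTop Λ) < n) :
    (ρ a b : WithTop Λ) < n := by
  have := h.s2 a b c hab hbc
  rcases le_max_iff.mp this with h3 | h3
  · exact lt_of_le_of_lt (WithTop.coe_le_coe.mpr h3) h1
  · exact lt_of_le_of_lt (WithTop.coe_le_coe.mpr h3) h2

/-- The combinatorial heart. -/
lemma exists_B {ρ : ι → ι → Λ} (h : Subadd ρ) {n m : WithTop Λ} (hnm : n ≤ m) (β α : ι) :
    ∃ B : Finset ι, Disjoint B (lset ρ m α) ∧ lset ρ n β \ lset ρ m α ⊆ B ∧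
      ∀ (n' : WithTop Λ) (δ : ι), n' ≤ n → Disjoint (lset ρ n' δ) B ∨
        lset ρ n' δ ⊆ B ∪ (lset ρ n β ∩ lset ρ m α) := by
  classical
  set u := lset ρ n β with hu
  set v := lset ρ m α with hv
  set B : Finset ι := Finset.univ.filter fun z => z ∈ u \ v ∨
    ∃ y ∈ u \ v, y < z ∧ (ρ y z : WithTop Λ) < n with hB
  have memB : ∀ z, z ∈ B ↔ (z ∈ u \ v ∨ ∃ y ∈ u \ v, y < z ∧ (ρ y z : WithTop Λ) < n) := by
    intro z; simp only [hB, Finset.mem_filter, Finset.mem_univ, true_and]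
  -- members of u below members of u
  have hdown : ∀ z z', z ∈ u → z' < z → (ρ z' z : WithTop Λ) < n → z' ∈ u := by
    intro z z' hz hlt hρ
    rw [hu, mem_lset] at hz ⊢
    exact ⟨hlt.trans hz.1, s1' h hlt hz.1 hρ hz.2⟩
  have hmem : ∀ z', z' ∈ u → z' ∈ B ∪ (u ∩ v) := by
    intro z' hz'
    by_cases hv' : z' ∈ v
    · exact Finset.mem_union_right _ (Finset.mem_inter.mpr ⟨hz', hv'⟩)
    · exact Finset.mem_union_left _ ((memB z').mpr (Or.inl (Finset.mem_sdiff.mpr ⟨hz', hv'⟩)))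
  refine ⟨B, ?_, ?_, ?_⟩
  · rw [Finset.disjoint_left]
    intro z hz hzv
    rcases (memB z).mp hz with h1 | ⟨y, hy, hyz, hρ⟩
    · exact (Finset.mem_sdiff.mp h1).2 hzv
    · apply (Finset.mem_sdiff.mp hy).2
      rw [hv, mem_lset] at hzv ⊢
      exact ⟨hyz.trans hzv.1, s1' h hyz hzv.1 (lt_of_lt_of_le hρ hnm) hzv.2⟩
  · intro z hz
    exact (memB z).mpr (Or.inl hz)
  · intro n' δ hn'
    by_cases hd : Disjoint (lset ρ n' δ) B
    · exact Or.inl hd
    · right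
      rw [Finset.not_disjoint_iff] at hd
      obtain ⟨z, hzw, hzB⟩ := hd
      intro z' hz'w
      rw [mem_lset] at hzw hz'w
      have hzδ : (ρ z δ : WithTop Λ) < n := lt_of_lt_of_le hzw.2 hn'
      have hz'δ : (ρ z' δ : WithTop Λ) < n := lt_of_lt_of_le hz'w.2 hn'
      rcases lt_trichotomy z z' with hlt | heq | hgt
      · -- z < z'
        have hzz' : (ρ z z' : WithTop Λ) < n := s2' h hlt hz'w.1 hzδ hz'δ
        apply Finset.mem_union_left
        rw [memB]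
        right
        rcases (memB z).mp hzB with h1 | ⟨y, hy, hyz, hρ⟩
        · exact ⟨z, h1, hlt, hzz'⟩
        · exact ⟨y, hy, hyz.trans hlt, s1' h hyz hlt hρ hzz'⟩
      · rw [← heq]; exact Finset.mem_union_left _ hzB
      · -- z' < z
        have hz'z : (ρ z' z : WithTop Λ) < n := s2' h hgt hzw.1 hz'δ hzδ
        rcases (memB z).mp hzB with h1 | ⟨y, hy, hyz, hρ⟩
        · exact hmem z' (hdown z z' (Finset.mem_sdiff.mp h1).1 hgt hz'z)
        · rcases lt_trichotomy z' y with h2 | h2 | h2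
          · have h3 : (ρ z' y : WithTop Λ) < n := s2' h h2 hyz hz'z hρ
            exact hmem z' (hdown y z' (Finset.mem_sdiff.mp hy).1 h2 h3)
          · rw [h2]
            exact Finset.mem_union_left _ ((memB y).mpr (Or.inl hy))
          · have h3 : (ρ y z' : WithTop Λ) < n := s2' h h2 hgt hρ hz'z
            exact Finset.mem_union_left _ ((memB z').mpr (Or.inr ⟨y, hy, h2, h3⟩))

/-- **The level sequence.** -/
theorem exists_levSeq (ρ : ι → ι → Λ) (h : Subadd ρ) :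
    ∃ (v : ℕ → Finset ι) (K : ℕ), LevSeq v K ∧ (∀ a b : ι, ∃ i < K, v i = pre ρ a b) ∧
      (∀ a : ι, ∃ i < K, v i = Finset.univ.filter (· < a)) ∧ (∃ i < K, v i = Finset.univ) ∧
      (∃ i < K, v i = ∅) := by
  classical
  set L : Finset (WithTop Λ) :=
    insert ⊤ ((Finset.univ : Finset (ι × ι)).image fun p => (ρ p.1 p.2 : WithTop Λ)) with hL
  set P : Finset (WithTop Λ ×ₗ ι) := (L ×ˢ (Finset.univ : Finset ι)).map toLex.toEmbedding with hP
  have memP : ∀ (ℓ : WithTop Λ) (α : ι), ℓ ∈ L → toLex (ℓ, α) ∈ P := by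
    intro ℓ α hℓ
    rw [hP, Finset.mem_map]
    exact ⟨(ℓ, α), by simp [hℓ], rfl⟩
  set e := P.orderIsoOfFin rfl with he
  set v : ℕ → Finset ι := fun i => if hi : i < P.card then
    lset ρ (ofLex (e ⟨i, hi⟩ : WithTop Λ ×ₗ ι)).1 (ofLex (e ⟨i, hi⟩ : WithTop Λ ×ₗ ι)).2
    else Finset.univ with hv
  have hvi : ∀ i (hi : i < P.card), v i = lset ρ (ofLex (e ⟨i, hi⟩ : WithTop Λ ×ₗ ι)).1
      (ofLex (e ⟨i, hi⟩ : WithTop Λ ×ₗ ι)).2 := by
    intro i hi
    simp only [hv, dif_pos hi]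
  have hvlast : v P.card = Finset.univ := by
    simp only [hv, lt_irrefl, dif_neg, not_false_eq_true]
  have hfind : ∀ (ℓ : WithTop Λ) (α : ι), ℓ ∈ L → ∃ i < P.card + 1, v i = lset ρ ℓ α := by
    intro ℓ α hℓ
    set i := e.symm ⟨toLex (ℓ, α), memP ℓ α hℓ⟩ with hi
    refine ⟨i, by have := i.2; omega, ?_⟩
    rw [hvi i i.2]
    have : e ⟨(i : ℕ), i.2⟩ = ⟨toLex (ℓ, α), memP ℓ α hℓ⟩ := by
      rw [Fin.eta, hi, OrderIso.apply_symm_apply]
    rw [this]
    rfl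
  have hlev : ∀ i j (hi : i < P.card) (hj : j < P.card), i ≤ j →
      (ofLex (e ⟨i, hi⟩ : WithTop Λ ×ₗ ι)).1 ≤ (ofLex (e ⟨j, hj⟩ : WithTop Λ ×ₗ ι)).1 := by
    intro i j hi hj hij
    have h1 : e ⟨i, hi⟩ ≤ e ⟨j, hj⟩ := e.monotone (by exact hij)
    have h2 : (e ⟨i, hi⟩ : WithTop Λ ×ₗ ι) ≤ (e ⟨j, hj⟩ : WithTop Λ ×ₗ ι) := h1
    rw [Prod.Lex.le_iff] at h2
    rcases h2 with h3 | h3
    · exact h3.le
    · exact h3.1.le
  refine ⟨v, P.card + 1, ?_, ?_, ?_, ⟨P.card, by omega, hvlast⟩, ?_⟩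
  · intro i j hij hj hnot
    rcases Nat.lt_succ_iff_lt_or_eq.mp hj with hj' | hj'
    · have hi' : i < P.card := hij.trans hj'
      obtain ⟨B, hB1, hB2, hB3⟩ := exists_B h (hlev i j hi' hj' hij.le)
        (ofLex (e ⟨i, hi'⟩ : WithTop Λ ×ₗ ι)).2 (ofLex (e ⟨j, hj'⟩ : WithTop Λ ×ₗ ι)).2
      rw [← hvi i hi', ← hvi j hj'] at hB2 hB3
      rw [← hvi j hj'] at hB1
      refine ⟨B, hB1, hB2, ?_⟩
      intro l hl
      have hl' : l < P.card := lt_of_le_of_lt hl hi'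
      have := hB3 _ (ofLex (e ⟨l, hl'⟩ : WithTop Λ ×ₗ ι)).2 (hlev l i hl' hi' hl)
      rwa [← hvi l hl'] at this
    · exfalso
      apply hnot
      rw [hj', hvlast]
      exact Finset.subset_univ _
  · intro a b
    obtain ⟨i, hi, hi2⟩ := hfind (ρ b a) a (by
      rw [hL]
      exact Finset.mem_insert_of_mem (Finset.mem_image.mpr ⟨(b, a), Finset.mem_univ _, rfl⟩))
    refine ⟨i, hi, ?_⟩
    rw [hi2]
    ext z
    simp [lset, pre]
  · intro a
    obtain ⟨i, hi, hi2⟩ := hfind ⊤ a (by rw [hL]; exact Finset.mem_insert_self _ _)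
    refine ⟨i, hi, ?_⟩
    rw [hi2]
    ext z
    simp [lset, WithTop.coe_lt_top]
  · rcases isEmpty_or_nonempty ι with hem | hne
    · refine ⟨P.card, by omega, ?_⟩
      rw [hvlast]
      exact Finset.univ_eq_empty
    · obtain ⟨i, hi, hi2⟩ := hfind ⊤ ((Finset.univ : Finset ι).min' Finset.univ_nonempty)
        (by rw [hL]; exact Finset.mem_insert_self _ _)
      refine ⟨i, hi, ?_⟩
      rw [hi2]
      rw [Finset.eq_empty_iff_forall_notMem]
      intro z hz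
      rw [mem_lset] at hz
      exact absurd (Finset.min'_le _ z (Finset.mem_univ z)) (not_le.mpr hz.1)

end MP_1a422c_an
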