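import Pool.Agent.Work.MP_1a422c_an.LPGen
import Pool.Agent.Work.MP_1a422c_an.Majorant
import Pool.Agent.Work.MP_1a422c_an.Lev

/-!
# The finite `L^3` inequality (unconditionality of the rho-Haar system on a finite cube)
-/

set_option linter.unusedSectionVars false

open Finset

namespace MP_1a422c_an

variable {ι : Type*} [Fintype ι] [LinearOrder ι] {Λ : Type*} [LinearOrder Λ]

/-- The block function at `a`. -/
noncomputable def blk (c : ι → ℝ) (φ : ι → ι → (ι → Bool) → ℝ) (a : ι) (x : ι → Bool) : ℝ :=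
  c a + ∑ b ∈ Finset.univ.filter (· < a), rad b x * φ a b x

/-- The full expansion. -/
noncomputable def expn (c0 : ℝ) (c : ι → ℝ) (φ : ι → ι → (ι → Bool) → ℝ) (x : ι → Bool) : ℝ :=
  c0 + ∑ a, rad a x * blk c φ a x

lemma dep_blk (ρ : ι → ι → Λ) {c : ι → ℝ} {φ : ι → ι → (ι → Bool) → ℝ}
    (hφ : ∀ a b, b < a → Dep (pre ρ a b) (φ a b)) (a : ι) :
    Dep (Finset.univ.filter (· < a)) (blk c φ a) := by
  intro x y h
  unfold blk
  congr 1
  refine Finset.sum_congr rfl fun b hb => ?_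
  have hba : b < a := by simpa using hb
  have h1 : rad b x = rad b y := dep_rad b x y fun i hi => by
    rw [Finset.mem_singleton.mp hi]; exact h b hb
  have h2 : φ a b x = φ a b y := hφ a b hba x y fun i hi => by
    unfold pre at hi
    simp only [Finset.mem_filter] at hi
    exact h i (by simpa using hi.2.1)
  rw [h1, h2]

/-- Weighted `L^2` bound of multipliers for a weight in `A_2` of all the needed cylinders. -/
theorem weighted_mult (ρ : ι → ι → Λ) (hρ : Subadd ρ) (w : (ι → Bool) → ℝ)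
    (hw : ∀ x, 0 < w x) (A : ℝ)
    (hA1 : ∀ a b x, E (pre ρ a b) w x * E (pre ρ a b) (fun y => (w y)⁻¹) x ≤ A)
    (hA2 : ∀ a x, E (Finset.univ.filter (· < a)) w x *
      E (Finset.univ.filter (· < a)) (fun y => (w y)⁻¹) x ≤ A)
    (hA3 : ∀ x, E Finset.univ w x * E Finset.univ (fun y => (w y)⁻¹) x ≤ A)
    (c0 c0' : ℝ) (c c' : ι → ℝ) (φ φ' : ι → ι → (ι → Bool) → ℝ)
    (hφ : ∀ a b, b < a → Dep (pre ρ a b) (φ a b))
    (hφ' : ∀ a b, b < a → Dep (pre ρ a b) (φ' a b))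
    (h0 : |c0'| ≤ |c0|) (hc : ∀ a, |c' a| ≤ |c a|)
    (hh : ∀ a b x, b < a → |φ' a b x| ≤ |φ a b x|) :
    mean (fun x => expn c0' c' φ' x ^ 2 * w x) ≤
      (23 * A ^ 3) ^ 4 * mean (fun x => expn c0 c φ x ^ 2 * w x) := by
  set K : ℝ := 23 * A ^ 3 with hK
  have hA : 1 ≤ A := by
    have h1 := hA3 (fun _ => true)
    have h2 := one_le_E_mul_E_inv Finset.univ hw (fun _ => true)
    linarith
  have hK1 : 1 ≤ K := by
    have : (1:ℝ) ≤ A ^ 3 := one_le_pow₀ hA
    rw [hK]; linarith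
  -- natural order
  have nat : ∀ (d0 : ℝ) (d : ι → ℝ) (θ : ι → ι → (ι → Bool) → ℝ)
      (_ : ∀ a b, b < a → Dep (pre ρ a b) (θ a b)),
      mean (fun x => (d0 ^ 2 + ∑ a, blk d θ a x ^ 2) * w x) ≤
        K * mean (fun x => expn d0 d θ x ^ 2 * w x) ∧
      mean (fun x => expn d0 d θ x ^ 2 * w x) ≤
        K * mean (fun x => (d0 ^ 2 + ∑ a, blk d θ a x ^ 2) * w x) := by
    intro d0 d θ hθ
    exact lp_gen Finset.univ (id : ι → ι) (fun a _ b _ h => h) d0 (fun a => blk d θ a)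
      (fun a _ => dep_blk ρ hθ a) w hw A (fun a _ x => hA2 a x) hA3
  -- each block
  have blkE : ∀ (d : ι → ℝ) (θ : ι → ι → (ι → Bool) → ℝ)
      (_ : ∀ a b, b < a → Dep (pre ρ a b) (θ a b)) (a : ι),
      mean (fun x => (d a ^ 2 + ∑ b ∈ Finset.univ.filter (· < a), θ a b x ^ 2) * w x) ≤
        K * mean (fun x => blk d θ a x ^ 2 * w x) ∧
      mean (fun x => blk d θ a x ^ 2 * w x) ≤
        K * mean (fun x => (d a ^ 2 + ∑ b ∈ Finset.univ.filter (· < a), θ a b x ^ 2) * w x) := by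
    intro d θ hθ a
    have hpre : ∀ b, (Finset.univ.filter (· < a)).filter (fun z => ρ z a < ρ b a)
        = pre ρ a b := by
      intro b; unfold pre; rw [Finset.filter_filter]
    refine lp_gen (Finset.univ.filter (· < a)) (fun z => ρ z a) ?_ (d a) (fun b => θ a b) ?_
      w hw A ?_ (hA2 a)
    · intro b hb b' hb' h
      exact hρ.inj b b' a (by simpa using hb) (by simpa using hb') h
    · intro b hb
      rw [hpre b]
      exact hθ a b (by simpa using hb)
    · intro b hb x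
      rw [hpre b]
      exact hA1 a b x
  have split : ∀ (d0 : ℝ) (g : ι → (ι → Bool) → ℝ),
      mean (fun x => (d0 ^ 2 + ∑ a, g a x ^ 2) * w x)
        = mean (fun x => d0 ^ 2 * w x) + ∑ a, mean (fun x => g a x ^ 2 * w x) := by
    intro d0 g
    rw [← mean_sum, ← mean_add]
    refine mean_congr fun x => ?_
    rw [add_mul, Finset.sum_mul]
  have hblk : ∀ a, mean (fun x => blk c' φ' a x ^ 2 * w x) ≤
      K ^ 2 * mean (fun x => blk c φ a x ^ 2 * w x) := by
    intro a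
    calc mean (fun x => blk c' φ' a x ^ 2 * w x)
        ≤ K * mean (fun x => (c' a ^ 2 +
            ∑ b ∈ Finset.univ.filter (· < a), φ' a b x ^ 2) * w x) := (blkE c' φ' hφ' a).2
      _ ≤ K * mean (fun x => (c a ^ 2 +
            ∑ b ∈ Finset.univ.filter (· < a), φ a b x ^ 2) * w x) := by
          refine mul_le_mul_of_nonneg_left (mean_mono fun x => ?_) (by linarith)
          refine mul_le_mul_of_nonneg_right ?_ (hw x).le
          refine add_le_add (sq_le_sq.mpr (hc a)) (Finset.sum_le_sum fun b hb => ?_)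
          exact sq_le_sq.mpr (hh a b x (by simpa using hb))
      _ ≤ K * (K * mean (fun x => blk c φ a x ^ 2 * w x)) :=
          mul_le_mul_of_nonneg_left (blkE c φ hφ a).1 (by linarith)
      _ = K ^ 2 * mean (fun x => blk c φ a x ^ 2 * w x) := by ring
  have hS0 : 0 ≤ mean (fun x => c0 ^ 2 * w x) :=
    mean_nonneg fun x => mul_nonneg (sq_nonneg _) (hw x).le
  have hmid : mean (fun x => (c0' ^ 2 + ∑ a, blk c' φ' a x ^ 2) * w x) ≤
      K ^ 2 * mean (fun x => (c0 ^ 2 + ∑ a, blk c φ a x ^ 2) * w x) := by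
    rw [split, split, mul_add, Finset.mul_sum]
    refine add_le_add ?_ (Finset.sum_le_sum fun a _ => hblk a)
    calc mean (fun x => c0' ^ 2 * w x) ≤ mean (fun x => c0 ^ 2 * w x) :=
          mean_mono fun x => mul_le_mul_of_nonneg_right (sq_le_sq.mpr h0) (hw x).le
      _ ≤ K ^ 2 * mean (fun x => c0 ^ 2 * w x) := by
          have : (1:ℝ) ≤ K ^ 2 := one_le_pow₀ hK1
          nlinarith
  calc mean (fun x => expn c0' c' φ' x ^ 2 * w x)
      ≤ K * mean (fun x => (c0' ^ 2 + ∑ a, blk c' φ' a x ^ 2) * w x) := (nat c0' c' φ' hφ').2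
    _ ≤ K * (K ^ 2 * mean (fun x => (c0 ^ 2 + ∑ a, blk c φ a x ^ 2) * w x)) :=
        mul_le_mul_of_nonneg_left hmid (by linarith)
    _ ≤ K * (K ^ 2 * (K * mean (fun x => expn c0 c φ x ^ 2 * w x))) := by
        refine mul_le_mul_of_nonneg_left (mul_le_mul_of_nonneg_left (nat c0 c φ hφ).1 ?_) ?_
        · positivity
        · linarith
    _ = K ^ 4 * mean (fun x => expn c0 c φ x ^ 2 * w x) := by ring

/-- Elementary Young inequality: `a² b ≤ (2 t a³ + b³ / t²) / 3`. -/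
lemma young3 {a b t : ℝ} (ha : 0 ≤ a) (hb : 0 ≤ b) (ht : 0 < t) :
    a ^ 2 * b ≤ (2 * t * a ^ 3 + b ^ 3 / t ^ 2) / 3 := by
  obtain ⟨d, rfl⟩ : ∃ d, b = t * d := ⟨b / t, by field_simp⟩
  have hd : 0 ≤ d := nonneg_of_mul_nonneg_right hb ht
  have h1 : (t * d) ^ 3 / t ^ 2 = t * d ^ 3 := by field_simp
  rw [h1]
  have h2 : 3 * (a ^ 2 * d) ≤ 2 * a ^ 3 + d ^ 3 := by nlinarith [mul_nonneg (sq_nonneg (a - d)) (by positivity : (0:ℝ) ≤ 2 * a + d)]
  nlinarith

/-- The constant `23 * 200 ^ 3`. -/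
noncomputable def K0 : ℝ := (23 * 200 ^ 3) ^ 4

/-- **The finite `L^3` inequality.** -/
theorem finite_L3 (ρ : ι → ι → Λ) (hρ : Subadd ρ)
    (c0 c0' : ℝ) (c c' : ι → ℝ) (φ φ' : ι → ι → (ι → Bool) → ℝ)
    (hφ : ∀ a b, b < a → Dep (pre ρ a b) (φ a b))
    (hφ' : ∀ a b, b < a → Dep (pre ρ a b) (φ' a b))
    (h0 : |c0'| ≤ |c0|) (hc : ∀ a, |c' a| ≤ |c a|)
    (hh : ∀ a b x, b < a → |φ' a b x| ≤ |φ a b x|) :
    mean (fun x => |expn c0' c' φ' x| ^ 3) ≤
      (8 * K0 ^ 2) * mean (fun x => |expn c0 c φ x| ^ 3) := by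
  obtain ⟨v, K, hv, hpre, hlt, huniv, hempty⟩ := exists_levSeq ρ hρ
  set f := expn c0 c φ with hf
  set f' := expn c0' c' φ' with hf'
  set M := mean (fun x => |f' x| ^ 3) with hM
  have hM0 : 0 ≤ M := mean_nonneg fun x => by positivity
  have hX0 : 0 ≤ mean (fun x => |f x| ^ 3) := mean_nonneg fun x => by positivity
  have hK0 : 0 < K0 := by unfold K0; positivity
  rcases hM0.eq_or_lt with hM1 | hMpos
  · rw [← hM1]; positivity
  -- the cube root of `M`
  obtain ⟨κ, hκ0, hκ⟩ : ∃ κ : ℝ, 0 < κ ∧ κ ^ 3 = M := by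
    refine ⟨M ^ ((1:ℝ)/3), Real.rpow_pos_of_pos hMpos _, ?_⟩
    rw [← Real.rpow_natCast, ← Real.rpow_mul hMpos.le]
    norm_num
  set W : (ι → Bool) → ℝ := fun x => |f' x| + κ with hW
  have hWpos : ∀ x, 0 < W x := fun x => by positivity
  obtain ⟨W', hWW', hW'3, hA⟩ := exists_majorant v K hv W hWpos
  have hW'pos : ∀ x, 0 < W' x := fun x => (hWpos x).trans_le (hWW' x)
  have hW3 : mean (fun x => W x ^ 3) ≤ 8 * M := by
    have h1 : ∀ x, W x ^ 3 ≤ 4 * (|f' x| ^ 3 + κ ^ 3) := by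
      intro x
      have ha := abs_nonneg (f' x)
      simp only [hW]
      nlinarith [mul_nonneg (sq_nonneg (|f' x| - κ)) (by positivity : (0:ℝ) ≤ |f' x| + κ)]
    calc mean (fun x => W x ^ 3) ≤ mean (fun x => 4 * (|f' x| ^ 3 + κ ^ 3)) := mean_mono h1
      _ = 4 * (M + κ ^ 3) := by rw [mean_mul_left, mean_add, mean_const]
      _ = 8 * M := by rw [hκ]; ring
  have hW'3' : mean (fun x => W' x ^ 3) ≤ 64 * M := by linarith
  have key : mean (fun x => f' x ^ 2 * W' x) ≤ K0 * mean (fun x => f x ^ 2 * W' x) := by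
    refine weighted_mult ρ hρ W' hW'pos 200 ?_ ?_ ?_ c0 c0' c c' φ φ' hφ hφ' h0 hc hh
    · intro a b x
      obtain ⟨i, hi, h⟩ := hpre a b
      rw [← h]; exact hA i hi x
    · intro a x
      obtain ⟨i, hi, h⟩ := hlt a
      rw [← h]; exact hA i hi x
    · intro x
      obtain ⟨i, hi, h⟩ := huniv
      rw [← h]; exact hA i hi x
  have h1 : M ≤ mean (fun x => f' x ^ 2 * W' x) := by
    refine mean_mono fun x => ?_
    have h2 : |f' x| ≤ W' x := by
      have := hWW' x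
      simp only [hW] at this
      linarith
    calc |f' x| ^ 3 = |f' x| ^ 2 * |f' x| := by ring
      _ ≤ |f' x| ^ 2 * W' x := mul_le_mul_of_nonneg_left h2 (by positivity)
      _ = f' x ^ 2 * W' x := by rw [sq_abs]
  -- Young with `t² = 64 K0`
  set t : ℝ := Real.sqrt (64 * K0) with ht
  have ht0 : 0 < t := Real.sqrt_pos.mpr (by positivity)
  have ht2 : t ^ 2 = 64 * K0 := Real.sq_sqrt (by positivity)
  have h2 : mean (fun x => f x ^ 2 * W' x) ≤
      (2 * t * mean (fun x => |f x| ^ 3) + mean (fun x => W' x ^ 3) / t ^ 2) / 3 := by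
    rw [← mean_mul_left, ← mean_div (fun x => W' x ^ 3), ← mean_add, ← mean_div]
    refine mean_mono fun x => ?_
    have := young3 (abs_nonneg (f x)) (hW'pos x).le ht0
    rw [sq_abs] at this
    exact this
  have h3 : mean (fun x => W' x ^ 3) / t ^ 2 ≤ M / K0 := by
    rw [ht2, div_le_div_iff₀ (by positivity) hK0]
    nlinarith
  have h4 : M ≤ K0 * ((2 * t * mean (fun x => |f x| ^ 3) + M / K0) / 3) := by
    calc M ≤ mean (fun x => f' x ^ 2 * W' x) := h1
      _ ≤ K0 * mean (fun x => f x ^ 2 * W' x) := key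
      _ ≤ K0 * ((2 * t * mean (fun x => |f x| ^ 3) + M / K0) / 3) := by
          refine mul_le_mul_of_nonneg_left ?_ hK0.le
          linarith
  have h5 : K0 * ((2 * t * mean (fun x => |f x| ^ 3) + M / K0) / 3)
      = (2 * t * K0 * mean (fun x => |f x| ^ 3)) / 3 + M / 3 := by
    field_simp
  rw [h5] at h4
  have h6 : M ≤ t * K0 * mean (fun x => |f x| ^ 3) := by linarith
  have h7 : t ≤ 8 * K0 := by
    rw [ht]
    have hK1 : 1 ≤ K0 := by unfold K0; norm_num
    refine Real.sqrt_le_iff.mpr ⟨by positivity, ?_⟩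
    nlinarith
  calc M ≤ t * K0 * mean (fun x => |f x| ^ 3) := h6
    _ ≤ (8 * K0) * K0 * mean (fun x => |f x| ^ 3) := by
        refine mul_le_mul_of_nonneg_right (mul_le_mul_of_nonneg_right h7 hK0.le) hX0
    _ = (8 * K0 ^ 2) * mean (fun x => |f x| ^ 3) := by ring

end MP_1a422c_an
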