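import Pool.Agent.Work.MP_1a422c_an.Cube

/-!
# A weighted square function inequality on the cube (MP_1a422c_an)

Bellman function proof of the bound of the weighted square function of a one-element-step
martingale by the weighted norm, for weights with the A2 condition along the chain.
-/

set_option linter.unusedSectionVars false

open Finset

namespace MP_1a422c_an

variable {ι : Type*} [Fintype ι] [DecidableEq ι]

/-- Flip the coordinate `e`. -/
def flp (e : ι) (x : ι → Bool) : ι → Bool := Function.update x e (!(x e))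

lemma flp_self (e : ι) (x : ι → Bool) : flp e x e = !(x e) := by
  unfold flp; simp

lemma flp_of_ne {e i : ι} (h : i ≠ e) (x : ι → Bool) : flp e x i = x i := by
  unfold flp; simp [h]

lemma flp_invol (e : ι) : Function.Involutive (flp (ι := ι) e) := by
  intro x
  ext i
  by_cases hi : i = e
  · subst hi; simp [flp_self]
  · simp [flp_of_ne hi]

lemma mean_flp (e : ι) (h : (ι → Bool) → ℝ) : mean (fun x => h (flp e x)) = mean h := by
  unfold mean
  congr 1
  exact Fintype.sum_bijective (flp e) (flp_invol e).bijective _ _ (fun x => rfl)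

lemma mean_flp_avg (e : ι) (h : (ι → Bool) → ℝ) :
    mean (fun x => (h x + h (flp e x)) / 2) = mean h := by
  rw [mean_div, mean_add, mean_flp]; ring

lemma mean_split (e : ι) (b : Bool) (h : (ι → Bool) → ℝ) :
    mean h = (mean (fun y => h (Function.update y e b))
      + mean (fun y => h (Function.update y e (!b)))) / 2 := by
  have h1 : mean (fun y => h y + h (flp e y))
      = mean (fun y => h (Function.update y e b) + h (Function.update y e (!b))) := by
    refine mean_congr fun y => ?_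
    unfold flp
    by_cases hb : y e = b
    · subst hb
      rw [Function.update_eq_self]
    · have hb' : b = !(y e) := by
        cases b <;> cases hy : y e <;> simp_all
      subst hb'
      rw [Bool.not_not, Function.update_eq_self, add_comm]
  rw [mean_add, mean_add, mean_flp] at h1
  linarith

/-- One step of the martingale. -/
lemma E_step {G : Finset ι} {e : ι} (he : e ∉ G) (g : (ι → Bool) → ℝ) (x : ι → Bool) :
    E G g x = (E (insert e G) g x + E (insert e G) g (flp e x)) / 2 := by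
  unfold E
  rw [mean_split e (x e)]
  congr 2
  · refine mean_congr fun y => ?_
    congr 1
    ext i
    by_cases hi : i = e
    · subst hi; simp [he]
    · by_cases hG : i ∈ G <;> simp [hi, hG]
  · refine mean_congr fun y => ?_
    congr 1
    ext i
    by_cases hi : i = e
    · subst hi; simp [he, flp_self]
    · by_cases hG : i ∈ G <;> simp [hi, hG, flp_of_ne hi]

/-- The square of a one-step martingale difference is predictable. -/
lemma dep_diff_sq {G : Finset ι} {e : ι} (he : e ∉ G) (g : (ι → Bool) → ℝ) :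
    Dep G (fun x => (E (insert e G) g x - E G g x) ^ 2) := by
  intro x y h
  beta_reduce
  have hG : E G g x = E G g y := dep_E G g x y h
  by_cases hb : x e = y e
  · have : E (insert e G) g x = E (insert e G) g y := by
      refine dep_E _ g x y fun i hi => ?_
      rcases Finset.mem_insert.mp hi with rfl | hi
      · exact hb
      · exact h i hi
    rw [this, hG]
  · have h1 : E (insert e G) g x = E (insert e G) g (flp e y) := by
      refine dep_E _ g x (flp e y) fun i hi => ?_
      rcases Finset.mem_insert.mp hi with rfl | hi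
      · rw [flp_self]
        cases hx : x i <;> cases hy : y i <;> simp_all
      · have hne : i ≠ e := fun h => he (h ▸ hi)
        rw [flp_of_ne hne]
        exact h i hi
    have h2 := E_step he g y
    rw [h1, hG]
    have h3 : E (insert e G) g (flp e y) - E G g y = -(E (insert e G) g y - E G g y) := by
      linarith
    rw [h3, neg_sq]

/-! ### The real inequalities -/

/-- Sedrakyan's inequality for two terms. -/
lemma titu {a b p q : ℝ} (hp : 0 < p) (hq : 0 < q) :
    (a + b) ^ 2 / (p + q) ≤ a ^ 2 / p + b ^ 2 / q := by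
  rw [div_add_div _ _ hp.ne' hq.ne', div_le_div_iff₀ (by positivity) (by positivity)]
  nlinarith [mul_nonneg (mul_nonneg hp.le hq.le) (sq_nonneg (a * q - b * p)),
    sq_nonneg (a * q - b * p), mul_pos hp hq]

lemma bell_one {f d u δ : ℝ} (h1 : 0 < u + δ) (h2 : 0 < u - δ) :
    f ^ 2 / u + (d - f * δ / u) ^ 2 / u ≤
      ((f + d) ^ 2 / (u + δ) + (f - d) ^ 2 / (u - δ)) / 2 := by
  have hu : 0 < u := by linarith
  have e1 : (f + d) ^ 2 / (u + δ)
      = f ^ 2 / u + (2 * f * d / u - f ^ 2 * δ / u ^ 2) + (d - f * δ / u) ^ 2 / (u + δ) := by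
    field_simp
    ring
  have e2 : (f - d) ^ 2 / (u - δ)
      = f ^ 2 / u - (2 * f * d / u - f ^ 2 * δ / u ^ 2) + (d - f * δ / u) ^ 2 / (u - δ) := by
    field_simp
    ring
  have e3 : 1 / u ≤ (1 / (u + δ) + 1 / (u - δ)) / 2 := by
    rw [div_add_div _ _ h1.ne' h2.ne', div_div, div_le_div_iff₀ hu (by positivity)]
    nlinarith [sq_nonneg δ]
  have e4 := mul_le_mul_of_nonneg_left e3 (sq_nonneg (d - f * δ / u))
  have e5 : (d - f * δ / u) ^ 2 * ((1 / (u + δ) + 1 / (u - δ)) / 2)
      = ((d - f * δ / u) ^ 2 / (u + δ) + (d - f * δ / u) ^ 2 / (u - δ)) / 2 := by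
    ring
  have e6 : (d - f * δ / u) ^ 2 * (1 / u) = (d - f * δ / u) ^ 2 / u := by ring
  rw [e5, e6] at e4
  rw [e1, e2]
  linarith

/-- Convexity gain of `1 / (u v²)`. -/
lemma bell_aux {u v δ ε : ℝ} (hu1 : 0 < u + δ) (hu2 : 0 < u - δ) (hv1 : 0 < v + ε)
    (hv2 : 0 < v - ε) :
    1 / (u * v ^ 2) * (1 + (δ / u) ^ 2 / 2) ≤
      (1 / ((u + δ) * (v + ε) ^ 2) + 1 / ((u - δ) * (v - ε) ^ 2)) / 2 := by
  have hu : 0 < u := by linarith
  have hv : 0 < v := by linarith
  set s := 1 / (u * v ^ 2) with hs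
  set p := 1 / ((u + δ) * (v + ε) ^ 2) with hp
  set q := 1 / ((u - δ) * (v - ε) ^ 2) with hq
  set t := (δ / u) ^ 2 with ht
  have hs0 : 0 < s := by positivity
  have hp0 : 0 < p := by positivity
  have hq0 : 0 < q := by positivity
  have ht0 : 0 ≤ t := sq_nonneg _
  have ht1 : t < 1 := by
    rw [ht, div_pow, div_lt_one (by positivity)]
    nlinarith
  have hpq : s ^ 2 ≤ p * q * (1 - t) := by
    have e : p * q * (1 - t) = 1 / (u ^ 2 * (v ^ 2 - ε ^ 2) ^ 2) := by
      have h1 : (u + δ) ≠ 0 := hu1.ne'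
      have h2 : (u - δ) ≠ 0 := hu2.ne'
      have h3 : (v + ε) ≠ 0 := hv1.ne'
      have h4 : (v - ε) ≠ 0 := hv2.ne'
      have h5 : v ^ 2 - ε ^ 2 = (v + ε) * (v - ε) := by ring
      have h6 : 1 - t = (u + δ) * (u - δ) / u ^ 2 := by
        rw [ht]; field_simp; ring
      rw [h5, h6, hp, hq]
      field_simp
    rw [e, hs, div_pow, one_pow]
    have hve : 0 < v ^ 2 - ε ^ 2 := by nlinarith
    apply one_div_le_one_div_of_le (by positivity)
    have : (v ^ 2 - ε ^ 2) ^ 2 ≤ (v ^ 2) ^ 2 :=
      pow_le_pow_left₀ hve.le (by nlinarith [sq_nonneg ε]) 2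
    nlinarith [mul_le_mul_of_nonneg_left this (sq_nonneg u)]
  have hsq : (s * (1 + t / 2)) ^ 2 ≤ ((p + q) / 2) ^ 2 := by
    have h1 : p * q ≤ ((p + q) / 2) ^ 2 := by nlinarith [sq_nonneg (p - q)]
    have h2 : (s * (1 + t / 2)) ^ 2 ≤ p * q := by
      have h3 : (1 - t) * (1 + t / 2) ^ 2 ≤ 1 := by
        nlinarith [mul_nonneg ht0 (sq_nonneg t), sq_nonneg t]
      calc (s * (1 + t / 2)) ^ 2 = s ^ 2 * (1 + t / 2) ^ 2 := by ring
        _ ≤ (p * q * (1 - t)) * (1 + t / 2) ^ 2 :=
          mul_le_mul_of_nonneg_right hpq (sq_nonneg _)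
        _ = (p * q) * ((1 - t) * (1 + t / 2) ^ 2) := by ring
        _ ≤ (p * q) * 1 := mul_le_mul_of_nonneg_left h3 (by positivity)
        _ = p * q := mul_one _
    exact h2.trans h1
  exact (pow_le_pow_iff_left₀ (by positivity) (by positivity) two_ne_zero).mp hsq

lemma bell_two {f d u v δ ε A : ℝ} (hu1 : 0 < u + δ) (hu2 : 0 < u - δ) (hv1 : 0 < v + ε)
    (hv2 : 0 < v - ε) (h0 : 1 ≤ v * u) (h1 : 1 ≤ (v + ε) * (u + δ)) (h2 : 1 ≤ (v - ε) * (u - δ))
    (hA : v * u ≤ A) :
    f ^ 2 / (2 * u - 1 / (u * v ^ 2)) + f ^ 2 * δ ^ 2 / u ^ 3 / (8 * A ^ 2) ≤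
      ((f + d) ^ 2 / (2 * (u + δ) - 1 / ((u + δ) * (v + ε) ^ 2))
        + (f - d) ^ 2 / (2 * (u - δ) - 1 / ((u - δ) * (v - ε) ^ 2))) / 2 := by
  have hu : 0 < u := by linarith
  have hv : 0 < v := by linarith
  have hA1 : 1 ≤ A := h0.trans hA
  have hA0 : 0 < A := by linarith
  have hsle : ∀ {a b : ℝ}, 0 < a → 0 < b → 1 ≤ b * a → 1 / (a * b ^ 2) ≤ a := by
    intro a b ha hb hab
    rw [div_le_iff₀ (by positivity)]
    nlinarith [mul_le_mul hab hab zero_le_one (by positivity)]
  have hs0 : 1 / (u * v ^ 2) ≤ u := hsle hu hv h0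
  have hs1 : 1 / ((u + δ) * (v + ε) ^ 2) ≤ u + δ := hsle hu1 hv1 h1
  have hs2 : 1 / ((u - δ) * (v - ε) ^ 2) ≤ u - δ := hsle hu2 hv2 h2
  have haux := bell_aux hu1 hu2 hv1 hv2
  set s := 1 / (u * v ^ 2) with hs
  set p := 1 / ((u + δ) * (v + ε) ^ 2) with hp
  set q := 1 / ((u - δ) * (v - ε) ^ 2) with hq
  set t := (δ / u) ^ 2 with ht
  have hspos : 0 < s := by positivity
  have ht0 : 0 ≤ t := sq_nonneg _
  have hMp : 0 < 2 * (u + δ) - p := by linarith
  have hMq : 0 < 2 * (u - δ) - q := by linarith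
  have hM : 0 < 2 * u - s := by linarith
  have hMle : 2 * u - s ≤ 2 * u := by linarith
  have htitu := titu (a := f + d) (b := f - d) hMp hMq
  have hsum : (2 * (u + δ) - p) + (2 * (u - δ) - q) ≤ 2 * (2 * u - s - s * t / 2) := by
    nlinarith
  have hsum0 : 0 < (2 * (u + δ) - p) + (2 * (u - δ) - q) := by linarith
  have hMc : 0 < 2 * u - s - s * t / 2 := by linarith
  have hstep1 : f ^ 2 / (2 * u - s - s * t / 2) ≤
      ((f + d) ^ 2 / (2 * (u + δ) - p) + (f - d) ^ 2 / (2 * (u - δ) - q)) / 2 := by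
    have h3 : (f + d + (f - d)) ^ 2 / (2 * (2 * u - s - s * t / 2)) ≤
        (f + d + (f - d)) ^ 2 / ((2 * (u + δ) - p) + (2 * (u - δ) - q)) :=
      div_le_div_of_nonneg_left (sq_nonneg _) hsum0 hsum
    have h4 : (f + d + (f - d)) ^ 2 / (2 * (2 * u - s - s * t / 2))
        = 2 * (f ^ 2 / (2 * u - s - s * t / 2)) := by
      have : (f + d + (f - d)) ^ 2 = 4 * f ^ 2 := by ring
      rw [this]
      field_simp
      ring
    rw [h4] at h3
    linarith
  have hstep2 : f ^ 2 / (2 * u - s) + f ^ 2 * (s * t / 2) / (2 * u - s) ^ 2 ≤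
      f ^ 2 / (2 * u - s - s * t / 2) := by
    have h3 : 1 / (2 * u - s) + (s * t / 2) / (2 * u - s) ^ 2 ≤ 1 / (2 * u - s - s * t / 2) := by
      have e : 1 / (2 * u - s) + (s * t / 2) / (2 * u - s) ^ 2
          = (2 * u - s + s * t / 2) / (2 * u - s) ^ 2 := by
        field_simp
      rw [e, div_le_div_iff₀ (by positivity) hMc]
      nlinarith [sq_nonneg (s * t / 2)]
    have h4 := mul_le_mul_of_nonneg_left h3 (sq_nonneg f)
    calc f ^ 2 / (2 * u - s) + f ^ 2 * (s * t / 2) / (2 * u - s) ^ 2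
        = f ^ 2 * (1 / (2 * u - s) + (s * t / 2) / (2 * u - s) ^ 2) := by ring
      _ ≤ f ^ 2 * (1 / (2 * u - s - s * t / 2)) := h4
      _ = f ^ 2 / (2 * u - s - s * t / 2) := by ring
  have hstep3 : f ^ 2 * δ ^ 2 / u ^ 3 / (8 * A ^ 2) ≤
      f ^ 2 * (s * t / 2) / (2 * u - s) ^ 2 := by
    have h3 : u / A ^ 2 ≤ s := by
      rw [hs, div_le_div_iff₀ (by positivity) (by positivity)]
      have : (v * u) ^ 2 ≤ A ^ 2 := pow_le_pow_left₀ (by positivity) hA 2
      nlinarith
    have h4 : (2 * u - s) ^ 2 ≤ (2 * u) ^ 2 := pow_le_pow_left₀ hM.le hMle 2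
    have h5 : f ^ 2 * (s * t / 2) / (2 * u) ^ 2 ≤ f ^ 2 * (s * t / 2) / (2 * u - s) ^ 2 :=
      div_le_div_of_nonneg_left (by positivity) (by positivity) h4
    have h6 : f ^ 2 * (u / A ^ 2 * t / 2) / (2 * u) ^ 2 ≤ f ^ 2 * (s * t / 2) / (2 * u) ^ 2 := by
      gcongr
    refine le_trans (le_of_eq ?_) (h6.trans h5)
    rw [ht]
    field_simp
    ring
  linarith

/-! ### The telescoping argument -/

lemma sum_gain (p g : ℕ → ℝ) (L : ℕ) (h : ∀ j < L, p (j + 1) + g j ≤ p j) :
    ∑ j ∈ range L, g j ≤ p 0 - p L := by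
  induction L with
  | zero => simp
  | succ n ih =>
    rw [Finset.sum_range_succ]
    have h1 := ih fun j hj => h j (hj.trans (Nat.lt_succ_self n))
    have h2 := h n (Nat.lt_succ_self n)
    linarith

/-- The lower bound: the weighted square function is controlled by the weighted norm. -/
theorem lp_lower' (G : ℕ → Finset ι) (e : ℕ → ι) (L : ℕ)
    (h0 : G 0 = ∅) (he : ∀ j < L, e j ∉ G j) (hG : ∀ j < L, G (j + 1) = insert (e j) (G j))
    (w : (ι → Bool) → ℝ) (hw : ∀ x, 0 < w x) (A : ℝ)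
    (hA : ∀ j ≤ L, ∀ x, E (G j) w x * E (G j) (fun y => (w y)⁻¹) x ≤ A)
    (f : (ι → Bool) → ℝ) :
    mean (fun x => ((mean f) ^ 2 + ∑ j ∈ range L, (E (G (j + 1)) f x - E (G j) f x) ^ 2) * w x)
      ≤ (3 * A + 16 * A ^ 3) * mean (fun x => f x ^ 2 * w x) := by
  -- notation
  set a : ℕ → (ι → Bool) → ℝ := fun j x => E (G j) f x with ha
  set F : ℕ → (ι → Bool) → ℝ := fun j x => E (G j) (fun y => f y ^ 2 * w y) x with hF
  set u : ℕ → (ι → Bool) → ℝ := fun j x => E (G j) (fun y => (w y)⁻¹) x with hu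
  set v : ℕ → (ι → Bool) → ℝ := fun j x => E (G j) w x with hv
  have hA' : ∀ j ≤ L, ∀ x, v j x * u j x ≤ A := fun j hj x => hA j hj x
  have hupos : ∀ j x, 0 < u j x := fun j x => E_pos _ (fun y => inv_pos.mpr (hw y)) x
  have hvpos : ∀ j x, 0 < v j x := fun j x => E_pos _ hw x
  have huv : ∀ j x, 1 ≤ v j x * u j x := fun j x => one_le_E_mul_E_inv _ hw x
  have hFnn : ∀ j x, 0 ≤ F j x := fun j x =>
    E_nonneg _ (fun y => mul_nonneg (sq_nonneg _) (hw y).le) x
  have hCS : ∀ j x, a j x ^ 2 ≤ F j x * u j x := by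
    intro j x
    have h := E_mul_sq_le (G j) (fun y => f y * Real.sqrt (w y)) (fun y => (Real.sqrt (w y))⁻¹) x
    have e1 : E (G j) (fun y => f y * Real.sqrt (w y) * (Real.sqrt (w y))⁻¹) x = a j x :=
      E_congr _ (fun y => mul_inv_cancel_right₀ (Real.sqrt_pos.mpr (hw y)).ne' _) x
    have e2 : E (G j) (fun y => (f y * Real.sqrt (w y)) ^ 2) x = F j x :=
      E_congr _ (fun y => by rw [mul_pow, Real.sq_sqrt (hw y).le]) x
    have e3 : E (G j) (fun y => ((Real.sqrt (w y))⁻¹) ^ 2) x = u j x :=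
      E_congr _ (fun y => by rw [inv_pow, Real.sq_sqrt (hw y).le]) x
    rw [e1, e2, e3] at h
    exact h
  have hstep : ∀ j < L, ∀ (g : (ι → Bool) → ℝ) (x : ι → Bool),
      E (G j) g x = (E (G (j + 1)) g x + E (G (j + 1)) g (flp (e j) x)) / 2 := by
    intro j hj g x
    rw [hG j hj]
    exact E_step (he j hj) g x
  have hmean0 : ∀ g : (ι → Bool) → ℝ, ∀ x, E (G 0) g x = mean g := by
    intro g x; rw [h0]; exact E_empty g x
  have hA0 : 0 < A := by
    have x0 : ι → Bool := fun _ => true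
    have := (huv 0 x0).trans (hA' 0 (Nat.zero_le _) x0)
    linarith
  have hF0 : mean (fun x => f x ^ 2 * w x) = mean (F 0) := by
    rw [hF]
    beta_reduce
    rw [mean_congr (fun x => hmean0 (fun y => f y ^ 2 * w y) x), mean_const]
  -- the first telescoping sum
  have hone : ∑ j ∈ range L, mean (fun x =>
      ((a (j + 1) x - a j x) - a j x * (u (j + 1) x - u j x) / u j x) ^ 2 / u j x)
      ≤ mean (F 0) := by
    have h1 := sum_gain (fun j => mean (fun x => F j x - a j x ^ 2 / u j x))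
      (fun j => mean (fun x =>
        ((a (j + 1) x - a j x) - a j x * (u (j + 1) x - u j x) / u j x) ^ 2 / u j x)) L ?_
    · have h2 : 0 ≤ mean (fun x => F L x - a L x ^ 2 / u L x) := by
        refine mean_nonneg fun x => ?_
        have := hCS L x
        rw [sub_nonneg, div_le_iff₀ (hupos L x)]
        exact this
      have h3 : mean (fun x => F 0 x - a 0 x ^ 2 / u 0 x) ≤ mean (F 0) := by
        refine mean_mono fun x => ?_
        have : 0 ≤ a 0 x ^ 2 / u 0 x := div_nonneg (sq_nonneg _) (hupos 0 x).le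
        linarith
      linarith
    · intro j hj
      rw [← mean_flp_avg (e j) (fun x => F (j + 1) x - a (j + 1) x ^ 2 / u (j + 1) x), ← mean_add]
      refine mean_mono fun x => ?_
      have ea : a (j + 1) (flp (e j) x) = a j x - (a (j + 1) x - a j x) := by
        have := hstep j hj f x
        rw [ha]; beta_reduce; linarith
      have eu : u (j + 1) (flp (e j) x) = u j x - (u (j + 1) x - u j x) := by
        have := hstep j hj (fun y => (w y)⁻¹) x
        rw [hu]; beta_reduce; linarith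
      have eF : F (j + 1) (flp (e j) x) = 2 * F j x - F (j + 1) x := by
        have := hstep j hj (fun y => f y ^ 2 * w y) x
        rw [hF]; beta_reduce; linarith
      have hb := bell_one (f := a j x) (d := a (j + 1) x - a j x) (u := u j x)
        (δ := u (j + 1) x - u j x) (by linarith [hupos (j + 1) x])
        (by rw [← eu]; exact hupos _ _)
      rw [← ea, ← eu] at hb
      have e1 : a j x + (a (j + 1) x - a j x) = a (j + 1) x := by ring
      have e2 : u j x + (u (j + 1) x - u j x) = u (j + 1) x := by ring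
      rw [e1, e2] at hb
      linarith
  -- the second telescoping sum
  have htwo : ∑ j ∈ range L, mean (fun x =>
      a j x ^ 2 * (u (j + 1) x - u j x) ^ 2 / u j x ^ 3 / (8 * A ^ 2)) ≤ mean (F 0) := by
    have h1 := sum_gain
      (fun j => mean (fun x => F j x - a j x ^ 2 / (2 * u j x - 1 / (u j x * v j x ^ 2))))
      (fun j => mean (fun x =>
        a j x ^ 2 * (u (j + 1) x - u j x) ^ 2 / u j x ^ 3 / (8 * A ^ 2))) L ?_
    · have hMge : ∀ j x, u j x ≤ 2 * u j x - 1 / (u j x * v j x ^ 2) := by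
        intro j x
        have h3 : 1 / (u j x * v j x ^ 2) ≤ u j x := by
          rw [div_le_iff₀ (mul_pos (hupos j x) (pow_pos (hvpos j x) 2))]
          have := huv j x
          have h4 : (1 : ℝ) * 1 ≤ (v j x * u j x) * (v j x * u j x) :=
            mul_le_mul this this zero_le_one (by linarith)
          nlinarith
        linarith
      have h2 : 0 ≤ mean (fun x => F L x - a L x ^ 2 / (2 * u L x - 1 / (u L x * v L x ^ 2))) := by
        refine mean_nonneg fun x => ?_
        have h3 := hCS L x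
        have h4 := hMge L x
        have h5 : F L x * u L x ≤ F L x * (2 * u L x - 1 / (u L x * v L x ^ 2)) :=
          mul_le_mul_of_nonneg_left h4 (hFnn L x)
        rw [sub_nonneg, div_le_iff₀ (lt_of_lt_of_le (hupos L x) h4)]
        exact h3.trans h5
      have h3 : mean (fun x => F 0 x - a 0 x ^ 2 / (2 * u 0 x - 1 / (u 0 x * v 0 x ^ 2)))
          ≤ mean (F 0) := by
        refine mean_mono fun x => ?_
        have : 0 ≤ a 0 x ^ 2 / (2 * u 0 x - 1 / (u 0 x * v 0 x ^ 2)) :=
          div_nonneg (sq_nonneg _) (lt_of_lt_of_le (hupos 0 x) (hMge 0 x)).le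
        linarith
      linarith
    · intro j hj
      rw [← mean_flp_avg (e j)
        (fun x => F (j + 1) x - a (j + 1) x ^ 2 /
          (2 * u (j + 1) x - 1 / (u (j + 1) x * v (j + 1) x ^ 2))), ← mean_add]
      refine mean_mono fun x => ?_
      have ea : a (j + 1) (flp (e j) x) = a j x - (a (j + 1) x - a j x) := by
        have := hstep j hj f x
        rw [ha]; beta_reduce; linarith
      have eu : u (j + 1) (flp (e j) x) = u j x - (u (j + 1) x - u j x) := by
        have := hstep j hj (fun y => (w y)⁻¹) x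
        rw [hu]; beta_reduce; linarith
      have ev : v (j + 1) (flp (e j) x) = v j x - (v (j + 1) x - v j x) := by
        have := hstep j hj w x
        rw [hv]; beta_reduce; linarith
      have eF : F (j + 1) (flp (e j) x) = 2 * F j x - F (j + 1) x := by
        have := hstep j hj (fun y => f y ^ 2 * w y) x
        rw [hF]; beta_reduce; linarith
      have e1 : a j x + (a (j + 1) x - a j x) = a (j + 1) x := by ring
      have e2 : u j x + (u (j + 1) x - u j x) = u (j + 1) x := by ring
      have e3 : v j x + (v (j + 1) x - v j x) = v (j + 1) x := by ring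
      have hb := bell_two (f := a j x) (d := a (j + 1) x - a j x) (u := u j x)
        (δ := u (j + 1) x - u j x) (v := v j x) (ε := v (j + 1) x - v j x) (A := A)
        (by rw [e2]; exact hupos _ _)
        (by rw [← eu]; exact hupos _ _) (by rw [e3]; exact hvpos _ _)
        (by rw [← ev]; exact hvpos _ _) (huv j x) (by rw [e2, e3]; exact huv _ _)
        (by rw [← eu, ← ev]; exact huv _ _) (hA' j hj.le x)
      rw [← ea, ← eu, ← ev, e1, e2, e3] at hb
      linarith
  -- the pointwise comparison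
  have hpt : ∀ j < L, mean (fun x => (a (j + 1) x - a j x) ^ 2 * w x) ≤
      2 * A * mean (fun x =>
        ((a (j + 1) x - a j x) - a j x * (u (j + 1) x - u j x) / u j x) ^ 2 / u j x)
      + 16 * A ^ 3 * mean (fun x =>
        a j x ^ 2 * (u (j + 1) x - u j x) ^ 2 / u j x ^ 3 / (8 * A ^ 2)) := by
    intro j hj
    have hdep : Dep (G j) (fun x => (a (j + 1) x - a j x) ^ 2) := by
      have := dep_diff_sq (he j hj) f
      rw [← hG j hj] at this
      exact this
    have e0 : mean (fun x => (a (j + 1) x - a j x) ^ 2 * w x)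
        = mean (fun x => (a (j + 1) x - a j x) ^ 2 * v j x) := (mean_mul_E hdep w).symm
    rw [e0, ← mean_mul_left, ← mean_mul_left, ← mean_add]
    refine mean_mono fun x => ?_
    have hu0 := hupos j x
    have hv0 := hvpos j x
    have hvA : v j x ≤ A / u j x := by
      rw [le_div_iff₀ hu0]; exact hA' j hj.le x
    set d := a (j + 1) x - a j x with hd
    set b := a j x * (u (j + 1) x - u j x) / u j x with hb
    have h1 : d ^ 2 ≤ 2 * (d - b) ^ 2 + 2 * b ^ 2 := by nlinarith [sq_nonneg (d - 2 * b)]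
    have h2 : d ^ 2 * v j x ≤ (2 * (d - b) ^ 2 + 2 * b ^ 2) * (A / u j x) :=
      mul_le_mul h1 hvA hv0.le (by positivity)
    refine h2.trans (le_of_eq ?_)
    rw [hb]
    field_simp
    ring
  -- conclusion
  have e1 : mean (fun x => ((mean f) ^ 2
      + ∑ j ∈ range L, (E (G (j + 1)) f x - E (G j) f x) ^ 2) * w x)
      = (mean f) ^ 2 * mean w + ∑ j ∈ range L, mean (fun x => (a (j + 1) x - a j x) ^ 2 * w x) := by
    rw [← mean_sum, ← mean_mul_left, ← mean_add]
    refine mean_congr fun x => ?_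
    rw [add_mul, Finset.sum_mul]
  have x0 : ι → Bool := fun _ => true
  have e2 : (mean f) ^ 2 * mean w ≤ A * mean (F 0) := by
    have h1 := hCS 0 x0
    have h2 := hA' 0 (Nat.zero_le _) x0
    have ea : a 0 x0 = mean f := hmean0 f x0
    have ev : v 0 x0 = mean w := hmean0 w x0
    have eF : F 0 x0 = mean (F 0) := by
      rw [← hF0]; exact hmean0 _ x0
    rw [← ea, ← ev, ← eF]
    calc a 0 x0 ^ 2 * v 0 x0 ≤ (F 0 x0 * u 0 x0) * v 0 x0 :=
          mul_le_mul_of_nonneg_right h1 (hvpos 0 x0).le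
      _ = F 0 x0 * (v 0 x0 * u 0 x0) := by ring
      _ ≤ F 0 x0 * A := mul_le_mul_of_nonneg_left h2 (hFnn 0 x0)
      _ = A * F 0 x0 := mul_comm _ _
  have e3 : ∑ j ∈ range L, mean (fun x => (a (j + 1) x - a j x) ^ 2 * w x)
      ≤ 2 * A * mean (F 0) + 16 * A ^ 3 * mean (F 0) := by
    refine (Finset.sum_le_sum fun j hj => hpt j (Finset.mem_range.mp hj)).trans ?_
    rw [Finset.sum_add_distrib, ← Finset.mul_sum, ← Finset.mul_sum]
    exact add_le_add (mul_le_mul_of_nonneg_left hone (by positivity))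
      (mul_le_mul_of_nonneg_left htwo (by positivity))
  rw [e1, hF0]
  linarith

/-- The lower bound with a single constant. -/
theorem lp_lower (G : ℕ → Finset ι) (e : ℕ → ι) (L : ℕ)
    (h0 : G 0 = ∅) (he : ∀ j < L, e j ∉ G j) (hG : ∀ j < L, G (j + 1) = insert (e j) (G j))
    (w : (ι → Bool) → ℝ) (hw : ∀ x, 0 < w x) (A : ℝ)
    (hA : ∀ j ≤ L, ∀ x, E (G j) w x * E (G j) (fun y => (w y)⁻¹) x ≤ A)
    (f : (ι → Bool) → ℝ) (_hf : Dep (G L) f) :
    mean (fun x => ((mean f) ^ 2 + ∑ j ∈ range L, (E (G (j + 1)) f x - E (G j) f x) ^ 2) * w x)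
      ≤ 23 * A ^ 3 * mean (fun x => f x ^ 2 * w x) := by
  refine (lp_lower' G e L h0 he hG w hw A hA f).trans ?_
  have hA1 : 1 ≤ A := by
    have h1 := one_le_E_mul_E_inv (G 0) hw (fun _ => true)
    exact h1.trans (hA 0 (Nat.zero_le _) _)
  refine mul_le_mul_of_nonneg_right ?_ (mean_nonneg fun x => mul_nonneg (sq_nonneg _) (hw x).le)
  have h3 : A ≤ A ^ 3 := le_self_pow₀ hA1 (by norm_num)
  have h4 : 0 ≤ A ^ 3 := by positivity
  linarith

end MP_1a422c_an
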