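import Pool.Agent.Work.MP_1a422c_an.Defs
import Pool.Agent.Work.MP_1a422c_an.LP

/-!
# The upper weighted square function estimate from the lower one, by duality
-/

set_option linter.unusedSectionVars false

open Finset

namespace MP_1a422c_an

variable {ι : Type*} [Fintype ι] [DecidableEq ι]

lemma dep_mul_up {v : Finset ι} {f g : (ι → Bool) → ℝ} (hf : Dep v f) (hg : Dep v g) :
    Dep v (fun x => f x * g x) := fun x y h => by
  show f x * g x = f y * g y
  rw [hf x y h, hg x y h]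

lemma dep_inv_up {v : Finset ι} {f : (ι → Bool) → ℝ} (hf : Dep v f) :
    Dep v (fun x => (f x)⁻¹) := fun x y h => by
  show (f x)⁻¹ = (f y)⁻¹
  rw [hf x y h]

lemma chain_mono_up {G : ℕ → Finset ι} {e : ℕ → ι} {L : ℕ}
    (hG : ∀ j < L, G (j+1) = insert (e j) (G j)) {i j : ℕ} (hij : i ≤ j) (hj : j ≤ L) :
    G i ⊆ G j := by
  induction j, hij using Nat.le_induction with
  | base => exact fun _ h => h
  | succ n hn ih =>
    refine (ih (by omega)).trans ?_
    rw [hG n (by omega)]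
    exact Finset.subset_insert _ _

/-- Orthogonality of martingale differences: polarised Parseval identity. -/
lemma mean_mul_eq_sum {G : ℕ → Finset ι} {e : ℕ → ι} {L : ℕ} (h0 : G 0 = ∅)
    (hG : ∀ j < L, G (j+1) = insert (e j) (G j)) (f g : (ι → Bool) → ℝ) (n : ℕ) (hn : n ≤ L) :
    mean (fun x => E (G n) f x * E (G n) g x) = mean f * mean g +
      ∑ j ∈ range n, mean (fun x => (E (G (j+1)) f x - E (G j) f x) *
        (E (G (j+1)) g x - E (G j) g x)) := by
  induction n with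
  | zero =>
    simp only [h0, E_empty, mean_const, range_zero, sum_empty, add_zero]
  | succ n ih =>
    rw [sum_range_succ, ← add_assoc, ← ih (by omega)]
    have hsub : G n ⊆ G (n+1) := chain_mono_up hG (Nat.le_succ n) hn
    have hE : ∀ (h : (ι → Bool) → ℝ) (x : ι → Bool), E (G n) (E (G (n+1)) h) x = E (G n) h x := by
      intro h x
      rw [E_E, Finset.inter_eq_left.mpr hsub]
    have h1 : mean (fun x => E (G n) f x * E (G (n+1)) g x) =
        mean (fun x => E (G n) f x * E (G n) g x) := by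
      rw [← mean_mul_E (dep_E (G n) f) (E (G (n+1)) g)]
      exact mean_congr fun x => by rw [hE]
    have h2 : mean (fun x => E (G n) g x * E (G (n+1)) f x) =
        mean (fun x => E (G n) g x * E (G n) f x) := by
      rw [← mean_mul_E (dep_E (G n) g) (E (G (n+1)) f)]
      exact mean_congr fun x => by rw [hE]
    have h3 : mean (fun x => (E (G (n+1)) f x - E (G n) f x) * (E (G (n+1)) g x - E (G n) g x)) =
        mean (fun x => E (G (n+1)) f x * E (G (n+1)) g x)
        - mean (fun x => E (G n) f x * E (G (n+1)) g x)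
        - mean (fun x => E (G n) g x * E (G (n+1)) f x)
        + mean (fun x => E (G n) f x * E (G n) g x) := by
      rw [← mean_sub, ← mean_sub, ← mean_add]
      exact mean_congr fun x => by ring
    have h4 : mean (fun x => E (G n) g x * E (G n) f x) =
        mean (fun x => E (G n) f x * E (G n) g x) := mean_congr fun x => mul_comm _ _
    rw [h3, h1, h2, h4]
    ring

theorem lp_upper_of_lower (G : ℕ → Finset ι) (e : ℕ → ι) (L : ℕ) (h0 : G 0 = ∅)
    (hG : ∀ j < L, G (j+1) = insert (e j) (G j))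
    (low : ∀ (w : (ι → Bool) → ℝ), (∀ x, 0 < w x) → ∀ (A : ℝ),
      (∀ j ≤ L, ∀ x, E (G j) w x * E (G j) (fun y => (w y)⁻¹) x ≤ A) →
      ∀ (f : (ι → Bool) → ℝ), Dep (G L) f →
      mean (fun x => ((mean f) ^ 2 + ∑ j ∈ range L, (E (G (j+1)) f x - E (G j) f x) ^ 2) * w x) ≤
        23 * A ^ 3 * mean (fun x => f x ^ 2 * w x))
    (w : (ι → Bool) → ℝ) (hw : ∀ x, 0 < w x) (A : ℝ)
    (hA : ∀ j ≤ L, ∀ x, E (G j) w x * E (G j) (fun y => (w y)⁻¹) x ≤ A)
    (f : (ι → Bool) → ℝ) (hf : Dep (G L) f) :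
    mean (fun x => f x ^ 2 * w x) ≤
      23 * A ^ 3 * mean (fun x => ((mean f) ^ 2 +
        ∑ j ∈ range L, (E (G (j+1)) f x - E (G j) f x) ^ 2) * w x) := by
  set W : (ι → Bool) → ℝ := E (G L) w with hWdef
  have hWpos : ∀ x, 0 < W x := fun x => E_pos _ hw x
  have hWdep : Dep (G L) W := dep_E _ _
  have hA1 : 1 ≤ A := (one_le_E_mul_E_inv (G L) hw (fun _ => true)).trans (hA L le_rfl _)
  -- replace `w` by `W`
  have hrep : ∀ (g : (ι → Bool) → ℝ), Dep (G L) g →
      mean (fun x => g x * w x) = mean (fun x => g x * W x) := fun g hg =>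
    (mean_mul_E hg w).symm
  have hEW : ∀ j ≤ L, ∀ x, E (G j) W x = E (G j) w x := by
    intro j hj x
    rw [hWdef, E_E, Finset.inter_eq_left.mpr (chain_mono_up hG hj le_rfl)]
  -- the `A₂` condition for `1/W`
  have hA2 : ∀ j ≤ L, ∀ x, E (G j) (fun y => (W y)⁻¹) x *
      E (G j) (fun y => ((W y)⁻¹)⁻¹) x ≤ A := by
    intro j hj x
    have h1 : E (G j) (fun y => ((W y)⁻¹)⁻¹) x = E (G j) w x := by
      rw [← hEW j hj x]
      exact E_congr _ (fun y => inv_inv _) x
    have h2 : ∀ y, (W y)⁻¹ ≤ E (G L) (fun z => (w z)⁻¹) y := by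
      intro y
      have := one_le_E_mul_E_inv (G L) hw y
      rw [inv_le_iff_one_le_mul₀ (hWpos y)]
      rwa [mul_comm]
    have h3 : E (G j) (fun y => (W y)⁻¹) x ≤ E (G j) (fun z => (w z)⁻¹) x := by
      refine (E_mono _ h2 x).trans (le_of_eq ?_)
      rw [E_E, Finset.inter_eq_left.mpr (chain_mono_up hG hj le_rfl)]
    rw [h1]
    have h4 : 0 < E (G j) w x := E_pos _ hw x
    have h5 := hA j hj x
    nlinarith
  set K : ℝ := 23 * A ^ 3 with hK
  have hKpos : 0 < K := by positivity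
  set g : (ι → Bool) → ℝ := fun x => f x * W x with hg
  have hgdep : Dep (G L) g := dep_mul_up hf hWdep
  have hlow := low (fun x => (W x)⁻¹) (fun x => inv_pos.mpr (hWpos x)) A hA2 g hgdep
  have hY : mean (fun x => g x ^ 2 * (W x)⁻¹) = mean (fun x => f x ^ 2 * W x) := by
    refine mean_congr fun x => ?_
    have := (hWpos x).ne'
    simp only [hg]
    field_simp
  rw [hY, ← hK] at hlow
  -- Parseval
  have hpar := mean_mul_eq_sum h0 hG f g L le_rfl
  have hfg : mean (fun x => E (G L) f x * E (G L) g x) = mean (fun x => f x ^ 2 * W x) := by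
    refine mean_congr fun x => ?_
    rw [E_of_dep hf, E_of_dep hgdep]
    simp only [hg]
    ring
  rw [hfg, ← mean_sum] at hpar
  have hpar2 : mean (fun x => f x ^ 2 * W x) = mean (fun x => mean f * mean g +
      ∑ j ∈ range L, (E (G (j+1)) f x - E (G j) f x) * (E (G (j+1)) g x - E (G j) g x)) := by
    rw [hpar, mean_add, mean_const]
  set Sf : (ι → Bool) → ℝ := fun x => (mean f) ^ 2 +
    ∑ j ∈ range L, (E (G (j+1)) f x - E (G j) f x) ^ 2 with hSf
  set Sg : (ι → Bool) → ℝ := fun x => (mean g) ^ 2 +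
    ∑ j ∈ range L, (E (G (j+1)) g x - E (G j) g x) ^ 2 with hSg
  have hpt : ∀ x, 2 * (mean f * mean g +
      ∑ j ∈ range L, (E (G (j+1)) f x - E (G j) f x) * (E (G (j+1)) g x - E (G j) g x)) ≤
      K * (Sf x * W x) + K⁻¹ * (Sg x * (W x)⁻¹) := by
    intro x
    have hWx := hWpos x
    have key : ∀ a b : ℝ, 2 * (a * b) ≤ K * W x * a ^ 2 + (K * W x)⁻¹ * b ^ 2 := by
      intro a b
      have hKW : 0 < K * W x := by positivity
      have h1 : 0 ≤ (K * W x)⁻¹ * (K * W x * a - b) ^ 2 := by positivity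
      have h2 : (K * W x)⁻¹ * (K * W x * a - b) ^ 2 =
          K * W x * a ^ 2 - 2 * (a * b) + (K * W x)⁻¹ * b ^ 2 := by
        field_simp
        ring
      linarith
    have h1 := key (mean f) (mean g)
    have h2 : 2 * ∑ j ∈ range L, (E (G (j+1)) f x - E (G j) f x) *
        (E (G (j+1)) g x - E (G j) g x) ≤
        K * W x * ∑ j ∈ range L, (E (G (j+1)) f x - E (G j) f x) ^ 2 +
        (K * W x)⁻¹ * ∑ j ∈ range L, (E (G (j+1)) g x - E (G j) g x) ^ 2 := by
      rw [Finset.mul_sum, Finset.mul_sum, Finset.mul_sum, ← Finset.sum_add_distrib]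
      exact Finset.sum_le_sum fun j _ => key _ _
    have h3 : K * (Sf x * W x) + K⁻¹ * (Sg x * (W x)⁻¹) =
        K * W x * Sf x + (K * W x)⁻¹ * Sg x := by
      rw [mul_inv]; ring
    rw [h3]
    simp only [hSf, hSg]
    linarith
  have hint := mean_mono hpt
  rw [mean_mul_left, ← hpar2, mean_add, mean_mul_left, mean_mul_left] at hint
  have hSfdep : Dep (G L) Sf := by
    intro x y hxy
    simp only [hSf]
    congr 1
    refine Finset.sum_congr rfl fun j hj => ?_
    have hj' : j < L := Finset.mem_range.mp hj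
    rw [(dep_E (G (j+1)) f).mono (chain_mono_up hG (by omega) le_rfl) x y hxy,
      (dep_E (G j) f).mono (chain_mono_up hG hj'.le le_rfl) x y hxy]
  have hf2dep : Dep (G L) (fun x => f x ^ 2) := by
    intro x y hxy
    show f x ^ 2 = f y ^ 2
    rw [hf x y hxy]
  rw [hrep _ hf2dep, hrep _ hSfdep]
  have h6 : K⁻¹ * mean (fun x => Sg x * (W x)⁻¹) ≤ mean (fun x => f x ^ 2 * W x) := by
    rw [inv_mul_le_iff₀ hKpos]
    exact hlow
  linarith

theorem lp_upper (G : ℕ → Finset ι) (e : ℕ → ι) (L : ℕ) (h0 : G 0 = ∅)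
    (he : ∀ j < L, e j ∉ G j) (hG : ∀ j < L, G (j+1) = insert (e j) (G j))
    (w : (ι → Bool) → ℝ) (hw : ∀ x, 0 < w x) (A : ℝ)
    (hA : ∀ j ≤ L, ∀ x, E (G j) w x * E (G j) (fun y => (w y)⁻¹) x ≤ A)
    (f : (ι → Bool) → ℝ) (hf : Dep (G L) f) :
    mean (fun x => f x ^ 2 * w x) ≤
      23 * A ^ 3 * mean (fun x => ((mean f) ^ 2 +
        ∑ j ∈ range L, (E (G (j+1)) f x - E (G j) f x) ^ 2) * w x) :=
  lp_upper_of_lower G e L h0 hG
    (fun w hw A hA f hf => lp_lower G e L h0 he hG w hw A hA f hf) w hw A hA f hf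

end MP_1a422c_an
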