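import Pool.Agent.Work.MP_1a422c_an.LP
import Pool.Agent.Work.MP_1a422c_an.LPUpper

/-!
# Weighted Littlewood-Paley inequality for Rademacher-type expansions along an ordering of a set
of coordinates.
-/

set_option linter.unusedSectionVars false

open Finset

namespace MP_1a422c_an

variable {ι : Type*} [Fintype ι] [DecidableEq ι]

lemma rad_sq (i : ι) (x : ι → Bool) : rad i x ^ 2 = 1 := by
  unfold rad; split_ifs <;> norm_num

lemma dep_rad (i : ι) : Dep {i} (rad i) := by
  intro x y h
  unfold rad
  rw [h i (by simp)]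

/-- Flip one coordinate. -/
def flip (i : ι) (x : ι → Bool) : ι → Bool := Function.update x i (!x i)

lemma flip_flip (i : ι) (x : ι → Bool) : flip i (flip i x) = x := by
  unfold flip
  ext j
  by_cases h : j = i
  · subst h; simp
  · simp [h]

lemma mean_flip (i : ι) (f : (ι → Bool) → ℝ) : (mean fun x => f (flip i x)) = mean f := by
  unfold mean
  congr 1
  exact Fintype.sum_bijective (flip i) (Function.Involutive.bijective (flip_flip i)) _ _
    (fun x => rfl)

lemma rad_flip (i : ι) (x : ι → Bool) : rad i (flip i x) = - rad i x := by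
  unfold rad flip
  cases x i <;> simp

/-- A mean-zero factor: `E v (rad i * ψ) = 0` if `i ∉ v` and `ψ` does not depend on `i`. -/
lemma E_rad_mul_eq_zero {v : Finset ι} {i : ι} (hi : i ∉ v) {ψ : (ι → Bool) → ℝ}
    (hψ : Dep {i}ᶜ ψ) (x : ι → Bool) : E v (fun y => rad i y * ψ y) x = 0 := by
  have h1 : E v (fun y => rad i y * ψ y) x = - E v (fun y => rad i y * ψ y) x := by
    conv_lhs => unfold E
    rw [← mean_flip i]
    unfold E
    rw [← mean_neg]
    refine mean_congr fun y => ?_
    have h2 : v.piecewise x (flip i y) = flip i (v.piecewise x y) := by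
      ext j
      unfold flip
      by_cases hj : j = i
      · subst hj; simp [hi]
      · by_cases hv : j ∈ v <;> simp [hj, hv]
    beta_reduce
    rw [h2, rad_flip]
    have h3 : ψ (flip i (v.piecewise x y)) = ψ (v.piecewise x y) := by
      refine hψ _ _ fun j hj => ?_
      have : j ≠ i := by simpa using hj
      unfold flip; simp [this]
    rw [h3]; ring
  linarith

/-- `rank` of an element of `s` with respect to the key `k`. -/
def rank {Λ : Type*} [LinearOrder Λ] (s : Finset ι) (k : ι → Λ) (a : ι) : ℕ :=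
  (s.filter fun z => k z < k a).card

lemma rank_lt_rank {Λ : Type*} [LinearOrder Λ] {s : Finset ι} {k : ι → Λ} {a b : ι}
    (ha : a ∈ s) (h : k a < k b) : rank s k a < rank s k b := by
  unfold rank
  refine Finset.card_lt_card ?_
  rw [Finset.ssubset_iff_of_subset]
  · exact ⟨a, by simp [ha, h], by simp⟩
  · intro z hz
    simp only [Finset.mem_filter] at hz ⊢
    exact ⟨hz.1, hz.2.trans h⟩

lemma rank_lt_iff {Λ : Type*} [LinearOrder Λ] {s : Finset ι} {k : ι → Λ} {a b : ι}
    (ha : a ∈ s) (hb : b ∈ s) : rank s k a < rank s k b ↔ k a < k b := by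
  constructor
  · intro h
    by_contra h'
    rcases lt_or_eq_of_le (not_lt.mp h') with h1 | h1
    · exact absurd (rank_lt_rank hb h1) (by omega)
    · unfold rank at h; rw [h1] at h; exact absurd h (lt_irrefl _)
  · exact rank_lt_rank ha

lemma rank_lt_card {Λ : Type*} [LinearOrder Λ] {s : Finset ι} {k : ι → Λ} {a : ι}
    (ha : a ∈ s) : rank s k a < s.card := by
  unfold rank
  refine Finset.card_lt_card ?_
  rw [Finset.ssubset_iff_of_subset (Finset.filter_subset _ _)]
  exact ⟨a, ha, by simp⟩

lemma rank_inj {Λ : Type*} [LinearOrder Λ] {s : Finset ι} {k : ι → Λ}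
    (hk : ∀ a ∈ s, ∀ b ∈ s, k a = k b → a = b) {a b : ι} (ha : a ∈ s) (hb : b ∈ s)
    (h : rank s k a = rank s k b) : a = b := by
  refine hk a ha b hb ?_
  rcases lt_trichotomy (k a) (k b) with h1 | h1 | h1
  · have := rank_lt_rank ha h1; omega
  · exact h1
  · have := rank_lt_rank hb h1; omega

lemma exists_rank {Λ : Type*} [LinearOrder Λ] {s : Finset ι} {k : ι → Λ}
    (hk : ∀ a ∈ s, ∀ b ∈ s, k a = k b → a = b) {j : ℕ} (hj : j < s.card) :
    ∃ a ∈ s, rank s k a = j := by
  have h1 : s.image (rank s k) ⊆ Finset.range s.card := by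
    intro n hn
    obtain ⟨a, ha, rfl⟩ := Finset.mem_image.mp hn
    exact Finset.mem_range.mpr (rank_lt_card ha)
  have h2 : (s.image (rank s k)).card = s.card :=
    Finset.card_image_of_injOn fun a ha b hb h => rank_inj hk ha hb h
  have h3 : s.image (rank s k) = Finset.range s.card :=
    Finset.eq_of_subset_of_card_le h1 (by rw [h2, Finset.card_range])
  have h4 : j ∈ s.image (rank s k) := by rw [h3]; exact Finset.mem_range.mpr hj
  obtain ⟨a, ha, h⟩ := Finset.mem_image.mp h4
  exact ⟨a, ha, h⟩

section main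

variable {Λ : Type*} [LinearOrder Λ] (s : Finset ι) (k : ι → Λ)
  (hk : ∀ a ∈ s, ∀ b ∈ s, k a = k b → a = b)
  (c : ℝ) (ψ : ι → (ι → Bool) → ℝ)
  (hψ : ∀ a ∈ s, Dep (s.filter fun z => k z < k a) (ψ a))

include hk hψ

/-- The expansion along the key `k`. -/
lemma E_initial (t : Finset ι) (ht : t ⊆ s) (hdown : ∀ a ∈ t, ∀ b ∈ s, k b < k a → b ∈ t)
    (x : ι → Bool) :
    E t (fun y => c + ∑ a ∈ s, rad a y * ψ a y) x = c + ∑ a ∈ t, rad a x * ψ a x := by
  rw [E_add, E_const, E_sum]
  congr 1
  rw [← Finset.sum_subset ht]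
  · refine Finset.sum_congr rfl fun a ha => ?_
    have hd : Dep t (fun y => rad a y * ψ a y) := by
      intro y z h
      have h1 : rad a y = rad a z := dep_rad a y z fun i hi => by
        rw [Finset.mem_singleton.mp hi]; exact h a ha
      have h2 : ψ a y = ψ a z := hψ a (ht ha) y z fun i hi => by
        rw [Finset.mem_filter] at hi
        exact h i (hdown a ha i hi.1 hi.2)
      beta_reduce
      rw [h1, h2]
    exact E_of_dep hd x
  · intro a ha hat
    refine E_rad_mul_eq_zero hat ?_ x
    refine (hψ a ha).mono ?_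
    intro i hi
    rw [Finset.mem_filter] at hi
    simp only [Finset.mem_compl, Finset.mem_singleton]
    rintro rfl
    exact lt_irrefl _ hi.2

omit hk in
lemma dep_expansion : Dep s (fun y => c + ∑ a ∈ s, rad a y * ψ a y) := by
  intro y z h
  have : ∀ a ∈ s, rad a y * ψ a y = rad a z * ψ a z := by
    intro a ha
    have h1 : rad a y = rad a z := dep_rad a y z fun i hi => by
      rw [Finset.mem_singleton.mp hi]; exact h a ha
    have h2 : ψ a y = ψ a z := hψ a ha y z fun i hi => by
      rw [Finset.mem_filter] at hi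
      exact h i hi.1
    rw [h1, h2]
  beta_reduce
  rw [Finset.sum_congr rfl this]

/-- Two-sided weighted inequality for the expansion along `k`. -/
theorem lp_gen (w : (ι → Bool) → ℝ) (hw : ∀ x, 0 < w x) (A : ℝ)
    (hA : ∀ a ∈ s, ∀ x, E (s.filter fun z => k z < k a) w x *
      E (s.filter fun z => k z < k a) (fun y => (w y)⁻¹) x ≤ A)
    (hAs : ∀ x, E s w x * E s (fun y => (w y)⁻¹) x ≤ A) :
    mean (fun x => (c ^ 2 + ∑ a ∈ s, ψ a x ^ 2) * w x) ≤
      23 * A ^ 3 * mean (fun x => (c + ∑ a ∈ s, rad a x * ψ a x) ^ 2 * w x) ∧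
    mean (fun x => (c + ∑ a ∈ s, rad a x * ψ a x) ^ 2 * w x) ≤
      23 * A ^ 3 * mean (fun x => (c ^ 2 + ∑ a ∈ s, ψ a x ^ 2) * w x) := by
  classical
  by_cases hs : s = ∅
  · subst hs
    have h0 : 1 ≤ A := by
      have h1 := hAs (fun _ => true)
      have h2 := one_le_E_mul_E_inv ∅ hw (fun _ => true)
      linarith
    have h3 : 0 ≤ mean (fun x => c ^ 2 * w x) :=
      mean_nonneg fun x => mul_nonneg (sq_nonneg _) (hw x).le
    have h4 : (1:ℝ) ≤ 23 * A ^ 3 := by
      have : (1:ℝ) ≤ A ^ 3 := one_le_pow₀ h0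
      linarith
    simp only [Finset.sum_empty, add_zero]
    constructor <;> nlinarith
  have hne : s.Nonempty := Finset.nonempty_iff_ne_empty.mpr hs
  obtain ⟨a0, ha0⟩ := hne
  set G : ℕ → Finset ι := fun j => s.filter fun z => rank s k z < j with hGdef
  set e : ℕ → ι := fun j => if h : j < s.card then (exists_rank hk h).choose else a0 with hedef
  have he_spec : ∀ j < s.card, e j ∈ s ∧ rank s k (e j) = j := by
    intro j hj
    have := (exists_rank hk hj).choose_spec
    simp only [hedef, hj, dif_pos]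
    exact this
  have hG0 : G 0 = ∅ := by simp [hGdef]
  have heG : ∀ j < s.card, e j ∉ G j := by
    intro j hj h
    simp only [hGdef, Finset.mem_filter] at h
    have := (he_spec j hj).2
    omega
  have hGs : ∀ j < s.card, G (j + 1) = insert (e j) (G j) := by
    intro j hj
    ext z
    simp only [hGdef, Finset.mem_filter, Finset.mem_insert]
    constructor
    · rintro ⟨hz, hr⟩
      by_cases h : rank s k z < j
      · exact Or.inr ⟨hz, h⟩
      · left
        refine rank_inj hk hz (he_spec j hj).1 ?_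
        rw [(he_spec j hj).2]; omega
    · rintro (rfl | ⟨hz, hr⟩)
      · exact ⟨(he_spec j hj).1, by rw [(he_spec j hj).2]; omega⟩
      · exact ⟨hz, by omega⟩
  have hGpre : ∀ j < s.card, G j = s.filter fun z => k z < k (e j) := by
    intro j hj
    ext z
    simp only [hGdef, Finset.mem_filter]
    constructor
    · rintro ⟨hz, hr⟩
      refine ⟨hz, (rank_lt_iff hz (he_spec j hj).1).mp ?_⟩
      rw [(he_spec j hj).2]; exact hr
    · rintro ⟨hz, hr⟩
      refine ⟨hz, ?_⟩
      have := (rank_lt_iff hz (he_spec j hj).1).mpr hr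
      rw [(he_spec j hj).2] at this; exact this
  have hGL : G s.card = s := by
    ext z
    simp only [hGdef, Finset.mem_filter]
    exact ⟨fun h => h.1, fun h => ⟨h, rank_lt_card h⟩⟩
  have hAj : ∀ j ≤ s.card, ∀ x, E (G j) w x * E (G j) (fun y => (w y)⁻¹) x ≤ A := by
    intro j hj x
    rcases lt_or_eq_of_le hj with hj | rfl
    · rw [hGpre j hj]
      exact hA (e j) (he_spec j hj).1 x
    · rw [hGL]; exact hAs x
  set f : (ι → Bool) → ℝ := fun y => c + ∑ a ∈ s, rad a y * ψ a y with hf
  have hfdep : Dep (G s.card) f := by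
    rw [hGL]; exact dep_expansion s k c ψ hψ
  have hmean : mean f = c := by
    have := E_initial s k hk c ψ hψ ∅ (Finset.empty_subset _) (by simp) (fun _ => true)
    rw [E_empty] at this
    simpa using this
  have hdown : ∀ j, ∀ a ∈ G j, ∀ b ∈ s, k b < k a → b ∈ G j := by
    intro j a ha b hb hba
    simp only [hGdef, Finset.mem_filter] at ha ⊢
    exact ⟨hb, (rank_lt_rank hb hba).trans ha.2⟩
  have hGsub : ∀ j, G j ⊆ s := fun j => Finset.filter_subset _ _
  have hdiff : ∀ j < s.card, ∀ x, (E (G (j+1)) f x - E (G j) f x) ^ 2 = ψ (e j) x ^ 2 := by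
    intro j hj x
    rw [E_initial s k hk c ψ hψ (G (j+1)) (hGsub _) (hdown _) x,
      E_initial s k hk c ψ hψ (G j) (hGsub _) (hdown _) x, hGs j hj,
      Finset.sum_insert (heG j hj)]
    have h1 : c + (rad (e j) x * ψ (e j) x + ∑ a ∈ G j, rad a x * ψ a x) -
        (c + ∑ a ∈ G j, rad a x * ψ a x) = rad (e j) x * ψ (e j) x := by ring
    rw [h1, mul_pow, rad_sq, one_mul]
  have hsum : ∀ x, ∑ j ∈ Finset.range s.card, (E (G (j+1)) f x - E (G j) f x) ^ 2
      = ∑ a ∈ s, ψ a x ^ 2 := by
    intro x
    rw [Finset.sum_congr rfl fun j hj => hdiff j (Finset.mem_range.mp hj) x]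
    refine Finset.sum_bij (fun j _ => e j) ?_ ?_ ?_ ?_
    · intro j hj; exact (he_spec j (Finset.mem_range.mp hj)).1
    · intro i hi j hj h
      have h1 := (he_spec i (Finset.mem_range.mp hi)).2
      have h2 := (he_spec j (Finset.mem_range.mp hj)).2
      rw [← h1, ← h2, h]
    · intro a ha
      refine ⟨rank s k a, Finset.mem_range.mpr (rank_lt_card ha), ?_⟩
      have := he_spec (rank s k a) (rank_lt_card ha)
      exact rank_inj hk this.1 ha this.2
    · intro j hj; rfl
  have hfun : (fun x => ((mean f) ^ 2 + ∑ j ∈ Finset.range s.card,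
      (E (G (j+1)) f x - E (G j) f x) ^ 2) * w x)
      = fun x => (c ^ 2 + ∑ a ∈ s, ψ a x ^ 2) * w x := by
    ext x
    rw [hmean, hsum x]
  constructor
  · have := lp_lower G e s.card hG0 heG hGs w hw A hAj f hfdep
    rw [hfun] at this
    exact this
  · have := lp_upper_of_lower G e s.card hG0 hGs
      (fun w hw A hA f hf => lp_lower G e s.card hG0 heG hGs w hw A hA f hf) w hw A hAj f hfdep
    rw [hfun] at this
    exact this

end main

end MP_1a422c_an
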