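import Pool.Agent.Work.MP_1a422c_an.Defs
import Pool.Agent.Work.MP_1a422c_an.CylInt

/-!
# The index type of cardinality `ℵ₁`, and non-separability of `L^p` of the product measure
-/

open Finset MeasureTheory

namespace MP_1a422c_an

/-- A well-ordered set of order type `ω₁`. -/
abbrev Omega1 : Type := (Ordinal.omega 1 : Ordinal.{0}).ToType

theorem mk_omega1 : Cardinal.mk Omega1 = Cardinal.aleph 1 := by
  rw [Cardinal.mk_toType, Ordinal.card_omega]

theorem countable_Iio_omega1 (a : Omega1) : (Set.Iio a).Countable := by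
  have h : (Cardinal.mk Omega1).ord = Ordinal.type (fun x y : Omega1 => x < y) := by
    rw [mk_omega1, Cardinal.ord_aleph]
    exact (Ordinal.type_toType _).symm
  have h1 := Cardinal.card_typein_lt (r := fun x y : Omega1 => x < y) a h
  rw [Ordinal.card_typein, mk_omega1] at h1
  have h2 : Cardinal.mk {y : Omega1 // y < a} ≤ Cardinal.aleph0 := by
    rw [← Cardinal.succ_aleph0] at h1
    exact Order.lt_succ_iff.mp h1
  exact Set.countable_coe_iff.mp (Cardinal.mk_le_aleph0_iff.mp h2)

instance uncountable_omega1 : Uncountable Omega1 := by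
  rw [← Cardinal.aleph0_lt_mk_iff, mk_omega1]
  exact Cardinal.aleph0_lt_aleph_one

variable {I : Type*}

lemma measurable_rad (i : I) : Measurable (rad i : (I → Bool) → ℝ) := by
  unfold rad
  exact (measurable_of_finite (fun b : Bool => if b then (1:ℝ) else -1)).comp (measurable_pi_apply i)

lemma measurable_radK (𝕜 : Type*) [RCLike 𝕜] (i : I) :
    Measurable (fun x : I → Bool => ((rad i x : ℝ) : 𝕜)) :=
  (RCLike.measurable_ofReal).comp (measurable_rad i)

lemma abs_rad (i : I) (x : I → Bool) : |rad i x| = 1 := by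
  unfold rad; split_ifs <;> simp

lemma memLp_rad (𝕜 : Type*) [RCLike 𝕜] (p : ENNReal) (i : I) :
    MemLp (fun x : I → Bool => ((rad i x : ℝ) : 𝕜)) p (mu I) := by
  refine MemLp.of_bound (measurable_radK 𝕜 i).aestronglyMeasurable 1 (ae_of_all _ fun x => ?_)
  rw [RCLike.norm_ofReal, abs_rad]

/-- A function on the cube that is odd in one coordinate has mean zero. -/
lemma mean_eq_zero_of_flip {ι : Type*} [Fintype ι] [DecidableEq ι] (i : ι)
    (g : (ι → Bool) → ℝ) (hg : ∀ x, g (Function.update x i (!x i)) = - g x) : mean g = 0 := by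
  have hinv : Function.Involutive (fun x : ι → Bool => Function.update x i (!x i)) := by
    intro x
    funext k
    by_cases hk : k = i
    · subst hk; simp
    · simp [Function.update_of_ne hk]
  have h1 : ∑ x : ι → Bool, g x = ∑ x : ι → Bool, g (Function.update x i (!x i)) :=
    (Equiv.sum_comp hinv.toPerm g).symm
  simp only [hg, Finset.sum_neg_distrib] at h1
  have h2 : ∑ x : ι → Bool, g x = 0 := by linarith
  unfold mean
  rw [h2, zero_div]

lemma mean_rad_mul_rad {ι : Type*} [Fintype ι] [DecidableEq ι] {i j : ι} (hij : i ≠ j) :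
    mean (fun x => rad i x * rad j x) = 0 := by
  refine mean_eq_zero_of_flip i _ fun x => ?_
  unfold rad
  rw [Function.update_self, Function.update_of_ne hij.symm]
  cases x i <;> cases x j <;> simp

/-- The Rademacher functions are at mutual distance at least one. -/
lemma one_le_dist_rad (𝕜 : Type*) [RCLike 𝕜] (p : ENNReal) [Fact (1 ≤ p)] {i j : I} (hij : i ≠ j) :
    1 ≤ dist ((memLp_rad 𝕜 p i).toLp _) ((memLp_rad 𝕜 p j).toLp _) := by
  classical
  rw [dist_eq_norm, ← MemLp.toLp_sub, Lp.norm_toLp]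
  have hp : (1 : ENNReal) ≤ p := Fact.out
  have hmem : MemLp (fun x : I → Bool => ((rad i x : ℝ) : 𝕜) - ((rad j x : ℝ) : 𝕜)) p (mu I) :=
    (memLp_rad 𝕜 p i).sub (memLp_rad 𝕜 p j)
  have h1 : eLpNorm (fun x : I → Bool => ((rad i x : ℝ) : 𝕜) - ((rad j x : ℝ) : 𝕜)) 1 (mu I) ≤
      eLpNorm (fun x : I → Bool => ((rad i x : ℝ) : 𝕜) - ((rad j x : ℝ) : 𝕜)) p (mu I) :=
    eLpNorm_le_eLpNorm_of_exponent_le hp hmem.1
  have e : ∀ x : I → Bool, ‖((rad i x : ℝ) : 𝕜) - ((rad j x : ℝ) : 𝕜)‖ =
      1 - rad i x * rad j x := by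
    intro x
    rw [← RCLike.ofReal_sub, RCLike.norm_ofReal]
    unfold rad
    cases x i <;> cases x j <;> norm_num
  have h2 : ∫ x : I → Bool, ‖((rad i x : ℝ) : 𝕜) - ((rad j x : ℝ) : 𝕜)‖ ∂(mu I) = 1 := by
    simp only [e]
    have hi : i ∈ ({i, j} : Finset I) := by simp
    have hj : j ∈ ({i, j} : Finset I) := by simp
    have h3 := integral_cyl ({i, j} : Finset I)
      (fun y => 1 - rad (⟨i, hi⟩ : ({i, j} : Finset I)) y * rad (⟨j, hj⟩ : ({i, j} : Finset I)) y)
    have h4 : mean (fun y : (({i, j} : Finset I) → Bool) =>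
        1 - rad (⟨i, hi⟩ : ({i, j} : Finset I)) y * rad (⟨j, hj⟩ : ({i, j} : Finset I)) y) = 1 := by
      rw [mean_sub, mean_const, mean_rad_mul_rad (by simpa using hij), sub_zero]
    rw [h4] at h3
    exact h3
  have h5 : eLpNorm (fun x : I → Bool => ((rad i x : ℝ) : 𝕜) - ((rad j x : ℝ) : 𝕜)) 1 (mu I)
      = 1 := by
    rw [eLpNorm_one_eq_lintegral_enorm]
    have h6 := ofReal_integral_norm_eq_lintegral_enorm (μ := mu I)
      (f := fun x : I → Bool => ((rad i x : ℝ) : 𝕜) - ((rad j x : ℝ) : 𝕜))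
      (hmem.integrable hp)
    rw [← h6, h2]
    simp
  rw [h5] at h1
  have h7 : eLpNorm (fun x : I → Bool => ((rad i x : ℝ) : 𝕜) - ((rad j x : ℝ) : 𝕜)) p (mu I) ≠ ⊤ :=
    hmem.2.ne
  have h8 := ENNReal.toReal_mono h7 h1
  rw [ENNReal.toReal_one] at h8
  exact h8

theorem not_separable_Lp (𝕜 : Type*) [RCLike 𝕜] [Uncountable I] (p : ENNReal) [Fact (1 ≤ p)] :
    ¬ TopologicalSpace.SeparableSpace (Lp 𝕜 p (mu I)) := by
  intro hsep
  have h := Set.PairwiseDisjoint.countable_of_isOpen (α := Lp 𝕜 p (mu I))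
    (s := fun i : I => Metric.ball ((memLp_rad 𝕜 p i).toLp _) (1/2)) (a := Set.univ)
    (by
      intro i _ j _ hij
      refine Metric.ball_disjoint_ball ?_
      have := one_le_dist_rad 𝕜 p hij
      linarith)
    (fun i _ => Metric.isOpen_ball) (fun i _ => ⟨_, Metric.mem_ball_self (by norm_num)⟩)
  exact not_countable (α := I) (Set.countable_univ_iff.mp h)

end MP_1a422c_an
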