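import Pool.Agent.Work.MP_1a422c_an.FiniteL3
import Pool.Agent.Work.MP_1a422c_an.CylInt
import Pool.Agent.Work.MP_1a422c_an.NonSep
import Pool.Agent.Work.MP_1a422c_an.Dense

/-!
# The basis of `L^3` of the product of fair coins indexed by a well-ordered set with countable
initial segments
-/

set_option linter.unusedSectionVars false

open Finset MeasureTheory
open scoped ENNReal

namespace MP_1a422c_an

section system

variable {I : Type*} [LinearOrder I] {Λ : Type*} [LinearOrder Λ] (ρ : I → I → Λ)

/-- Index set of the basis. -/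
def Idx : Type _ :=
  Option (Σ a : I, Option (Σ b : {b : I // b < a},
    ({z : I // z < a ∧ ρ z a < ρ b.1 a} → Bool)))

variable {ρ}

/-- The basis functions. -/
noncomputable def bf : Idx ρ → (I → Bool) → ℝ
  | none => fun _ => 1
  | some ⟨a, none⟩ => fun x => rad a x
  | some ⟨a, some ⟨b, t⟩⟩ => fun x =>
      rad a x * (rad b.1 x * (open Classical in if (∀ z, x z.1 = t z) then 1 else 0))

/-- The pair of coordinates of an index. -/
def key : Idx ρ → Option (I × Option I)
  | none => none
  | some ⟨a, none⟩ => some (a, none)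
  | some ⟨a, some ⟨b, _⟩⟩ => some (a, some b.1)

/-- Extension of a point of a finite subcube by `false`. -/
def ext0 {J : Finset I} (x : J → Bool) : I → Bool :=
  fun i => if h : i ∈ J then x ⟨i, h⟩ else false

/-- The index hit by `x` for the pair `(a, b)`. -/
def idx (a b : I) (h : b < a) (x : I → Bool) : Idx ρ :=
  some ⟨a, some ⟨⟨b, h⟩, fun z => x z.1⟩⟩

/-- Finite-cube functions attached to a coefficient family. -/
noncomputable def phi (J : Finset I) (c : Idx ρ → ℝ) (a b : J) (x : J → Bool) : ℝ :=
  if h : b.1 < a.1 then c (idx a.1 b.1 h (ext0 x)) else 0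

/-- The restriction of `ρ` to `J`. -/
def rhoJ (ρ : I → I → Λ) (J : Finset I) : J → J → Λ := fun a b => ρ a.1 b.1

lemma Subadd.restrict (h : Subadd ρ) (J : Finset I) : Subadd (rhoJ ρ J) where
  s1 a b c hab hbc := h.s1 a.1 b.1 c.1 hab hbc
  s2 a b c hab hbc := h.s2 a.1 b.1 c.1 hab hbc
  inj a a' c hac hac' he := Subtype.ext (h.inj a.1 a'.1 c.1 hac hac' he)

lemma dep_phi (J : Finset I) (c : Idx ρ → ℝ) (a b : J) :
    Dep (pre (rhoJ ρ J) a b) (phi J c a b) := by
  intro x y h
  unfold phi
  split_ifs with hba
  · congr 1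
    unfold idx
    have : (fun z : {z : I // z < a.1 ∧ ρ z a.1 < ρ b.1 a.1} => ext0 x z.1)
        = fun z => ext0 y z.1 := by
      ext z
      unfold ext0
      by_cases hz : z.1 ∈ J
      · simp only [hz, dif_pos]
        refine h ⟨z.1, hz⟩ ?_
        unfold pre
        simp only [Finset.mem_filter, Finset.mem_univ, true_and]
        exact ⟨z.2.1, z.2.2⟩
      · simp only [hz, dif_neg, not_false_iff]
    simp only [this]
  · rfl

/-- All the coordinates of the index `k` belong to `J`. -/
def Inside (J : Finset I) : Idx ρ → Prop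
  | none => True
  | some ⟨a, none⟩ => a ∈ J
  | some ⟨a, some ⟨b, _⟩⟩ => a ∈ J ∧ b.1 ∈ J ∧ ∀ z : I, z < a ∧ ρ z a < ρ b.1 a → z ∈ J

/-- The expansion of a finite sum as a finite-cube expansion. -/
lemma sum_eq_expn (J : Finset I) (d : Finset (Idx ρ)) (hd : ∀ k ∈ d, Inside J k)
    (c : Idx ρ → ℝ) (hc : ∀ k, k ∉ d → c k = 0) (x : I → Bool) :
    ∑ k ∈ d, c k * bf k x =
      expn (c none) (fun a : J => c (some ⟨a.1, none⟩)) (phi J c) (fun i : J => x i) := by
  classical
  set y : J → Bool := fun i : J => x i with hy
  -- the finite index type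
  let j : Option (Σ a : J, Option {b : J // b < a}) → Idx ρ := fun o =>
    match o with
    | none => none
    | some ⟨a, none⟩ => some ⟨a.1, none⟩
    | some ⟨a, some b⟩ => idx a.1 b.1.1 b.2 (ext0 y)
  let T : Option (Σ a : J, Option {b : J // b < a}) → ℝ := fun o => c (j o) *
    (match o with
    | none => 1
    | some ⟨a, none⟩ => rad a.1 x
    | some ⟨a, some b⟩ => rad a.1 x * rad b.1.1 x)
  have hR : expn (c none) (fun a : J => c (some ⟨a.1, none⟩)) (phi J c) y = ∑ o, T o := by
    rw [Fintype.sum_option, Fintype.sum_sigma]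
    unfold expn
    congr 1
    · simp [T, j]
    · refine Finset.sum_congr rfl fun a _ => ?_
      rw [Fintype.sum_option]
      unfold blk
      rw [mul_add, Finset.mul_sum]
      congr 1
      · simp only [T, j]
        rw [mul_comm]
        rfl
      · rw [Finset.sum_subtype (Finset.univ.filter (· < a)) (p := fun b => b < a) (by simp)]
        refine Finset.sum_congr rfl fun b _ => ?_
        have hba : b.1.1 < a.1 := b.2
        simp only [T, j, phi, hba, dif_pos]
        have h1 : rad a y = rad a.1 x := rfl
        have h2 : rad b.1 y = rad b.1.1 x := rfl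
        rw [h1, h2]; ring
  rw [hR]
  symm
  refine Finset.sum_bij_ne_zero (fun o _ _ => j o) ?_ ?_ ?_ ?_
  · intro o _ ho
    by_contra hk
    exact ho (by simp only [T]; rw [hc _ hk, zero_mul])
  · intro o1 _ _ o2 _ _ h
    have hkey : ∀ o, key (j o) = o.map fun q => (q.1.1, q.2.map fun b => b.1.1) := by
      intro o
      match o with
      | none => rfl
      | some ⟨a, none⟩ => rfl
      | some ⟨a, some b⟩ => rfl
    have h' := congrArg key h
    rw [hkey, hkey] at h'
    match o1, o2, h' with
    | none, none, _ => rfl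
    | none, some ⟨a, o'⟩, h' => simp at h'
    | some ⟨a, o'⟩, none, h' => simp at h'
    | some ⟨a, none⟩, some ⟨a', none⟩, h' =>
        simp only [Option.map_some, Option.some.injEq, Prod.mk.injEq] at h'
        have : a = a' := Subtype.ext h'.1
        subst this; rfl
    | some ⟨a, none⟩, some ⟨a', some b'⟩, h' => simp at h'
    | some ⟨a, some b⟩, some ⟨a', none⟩, h' => simp at h'
    | some ⟨a, some b⟩, some ⟨a', some b'⟩, h' =>
        simp only [Option.map_some, Option.some.injEq, Prod.mk.injEq] at h'
        have : a = a' := Subtype.ext h'.1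
        subst this
        have h4 : b = b' := Subtype.ext (Subtype.ext h'.2)
        rw [h4]
  · intro k hk hne
    have hin := hd k hk
    match k, hk, hne, hin with
    | none, hk, hne, hin =>
        exact ⟨none, Finset.mem_univ _, by simpa [T, j, bf] using hne, rfl⟩
    | some ⟨a, none⟩, hk, hne, hin =>
        exact ⟨some ⟨⟨a, hin⟩, none⟩, Finset.mem_univ _, by simpa [T, j, bf] using hne, rfl⟩
    | some ⟨a, some ⟨b, t⟩⟩, hk, hne, hin =>
        obtain ⟨ha, hb, hz⟩ := hin
        have hx : ∀ z, x z.1 = t z := by
          by_contra hx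
          exact hne (by simp only [bf, hx, if_false, mul_zero])
        have hext : (fun z : {z : I // z < a ∧ ρ z a < ρ b.1 a} => ext0 y z.1) = t := by
          ext z
          have hzJ := hz z.1 z.2
          simp only [ext0, hzJ, dif_pos, hy]
          exact hx z
        have hj : j (some ⟨⟨a, ha⟩, some ⟨⟨b.1, hb⟩, b.2⟩⟩) = some ⟨a, some ⟨b, t⟩⟩ := by
          simp only [j, idx]
          rw [hext]
        refine ⟨some ⟨⟨a, ha⟩, some ⟨⟨b.1, hb⟩, b.2⟩⟩, Finset.mem_univ _, ?_, hj⟩
        simp only [T]
        rw [hj]
        intro h0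
        apply hne
        simp only [bf, hx, implies_true, if_true, mul_one]
        exact h0
  · intro o ho hne
    match o, ho, hne with
    | none, _, _ => simp [T, j, bf]
    | some ⟨a, none⟩, _, _ => simp [T, j, bf]
    | some ⟨a, some b⟩, _, hne =>
        have hk : j (some ⟨a, some b⟩) ∈ d := by
          by_contra hk
          exact hne (by simp only [T]; rw [hc _ hk, zero_mul])
        have hin := hd _ hk
        simp only [j, idx, Inside] at hin
        have hx : ∀ z : {z : I // z < a.1 ∧ ρ z a.1 < ρ b.1.1 a.1}, x z.1 = ext0 y z.1 := by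
          intro z
          have hzJ := hin.2.2 z.1 z.2
          simp only [ext0, hzJ, dif_pos, hy]
        simp only [T, j, idx, bf]
        rw [if_pos hx]
        ring

end system

end MP_1a422c_an
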