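import Pool.Agent.Work.MP_1a422c_an.Transfer

/-!
# Unconditionality in `L^p`
-/

set_option linter.unusedSectionVars false

open Finset MeasureTheory
open scoped ENNReal

namespace MP_1a422c_an

/-- The finite inequality with exponent `q` and constant `C`. -/
def FinIneq.{u, v} (q C : ℝ) : Prop :=
  ∀ (ι : Type u) [Fintype ι] [LinearOrder ι] (Λ : Type v) [LinearOrder Λ] (ρ : ι → ι → Λ),
    Subadd ρ → ∀ (c0 c0' : ℝ) (c c' : ι → ℝ) (φ φ' : ι → ι → (ι → Bool) → ℝ),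
    (∀ a b, b < a → Dep (pre ρ a b) (φ a b)) → (∀ a b, b < a → Dep (pre ρ a b) (φ' a b)) →
    |c0'| ≤ |c0| → (∀ a, |c' a| ≤ |c a|) → (∀ a b x, b < a → |φ' a b x| ≤ |φ a b x|) →
    mean (fun x => |expn c0' c' φ' x| ^ q) ≤ C * mean (fun x => |expn c0 c φ x| ^ q)

section system

variable {I : Type*} [LinearOrder I] {Λ : Type*} [LinearOrder Λ] {ρ : I → I → Λ}

/-- All predecessor sets are finite. -/
def FinPre (ρ : I → I → Λ) : Prop := ∀ a c : I, a < c → {b | b < c ∧ ρ b c < ρ a c}.Finite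

lemma measurable_bf (hfin : FinPre ρ) (k : Idx ρ) : Measurable (bf k) := by
  classical
  match k with
  | none => exact measurable_const
  | some ⟨a, none⟩ => exact measurable_rad a
  | some ⟨a, some ⟨b, t⟩⟩ =>
      have hf : Finite {z : I // z < a ∧ ρ z a < ρ b.1 a} := (hfin b.1 a b.2).to_subtype
      have hm : MeasurableSet {x : I → Bool | ∀ z : {z : I // z < a ∧ ρ z a < ρ b.1 a},
          x z.1 = t z} := by
        rw [Set.ofPred_forall]
        refine MeasurableSet.iInter fun z => ?_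
        exact measurableSet_eq_fun (measurable_pi_apply z.1) measurable_const
      refine (measurable_rad a).mul ((measurable_rad b.1).mul ?_)
      exact Measurable.ite hm measurable_const measurable_const

lemma abs_bf_le (k : Idx ρ) (x : I → Bool) : |bf k x| ≤ 1 := by
  match k with
  | none => simp [bf]
  | some ⟨a, none⟩ => simp [bf, abs_rad]
  | some ⟨a, some ⟨b, t⟩⟩ =>
      simp only [bf, abs_mul, abs_rad, one_mul]
      split_ifs <;> simp

variable (𝕜 : Type*) [RCLike 𝕜]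

lemma memLp_bf (hfin : FinPre ρ) (k : Idx ρ) (p : ℝ≥0∞) :
    MemLp (fun x => ((bf k x : ℝ) : 𝕜)) p (mu I) := by
  refine MemLp.of_bound ?_ 1 (Filter.Eventually.of_forall fun x => ?_)
  · exact (RCLike.measurable_ofReal.comp (measurable_bf hfin k)).aestronglyMeasurable
  · rw [RCLike.norm_ofReal]; exact abs_bf_le k x

/-- The basis vectors. -/
noncomputable def bv (hfin : FinPre ρ) (p : ℝ≥0∞) (k : Idx ρ) : Lp 𝕜 p (mu I) :=
  (memLp_bf 𝕜 hfin k p).toLp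

lemma coeFn_sum_bv (hfin : FinPre ρ) (p : ℝ≥0∞) (d : Finset (Idx ρ)) (c : Idx ρ → 𝕜) :
    (⇑(∑ k ∈ d, c k • bv 𝕜 hfin p k) : (I → Bool) → 𝕜) =ᵐ[mu I]
      fun x => ∑ k ∈ d, c k * ((bf k x : ℝ) : 𝕜) := by
  classical
  induction d using Finset.induction_on with
  | empty =>
      simp only [Finset.sum_empty]
      exact Lp.coeFn_zero 𝕜 p (mu I)
  | insert k d hk ih =>
      rw [Finset.sum_insert hk]
      have h1 : (⇑(c k • bv 𝕜 hfin p k) : (I → Bool) → 𝕜) =ᵐ[mu I]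
          fun x => c k * ((bf k x : ℝ) : 𝕜) := by
        filter_upwards [Lp.coeFn_smul (c k) (bv 𝕜 hfin p k),
          (memLp_bf 𝕜 hfin k p).coeFn_toLp] with x hx1 hx2
        rw [hx1, Pi.smul_apply, smul_eq_mul]
        unfold bv
        rw [hx2]
      filter_upwards [Lp.coeFn_add (c k • bv 𝕜 hfin p k) (∑ k ∈ d, c k • bv 𝕜 hfin p k), h1, ih]
        with x hx1 hx2 hx3
      rw [hx1, Pi.add_apply, hx2, hx3, Finset.sum_insert hk]

variable {p : ℝ≥0∞}

lemma norm_rpow (hp0 : p ≠ 0) (hp : p ≠ ⊤) (g : Lp 𝕜 p (mu I)) :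
    ‖g‖ ^ p.toReal = ∫ x, ‖g x‖ ^ p.toReal ∂(mu I) := by
  rw [Lp.norm_def, MemLp.eLpNorm_eq_integral_rpow_norm hp0 hp (Lp.memLp g)]
  have h0 : 0 ≤ ∫ x, ‖g x‖ ^ p.toReal ∂(mu I) :=
    integral_nonneg fun x => Real.rpow_nonneg (norm_nonneg _) _
  have hq : p.toReal ≠ 0 := (ENNReal.toReal_pos hp0 hp).ne'
  rw [ENNReal.toReal_ofReal (Real.rpow_nonneg h0 _), ← Real.rpow_mul h0, inv_mul_cancel₀ hq,
    Real.rpow_one]

lemma norm_rpow_sum (hp0 : p ≠ 0) (hp : p ≠ ⊤) (hfin : FinPre ρ) (d : Finset (Idx ρ))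
    (c : Idx ρ → 𝕜) :
    ‖∑ k ∈ d, c k • bv 𝕜 hfin p k‖ ^ p.toReal =
      ∫ x, ‖∑ k ∈ d, c k * ((bf k x : ℝ) : 𝕜)‖ ^ p.toReal ∂(mu I) := by
  rw [norm_rpow 𝕜 hp0 hp]
  refine integral_congr_ae ?_
  filter_upwards [coeFn_sum_bv 𝕜 hfin p d c] with x hx
  rw [hx]

/-- Coordinates of a finite set of indices. -/
lemma exists_inside (hfin : FinPre ρ) (d : Finset (Idx ρ)) :
    ∃ J : Finset I, ∀ k ∈ d, Inside J k := by
  classical
  have h1 : ∀ k : Idx ρ, ∃ J : Finset I, Inside J k := by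
    intro k
    match k with
    | none => exact ⟨∅, trivial⟩
    | some ⟨a, none⟩ => exact ⟨{a}, by simp [Inside]⟩
    | some ⟨a, some ⟨b, t⟩⟩ =>
        refine ⟨insert a (insert b.1 (hfin b.1 a b.2).toFinset), ?_, ?_, ?_⟩
        · simp
        · simp
        · intro z hz
          simp only [Finset.mem_insert, Set.Finite.mem_toFinset, Set.mem_ofPred_eq]
          exact Or.inr (Or.inr hz)
  have mono : ∀ (J J' : Finset I) (k : Idx ρ), J ⊆ J' → Inside J k → Inside J' k := by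
    intro J J' k hJ h
    match k, h with
    | none, _ => trivial
    | some ⟨a, none⟩, h => exact hJ h
    | some ⟨a, some ⟨b, t⟩⟩, h => exact ⟨hJ h.1, hJ h.2.1, fun z hz => hJ (h.2.2 z hz)⟩
  choose J hJ using h1
  exact ⟨d.biUnion J, fun k hk => mono _ _ k (Finset.subset_biUnion_of_mem J hk) (hJ k)⟩

/-- The integral of the `q`-th power of a real finite sum. -/
lemma integral_rpow_eq (q : ℝ) (J : Finset I) (d : Finset (Idx ρ)) (hd : ∀ k ∈ d, Inside J k)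
    (c : Idx ρ → ℝ) (hc : ∀ k, k ∉ d → c k = 0) :
    ∫ x, |∑ k ∈ d, c k * bf k x| ^ q ∂(mu I) =
      mean fun y : J → Bool => |expn (c none) (fun a : J => c (some ⟨a.1, none⟩)) (phi J c) y| ^ q := by
  rw [← integral_cyl J]
  refine integral_congr_ae (Filter.Eventually.of_forall fun x => ?_)
  simp only
  rw [sum_eq_expn J d hd c hc x]

end system

section ineq

universe u v

variable {I : Type u} [LinearOrder I] {Λ : Type v} [LinearOrder Λ] {ρ : I → I → Λ}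

/-- Real version of the unconditional inequality. -/
lemma real_uncond {q C : ℝ} (hq : FinIneq.{u, v} q C) (hfin : FinPre ρ) (hρ : Subadd ρ)
    (d : Finset (Idx ρ)) (c c' : Idx ρ → ℝ)
    (hcc : ∀ k ∈ d, |c' k| ≤ |c k|) :
    ∫ x, |∑ k ∈ d, c' k * bf k x| ^ q ∂(mu I) ≤
      C * ∫ x, |∑ k ∈ d, c k * bf k x| ^ q ∂(mu I) := by
  classical
  obtain ⟨J, hJ⟩ := exists_inside hfin d
  set e : Idx ρ → ℝ := fun k => if k ∈ d then c k else 0 with he
  set e' : Idx ρ → ℝ := fun k => if k ∈ d then c' k else 0 with he'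
  have h1 : ∀ x, ∑ k ∈ d, c k * bf k x = ∑ k ∈ d, e k * bf k x := fun x =>
    Finset.sum_congr rfl fun k hk => by simp [he, hk]
  have h2 : ∀ x, ∑ k ∈ d, c' k * bf k x = ∑ k ∈ d, e' k * bf k x := fun x =>
    Finset.sum_congr rfl fun k hk => by simp [he', hk]
  have hee : ∀ k, |e' k| ≤ |e k| := by
    intro k
    by_cases hk : k ∈ d
    · simp [he, he', hk, hcc k hk]
    · simp [he, he', hk]
  simp only [h1, h2]
  rw [integral_rpow_eq q J d hJ e (fun k hk => by simp [he, hk]),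
    integral_rpow_eq q J d hJ e' (fun k hk => by simp [he', hk])]
  refine hq J Λ (rhoJ ρ J) (hρ.restrict J) _ _ _ _ _ _ (fun a b _ => dep_phi J e a b)
    (fun a b _ => dep_phi J e' a b) (hee _) (fun a => hee _) ?_
  intro a b x hba
  unfold phi
  have : b.1 < a.1 := hba
  simp only [this, dif_pos]
  exact hee _

lemma rpow_add_le {q : ℝ} (hq : 0 ≤ q) {a b : ℝ} (ha : 0 ≤ a) (hb : 0 ≤ b) :
    (a + b) ^ q ≤ 2 ^ q * (a ^ q + b ^ q) := by
  have h1 : (a + b) ≤ 2 * max a b := by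
    have := le_max_left a b
    have := le_max_right a b
    linarith
  calc (a + b) ^ q ≤ (2 * max a b) ^ q := Real.rpow_le_rpow (by positivity) h1 hq
    _ = 2 ^ q * max a b ^ q := Real.mul_rpow (by norm_num) (le_max_of_le_left ha)
    _ ≤ 2 ^ q * (a ^ q + b ^ q) := by
        refine mul_le_mul_of_nonneg_left ?_ (by positivity)
        have ha' : 0 ≤ a ^ q := Real.rpow_nonneg ha q
        have hb' : 0 ≤ b ^ q := Real.rpow_nonneg hb q
        rcases le_total a b with h | h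
        · rw [max_eq_right h]; linarith
        · rw [max_eq_left h]; linarith

/-- Integrability of the power of a finite sum. -/
lemma integrable_rpow {q : ℝ} (hq : 0 ≤ q) (hfin : FinPre ρ) (d : Finset (Idx ρ))
    (c : Idx ρ → ℝ) :
    Integrable (fun x => |∑ k ∈ d, c k * bf k x| ^ q) (mu I) := by
  refine Integrable.of_bound (C := (∑ k ∈ d, |c k|) ^ q) ?_
    (Filter.Eventually.of_forall fun x => ?_)
  · refine Measurable.aestronglyMeasurable ?_
    have h : Measurable fun x => ∑ k ∈ d, c k * bf k x :=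
      Finset.measurable_sum d fun k _ => (measurable_bf hfin k).const_mul (c k)
    have h' : Measurable fun x => |∑ k ∈ d, c k * bf k x| := by
      simpa [Real.norm_eq_abs] using h.norm
    exact h'.pow_const q
  · rw [Real.norm_eq_abs, abs_of_nonneg (Real.rpow_nonneg (abs_nonneg _) _)]
    refine Real.rpow_le_rpow (abs_nonneg _) ?_ hq
    refine (Finset.abs_sum_le_sum_abs _ _).trans (Finset.sum_le_sum fun k _ => ?_)
    rw [abs_mul]
    exact mul_le_of_le_one_right (abs_nonneg _) (abs_bf_le k x)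

variable (𝕜 : Type*) [RCLike 𝕜]

lemma integrable_rpow' {q : ℝ} (hq : 0 ≤ q) (hfin : FinPre ρ) (d : Finset (Idx ρ))
    (c : Idx ρ → 𝕜) :
    Integrable (fun x => ‖∑ k ∈ d, c k * ((bf k x : ℝ) : 𝕜)‖ ^ q) (mu I) := by
  refine Integrable.of_bound (C := (∑ k ∈ d, ‖c k‖) ^ q) ?_
    (Filter.Eventually.of_forall fun x => ?_)
  · refine Measurable.aestronglyMeasurable ?_
    have h : Measurable fun x => ∑ k ∈ d, c k * ((bf k x : ℝ) : 𝕜) :=
      Finset.measurable_sum d fun k _ =>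
        (RCLike.measurable_ofReal.comp (measurable_bf hfin k)).const_mul (c k)
    exact h.norm.pow_const q
  · rw [Real.norm_eq_abs, abs_of_nonneg (Real.rpow_nonneg (norm_nonneg _) _)]
    refine Real.rpow_le_rpow (norm_nonneg _) ?_ hq
    refine (norm_sum_le _ _).trans (Finset.sum_le_sum fun k _ => ?_)
    rw [norm_mul, RCLike.norm_ofReal]
    exact mul_le_of_le_one_right (norm_nonneg _) (abs_bf_le k x)

/-- The unconditional inequality for scalars in `𝕜`. -/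
lemma uncond_rpow {q C : ℝ} (hq0 : 0 ≤ q) (hC0 : 0 ≤ C) (hq : FinIneq.{u, v} q C)
    (hfin : FinPre ρ) (hρ : Subadd ρ) (d : Finset (Idx ρ)) (c ε : Idx ρ → 𝕜)
    (hε : ∀ k, ε k = 1 ∨ ε k = -1) :
    ∫ x, ‖∑ k ∈ d, (ε k * c k) * ((bf k x : ℝ) : 𝕜)‖ ^ q ∂(mu I) ≤
      (2 ^ q * (2 * C)) * ∫ x, ‖∑ k ∈ d, c k * ((bf k x : ℝ) : 𝕜)‖ ^ q ∂(mu I) := by
  have hre : ∀ (e : Idx ρ → 𝕜) x, RCLike.re (∑ k ∈ d, e k * ((bf k x : ℝ) : 𝕜))
      = ∑ k ∈ d, RCLike.re (e k) * bf k x := by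
    intro e x
    rw [map_sum]
    refine Finset.sum_congr rfl fun k _ => ?_
    rw [mul_comm, RCLike.re_ofReal_mul, mul_comm]
  have him : ∀ (e : Idx ρ → 𝕜) x, RCLike.im (∑ k ∈ d, e k * ((bf k x : ℝ) : 𝕜))
      = ∑ k ∈ d, RCLike.im (e k) * bf k x := by
    intro e x
    rw [map_sum]
    refine Finset.sum_congr rfl fun k _ => ?_
    rw [mul_comm, RCLike.im_ofReal_mul, mul_comm]
  have hup : ∫ x, ‖∑ k ∈ d, (ε k * c k) * ((bf k x : ℝ) : 𝕜)‖ ^ q ∂(mu I) ≤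
      2 ^ q * (∫ x, |∑ k ∈ d, RCLike.re (ε k * c k) * bf k x| ^ q ∂(mu I) +
        ∫ x, |∑ k ∈ d, RCLike.im (ε k * c k) * bf k x| ^ q ∂(mu I)) := by
    rw [← integral_add (integrable_rpow hq0 hfin d _) (integrable_rpow hq0 hfin d _),
      ← integral_const_mul]
    refine integral_mono (integrable_rpow' 𝕜 hq0 hfin d _)
      (((integrable_rpow hq0 hfin d _).add (integrable_rpow hq0 hfin d _)).const_mul _)
      fun x => ?_
    simp only
    set z := ∑ k ∈ d, (ε k * c k) * ((bf k x : ℝ) : 𝕜) with hz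
    rw [← hre, ← him, ← hz]
    have hz3 : ‖z‖ ≤ |RCLike.re z| + |RCLike.im z| := by
      refine abs_le_of_sq_le_sq' ?_ (by positivity) |>.2
      rw [RCLike.norm_sq_eq_def]
      nlinarith [mul_nonneg (abs_nonneg (RCLike.re z)) (abs_nonneg (RCLike.im z)),
        sq_abs (RCLike.re z), sq_abs (RCLike.im z)]
    calc ‖z‖ ^ q ≤ (|RCLike.re z| + |RCLike.im z|) ^ q :=
          Real.rpow_le_rpow (norm_nonneg _) hz3 hq0
      _ ≤ _ := rpow_add_le hq0 (abs_nonneg _) (abs_nonneg _)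
  have hR : ∫ x, |∑ k ∈ d, RCLike.re (ε k * c k) * bf k x| ^ q ∂(mu I) ≤
      C * ∫ x, |∑ k ∈ d, RCLike.re (c k) * bf k x| ^ q ∂(mu I) := by
    refine real_uncond hq hfin hρ d _ _ fun k _ => ?_
    rcases hε k with h | h <;> simp [h]
  have hI : ∫ x, |∑ k ∈ d, RCLike.im (ε k * c k) * bf k x| ^ q ∂(mu I) ≤
      C * ∫ x, |∑ k ∈ d, RCLike.im (c k) * bf k x| ^ q ∂(mu I) := by
    refine real_uncond hq hfin hρ d _ _ fun k _ => ?_
    rcases hε k with h | h <;> simp [h]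
  have hlowR : ∫ x, |∑ k ∈ d, RCLike.re (c k) * bf k x| ^ q ∂(mu I) ≤
      ∫ x, ‖∑ k ∈ d, c k * ((bf k x : ℝ) : 𝕜)‖ ^ q ∂(mu I) := by
    refine integral_mono (integrable_rpow hq0 hfin d _) (integrable_rpow' 𝕜 hq0 hfin d _)
      fun x => ?_
    simp only
    rw [← hre]
    exact Real.rpow_le_rpow (abs_nonneg _) (RCLike.abs_re_le_norm _) hq0
  have hlowI : ∫ x, |∑ k ∈ d, RCLike.im (c k) * bf k x| ^ q ∂(mu I) ≤
      ∫ x, ‖∑ k ∈ d, c k * ((bf k x : ℝ) : 𝕜)‖ ^ q ∂(mu I) := by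
    refine integral_mono (integrable_rpow hq0 hfin d _) (integrable_rpow' 𝕜 hq0 hfin d _)
      fun x => ?_
    simp only
    rw [← him]
    exact Real.rpow_le_rpow (abs_nonneg _) (RCLike.abs_im_le_norm _) hq0
  have hR' := hR.trans (mul_le_mul_of_nonneg_left hlowR hC0)
  have hI' := hI.trans (mul_le_mul_of_nonneg_left hlowI hC0)
  have h2 : (0:ℝ) ≤ 2 ^ q := Real.rpow_nonneg (by norm_num) q
  refine hup.trans ?_
  calc 2 ^ q * (∫ x, |∑ k ∈ d, RCLike.re (ε k * c k) * bf k x| ^ q ∂(mu I) +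
        ∫ x, |∑ k ∈ d, RCLike.im (ε k * c k) * bf k x| ^ q ∂(mu I))
      ≤ 2 ^ q * (C * ∫ x, ‖∑ k ∈ d, c k * ((bf k x : ℝ) : 𝕜)‖ ^ q ∂(mu I) +
        C * ∫ x, ‖∑ k ∈ d, c k * ((bf k x : ℝ) : 𝕜)‖ ^ q ∂(mu I)) :=
        mul_le_mul_of_nonneg_left (add_le_add hR' hI') h2
    _ = (2 ^ q * (2 * C)) * ∫ x, ‖∑ k ∈ d, c k * ((bf k x : ℝ) : 𝕜)‖ ^ q ∂(mu I) := by ring

/-- The unconditional inequality in `Lp`. -/
theorem uncond_Lp {p : ℝ≥0∞} [Fact (1 ≤ p)] (hp : p ≠ ⊤) {C : ℝ} (hC0 : 0 ≤ C)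
    (hq : FinIneq.{u, v} p.toReal C)
    (hfin : FinPre ρ) (hρ : Subadd ρ) (d : Finset (Idx ρ)) (c ε : Idx ρ → 𝕜)
    (hε : ∀ k, ε k = 1 ∨ ε k = -1) :
    ‖∑ k ∈ d, ε k • c k • bv 𝕜 hfin p k‖ ≤
      (2 ^ p.toReal * (2 * C)) ^ (p.toReal)⁻¹ * ‖∑ k ∈ d, c k • bv 𝕜 hfin p k‖ := by
  have hp1 : (1 : ℝ≥0∞) ≤ p := Fact.out
  have hp0 : p ≠ 0 := by
    intro h; rw [h] at hp1; simp at hp1
  have hq0 : 0 < p.toReal := ENNReal.toReal_pos hp0 hp
  have h3 : ∑ k ∈ d, ε k • c k • bv 𝕜 hfin p k = ∑ k ∈ d, (ε k * c k) • bv 𝕜 hfin p k :=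
    Finset.sum_congr rfl fun k _ => by rw [smul_smul]
  rw [h3]
  have h4 := uncond_rpow 𝕜 hq0.le hC0 hq hfin hρ d c ε hε
  rw [← norm_rpow_sum 𝕜 hp0 hp hfin d c, ← norm_rpow_sum 𝕜 hp0 hp hfin d (fun k => ε k * c k)]
    at h4
  set D : ℝ := 2 ^ p.toReal * (2 * C) with hD
  have hD0 : 0 ≤ D := by
    have : (0:ℝ) ≤ 2 ^ p.toReal := Real.rpow_nonneg (by norm_num) _
    positivity
  have hy := norm_nonneg (∑ k ∈ d, c k • bv 𝕜 hfin p k)
  have hD' : 0 ≤ D ^ (p.toReal)⁻¹ := Real.rpow_nonneg hD0 _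
  rw [← Real.rpow_le_rpow_iff (norm_nonneg _) (mul_nonneg hD' hy) hq0,
    Real.mul_rpow hD' hy, ← Real.rpow_mul hD0, inv_mul_cancel₀ hq0.ne', Real.rpow_one]
  exact h4

end ineq

end MP_1a422c_an
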